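import Pool.Agent.Lib.TCW.D2

/-!
# Counting sets of stages
-/

set_option autoImplicit false

namespace Pool.Agent.Lib.TCW

open Finset Classical
open Pool.Agent.Lib.TCH

lemma choose_frac {Q a r : ℕ} {θ : ℝ} (hθ : 0 ≤ θ) (h : θ * Q + r ≤ a + 1) :
    θ ^ r * (Q.choose r : ℝ) ≤ a.choose r := by
  rcases Nat.eq_zero_or_pos Q with rfl | hQ
  · rcases Nat.eq_zero_or_pos r with rfl | hr
    · simp
    · rw [Nat.choose_eq_zero_of_lt hr]
      simp
  have hQ' : (0 : ℝ) < Q := Nat.cast_pos.2 hQ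
  have hr1 : r ≤ a + 1 := by
    have h1 : (r : ℝ) ≤ a + 1 := by
      have : 0 ≤ θ * Q := by positivity
      linarith
    exact_mod_cast h1
  have h1 : (a + 1 - r) ^ r ≤ a.descFactorial r := Nat.pow_sub_le_descFactorial a r
  rw [Nat.descFactorial_eq_factorial_mul_choose] at h1
  have h2 : Q.descFactorial r ≤ Q ^ r := Nat.descFactorial_le_pow Q r
  rw [Nat.descFactorial_eq_factorial_mul_choose] at h2
  have h3 : ((a + 1 - r : ℕ) : ℝ) ^ r ≤ (r.factorial : ℝ) * a.choose r := by exact_mod_cast h1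
  have h4 : (r.factorial : ℝ) * Q.choose r ≤ (Q : ℝ) ^ r := by exact_mod_cast h2
  have h5 : θ * Q ≤ ((a + 1 - r : ℕ) : ℝ) := by
    rw [Nat.cast_sub hr1]
    push_cast
    linarith
  have h6 : (θ * Q) ^ r ≤ ((a + 1 - r : ℕ) : ℝ) ^ r := pow_le_pow_left₀ (by positivity) h5 r
  have hf : (0 : ℝ) < r.factorial := by exact_mod_cast r.factorial_pos
  have h7 : (r.factorial : ℝ) * (θ ^ r * Q.choose r) ≤ r.factorial * a.choose r := by
    calc (r.factorial : ℝ) * (θ ^ r * Q.choose r) = θ ^ r * (r.factorial * Q.choose r) := by ring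
      _ ≤ θ ^ r * (Q : ℝ) ^ r := mul_le_mul_of_nonneg_left h4 (by positivity)
      _ = (θ * Q) ^ r := (mul_pow _ _ _).symm
      _ ≤ _ := h6.trans h3
  exact le_of_mul_le_mul_left h7 hf

/-- If every set of `r` stages is contained in at most `N` of the sets `A i`, and the sets `A i`
are large, then there are few of them. -/
lemma few {ι : Type} (T : Finset ι) {Q r N : ℕ} (A : ι → Finset ℕ) {θ : ℝ} (hθ0 : 0 ≤ θ)
    (hA : ∀ i ∈ T, A i ⊆ range Q) (hθ : ∀ i ∈ T, θ * Q + r ≤ (A i).card + 1) (hr : r ≤ Q)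
    (hN : ∀ I ⊆ range Q, I.card = r → (T.filter fun i => I ⊆ A i).card ≤ N) :
    (T.card : ℝ) * θ ^ r ≤ N := by
  have h1 : ∑ i ∈ T, ((A i).card.choose r) ≤ N * Q.choose r := by
    have h2 : ∀ i ∈ T, (A i).card.choose r =
        ∑ I ∈ (range Q).powersetCard r, if I ⊆ A i then 1 else 0 := by
      intro i hi
      rw [← Finset.card_powersetCard, Finset.card_eq_sum_ones, ← Finset.sum_filter]
      refine Finset.sum_congr ?_ fun _ _ => rfl
      ext I
      rw [Finset.mem_filter, Finset.mem_powersetCard, Finset.mem_powersetCard]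
      constructor
      · rintro ⟨h3, h4⟩
        exact ⟨⟨h3.trans (hA i hi), h4⟩, h3⟩
      · rintro ⟨⟨-, h4⟩, h3⟩
        exact ⟨h3, h4⟩
    rw [Finset.sum_congr rfl h2, Finset.sum_comm]
    have h3 : ∀ I ∈ (range Q).powersetCard r, (∑ i ∈ T, if I ⊆ A i then 1 else 0) ≤ N := by
      intro I hI
      obtain ⟨h4, h5⟩ := Finset.mem_powersetCard.1 hI
      rw [← Finset.sum_filter, ← Finset.card_eq_sum_ones]
      exact hN I h4 h5
    refine (Finset.sum_le_sum h3).trans (le_of_eq ?_)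
    rw [Finset.sum_const, smul_eq_mul, Finset.card_powersetCard, Finset.card_range, mul_comm]
  have h2 : (T.card : ℝ) * (θ ^ r * (Q.choose r : ℝ)) ≤ ∑ i ∈ T, ((A i).card.choose r : ℝ) := by
    rw [← nsmul_eq_mul]
    exact Finset.card_nsmul_le_sum _ _ _ fun i hi => choose_frac hθ0 (hθ i hi)
  have h3 : ∑ i ∈ T, ((A i).card.choose r : ℝ) ≤ N * (Q.choose r : ℝ) := by exact_mod_cast h1
  have h4 : (0 : ℝ) < Q.choose r := by exact_mod_cast Nat.choose_pos hr
  have h5 : (T.card : ℝ) * θ ^ r * (Q.choose r : ℝ) ≤ N * (Q.choose r : ℝ) := by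
    rw [mul_assoc]
    exact h2.trans h3
  exact le_of_mul_le_mul_right h5 h4

end Pool.Agent.Lib.TCW
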