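import Pool.Agent.Lib.TCW.Bas
import Pool.Agent.Lib.TCW.Cnt

/-!
# Towers of coherent levels: a vertex sees its hubs at few distances only
-/

set_option autoImplicit false

namespace Pool.Agent.Lib.TCW

open Finset Classical
open Pool.Agent.Lib.TCH

/-- The near stages at which the hubs of `o` are neighbours of `q` with probability at least
`θ`. -/
noncomputable def nA {V : Type} (G : SimpleGraph V) (D : Lv V) (θ : ℝ) (o q : V) : Finset ℕ :=
  (range D.q).filter fun s => D.near s o q ∧ θ ≤ ms (D.p s o) {y | G.Adj y q}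

lemma av_nA {V : Type} {G : SimpleGraph V} {m : ℕ} {C : V → V → Prop} {R : ℕ} {W : Set V}
    {D : Lv V} (h : OK G m C R W D) {θ : ℝ} (hθ : 0 ≤ θ) {x q : V} (hx : x ∈ D.dom)
    (hq : q ∈ D.dom) : (D.q : ℝ) * ms (av D x) {y | G.Adj y q} ≤
      ((nA G D θ x q).card : ℝ) + θ * D.q + m := by
  have hq0 := h.q0'
  rw [ms_av, mul_inv_cancel_left₀ hq0.ne']
  have h1 : ∑ s ∈ range D.q, ms (D.p s x) {z | G.Adj z q} ≤
      ∑ s ∈ range D.q, ((if D.near s x q ∧ θ ≤ ms (D.p s x) {y | G.Adj y q} then (1 : ℝ) else 0) +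
        θ + (if ¬ D.near s x q then 1 else 0)) := by
    refine Finset.sum_le_sum fun s hs => ?_
    have hs1 := h.ms_one (Finset.mem_range.1 hs) hx {y | G.Adj y q}
    by_cases hn : D.near s x q
    · by_cases hl : θ ≤ ms (D.p s x) {y | G.Adj y q}
      · rw [if_pos ⟨hn, hl⟩, if_neg (not_not.2 hn)]
        linarith
      · rw [if_neg (fun h => hl h.2), if_neg (not_not.2 hn)]
        push Not at hl
        linarith
    · rw [if_neg (fun h => hn h.1), if_pos hn]
      linarith
  rw [Finset.sum_add_distrib, Finset.sum_add_distrib, Finset.sum_boole, Finset.sum_boole,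
    Finset.sum_const, Finset.card_range, nsmul_eq_mul] at h1
  have h2 : ((((range D.q).filter fun s => ¬ D.near s x q).card : ℕ) : ℝ) ≤ m := by
    exact_mod_cast h.conf x hx q hq
  have h3 : (((range D.q).filter fun s => D.near s x q ∧
      θ ≤ ms (D.p s x) {y | G.Adj y q}).card : ℝ) = ((nA G D θ x q).card : ℝ) := rfl
  rw [h3] at h1
  linarith

/-- Few owners with different laws see `q` at the stages in `I`. -/
lemma few_owners {V : Type} {G : SimpleGraph V} {m : ℕ} {C : V → V → Prop} {R : ℕ} {W : Set V}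
    {D : Lv V} (h : OK G m C R W D) (hR2 : 2 ≤ R) {θ : ℝ} (hθ : 1 ≤ (R : ℝ) * θ) {ι : Type}
    (T : Finset ι) (o : ι → V) (ho : ∀ i ∈ T, o i ∈ D.dom) {q : V} (hq : q ∈ D.dom)
    (hd : ∀ s < D.q, ∀ i ∈ T, ∀ j ∈ T, D.p s (o i) = D.p s (o j) → i = j)
    (hT : ∀ i ∈ T, θ * D.q ≤ (nA G D θ (o i) q).card) (hbig : 2 * (1 + 2 * (m : ℝ)) ≤ θ * D.q) :
    (T.card : ℝ) * (θ / 2) ^ (1 + 2 * m) ≤ D.N := by
  have hR0 : (0 : ℝ) < R := by exact_mod_cast (by omega : 0 < R)
  have hθ0 : 0 < θ := by
    by_contra hc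
    push Not at hc
    have : (R : ℝ) * θ ≤ 0 := mul_nonpos_of_nonneg_of_nonpos hR0.le hc
    linarith
  have hq0 := h.q0'
  have hone : ∀ i ∈ T, θ ≤ 1 := by
    intro i hi
    have h1 : ((nA G D θ (o i) q).card : ℝ) ≤ D.q := by
      have h2 : (nA G D θ (o i) q).card ≤ D.q := by
        refine (Finset.card_le_card (Finset.filter_subset _ _)).trans ?_
        rw [Finset.card_range]
      exact_mod_cast h2
    have h2 := (hT i hi).trans h1
    by_contra hc
    push Not at hc
    nlinarith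
  rcases T.eq_empty_or_nonempty with h0 | ⟨i0, hi0⟩
  · rw [h0, Finset.card_empty]
    push_cast
    rw [zero_mul]
    exact Nat.cast_nonneg _
  have hθ1 := hone i0 hi0
  refine few T (fun i => nA G D θ (o i) q) (θ := θ / 2) (Q := D.q) (by linarith)
    (fun i _ => Finset.filter_subset _ _) (fun i hi => ?_) ?_ ?_
  · have h1 := hT i hi
    push_cast
    nlinarith
  · have h1 : 2 * (1 + 2 * (m : ℝ)) ≤ D.q := by nlinarith
    have h2 : (1 + 2 * (m : ℝ)) ≤ D.q := by
      have : (0 : ℝ) ≤ m := Nat.cast_nonneg _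
      linarith
    exact_mod_cast h2
  · intro I hI hIc
    by_contra hcon
    push Not at hcon
    set T' := T.filter fun i => I ⊆ nA G D θ (o i) q with hT'
    have hT'm : ∀ i ∈ T', i ∈ T ∧ I ⊆ nA G D θ (o i) q := fun i hi => Finset.mem_filter.1 hi
    have hinj : Set.InjOn o (T' : Set ι) := by
      intro i hi j hj hij
      refine hd 0 h.q0 i (hT'm i hi).1 j (hT'm j hj).1 ?_
      rw [hij]
    obtain ⟨X', h1, h2, J, h3, h4, h5⟩ := h.wb 1 h.R1 q hq I hI (by omega) (T'.image o) (by
      rw [Finset.card_image_of_injOn hinj]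
      exact hcon.le) (by
      intro x hx
      obtain ⟨i, hi, rfl⟩ := Finset.mem_image.1 hx
      refine ⟨ho i (hT'm i hi).1, fun s hs => ?_⟩
      obtain ⟨-, h6, h7⟩ := Finset.mem_filter.1 ((hT'm i hi).2 hs)
      exact ⟨h6, hθ.trans (mul_le_mul_of_nonneg_left h7 hR0.le)⟩)
    obtain ⟨z, hz, z', hz', hne⟩ := Finset.one_lt_card.1 (by rw [h2]; omega : 1 < X'.card)
    obtain ⟨s, hs⟩ : J.Nonempty := by
      rw [← Finset.card_pos, h4]
      exact Nat.one_pos
    have hsq : s < D.q := Finset.mem_range.1 (hI (h3 hs))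
    have h6 := h5 z hz z' hz' s hs
    obtain ⟨i, hi, rfl⟩ := Finset.mem_image.1 (h1 hz)
    obtain ⟨j, hj, rfl⟩ := Finset.mem_image.1 (h1 hz')
    exact hne (by rw [hd s hsq i (hT'm i hi).1 j (hT'm j hj).1 h6])

/-- **Module `Bu`.** -/
theorem stBu : StSh → StBu := by
  intro hSh V G m b D W hT hD hb N x hx F hF th hth hbig hU
  have hok := hT.ok b
  have hq : (0 : ℝ) < (D b).q := hok.q0'
  have hxW : ∀ j ∈ F, x ∈ W (b + j + 1) := fun j hj =>
    hT.anti (by have := Finset.mem_range.1 (hF hj); omega) hx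
  have hown : ∀ j ∈ F, own D j b x ∈ (D b).dom := fun j hj =>
    hT.sub b ((hSh V G m D W hT).1 b j x (hxW j hj))
  have hxd : x ∈ (D b).dom := hT.sub b (hT.anti (by omega) hx)
  have hset : {y | G.Adj x y} = {y | G.Adj y x} := by
    ext y
    exact G.adj_comm x y
  have hqR : ((b : ℝ) + 1) ≤ (D b).q := by exact_mod_cast hok.qR
  have h8 : 8 * (1 + 2 * (m : ℝ)) ≤ th * (D b).q :=
    hbig.trans (mul_le_mul_of_nonneg_left hqR hth.le)
  have hm0 : (0 : ℝ) ≤ m := Nat.cast_nonneg _
  have key := few_owners hok (by omega) (θ := th / 4) (by push_cast; linarith) F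
    (fun j => own D j b x) hown hxd (by
      intro s hs i hi j hj hij
      rcases lt_trichotomy i j with h | h | h
      · exact absurd hij (hD s hs i j h x (hxW j hj))
      · exact h
      · exact absurd hij.symm (hD s hs j i h x (hxW i hi))) (by
      intro j hj
      have h1 := av_nA hok (θ := th / 4) (by linarith) (hown j hj) hxd
      have h2 := hU j hj
      unfold U at h2
      rw [hset] at h2
      have h3 : (D b).q * th ≤ (D b).q * ms (av (D b) (own D j b x)) {y | G.Adj y x} :=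
        mul_le_mul_of_nonneg_left h2 hq.le
      linarith) (by linarith)
  have h9 : th / 4 / 2 = th / 8 := by ring
  rw [h9] at key
  exact key

end Pool.Agent.Lib.TCW
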