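import Pool.Agent.Lib.TCW.Bu

/-!
# Module `Ct`: for a given label there are few successors with bad vertices
-/

set_option autoImplicit false

namespace Pool.Agent.Lib.TCW

open Finset Classical
open Pool.Agent.Lib.TCH

namespace Ct_

theorem ms_union {V : Type} {p : V →₀ ℝ} (h : ∀ y, 0 ≤ p y) {S S1 S2 : Set V}
    (hS : ∀ y ∈ S, y ∈ S1 ∨ y ∈ S2) : ms p S ≤ ms p S1 + ms p S2 := by
  unfold ms
  rw [Finset.sum_filter, Finset.sum_filter, Finset.sum_filter, ← Finset.sum_add_distrib]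
  refine Finset.sum_le_sum fun y _ => ?_
  have h0 := h y
  by_cases h1 : y ∈ S
  · rcases hS y h1 with h2 | h2
    · rw [if_pos h1, if_pos h2]
      split_ifs <;> linarith
    · rw [if_pos h1, if_pos h2]
      split_ifs <;> linarith
  · rw [if_neg h1]
    split_ifs <;> linarith

theorem ms_single {V : Type} {p : V →₀ ℝ} (h : ∀ y, 0 ≤ p y) (q : V) : ms p {q} ≤ p q := by
  unfold ms
  refine (Finset.sum_le_sum_of_subset_of_nonneg (t := {q}) ?_ fun y _ _ => h y).trans_eq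
    (Finset.sum_singleton _ _)
  intro y hy
  rw [Finset.mem_singleton]
  exact (Finset.mem_filter.1 hy).2

theorem ms_or {V : Type} {p : V →₀ ℝ} (h : ∀ y, 0 ≤ p y) (q : V) (P : V → Prop) :
    ms p {X | X = q ∨ P X} ≤ p q + ms p {X | P X} :=
  (ms_union h (S1 := {q}) (S2 := {X | P X}) fun _ hy => hy).trans
    (add_le_add (ms_single h q) le_rfl)

section Lev

variable {V : Type} {G : SimpleGraph V} {m : ℕ} {C : V → V → Prop} {R : ℕ} {W : Set V} {D : Lv V}

/-- the main bound at one vertex `q` -/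
theorem bound (h : OK G m C R W D) {θ : ℝ} (hθ : 0 ≤ θ) {x q : V} (hx : x ∈ D.dom)
    (hq : q ∈ D.dom) : ms (av D x) {X | X = q ∨ G.Adj X q} ≤ (1 + m) / (R : ℝ) + 2 * θ +
      (if θ * D.q ≤ (nA G D θ x q).card then 1 else 0) := by
  have hR : (0 : ℝ) < R := by exact_mod_cast Nat.lt_of_lt_of_le Nat.zero_lt_one h.R1
  have hq0 := h.q0'
  have h1 := ms_or (h.av_nn hx) q (fun X => G.Adj X q)
  have h2 : av D x q ≤ 1 / (R : ℝ) := by
    rw [le_div_iff₀ hR, mul_comm]
    exact h.av_atm hx hq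
  have h3 := av_nA h hθ hx hq
  have h4 : (m : ℝ) / D.q ≤ m / R := by
    have h9 : (R : ℝ) ≤ D.q := by exact_mod_cast h.qR
    exact div_le_div_of_nonneg_left (Nat.cast_nonneg _) hR h9
  have h5 : ms (av D x) {X | G.Adj X q} ≤ ((nA G D θ x q).card : ℝ) / D.q + θ + m / D.q := by
    rw [div_add' _ _ _ hq0.ne', ← add_div, le_div_iff₀ hq0, mul_comm]
    exact h3
  have h6 : ((nA G D θ x q).card : ℝ) / D.q ≤ θ +
      (if θ * D.q ≤ (nA G D θ x q).card then 1 else 0) := by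
    split_ifs with h7
    · have h8 : ((nA G D θ x q).card : ℝ) ≤ D.q := by
        have h9 : (nA G D θ x q).card ≤ D.q := by
          refine (Finset.card_le_card (Finset.filter_subset _ _)).trans ?_
          rw [Finset.card_range]
        exact_mod_cast h9
      have h9 : ((nA G D θ x q).card : ℝ) / D.q ≤ 1 := (div_le_one hq0).2 h8
      linarith
    · push Not at h7
      rw [add_zero, div_le_iff₀ hq0]
      exact h7.le
  have h7 : (1 + (m : ℝ)) / R = 1 / R + m / R := add_div _ _ _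
  rw [h7]
  linarith

end Lev

/-! ### Expectations -/

/-- a positive normalised linear functional -/
structure Fn {X : Type} (E : (X → ℝ) → ℝ) : Prop where
  const : ∀ c : ℝ, E (fun _ => c) = c
  mono : ∀ g g' : X → ℝ, (∀ x, g x ≤ g' x) → E g ≤ E g'
  lin : ∀ (a b : ℝ) (g g' : X → ℝ), E (fun x => a * g x + b * g' x) = a * E g + b * E g'

theorem Fn.sum {X ι : Type} {E : (X → ℝ) → ℝ} (h : Fn E) (t : Finset ι) (c : ι → ℝ)
    (g : ι → X → ℝ) : E (fun x => ∑ i ∈ t, c i * g i x) = ∑ i ∈ t, c i * E (g i) := by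
  induction t using Finset.induction_on with
  | empty =>
    rw [Finset.sum_empty]
    exact h.const 0
  | insert i t hi ih =>
    rw [Finset.sum_insert hi, ← ih]
    have h1 := h.lin (c i) 1 (g i) (fun x => ∑ i ∈ t, c i * g i x)
    rw [one_mul] at h1
    rw [← h1]
    congr 1
    funext x
    rw [Finset.sum_insert hi, one_mul]

theorem Fn.add_const {X : Type} {E : (X → ℝ) → ℝ} (h : Fn E) (c : ℝ) (g : X → ℝ) :
    E (fun x => c + g x) = c + E g := by
  have h1 := h.lin 1 1 (fun _ => c) g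
  rw [h.const, one_mul, one_mul] at h1
  rw [← h1]
  congr 1
  funext x
  rw [one_mul]

theorem Fn.sum' {X ι : Type} {E : (X → ℝ) → ℝ} (h : Fn E) (t : Finset ι)
    (g : ι → X → ℝ) : E (fun x => ∑ i ∈ t, g i x) = ∑ i ∈ t, E (g i) := by
  have h1 := h.sum t (fun _ => 1) g
  simp only [one_mul] at h1
  exact h1

/-! ### The two estimates -/

section Est

variable {V : Type} {G : SimpleGraph V} {m : ℕ} {C : V → V → Prop} {R : ℕ} {W : Set V} {D : Lv V}

/-- the number of vertices in `F` which see many hubs of `o` -/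
noncomputable def sc (G : SimpleGraph V) (D : Lv V) (θ : ℝ) (o : V) (F : List V → Finset V)
    (xs : List V) : ℝ :=
  ∑ q ∈ F xs, if θ * D.q ≤ (nA G D θ o q).card then 1 else 0

theorem le_E {E : (List V → ℝ) → ℝ} (hE : Fn E) (h : OK G m C R W D) {o : V}
    (ho : o ∈ D.dom) {n1 : ℕ} {F : List V → Finset V} (hF1 : ∀ xs, (F xs).card ≤ n1)
    (hF2 : ∀ xs, ∀ q ∈ F xs, q ∈ D.dom) {A : List V → Prop}
    (hF3 : ∀ xs X, A (X :: xs) → ∃ q ∈ F xs, X = q ∨ G.Adj X q) {η : ℝ} (hη : 0 < η)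
    (hn : 32 * (n1 : ℝ) * (m + 1) ≤ η * R)
    (hle : η ≤ ∑ X ∈ (av D o).support, av D o X * E (fun xs => if A (X :: xs) then 1 else 0)) :
    η / 2 ≤ E (sc G D (η / (8 * n1)) o F) := by
  have hR : (0 : ℝ) < R := by exact_mod_cast Nat.lt_of_lt_of_le Nat.zero_lt_one h.R1
  have hq0 := h.q0'
  set θ : ℝ := η / (8 * n1) with hθ
  have hθ0 : 0 ≤ θ := by positivity
  have e1 : ∑ X ∈ (av D o).support, av D o X * E (fun xs => if A (X :: xs) then 1 else 0) ≤
      ∑ X ∈ (av D o).support, av D o X *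
        E (fun xs => ∑ q ∈ F xs, if X = q ∨ G.Adj X q then 1 else 0) := by
    refine Finset.sum_le_sum fun X _ => mul_le_mul_of_nonneg_left ?_ (h.av_nn ho X)
    refine hE.mono _ _ fun xs => ?_
    split_ifs with h1
    · obtain ⟨q, hq, hq'⟩ := hF3 xs X h1
      refine le_trans ?_ (Finset.single_le_sum (f := fun q => if X = q ∨ G.Adj X q then (1 : ℝ)
        else 0) (fun q _ => ?_) hq)
      · rw [if_pos hq']
      · split_ifs <;> norm_num
    · refine Finset.sum_nonneg fun q _ => ?_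
      split_ifs <;> norm_num
  rw [← hE.sum (av D o).support (fun X => av D o X)
    (fun X xs => ∑ q ∈ F xs, if X = q ∨ G.Adj X q then 1 else 0)] at e1
  have e2 : E (fun xs => ∑ X ∈ (av D o).support, av D o X *
      ∑ q ∈ F xs, if X = q ∨ G.Adj X q then 1 else 0) ≤
      E (fun xs => n1 * ((1 + m) / (R : ℝ) + 2 * θ) + sc G D θ o F xs) := by
    refine hE.mono _ _ fun xs => ?_
    have h1 : ∑ X ∈ (av D o).support, av D o X *
        (∑ q ∈ F xs, if X = q ∨ G.Adj X q then (1 : ℝ) else 0) =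
        ∑ q ∈ F xs, ms (av D o) {X | X = q ∨ G.Adj X q} := by
      simp only [Finset.mul_sum]
      rw [Finset.sum_comm]
      refine Finset.sum_congr rfl fun q _ => ?_
      unfold ms
      rw [Finset.sum_filter]
      refine Finset.sum_congr rfl fun X _ => ?_
      by_cases h2 : X = q ∨ G.Adj X q
      · rw [if_pos h2, mul_one]
        exact (if_pos h2).symm
      · rw [if_neg h2, mul_zero]
        exact (if_neg h2).symm
    rw [h1]
    refine (Finset.sum_le_sum fun q hq => bound h hθ0 ho (hF2 xs q hq)).trans ?_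
    rw [Finset.sum_add_distrib, Finset.sum_const, nsmul_eq_mul]
    refine add_le_add ?_ le_rfl
    refine mul_le_mul_of_nonneg_right (by exact_mod_cast hF1 xs) ?_
    positivity
  rw [hE.add_const] at e2
  have e3 : (n1 : ℝ) * ((1 + m) / (R : ℝ) + 2 * θ) ≤ η / 2 := by
    have h1 : (n1 : ℝ) * ((1 + m) / (R : ℝ)) ≤ η / 32 := by
      rw [← mul_div_assoc, div_le_iff₀ hR]
      linarith
    have h2 : (n1 : ℝ) * (2 * θ) ≤ η / 4 := by
      rcases Nat.eq_zero_or_pos n1 with h3 | h3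
      · rw [h3]
        push_cast
        linarith
      · have h4 : (0 : ℝ) < n1 := Nat.cast_pos.2 h3
        rw [hθ]
        field_simp
        norm_num
    rw [mul_add]
    linarith
  linarith

theorem count {ι : Type} {E : (List V → ℝ) → ℝ} (hE : Fn E) (h : OK G m C R W D) (hR2 : 2 ≤ R)
    {n1 : ℕ} {F : List V → Finset V} (hF1 : ∀ xs, (F xs).card ≤ n1)
    (hF2 : ∀ xs, ∀ q ∈ F xs, q ∈ D.dom) {η : ℝ} (hη : 0 < η)
    (hn : 32 * (n1 : ℝ) * (m + 1) ≤ η * R) (T : Finset ι) (o : ι → V)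
    (ho : ∀ i ∈ T, o i ∈ D.dom)
    (hd : ∀ s < D.q, ∀ i ∈ T, ∀ i' ∈ T, D.p s (o i) = D.p s (o i') → i = i')
    (hT : ∀ i ∈ T, η / 2 ≤ E (sc G D (η / (8 * n1)) (o i) F)) : T.card ≤ cb m n1 η D.N := by
  rcases T.eq_empty_or_nonempty with h0 | ⟨i₀, hi₀⟩
  · rw [h0, Finset.card_empty]
    exact Nat.zero_le _
  have hR : (0 : ℝ) < R := by exact_mod_cast Nat.lt_of_lt_of_le Nat.zero_lt_one h.R1
  have hq0 := h.q0'
  set θ : ℝ := η / (8 * n1) with hθ
  -- the number `n1` is positive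
  have hn1 : 0 < n1 := by
    by_contra hc
    have h1 : n1 = 0 := by omega
    have h2 : ∀ xs, F xs = ∅ := fun xs => by
      have := hF1 xs
      rw [h1] at this
      exact Finset.card_eq_zero.1 (Nat.le_zero.1 this)
    have h3 : E (sc G D θ (o i₀) F) ≤ 0 := by
      refine (hE.mono _ (fun _ => 0) fun xs => ?_).trans_eq (hE.const 0)
      unfold sc
      rw [h2 xs, Finset.sum_empty]
    have := hT i₀ hi₀
    linarith
  have hn1' : (0 : ℝ) < n1 := Nat.cast_pos.2 hn1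
  have hm0 : (0 : ℝ) ≤ m := Nat.cast_nonneg _
  have hθ0 : 0 < θ := by positivity
  have hθR : 4 * ((m : ℝ) + 1) ≤ θ * R := by
    rw [hθ, div_mul_eq_mul_div, le_div_iff₀ (by positivity)]
    linarith
  have hθq : 4 * ((m : ℝ) + 1) ≤ θ * D.q :=
    hθR.trans (mul_le_mul_of_nonneg_left (by exact_mod_cast h.qR) hθ0.le)
  have hpow : 0 < (θ / 2) ^ (1 + 2 * m) := by positivity
  have e1 : (∑ i ∈ T, E (sc G D θ (o i) F)) * (θ / 2) ^ (1 + 2 * m) ≤ n1 * D.N := by
    rw [← hE.sum' T (fun i => sc G D θ (o i) F)]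
    have e2 : E (fun xs => ∑ i ∈ T, sc G D θ (o i) F xs) ≤
        E (fun _ => n1 * D.N / (θ / 2) ^ (1 + 2 * m)) := by
      refine hE.mono _ _ fun xs => ?_
      rw [le_div_iff₀ hpow]
      have h1 : ∑ i ∈ T, sc G D θ (o i) F xs = ∑ q ∈ F xs,
          ((T.filter fun i => θ * D.q ≤ (nA G D θ (o i) q).card).card : ℝ) := by
        unfold sc
        rw [Finset.sum_comm]
        refine Finset.sum_congr rfl fun q _ => ?_
        rw [Finset.sum_boole]
      rw [h1, Finset.sum_mul]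
      have h2 : ∀ q ∈ F xs, ((T.filter fun i => θ * D.q ≤ (nA G D θ (o i) q).card).card : ℝ) *
          (θ / 2) ^ (1 + 2 * m) ≤ D.N := by
        intro q hq
        exact few_owners h hR2 (θ := θ) (by linarith) _ o
          (fun i hi => ho i (Finset.mem_filter.1 hi).1) (hF2 xs q hq)
          (fun s hs i hi j hj => hd s hs i (Finset.mem_filter.1 hi).1 j (Finset.mem_filter.1 hj).1)
          (fun i hi => (Finset.mem_filter.1 hi).2) (by linarith)
      refine (Finset.sum_le_sum h2).trans ?_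
      rw [Finset.sum_const, nsmul_eq_mul]
      exact mul_le_mul_of_nonneg_right (by exact_mod_cast hF1 xs) (Nat.cast_nonneg _)
    rw [hE.const] at e2
    rwa [le_div_iff₀ hpow] at e2
  have e2 := Finset.sum_le_sum hT
  rw [Finset.sum_const, nsmul_eq_mul] at e2
  have e3 := mul_le_mul_of_nonneg_right e2 hpow.le
  unfold cb
  refine Nat.le_floor ?_
  have h16 : η / (16 * n1) = θ / 2 := by
    rw [hθ, div_div]
    congr 1
    ring
  rw [h16, le_div_iff₀ (by positivity)]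
  have e4 : (T.card : ℝ) * (η * (θ / 2) ^ (1 + 2 * m)) =
      2 * (T.card * (η / 2) * (θ / 2) ^ (1 + 2 * m)) := by ring
  rw [e4]
  linarith

end Est

/-! ### The module -/

section Main

variable {V : Type} {G : SimpleGraph V} {m : ℕ} {D : ℕ → Lv V} {W : ℕ → Set V}

theorem W_anti (hT : Twr G m D W) {a b : ℕ} (h : a ≤ b) : W b ⊆ W a := by
  induction b, h using Nat.le_induction with
  | base => exact subset_rfl
  | succ n _ ih => exact (hT.sub n).trans ((hT.ok n).sub.trans ih)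

theorem fn (hEW : StEW) (hT : Twr G m D W) {fs : List (ℕ × ℕ)} {j : ℕ} {v : V}
    (hv : v ∈ W (hg fs j)) : Fn (EW D v fs j) := by
  obtain ⟨h1, h2, h3, -⟩ := hEW V G m D W hT fs j v hv
  exact ⟨h1, fun g g' h => h2 g g' fun xs _ => h xs, h3⟩

theorem finite_of {X : Type} {S : Set X} {Δ : ℕ}
    (h : ∀ T : Finset X, (T : Set X) ⊆ S → T.card ≤ Δ) : S.Finite ∧ S.ncard ≤ Δ := by
  have h1 : S.Finite := by
    by_contra h2
    obtain ⟨T, hT, hc⟩ := Set.Infinite.exists_subset_card_eq h2 (Δ + 1)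
    have h3 := h T hT
    omega
  refine ⟨h1, ?_⟩
  rw [Set.ncard_eq_toFinset_card S h1]
  exact h _ (by rw [Set.Finite.coe_toFinset])

end Main

end Ct_

open Ct_

theorem stCt (hSh : StSh) (hEW : StEW) (hFc : StFc) : StCt := by
  intro V G m D W hT p p0 fs j n n1 η A hη h1 h2 h3 h4 h5 hA S hS b
  choose F hF1 hF2 hF3 using hA
  obtain ⟨hown, hshift⟩ := hSh V G m D W hT
  have hfc := (hFc V G m D W hT).2
  have hok := hT.ok p.1
  -- the heights
  have g1 : p.1 + j + 1 ≤ n := (le_max_left _ _).trans h4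
  have g2 : hg (p0 :: fs) (j + p0.2 + 1) ≤ n := (le_max_right _ _).trans h4
  have g3 : p0.1 + (j + p0.2 + 1) + 1 ≤ n := (le_max_left _ _).trans g2
  have hW1 : ∀ v ∈ S, v ∈ W (p.1 + j + 1) := fun v hv => W_anti hT g1 (hS hv).1
  have hW2 : ∀ v ∈ S, v ∈ W (hg (p0 :: fs) (j + p0.2 + 1)) := fun v hv => W_anti hT g2 (hS hv).1
  have hW3 : ∀ v ∈ S, v ∈ W (p0.1 + (j + p0.2 + 1) + 1) := fun v hv => W_anti hT g3 (hS hv).1
  have hdom : ∀ v ∈ S, own D j p.1 v ∈ (D p.1).dom := fun v hv => hT.sub _ (hown _ _ _ (hW1 v hv))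
  have hE : ∀ v ∈ S, Fn (EW D v (p0 :: fs) (j + p0.2 + 1)) := fun v hv => fn hEW hT (hW2 v hv)
  have hn : 32 * (n1 : ℝ) * (m + 1) ≤ η * ((p.1 + 1 : ℕ) : ℝ) := by
    rw [Nat.cast_add, Nat.cast_one]
    exact h5
  refine finite_of fun T hTs => ?_
  rcases T.eq_empty_or_nonempty with h0 | ⟨c₀, hc₀⟩
  · rw [h0, Finset.card_empty]
    exact Nat.zero_le _
  have hch : ∀ c : (ℕ → V →₀ ℝ), ∃ v, c ∈ T → v ∈ S ∧ lb D p0.1 (j + p0.2 + 1) v = b ∧
      lb D p0.1 (j + p0.2 + 2) v = c := by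
    intro c
    by_cases hc : c ∈ T
    · obtain ⟨v, hv, hv'⟩ := hTs hc
      exact ⟨v, fun _ => ⟨hv, hv'⟩⟩
    · obtain ⟨v, -, -⟩ := hTs hc₀
      exact ⟨v, fun h => absurd h hc⟩
  choose u hu using hch
  refine count (E := EW D (u c₀) (p0 :: fs) (j + p0.2 + 1)) (hE _ (hu c₀ hc₀).1) hok (by omega)
    hF1 hF2 hη hn T (fun c => own D j p.1 (u c)) (fun c hc => hdom _ (hu c hc).1) ?_ ?_
  · intro s hs c hc c' hc' heq
    obtain ⟨hv, -, hvc⟩ := hu c hc
    obtain ⟨hv', -, hvc'⟩ := hu c' hc'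
    obtain ⟨y, hy⟩ : ∃ y, (D p.1).p s (own D j p.1 (u c)) y ≠ 0 := by
      by_contra hcon
      push Not at hcon
      have h6 := hok.one s hs _ (hdom _ hv)
      rw [Finset.sum_eq_zero fun y _ => hcon y] at h6
      exact zero_ne_one h6
    have hy' : (D p.1).p s (own D j p.1 (u c')) y ≠ 0 := by
      rw [← heq]
      exact hy
    have e1 := hshift _ _ _ (hW1 _ hv) s hs y hy p0.1 (p0.2 + 1) (by omega)
    have e2 := hshift _ _ _ (hW1 _ hv') s hs y hy' p0.1 (p0.2 + 1) (by omega)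
    have e3 : p0.2 + 1 + j + 1 = j + p0.2 + 2 := by omega
    rw [e3] at e1 e2
    rw [← hvc, ← hvc']
    funext r
    unfold lb
    split_ifs with hr
    · rw [← e1 r hr, ← e2 r hr]
    · rfl
  · intro c hc
    have e1 := hfc p0 fs (j + p0.2 + 1) h1 (u c₀) (hW3 _ (hu c₀ hc₀).1) (u c)
      (hW3 _ (hu c hc).1) ((hu c₀ hc₀).2.1.trans (hu c hc).2.1.symm)
    have h6 : η ≤ ∑ X ∈ (av (D p.1) (own D j p.1 (u c))).support,
        av (D p.1) (own D j p.1 (u c)) X *
        EW D (u c) (p0 :: fs) (j + p0.2 + 1) (fun xs => if A (X :: xs) then 1 else 0) :=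
      (hS (hu c hc).1).2
    have h7 := le_E (hE _ (hu c hc).1) hok (hdom _ (hu c hc).1) hF1 hF2 hF3 hη hn h6
    rw [e1]
    exact h7

end Pool.Agent.Lib.TCW
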