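import Pool.Agent.Lib.TCW.S2
import Pool.Agent.Lib.TCH.Dg

/-!
# Module `Dq`: the colouring `dg` of the labels

If every label has at most `Δ` images, then `dg` separates every label from its images; in all
cases the values of `dg` are smaller than `3 ^ Δ`.
-/

set_option autoImplicit false

namespace Pool.Agent.Lib.TCW

open Finset Classical
open Pool.Agent.Lib.TCH

theorem Dq_.ex {V B : Type} (S : Set V) (β γ : V → B) (Δ : ℕ)
    (hG : ∀ b, (Gm S β γ b).Finite ∧ (Gm S β γ b).ncard ≤ Δ) :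
    ∃ φ : B → ℕ, (∀ b, φ b < 3 ^ Δ) ∧ ∀ v ∈ S, γ v ≠ β v → φ (γ v) ≠ φ (β v) := by
  obtain ⟨φ, hφ⟩ := stDg B Δ (fun b => (hG b).1.toFinset) (fun b => by
    have h := (hG b).2
    rwa [Set.ncard_eq_toFinset_card _ (hG b).1] at h)
  refine ⟨fun b => (φ b).1, fun b => (φ b).2, ?_⟩
  intro v hv hne heq
  refine hφ (β v) (γ v) ?_ hne (Fin.ext heq)
  rw [Set.Finite.mem_toFinset]
  exact ⟨v, hv, rfl, rfl⟩

theorem stDq : StDq := by
  intro V B S β γ Δ
  refine ⟨?_, ?_⟩
  · intro v
    unfold dg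
    split_ifs with h
    · exact h.choose_spec.1 (β v)
    · exact Nat.pow_pos (by norm_num)
  · intro hG v hv hne y hy
    have h := Dq_.ex S β γ Δ hG
    unfold dg
    rw [dif_pos h]
    show h.choose (β y) ≠ h.choose (β v)
    rw [hy]
    exact h.choose_spec.2 v hv hne

end Pool.Agent.Lib.TCW
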