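import Pool.Agent.Lib.TCW.Bas

/-!
# Towers of coherent levels: the expectation over random words

Elementary properties: constants, monotonicity, linearity, and the places of the entries of a
word of positive probability.
-/

set_option autoImplicit false

namespace Pool.Agent.Lib.TCW

open Finset Classical
open Pool.Agent.Lib.TCH

/-- Module `EW`: elementary properties of the expectation over random words. -/
theorem stEW : StSh → StEW := by
  intro hSh V G m D W hT fs
  obtain ⟨hown, -⟩ := hSh V G m D W hT
  induction fs with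
  | nil =>
    intro j v _
    refine ⟨fun c => rfl, fun g g' h => h [] rfl, fun a b g g' => rfl, fun xs hxs => ?_⟩
    have hxs' : xs = [] := hxs
    rw [hxs']
    exact List.Forall₂.nil
  | cons p fs ih =>
    intro j v hv
    have hv1 : v ∈ W (p.1 + j + 1) := hT.anti (le_max_left _ _) hv
    have hv2 : v ∈ W (hg fs (j + ty fs + 1)) := hT.anti (le_max_right _ _) hv
    have hdom : own D j p.1 v ∈ (D p.1).dom := hT.sub p.1 (hown p.1 j v hv1)
    obtain ⟨i1, i2, i3, i4⟩ := ih (j + ty fs + 1) v hv2
    refine ⟨?_, ?_, ?_, ?_⟩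
    · intro c
      show ∑ x ∈ (av (D p.1) (own D j p.1 v)).support,
        av (D p.1) (own D j p.1 v) x * EW D v fs (j + ty fs + 1) (fun _ => c) = c
      rw [Finset.sum_congr rfl fun x _ => by rw [i1 c], ← Finset.sum_mul,
        (hT.ok p.1).av_one hdom, one_mul]
    · intro g g' h
      refine Finset.sum_le_sum fun x hx => ?_
      refine mul_le_mul_of_nonneg_left ?_ ((hT.ok p.1).av_nn hdom x)
      refine i2 _ _ fun xs hxs => ?_
      exact h (x :: xs) ⟨x, xs, rfl, Finsupp.mem_support_iff.1 hx, hxs⟩
    · intro a b g g'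
      show ∑ x ∈ (av (D p.1) (own D j p.1 v)).support,
        av (D p.1) (own D j p.1 v) x *
          EW D v fs (j + ty fs + 1) (fun xs => a * g (x :: xs) + b * g' (x :: xs)) =
        a * (∑ x ∈ (av (D p.1) (own D j p.1 v)).support,
          av (D p.1) (own D j p.1 v) x * EW D v fs (j + ty fs + 1) (fun xs => g (x :: xs))) +
        b * (∑ x ∈ (av (D p.1) (own D j p.1 v)).support,
          av (D p.1) (own D j p.1 v) x * EW D v fs (j + ty fs + 1) (fun xs => g' (x :: xs)))
      rw [Finset.mul_sum, Finset.mul_sum, ← Finset.sum_add_distrib]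
      refine Finset.sum_congr rfl fun x _ => ?_
      rw [i3 a b (fun xs => g (x :: xs)) (fun xs => g' (x :: xs))]
      ring
    · rintro xs ⟨x, ys, rfl, hx, hys⟩
      have hxW : x ∈ W p.1 := ((hT.ok p.1).av_mem hdom hx).1
      exact List.Forall₂.cons ⟨hxW, hT.mem_sl hxW⟩ (i4 ys hys)

end Pool.Agent.Lib.TCW
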