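import Pool.Agent.Lib.TCW.S2

/-!
# The tree above a good vertex

The vertices are placed one after the other, the subtrees of the children of a vertex in the order
of decreasing levels: a new vertex avoids the vertices which are placed at higher levels, and
their neighbours.
-/

set_option autoImplicit false

namespace Pool.Agent.Lib.TCW

open Finset Classical
open Pool.Agent.Lib.TCH
open Pool.Agent.Lib.GSR3 (Tree)
open Pool.Agent.Lib.FracGS (TAdj)

/-- An induced copy of the tree of depth `n`; the steps at the root come first in the words. -/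
structure EmT {V : Type} (G : SimpleGraph V) (M n : ℕ) (ψ : List (Fin M) → V) : Prop where
  inj : ∀ u w : List (Fin M), u.length ≤ n → w.length ≤ n → ψ u = ψ w → u = w
  adj : ∀ u w : List (Fin M), u.length ≤ n → w.length ≤ n →
    (G.Adj (ψ u) (ψ w) ↔ (∃ t, u = w ++ [t]) ∨ ∃ t, w = u ++ [t])

/-- The number of vertices of the tree, without the root. -/
def emS (M : ℕ) : ℕ → ℕ
  | 0 => 0
  | n + 1 => M * (emS M n + 1)

lemma em_sl {V : Type} (D : ℕ → Lv V) {e f : ℕ} (h : e ≤ f) {v : V} (hv : v ∈ sl D f) :
    v ∈ sl D e :=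
  fun i hi => hv i (lt_of_lt_of_le hi h)

lemma em_ind {V : Type} {G : SimpleGraph V} {D : ℕ → Lv V} {M : ℕ} {ε : ℝ} {n : ℕ}
    {xs : List V} {a b : ℕ} (h : GD G D M ε n xs a b) : Ind G xs := by
  cases n with
  | zero => exact h
  | succ n => exact h.1

/-- A vertex of positive weight which avoids `Q` and its neighbours. -/
lemma em_pick {V : Type} (G : SimpleGraph V) (ζ : V →₀ ℝ) (ε : ℝ) (Q : Finset V)
    (h0 : ∀ X, 0 ≤ ζ X) (h1 : ∑ X ∈ ζ.support, ζ X = 1)
    (hq : ∀ q ∈ Q, ms ζ {X | X = q ∨ G.Adj X q} ≤ ε) (hc : (Q.card : ℝ) * ε < 1) :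
    ∃ X, ζ X ≠ 0 ∧ ∀ q ∈ Q, X ≠ q ∧ ¬ G.Adj X q := by
  by_contra hno
  push Not at hno
  have h2 : ∑ X ∈ ζ.support, ζ X ≤
      ∑ X ∈ ζ.support, ∑ q ∈ Q, (if X = q ∨ G.Adj X q then ζ X else 0) := by
    refine Finset.sum_le_sum fun X hX => ?_
    obtain ⟨q, hqQ, hXq⟩ := hno X (Finsupp.mem_support_iff.mp hX)
    have h3 : X = q ∨ G.Adj X q := by
      by_cases h : X = q
      · exact Or.inl h
      · exact Or.inr (hXq h)
    have h4 : (if X = q ∨ G.Adj X q then ζ X else 0) ≤
        ∑ q ∈ Q, (if X = q ∨ G.Adj X q then ζ X else 0) :=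
      Finset.single_le_sum (f := fun q => if X = q ∨ G.Adj X q then ζ X else 0)
        (fun q _ => by
          show (0 : ℝ) ≤ if X = q ∨ G.Adj X q then ζ X else 0
          split_ifs
          · exact h0 X
          · exact le_refl _) hqQ
    rw [if_pos h3] at h4
    exact h4
  rw [Finset.sum_comm] at h2
  have h5 : ∑ q ∈ Q, ∑ X ∈ ζ.support, (if X = q ∨ G.Adj X q then ζ X else 0) ≤
      ∑ _q ∈ Q, ε := by
    refine Finset.sum_le_sum fun q hqQ => ?_
    have h6 := hq q hqQ
    unfold ms at h6
    rw [Finset.sum_filter] at h6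
    refine le_trans (le_of_eq ?_) h6
    refine Finset.sum_congr rfl fun X _ => ?_
    by_cases h : X = q ∨ G.Adj X q
    · rw [if_pos h, if_pos (show X ∈ {X | X = q ∨ G.Adj X q} from h)]
    · rw [if_neg h, if_neg (show X ∉ {X | X = q ∨ G.Adj X q} from h)]
  rw [Finset.sum_const, nsmul_eq_mul] at h5
  linarith

/-- The placement of the tree. -/
theorem em_main {V : Type} (G : SimpleGraph V) (D : ℕ → Lv V) (M : ℕ) (ε : ℝ) (N0 : ℕ)
    (hε0 : 0 ≤ ε) (hε : (N0 : ℝ) * ε < 1) :
    ∀ (n : ℕ) (x : V) (ys : List V) (a b : ℕ) (Q : Finset V),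
      GD G D M ε n (x :: ys) a b → (∀ q ∈ Q, q ∈ sl D b) → Q.card + emS M n ≤ N0 →
        ∃ (ψ : List (Fin M) → V) (P : Finset V), ψ [] = x ∧ EmT G M n ψ ∧ P.card ≤ emS M n ∧
          (∀ v ∈ P, v ∈ sl D a) ∧ ∀ w, w ≠ [] → w.length ≤ n → ψ w ∈ P ∧
            (∀ q ∈ Q, ψ w ≠ q ∧ ¬ G.Adj (ψ w) q) ∧ ∀ y ∈ ys, ψ w ≠ y ∧ ¬ G.Adj (ψ w) y := by
  intro n
  induction n with
  | zero =>
    intro x ys a b Q hGD hQ hN
    have hnil : ∀ u : List (Fin M), u.length ≤ 0 → u = [] := fun u hu =>
      List.eq_nil_of_length_eq_zero (Nat.le_zero.mp hu)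
    refine ⟨fun _ => x, ∅, rfl, ⟨?_, ?_⟩, by simp, by simp, ?_⟩
    · intro u w hu hw _
      rw [hnil u hu, hnil w hw]
    · intro u w hu hw
      rw [hnil u hu, hnil w hw]
      constructor
      · intro h
        exact absurd h (G.irrefl)
      · rintro (⟨t, ht⟩ | ⟨t, ht⟩)
        · exact absurd ht (by simp)
        · exact absurd ht (by simp)
    · intro w hw hl
      exact absurd (hnil w hl) hw
  | succ n ih =>
    intro x ys a b Q hGD hQ hN
    obtain ⟨hInd, f, g, hfg, hgf, hsp⟩ := hGD
    have hord : ∀ i j, i < j → j < M → g i ≤ f j := by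
      intro i j hij
      induction j with
      | zero => omega
      | succ j ihj =>
        intro hj
        rcases Nat.lt_or_ge i j with h | h
        · have h1 := ihj h (by omega)
          have h2 := hfg j (by omega)
          have h3 := hgf j hj
          omega
        · have h4 : i = j := by omega
          rw [h4]
          exact hgf j hj
    -- the children are placed in decreasing order
    have key : ∀ k, k ≤ M → ∃ (ψs : ℕ → List (Fin M) → V) (P : Finset V),
        P.card ≤ k * (emS M n + 1) ∧
        (∀ v ∈ P, v ∈ sl D a ∧ ∀ i, i + k < M → v ∈ sl D (g i)) ∧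
        (∀ i, i < M → M ≤ i + k → EmT G M n (ψs i) ∧ G.Adj (ψs i []) x ∧
          ∀ w : List (Fin M), w.length ≤ n → ψs i w ∈ P ∧
            (w ≠ [] → ψs i w ≠ x ∧ ¬ G.Adj (ψs i w) x) ∧
            (∀ q ∈ Q, ψs i w ≠ q ∧ ¬ G.Adj (ψs i w) q) ∧
            ∀ y ∈ ys, ψs i w ≠ y ∧ ¬ G.Adj (ψs i w) y) ∧
        ∀ i j, i < j → j < M → M ≤ i + k → ∀ u w : List (Fin M), u.length ≤ n →
          w.length ≤ n → ψs i u ≠ ψs j w ∧ ¬ G.Adj (ψs i u) (ψs j w) := by
      intro k
      induction k with
      | zero =>
        intro _
        refine ⟨fun _ _ => x, ∅, by simp, by simp, ?_, ?_⟩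
        · intro i hi hi2
          omega
        · intro i j hij hj hi2
          omega
      | succ k ihk =>
        intro hkM
        obtain ⟨ψs, P, hPc, hPs, hgood, hcross⟩ := ihk (by omega)
        obtain ⟨i0, hi0⟩ : ∃ i0, i0 + k + 1 = M := ⟨M - (k + 1), by omega⟩
        have hi0M : i0 < M := by omega
        obtain ⟨hf1, hf2, hf3⟩ := hfg i0 hi0M
        have hQ0 : ∀ q ∈ Q ∪ P, q ∈ sl D (g i0) := by
          intro q hq
          rcases Finset.mem_union.mp hq with h | h
          · exact em_sl D hf3 (hQ q h)
          · exact (hPs q h).2 i0 (by omega)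
        have hcard : (Q ∪ P).card + emS M n + 1 ≤ Q.card + (k + 1) * (emS M n + 1) := by
          have h1 := Finset.card_union_le Q P
          have h2 : (k + 1) * (emS M n + 1) = k * (emS M n + 1) + (emS M n + 1) := by ring
          omega
        have hcard2 : (k + 1) * (emS M n + 1) ≤ emS M (n + 1) := by
          show (k + 1) * (emS M n + 1) ≤ M * (emS M n + 1)
          exact Nat.mul_le_mul_right _ hkM
        have hcard3 : (Q ∪ P).card + emS M n + 1 ≤ N0 := by omega
        obtain ⟨ζ, hζ0, hζ1, hζA, hζq⟩ := hsp i0 hi0M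
        obtain ⟨X, hX, hXQ⟩ := em_pick G ζ ε (Q ∪ P) hζ0 hζ1
          (fun q hq => hζq q (hQ0 q hq (f i0) hf2)) (by
            have h1 : (((Q ∪ P).card : ℕ) : ℝ) ≤ (N0 : ℝ) := by exact_mod_cast (by omega)
            have h2 : (((Q ∪ P).card : ℕ) : ℝ) * ε ≤ (N0 : ℝ) * ε :=
              mul_le_mul_of_nonneg_right h1 hε0
            linarith)
        obtain ⟨hXsl, hXadj, hXGD⟩ := hζA X hX
        have hXx : G.Adj X x := hXadj x (by simp)
        have hXI := em_ind hXGD
        obtain ⟨ψ, P', hψ0, hψT, hP'c, hP's, hψ⟩ := ih X (x :: ys) (f i0 + 1) (g i0) (Q ∪ P)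
          hXGD hQ0 (by omega)
        have hXys : ∀ y ∈ ys, X ≠ y ∧ ¬ G.Adj X y := hXI.2.1
        -- the properties of the new subtree
        have hnew : ∀ w : List (Fin M), w.length ≤ n → ψ w ∈ insert X P' ∧
            (w ≠ [] → ψ w ≠ x ∧ ¬ G.Adj (ψ w) x) ∧
            (∀ q ∈ Q ∪ P, ψ w ≠ q ∧ ¬ G.Adj (ψ w) q) ∧
            ∀ y ∈ ys, ψ w ≠ y ∧ ¬ G.Adj (ψ w) y := by
          intro w hw
          by_cases hw0 : w = []
          · rw [hw0, hψ0]
            exact ⟨Finset.mem_insert_self _ _, fun h => absurd rfl h, hXQ, hXys⟩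
          · obtain ⟨h1, h2, h3⟩ := hψ w hw0 hw
            exact ⟨Finset.mem_insert_of_mem h1, fun _ => h3 x (by simp), h2,
              fun y hy => h3 y (by simp [hy])⟩
        refine ⟨fun i => if i = i0 then ψ else ψs i, P ∪ insert X P', ?_, ?_, ?_, ?_⟩
        · have h1 := Finset.card_union_le P (insert X P')
          have h2 := Finset.card_insert_le X P'
          have h3 : (k + 1) * (emS M n + 1) = k * (emS M n + 1) + (emS M n + 1) := by ring
          omega
        · intro v hv
          rcases Finset.mem_union.mp hv with h | h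
          · exact ⟨(hPs v h).1, fun i hi => (hPs v h).2 i (by omega)⟩
          · have hvs : v ∈ sl D (f i0) := by
              rcases Finset.mem_insert.mp h with h' | h'
              · rw [h']
                exact hXsl
              · exact em_sl D (by omega) (hP's v h')
            refine ⟨em_sl D hf1 hvs, fun i hi => em_sl D (hord i i0 (by omega) hi0M) hvs⟩
        · intro i hi hik
          by_cases hii : i = i0
          · simp only [hii, if_true]
            refine ⟨hψT, by rw [hψ0]; exact hXx, fun w hw => ?_⟩
            obtain ⟨h1, h2, h3, h4⟩ := hnew w hw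
            exact ⟨Finset.mem_union_right _ h1, h2,
              fun q hq => h3 q (Finset.mem_union_left _ hq), h4⟩
          · simp only [hii, if_false]
            obtain ⟨h1, h2, h3⟩ := hgood i hi (by omega)
            refine ⟨h1, h2, fun w hw => ?_⟩
            obtain ⟨h4, h5, h6, h7⟩ := h3 w hw
            exact ⟨Finset.mem_union_left _ h4, h5, h6, h7⟩
        · intro i j hij hj hik u w hu hw
          have hjj : j ≠ i0 := by omega
          by_cases hii : i = i0
          · simp only [hii, if_true, hjj, if_false]
            obtain ⟨h1, h2, h3, h4⟩ := hnew u hu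
            have h5 := (hgood j hj (by omega)).2.2 w hw
            exact h3 _ (Finset.mem_union_right _ h5.1)
          · simp only [hii, if_false, hjj]
            exact hcross i j hij hj (by omega) u w hu hw
    obtain ⟨ψs, P, hPc, hPs, hgood, hcross⟩ := key M le_rfl
    have hcross2 : ∀ i j : Fin M, i ≠ j → ∀ u w : List (Fin M), u.length ≤ n →
        w.length ≤ n → ψs i u ≠ ψs j w ∧ ¬ G.Adj (ψs i u) (ψs j w) := by
      intro i j hij u w hu hw
      rcases Nat.lt_or_ge (i : ℕ) (j : ℕ) with h | h
      · exact hcross i j h j.2 (by omega) u w hu hw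
      · have h1 : (j : ℕ) < i := by
          have : (i : ℕ) ≠ j := fun h => hij (Fin.ext h)
          omega
        obtain ⟨h2, h3⟩ := hcross j i h1 i.2 (by omega) w u hw hu
        exact ⟨fun h => h2 h.symm, fun h => h3 h.symm⟩
    refine ⟨fun w => match w with
      | [] => x
      | i :: w => ψs i w, P, rfl, ⟨?_, ?_⟩, ?_, ?_, ?_⟩
    · intro u w hu hw h
      match u, w with
      | [], [] => rfl
      | [], j :: w =>
        exfalso
        have hw' : w.length ≤ n := by simpa using hw
        have h1 := hgood j j.2 (by omega)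
        change x = ψs j w at h
        by_cases hw0 : w = []
        · rw [hw0] at h
          have h2 := h1.2.1
          rw [← h] at h2
          exact G.irrefl h2
        · exact ((h1.2.2 w hw').2.1 hw0).1 h.symm
      | i :: u, [] =>
        exfalso
        have hu' : u.length ≤ n := by simpa using hu
        have h1 := hgood i i.2 (by omega)
        change ψs i u = x at h
        by_cases hu0 : u = []
        · rw [hu0] at h
          have h2 := h1.2.1
          rw [h] at h2
          exact G.irrefl h2
        · exact ((h1.2.2 u hu').2.1 hu0).1 h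
      | i :: u, j :: w =>
        have hu' : u.length ≤ n := by simpa using hu
        have hw' : w.length ≤ n := by simpa using hw
        change ψs i u = ψs j w at h
        by_cases hij : i = j
        · subst hij
          have h1 := (hgood i i.2 (by omega)).1.inj u w hu' hw' h
          rw [h1]
        · exact absurd h (hcross2 i j hij u w hu' hw').1
    · intro u w hu hw
      match u, w with
      | [], [] =>
        constructor
        · intro h
          exact absurd h (G.irrefl)
        · rintro (⟨t, ht⟩ | ⟨t, ht⟩)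
          · exact absurd ht (by simp)
          · exact absurd ht (by simp)
      | [], j :: w =>
        have hw' : w.length ≤ n := by simpa using hw
        have h1 := hgood j j.2 (by omega)
        change G.Adj x (ψs j w) ↔ _
        constructor
        · intro h
          by_cases hw0 : w = []
          · exact Or.inr ⟨j, by rw [hw0]; rfl⟩
          · exact absurd h.symm ((h1.2.2 w hw').2.1 hw0).2
        · rintro (⟨t, ht⟩ | ⟨t, ht⟩)
          · exact absurd ht (by simp)
          · have hw0 : w = [] := by
              simp at ht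
              exact ht.2
            rw [hw0]
            exact h1.2.1.symm
      | i :: u, [] =>
        have hu' : u.length ≤ n := by simpa using hu
        have h1 := hgood i i.2 (by omega)
        change G.Adj (ψs i u) x ↔ _
        constructor
        · intro h
          by_cases hu0 : u = []
          · exact Or.inl ⟨i, by rw [hu0]; rfl⟩
          · exact absurd h ((h1.2.2 u hu').2.1 hu0).2
        · rintro (⟨t, ht⟩ | ⟨t, ht⟩)
          · have hu0 : u = [] := by
              simp at ht
              exact ht.2
            rw [hu0]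
            exact h1.2.1
          · exact absurd ht (by simp)
      | i :: u, j :: w =>
        have hu' : u.length ≤ n := by simpa using hu
        have hw' : w.length ≤ n := by simpa using hw
        change G.Adj (ψs i u) (ψs j w) ↔ _
        by_cases hij : i = j
        · subst hij
          have h1 := (hgood i i.2 (by omega)).1.adj u w hu' hw'
          rw [h1]
          simp only [List.cons_append, List.cons.injEq, true_and]
        · constructor
          · intro h
            exact absurd h (hcross2 i j hij u w hu' hw').2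
          · rintro (⟨t, ht⟩ | ⟨t, ht⟩)
            · simp only [List.cons_append, List.cons.injEq] at ht
              exact absurd ht.1 hij
            · simp only [List.cons_append, List.cons.injEq] at ht
              exact absurd ht.1.symm hij
    · exact hPc
    · exact fun v hv => (hPs v hv).1
    · intro w hw0 hwl
      match w with
      | [] => exact absurd rfl hw0
      | i :: w =>
        have hw' : w.length ≤ n := by simpa using hwl
        obtain ⟨h1, _, h3, h4⟩ := (hgood i i.2 (by omega)).2.2 w hw'
        exact ⟨h1, h3, h4⟩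

/-- Module `Em`: the tree above a good vertex. -/
theorem stEm : StEm := by
  intro h M
  refine ⟨1 / ((emS M h : ℝ) + 1), by positivity, ?_⟩
  intro V G D x a b hGD
  have hpos : (0 : ℝ) < (emS M h : ℝ) + 1 := by positivity
  obtain ⟨ψ, P, _, hT, _, _, _⟩ := em_main G D M (1 / ((emS M h : ℝ) + 1)) (emS M h)
    (by positivity) (by
      rw [mul_one_div, div_lt_one hpos]
      linarith) h x [] (a + 1) b ∅ hGD (by simp) (by simp)
  refine ⟨fun u => ψ u.reverse, ⟨?_, ?_⟩⟩
  · intro u w hu hw huw
    have h1 := hT.inj u.reverse w.reverse (by simpa using hu) (by simpa using hw) huw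
    exact List.reverse_injective h1
  · intro u w hu hw
    rw [hT.adj u.reverse w.reverse (by simpa using hu) (by simpa using hw)]
    unfold TAdj
    have hr : ∀ (u w : List (Fin M)) (t : Fin M), u.reverse = w.reverse ++ [t] ↔ u = t :: w := by
      intro u w t
      rw [← List.reverse_cons]
      exact List.reverse_inj
    simp only [hr]

end Pool.Agent.Lib.TCW
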