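import Pool.Agent.Lib.TCW.S2

/-!
# Towers of coherent levels: module Fc

The words below `v` and the words below a hub of `v`.
-/

set_option autoImplicit false

namespace Pool.Agent.Lib.TCW

open Finset Classical
open Pool.Agent.Lib.TCH

namespace Fc_

/-- A hub with positive averaged probability has positive probability at some stage. -/
theorem exists_stage {V : Type} (D : Lv V) (x X : V) (h : av D x X ≠ 0) :
    ∃ s, s < D.q ∧ D.p s x X ≠ 0 := by
  by_contra hc
  push Not at hc
  apply h
  unfold av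
  rw [Finsupp.finsetSum_apply]
  refine Finset.sum_eq_zero fun s hs => ?_
  rw [Finsupp.smul_apply, hc s (Finset.mem_range.1 hs), smul_zero]

/-- The averaged law is determined by the laws of the stages. -/
theorem av_congr {V : Type} (D : Lv V) (x y : V) (h : ∀ r < D.q, D.p r x = D.p r y) :
    av D x = av D y := by
  unfold av
  refine Finset.sum_congr rfl fun s hs => ?_
  rw [h s (Finset.mem_range.1 hs)]

theorem part1 {V : Type} {D : ℕ → Lv V} {W : ℕ → Set V}
    (hSh : ∀ c j v, v ∈ W (c + j + 1) → ∀ s < (D c).q, ∀ y, (D c).p s (own D j c v) y ≠ 0 →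
      ∀ b i, b + i < c → ∀ r < (D b).q,
        (D b).p r (own D i b y) = (D b).p r (own D (i + j + 1) b v))
    (f j : ℕ) (v : V) (hv : v ∈ W (f + j + 1)) (X : V) (hX : av (D f) (own D j f v) X ≠ 0) :
    ∀ (fs : List (ℕ × ℕ)) (o : ℕ), hg fs (o + ty fs) ≤ f → ∀ g : List V → ℝ,
        EW D v fs (j + o + ty fs + 1) g = EW D X fs (o + ty fs) g := by
  obtain ⟨s, hs, hsX⟩ := exists_stage (D f) _ _ hX
  intro fs
  induction fs with
  | nil => intro o _ g; rfl
  | cons p fs ih =>
    intro o hh g
    have hty : ty (p :: fs) = p.2 := rfl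
    rw [hty] at hh ⊢
    have hh' : max (p.1 + (o + p.2) + 1) (hg fs (o + p.2 + ty fs + 1)) ≤ f := hh
    have h1 : p.1 + (o + p.2) + 1 ≤ f := le_trans (le_max_left _ _) hh'
    have h2 : hg fs (o + p.2 + ty fs + 1) ≤ f := le_trans (le_max_right _ _) hh'
    have hav : av (D p.1) (own D (j + o + p.2 + 1) p.1 v) =
        av (D p.1) (own D (o + p.2) p.1 X) := by
      refine (av_congr _ _ _ fun r hr => ?_).symm
      have := hSh f j v hv s hs X hsX p.1 (o + p.2) (by omega) r hr
      rw [this]
      congr 2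
      omega
    have key : ∀ g' : List V → ℝ, EW D v fs (j + o + p.2 + 1 + ty fs + 1) g' =
        EW D X fs (o + p.2 + ty fs + 1) g' := by
      intro g'
      have e1 : hg fs (o + p.2 + 1 + ty fs) ≤ f := by
        have : o + p.2 + 1 + ty fs = o + p.2 + ty fs + 1 := by omega
        rw [this]; exact h2
      have := ih (o + p.2 + 1) e1 g'
      have a1 : j + o + p.2 + 1 + ty fs + 1 = j + (o + p.2 + 1) + ty fs + 1 := by omega
      have a2 : o + p.2 + ty fs + 1 = o + p.2 + 1 + ty fs := by omega
      rw [a1, a2]; exact this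
    change ∑ x ∈ (av (D p.1) (own D (j + o + p.2 + 1) p.1 v)).support,
      av (D p.1) (own D (j + o + p.2 + 1) p.1 v) x *
        EW D v fs (j + o + p.2 + 1 + ty fs + 1) (fun xs => g (x :: xs)) =
      ∑ x ∈ (av (D p.1) (own D (o + p.2) p.1 X)).support,
      av (D p.1) (own D (o + p.2) p.1 X) x *
        EW D X fs (o + p.2 + ty fs + 1) (fun xs => g (x :: xs))
    rw [hav]
    exact Finset.sum_congr rfl fun x _ => by rw [key]

end Fc_

/-- Module `Fc`. -/
theorem stFc (hS : StSh) : StFc := by
  intro V G m D W hT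
  have hSh := (hS V G m D W hT).2
  refine ⟨fun f j v hv X hX fs o ho g => Fc_.part1 hSh f j v hv X hX fs o ho g,
    ?_⟩
  intro p fs j hp v hv v' hv' hlb g
  have hav : av (D p.1) (own D j p.1 v) = av (D p.1) (own D j p.1 v') := by
    refine Fc_.av_congr _ _ _ fun r hr => ?_
    have := congrFun hlb r
    unfold lb at this
    rw [if_pos hr, if_pos hr] at this
    exact this
  have key : ∀ u ∈ W (p.1 + j + 1), ∀ x, av (D p.1) (own D j p.1 u) x ≠ 0 →
      ∀ g' : List V → ℝ, EW D u fs (j + ty fs + 1) g' = EW D x fs (0 + ty fs) g' := by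
    intro u hu x hx g'
    exact Fc_.part1 hSh p.1 j u hu x hx fs 0 (by rw [zero_add]; exact hp) g'
  change ∑ x ∈ (av (D p.1) (own D j p.1 v)).support,
      av (D p.1) (own D j p.1 v) x * EW D v fs (j + ty fs + 1) (fun xs => g (x :: xs)) =
    ∑ x ∈ (av (D p.1) (own D j p.1 v')).support,
      av (D p.1) (own D j p.1 v') x * EW D v' fs (j + ty fs + 1) (fun xs => g (x :: xs))
  rw [← hav]
  refine Finset.sum_congr rfl fun x hx => ?_
  have hx' : av (D p.1) (own D j p.1 v) x ≠ 0 := Finsupp.mem_support_iff.1 hx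
  rw [key v hv x hx', key v' hv' x (by rw [← hav]; exact hx')]

end Pool.Agent.Lib.TCW
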