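import Pool.Agent.Lib.TCW.Bas

/-!
# Towers of coherent levels: assembly of the chain theorem
-/

set_option autoImplicit false

namespace Pool.Agent.Lib.TCW

open Finset Classical
open Pool.Agent.Lib.TCH
open Pool.Agent.Lib.GSR3 (Tree)

/-- Parameters of the colourings. -/
abbrev Prm : Type := (ℕ × ℕ) × (ℕ × ℕ) × List (ℕ × ℕ) × ℕ × ℕ × ℕ

/-- The bad words. -/
def Fl2 {V : Type} (G : SimpleGraph V) (D : ℕ → Lv V) (M : ℕ) (ε : ℝ) (n f g : ℕ)
    (ws : List V) : Prop := Fl G D M ε n f g ws ∧ 2 ≤ ws.length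

/-- The colouring with the parameters `(p, p0, fs, j, g, l)`. -/
noncomputable def cf {V : Type} (G : SimpleGraph V) (m M : ℕ) (ε κ : ℝ) (n1 n : ℕ)
    (D : ℕ → Lv V) (t : Prm) : V → ℕ :=
  dg ((D (n - 1)).dom ∩ Bd D (t.1 :: t.2.1 :: t.2.2.1) t.2.2.2.1 (κ / 4 ^ t.2.2.2.2.2 / 2)
      (Fl2 G D M ε t.2.2.2.2.2 t.1.1 t.2.2.2.2.1))
    (lb D t.2.1.1 (t.2.2.2.1 + t.2.1.2 + 1)) (lb D t.2.1.1 (t.2.2.2.1 + t.2.1.2 + 2))
    (cb m n1 (κ / 4 ^ t.2.2.2.2.2 / 2) (D t.1.1).N)

/-- The families of functions which are constant on the sets of the tower. -/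
noncomputable def fam {V : Type} (G : SimpleGraph V) (m M : ℕ) (ε κ : ℝ) (n1 n : ℕ)
    (D : ℕ → Lv V) : Set (V → ℕ) :=
  (⋃ b ∈ Finset.range n, ⋃ s ∈ Finset.range (D b).q,
    {fun x => sgn ((D b).p s x) ((D b).mu s x)}) ∪
  ((⋃ b ∈ Finset.range n, ⋃ i ∈ Finset.range n, {fun x => min ⌊(n : ℝ) * U G D b i x⌋₊ n}) ∪
  (⋃ c ∈ Finset.range n, {φ | ∃ t : Prm, Encodable.decode c = some t ∧
    φ = cf G m M ε κ n1 n D t}))

lemma fam_finite {V : Type} (G : SimpleGraph V) (m M : ℕ) (ε κ : ℝ) (n1 n : ℕ) (D : ℕ → Lv V) :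
    (fam G m M ε κ n1 n D).Finite := by
  refine Set.Finite.union ?_ (Set.Finite.union ?_ ?_)
  · exact Set.Finite.biUnion (Finset.finite_toSet _) fun b _ =>
      Set.Finite.biUnion (Finset.finite_toSet _) fun s _ => Set.finite_singleton _
  · exact Set.Finite.biUnion (Finset.finite_toSet _) fun b _ =>
      Set.Finite.biUnion (Finset.finite_toSet _) fun s _ => Set.finite_singleton _
  · refine Set.Finite.biUnion (Finset.finite_toSet _) fun c _ => ?_
    refine Set.Subsingleton.finite ?_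
    rintro φ ⟨t, ht, rfl⟩ φ' ⟨t', ht', rfl⟩
    rw [ht] at ht'
    rw [Option.some.inj ht']

lemma sgn_lt {V : Type} (p p' : V →₀ ℝ) : sgn p p' < 3 := by
  unfold sgn
  split_ifs <;> omega

lemma fam_bdd (hDq : StDq) {V : Type} (G : SimpleGraph V) (m M : ℕ) (ε κ : ℝ) (n1 n : ℕ)
    (D : ℕ → Lv V) : ∀ φ ∈ fam G m M ε κ n1 n D, ∃ B, ∀ x, φ x < B := by
  intro φ hφ
  rcases hφ with hφ | hφ | hφ
  · simp only [Set.mem_iUnion] at hφ
    obtain ⟨b, _, s, _, hφ⟩ := hφ
    rw [Set.mem_singleton_iff] at hφ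
    subst hφ
    exact ⟨3, fun x => sgn_lt _ _⟩
  · simp only [Set.mem_iUnion] at hφ
    obtain ⟨b, _, i, _, hφ⟩ := hφ
    rw [Set.mem_singleton_iff] at hφ
    subst hφ
    exact ⟨n + 1, fun x => Nat.lt_succ_of_le (min_le_right _ _)⟩
  · simp only [Set.mem_iUnion] at hφ
    obtain ⟨c, _, t, _, hφ⟩ := hφ
    subst hφ
    exact ⟨_, fun x => (hDq V (ℕ → V →₀ ℝ) _ _ _ _).1 x⟩

lemma Adm.mono {S : Set ℕ} {h : ℕ} {d : ℕ → ℕ → ℕ} {Θ Θ' : List (ℕ × ℕ) → ℕ}
    (hΘ : ∀ fs, Θ' fs ≤ Θ fs) : ∀ {fs : List (ℕ × ℕ)}, Adm S h d Θ fs → Adm S h d Θ' fs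
  | [], _ => trivial
  | _ :: fs, hA => ⟨hA.1, hA.2.1, (hΘ fs).trans hA.2.2.1, Adm.mono hΘ hA.2.2.2⟩

lemma GD.ind {V : Type} {G : SimpleGraph V} {D : ℕ → Lv V} {M : ℕ} {ε : ℝ} :
    ∀ {n : ℕ} {xs : List V} {a b : ℕ}, GD G D M ε n xs a b → Ind G xs
  | 0, _, _, _, h => h
  | _ + 1, _, _, _, h => h.1

lemma tr_agree {V : Type} (n : ℕ) (D : ℕ → Lv V) : ∀ e < n, tr n D e = D e := fun e he => by
  unfold tr
  rw [if_pos he]

/-- The limit of the visibilities. -/
lemma lim_U (hSh : StSh) (hTc : StTc) {V : Type} {G : SimpleGraph V} {m : ℕ} {D : ℕ → Lv V}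
    {W : ℕ → Set V} (hT : Twr G m D W) (b i : ℕ)
    (hcst : ∀ n, b < n → i < n → ∀ x ∈ W n, ∀ y ∈ W n,
      min ⌊(n : ℝ) * U G (tr n D) b i x⌋₊ n = min ⌊(n : ℝ) * U G (tr n D) b i y⌋₊ n) :
    ∃ u : ℝ, ∀ n, b + i < n → ∀ x ∈ W n, |U G D b i x - u| ≤ 1 / n := by
  have hU01 : ∀ n, b + i < n → ∀ x ∈ W n, 0 ≤ U G D b i x ∧ U G D b i x ≤ 1 := by
    intro n hn x hx
    have h1 : own D i b x ∈ (D b).dom :=
      hT.sub b ((hSh V G m D W hT).1 b i x (hT.anti (by omega) hx))
    exact ⟨U_nn hT h1, U_le_one hT h1⟩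
  have hclose : ∀ n, b + i < n → ∀ x ∈ W n, ∀ y ∈ W n,
      |U G D b i x - U G D b i y| ≤ 1 / n := by
    intro n hn x hx y hy
    have hn0 : (0 : ℝ) < n := Nat.cast_pos.2 (by omega)
    have h1 := hcst n (by omega) (by omega) x hx y hy
    have hTcU := (hTc V G 0 0 (tr n D) D n (tr_agree n D)).2.2.1
    rw [hTcU b i x hn, hTcU b i y hn] at h1
    have key : ∀ z ∈ W n, ⌊(n : ℝ) * U G D b i z⌋₊ ≤ n := by
      intro z hz
      have h2 : (n : ℝ) * U G D b i z ≤ n := by
        have := (hU01 n hn z hz).2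
        nlinarith
      exact Nat.floor_le_of_le h2
    rw [min_eq_left (key x hx), min_eq_left (key y hy)] at h1
    have hx0 : 0 ≤ (n : ℝ) * U G D b i x := mul_nonneg hn0.le (hU01 n hn x hx).1
    have hy0 : 0 ≤ (n : ℝ) * U G D b i y := mul_nonneg hn0.le (hU01 n hn y hy).1
    have h3 := Nat.floor_le hx0
    have h4 := Nat.lt_floor_add_one ((n : ℝ) * U G D b i x)
    have h5 := Nat.floor_le hy0
    have h6 := Nat.lt_floor_add_one ((n : ℝ) * U G D b i y)
    rw [h1] at h3 h4
    have h7 : (n : ℝ) * |U G D b i x - U G D b i y| ≤ 1 := by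
      have h8 : (n : ℝ) * |U G D b i x - U G D b i y| =
          |(n : ℝ) * U G D b i x - (n : ℝ) * U G D b i y| := by
        rw [← mul_sub, abs_mul, abs_of_pos hn0]
      rw [h8, abs_le]
      constructor <;> linarith
    rw [le_div_iff₀ hn0]
    linarith
  -- the sequence of the values at chosen points
  set a : ℕ → ℝ := fun n => U G D b i (hT.ne n).choose with ha
  have ha' : ∀ n, (hT.ne n).choose ∈ W n := fun n => (hT.ne n).choose_spec
  have hcau : CauchySeq a := by
    refine Metric.cauchySeq_iff'.2 fun e he => ?_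
    obtain ⟨N0, hN0⟩ := exists_nat_gt (1 / e)
    refine ⟨max N0 (b + i + 1), fun n hn => ?_⟩
    have hN : b + i < max N0 (b + i + 1) := by omega
    have hpos : (0 : ℝ) < (max N0 (b + i + 1) : ℕ) := Nat.cast_pos.2 (by omega)
    rw [Real.dist_eq]
    refine lt_of_le_of_lt (hclose (max N0 (b + i + 1)) hN _ (hT.anti hn (ha' n)) _ (ha' _)) ?_
    rw [div_lt_iff₀ hpos]
    have h8 : (N0 : ℝ) ≤ (max N0 (b + i + 1) : ℕ) := by exact_mod_cast le_max_left _ _
    rw [div_lt_iff₀ he] at hN0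
    nlinarith
  obtain ⟨u, hu⟩ := cauchySeq_tendsto_of_complete hcau
  refine ⟨u, fun n hn x hx => ?_⟩
  have h9 : Filter.Tendsto (fun n' => |U G D b i x - a n'|) Filter.atTop
      (nhds |U G D b i x - u|) := (tendsto_const_nhds.sub hu).abs
  refine le_of_tendsto h9 ?_
  filter_upwards [Filter.eventually_ge_atTop n] with n' hn'
  exact hclose n hn x hx _ (hT.anti hn' (ha' n'))

/-- **The chain theorem**, from the modules. -/
theorem fin (hTw : StTw) (hSh : StSh) (hSr : StSr) (hBu : StBu) (hTy : StTy) (hEW : StEW)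
    (hIw : StIw) (hEm : StEm) (hNe : StNe) (hDq : StDq) (hC6 : StC6) (hUp : StUp)
    (hTc : StTc) : StChain := by
  intro V G big m k h M D0 hI hfin hcf hno hvc W0 hW0 hG
  obtain ⟨ε, hε, hEm'⟩ := hEm h M
  obtain ⟨n1, hn1⟩ := hNe D0 ε hε
  obtain ⟨κ, hκ, hIw'⟩ := hIw h
  obtain ⟨D, W, hT, hcst⟩ := hTw V G big m k h M hI hcf hno W0 hW0 hG
    (fun n D => fam G m M ε κ n1 n D) (fun n D => fam_finite G m M ε κ n1 n D)
    (fun n D => fam_bdd hDq G m M ε κ n1 n D)
  -- the labels are different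
  obtain ⟨b0, hb0⟩ := hSr V G m k D W hT hcf (by
    intro b s hs x hx y hy
    have h1 := hcst (b + 1) (fun x => sgn ((tr (b + 1) D b).p s x) ((tr (b + 1) D b).mu s x))
      (by
        refine Or.inl ?_
        simp only [Set.mem_iUnion]
        refine ⟨b, Finset.mem_range.2 (Nat.lt_succ_self b), s, ?_, rfl⟩
        rw [tr_agree (b + 1) D b (Nat.lt_succ_self b)]
        exact Finset.mem_range.2 hs) x hx y hy
    simp only [tr_agree (b + 1) D b (Nat.lt_succ_self b)] at h1
    exact h1)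
  -- the visibilities converge
  have hlim : ∀ b i, ∃ u : ℝ, ∀ n, b + i < n → ∀ x ∈ W n, |U G D b i x - u| ≤ 1 / n := by
    intro b i
    refine lim_U hSh hTc hT b i fun n hb hi x hx y hy => ?_
    refine hcst n (fun x => min ⌊(n : ℝ) * U G (tr n D) b i x⌋₊ n) ?_ x hx y hy
    refine Or.inr (Or.inl ?_)
    simp only [Set.mem_iUnion]
    exact ⟨b, Finset.mem_range.2 hb, i, Finset.mem_range.2 hi, rfl⟩
  choose u hu using hlim
  have hu' : ∀ b j (e : ℝ), 0 < e → ∃ N : ℕ, ∀ x ∈ W N, |U G D b j x - u b j| ≤ e := by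
    intro b j e he
    obtain ⟨N0, hN0⟩ := exists_nat_gt (1 / e)
    refine ⟨max N0 (b + j + 1), fun x hx => (hu b j _ (by omega) x hx).trans ?_⟩
    have hpos : (0 : ℝ) < (max N0 (b + j + 1) : ℕ) := Nat.cast_pos.2 (by omega)
    rw [div_le_iff₀ hpos]
    have h8 : (N0 : ℝ) ≤ (max N0 (b + j + 1) : ℕ) := by exact_mod_cast le_max_left _ _
    rw [div_lt_iff₀ he] at hN0
    nlinarith
  -- types
  obtain ⟨b1, hb1⟩ := exists_nat_ge (16 * (1 + 2 * (m : ℝ)) * 8 ^ h)
  obtain ⟨S, d, hSinf, hSd⟩ := hTy h (fun k => if k < h then (8 : ℝ)⁻¹ ^ (h - k) else 1 / 2) u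
    (max b0 (max b1 1))
    (by
      intro k
      split_ifs with hk
      · refine ⟨by positivity, ?_⟩
        calc (8 : ℝ)⁻¹ ^ (h - k) ≤ (8 : ℝ)⁻¹ ^ 1 :=
              pow_le_pow_of_le_one (by norm_num) (by norm_num) (by omega)
          _ ≤ 1 / 2 := by norm_num
      · norm_num)
    (by
      intro b hb
      have hb1 : 1 ≤ b := (le_max_right _ _).trans ((le_max_right _ _).trans hb)
      refine le_of_forall_pos_le_add fun e he => ?_
      obtain ⟨N, hN⟩ := hu' b 0 e he
      obtain ⟨x, hx⟩ := hT.ne (max N (b + 1))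
      have h1 := hN x (hT.anti (le_max_left _ _) hx)
      have hxd : x ∈ (D b).dom := hT.sub b (hT.anti (le_max_right _ _) hx)
      have h2 := ms_compl (av (D b) x) {y | G.Adj x y}
      rw [(hT.ok b).av_one hxd] at h2
      have h3 := (hT.ok b).av_adj hxd
      have h4 : ({y | G.Adj x y} : Set V)ᶜ = {y | ¬ G.Adj x y} := rfl
      rw [h4] at h2
      have h5 : U G D b 0 x = ms (av (D b) x) {y | G.Adj x y} := rfl
      have h6 : 0 ≤ ms (av (D b) x) {y | ¬ G.Adj x y} := ms_nn ((hT.ok b).av_nn hxd) _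
      have h7 : (2 : ℝ) ≤ ((b + 1 : ℕ) : ℝ) := by exact_mod_cast (by omega : 2 ≤ b + 1)
      rw [abs_le] at h1
      rw [h5] at h1
      nlinarith [h1.1, h1.2])
    (by
      intro b hb k hk
      rw [if_pos hk]
      set t : ℝ := (8 : ℝ)⁻¹ ^ (h - k) with ht
      have ht0 : 0 < t := by positivity
      have ht8 : 1 ≤ t * 8 ^ h := by
        rw [ht, inv_pow]
        have h1 : (8 : ℝ) ^ (h - k) ≤ 8 ^ h := pow_le_pow_right₀ (by norm_num) (by omega)
        have h2 : (0 : ℝ) < 8 ^ (h - k) := by positivity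
        rw [inv_mul_eq_div, le_div_iff₀ h2, one_mul]
        exact h1
      have hbb1 : (b1 : ℝ) ≤ b := by
        exact_mod_cast (le_max_left _ _).trans ((le_max_right _ _).trans hb)
      have hb1' : 1 ≤ b := (le_max_right _ _).trans ((le_max_right _ _).trans hb)
      have hm0 : (0 : ℝ) ≤ m := Nat.cast_nonneg _
      have hbig : 8 * (1 + 2 * (m : ℝ)) ≤ t / 2 * (b + 1) := by
        have h1 : 16 * (1 + 2 * (m : ℝ)) * (t * 8 ^ h) ≤ t * b := by
          have h2 := mul_le_mul_of_nonneg_left (hb1.trans hbb1) ht0.le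
          calc 16 * (1 + 2 * (m : ℝ)) * (t * 8 ^ h) = t * (16 * (1 + 2 * (m : ℝ)) * 8 ^ h) := by
                ring
            _ ≤ t * b := h2
        have h2 : 16 * (1 + 2 * (m : ℝ)) ≤ 16 * (1 + 2 * (m : ℝ)) * (t * 8 ^ h) :=
          le_mul_of_one_le_right (by positivity) ht8
        linarith
      refine ⟨⌊(D b).N / (t / 2 / 8) ^ (1 + 2 * m)⌋₊, fun F hF => ?_⟩
      -- a vertex where all the values are close to the limits
      have hF' : ∃ N, ∀ j ∈ F, b + j + 1 ≤ N := by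
        refine ⟨b + F.sup id + 1, fun j hj => ?_⟩
        have := Finset.le_sup (f := id) hj
        simp only [id] at this
        omega
      obtain ⟨N1, hN1⟩ := hF'
      obtain ⟨N2, hN2⟩ := exists_nat_gt (2 / t)
      set N := max (max N1 N2) (b + 1) with hNdef
      obtain ⟨x, hx⟩ := hT.ne (b + N + 1)
      have hNpos : (0 : ℝ) < N := Nat.cast_pos.2 (by omega)
      have hNt : (1 : ℝ) / N ≤ t / 2 := by
        have h5 : (N2 : ℝ) ≤ N := by
          exact_mod_cast (le_max_right N1 N2).trans (le_max_left _ _)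
        rw [div_le_iff₀ hNpos]
        rw [div_lt_iff₀ ht0] at hN2
        nlinarith
      have h1 := hBu V G m b D W hT (hb0 b ((le_max_left _ _).trans hb)) hb1' N x hx F (by
        intro j hj
        have := hN1 j hj
        rw [Finset.mem_range]
        omega) (t / 2) (by positivity) hbig (by
        intro j hj
        have h3 := hu b j N (by have := hN1 j hj; omega) x (hT.anti (by omega) hx)
        have h4 := hF j hj
        rw [abs_le] at h3
        linarith [h3.1])
      refine Nat.le_floor ?_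
      rw [le_div_iff₀ (by positivity)]
      exact h1)
  have hSd' : ∀ b ∈ S, ∀ k < h, (8 : ℝ)⁻¹ ^ (h - k) ≤ u b (d k b) ∧
      (∀ j, d k b < j → u b j < (8 : ℝ)⁻¹ ^ (h - k)) ∧ ∀ b' ∈ S, b ≤ b' → d k b ≤ d k b' := by
    intro b hb k hk
    have h1 := (hSd b hb).2 k hk
    rw [if_pos hk] at h1
    exact h1
  obtain ⟨Θ1, hΘ1⟩ := hIw' V G m D W hT u hu' S d hSd'
  -- the constants
  obtain ⟨c0, hc0⟩ := exists_nat_gt (32 * (n1 : ℝ) * (m + 1) / (κ / 4 ^ h / 2))
  set Θ : List (ℕ × ℕ) → ℕ := fun L => max (Θ1 L) (max (hg L (ty L) + 1) c0) with hΘ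
  have hη0 : 0 < κ / 4 ^ h / 2 := by positivity
  obtain ⟨a, b, x, hx⟩ := hUp V G m h M κ ε D W S d Θ hT hSinf hκ
    (fun fs hfs hA j => ⟨hg fs j, fun v hv =>
      hΘ1 fs hfs (hA.mono fun L => le_max_left _ _) j v hv⟩)
    (by
      intro l hl p fs hfs hA g j
      have hηl : 0 < κ / 4 ^ l / 2 := by positivity
      have hηle : κ / 4 ^ h / 2 ≤ κ / 4 ^ l / 2 := by
        have : (4 : ℝ) ^ l ≤ 4 ^ h := pow_le_pow_right₀ (by norm_num) hl.le
        gcongr
      cases fs with
      | nil =>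
        rw [List.length_nil] at hfs
        omega
      | cons p0 fs =>
        obtain ⟨hpS, hp2, hpΘ, hp0S, hp02, hp0Θ, hA'⟩ := hA
        have e1 : hg (p0 :: fs) p0.2 + 1 ≤ p.1 :=
          (le_max_left _ _).trans ((le_max_right _ _).trans hpΘ)
        have e2 : hg fs (ty fs) + 1 ≤ p0.1 :=
          (le_max_left _ _).trans ((le_max_right _ _).trans hp0Θ)
        have e3 : c0 ≤ p.1 := (le_max_right _ _).trans ((le_max_right _ _).trans hpΘ)
        have e4 : p0.1 + p0.2 + 1 ≤ hg (p0 :: fs) p0.2 := le_max_left _ _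
        set c := Encodable.encode ((p, p0, fs, j, g, l) : Prm) with hc
        set n := c + g + (hg (p :: p0 :: fs) j) + (p0.1 + j + p0.2 + 3) + p.1 with hn
        refine ⟨n + 2, fun v hv hv' => ?_⟩
        have hagree := tr_agree (n + 1) D
        obtain ⟨-, t2, -, t4, -, t6⟩ := hTc V G M ε (tr (n + 1) D) D (n + 1) hagree
        -- the set of bad vertices for words of length at least two
        have hv2 : v ∈ Bd D (p :: p0 :: fs) j (κ / 4 ^ l / 2) (Fl2 G D M ε l p.1 g) := by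
          have hv4 : κ / 4 ^ l / 2 ≤ EW D v (p :: p0 :: fs) j
              (fun ws => if Fl G D M ε l p.1 g ws then 1 else 0) := hv'
          refine le_trans hv4 ?_
          have hv3 : v ∈ W (hg (p :: p0 :: fs) j) := hT.anti (by omega) hv
          refine (hEW V G m D W hT (p :: p0 :: fs) j v hv3).2.1 _ _ fun xs hxs => ?_
          obtain ⟨x, ys, rfl, -, y, zs, rfl, -, -⟩ := hxs
          by_cases hF : Fl G D M ε l p.1 g (x :: y :: zs)
          · rw [if_pos hF, if_pos ⟨hF, by simp⟩]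
          · rw [if_neg hF]
            split_ifs <;> norm_num
        refine hC6 V G m D W hT p p0 fs j n n1 (κ / 4 ^ l / 2) (Fl2 G D M ε l p.1 g) hηl
          (hb0 _ ((le_max_left _ _).trans (hSd p0.1 hp0S).1)) (by omega) (by omega) (by omega)
          (by omega) (by omega) ?_ ?_ ?_ v hv hv2
        · -- the size of the level
          rw [div_lt_iff₀ hη0] at hc0
          have h1 : (c0 : ℝ) ≤ p.1 := by exact_mod_cast e3
          have h2 : (0 : ℝ) ≤ c0 := Nat.cast_nonneg _
          calc 32 * (n1 : ℝ) * (m + 1) ≤ c0 * (κ / 4 ^ h / 2) := hc0.le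
            _ ≤ (κ / 4 ^ l / 2) * (p.1 + 1) := by nlinarith
        · -- the covers
          intro xs
          cases xs with
          | nil =>
            refine ⟨∅, by simp, by simp, fun X hX => ?_⟩
            have := hX.2
            simp at this
          | cons y ys =>
            rcases hn1 V G hvc hfin (D p.1).dom
              {X | X ∈ sl D p.1 ∧ G.Adj X y ∧ GD G D M ε l (X :: y :: ys) (p.1 + 1) g} y
              (fun X hX => hX.2.1) with ⟨ζ, z1, z2, z3, z4⟩ | ⟨F, F1, F2, F3⟩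
            · refine ⟨∅, by simp, by simp, fun X hX => ?_⟩
              obtain ⟨⟨X', xs, he, h1, h2, h3⟩, -⟩ := hX
              obtain ⟨rfl, rfl⟩ := List.cons_eq_cons.1 he
              refine absurd ?_ h3
              refine ⟨ζ, z1, z2, fun X hX => ⟨(z3 X hX).1, ?_, (z3 X hX).2.2⟩, z4⟩
              intro y' hy'
              simp only [List.head?_cons, Option.mem_some_iff] at hy'
              rw [← hy']
              exact (z3 X hX).2.1
            · refine ⟨F, F1, F2, fun X hX => F3 X ?_⟩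
              obtain ⟨⟨X', xs, he, h1, h2, h3⟩, -⟩ := hX
              obtain ⟨rfl, rfl⟩ := List.cons_eq_cons.1 he
              refine ⟨h1, ?_, h2⟩
              have h4 : Ind G (X :: y :: ys) := h2.ind
              exact h4.1 y (by simp)
        · -- the colouring is constant
          have hfn : cf G m M ε κ n1 (n + 1) (tr (n + 1) D) (p, p0, fs, j, g, l) =
              dg ((D n).dom ∩ Bd D (p :: p0 :: fs) j (κ / 4 ^ l / 2) (Fl2 G D M ε l p.1 g))
                (lb D p0.1 (j + p0.2 + 1)) (lb D p0.1 (j + p0.2 + 2))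
                (cb m n1 (κ / 4 ^ l / 2) (D p.1).N) := by
            unfold cf
            dsimp only
            have g1 : tr (n + 1) D (n + 1 - 1) = D n := hagree n (Nat.lt_succ_self n)
            have g2 : tr (n + 1) D p.1 = D p.1 := hagree p.1 (by omega)
            have g3 : lb (tr (n + 1) D) p0.1 (j + p0.2 + 1) = lb D p0.1 (j + p0.2 + 1) := by
              funext v
              exact t2 _ _ v (by omega)
            have g4 : lb (tr (n + 1) D) p0.1 (j + p0.2 + 2) = lb D p0.1 (j + p0.2 + 2) := by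
              funext v
              exact t2 _ _ v (by omega)
            have g5 : Bd (tr (n + 1) D) (p :: p0 :: fs) j (κ / 4 ^ l / 2)
                (Fl2 G (tr (n + 1) D) M ε l p.1 g) =
                Bd D (p :: p0 :: fs) j (κ / 4 ^ l / 2) (Fl2 G D M ε l p.1 g) := by
              have g6 : Fl2 G (tr (n + 1) D) M ε l p.1 g = Fl2 G D M ε l p.1 g := by
                funext ws
                unfold Fl2
                rw [t6 l p.1 g ws (by omega) (by omega)]
              rw [g6]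
              ext v
              unfold Bd
              simp only [Set.mem_ofPred_eq]
              rw [t4 (p :: p0 :: fs) j v _ (by omega)]
            rw [g1, g2, g3, g4, g5]
          intro x hx y hy
          rw [← hfn]
          refine hcst (n + 1) _ ?_ x hx y hy
          refine Or.inr (Or.inr ?_)
          simp only [Set.mem_iUnion]
          exact ⟨c, Finset.mem_range.2 (by omega), (p, p0, fs, j, g, l),
            Encodable.encodek _, rfl⟩)
  obtain ⟨φ, hφ⟩ := hEm' V G D x a b hx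
  exact hno φ hφ

end Pool.Agent.Lib.TCW
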