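import Pool.Agent.Lib.TCW.S2

/-!
# Module `Iw`: random words are induced with probability at least `κ`
-/

set_option autoImplicit false

namespace Pool.Agent.Lib.TCW

open Finset Classical
open Pool.Agent.Lib.TCH

namespace Iw_

variable {V : Type}

/-- the levels and distances of the entries of a word -/
def en : List (ℕ × ℕ) → ℕ → List (ℕ × ℕ)
  | [], _ => []
  | p :: fs, j => (p.1, j) :: en fs (j + ty fs + 1)

theorem en_shift (fs : List (ℕ × ℕ)) : ∀ j a : ℕ,
    en fs (j + a) = (en fs j).map (fun q => (q.1, q.2 + a)) := by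
  induction fs with
  | nil => intro j a; rfl
  | cons p fs ih =>
    intro j a
    have h1 : j + a + ty fs + 1 = (j + ty fs + 1) + a := by omega
    simp only [en, List.map_cons]
    rw [h1, ih]

theorem hg_le (fs : List (ℕ × ℕ)) : ∀ (j : ℕ) (q : ℕ × ℕ), q ∈ en fs j → q.1 + q.2 + 1 ≤ hg fs j := by
  induction fs with
  | nil => intro j q hq; exact absurd hq List.not_mem_nil
  | cons p fs ih =>
    intro j q hq
    simp only [en, List.mem_cons] at hq
    simp only [hg]
    rcases hq with rfl | hq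
    · exact le_max_left _ _
    · exact (ih _ q hq).trans (le_max_right _ _)

theorem le_en (fs : List (ℕ × ℕ)) : ∀ (j : ℕ) (q : ℕ × ℕ), q ∈ en fs j → j ≤ q.2 := by
  induction fs with
  | nil => intro j q hq; exact absurd hq List.not_mem_nil
  | cons p fs ih =>
    intro j q hq
    simp only [en, List.mem_cons] at hq
    rcases hq with rfl | hq
    · exact le_rfl
    · have := ih _ q hq
      omega

theorem hg_lt (fs : List (ℕ × ℕ)) : ∀ j : ℕ, ∀ q ∈ fs, q.1 < hg fs j := by
  induction fs with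
  | nil => intro j q hq; exact absurd hq List.not_mem_nil
  | cons p fs ih =>
    intro j q hq
    simp only [hg]
    rcases List.mem_cons.1 hq with rfl | hq
    · exact lt_of_lt_of_le (by omega) (le_max_left _ _)
    · exact lt_of_lt_of_le (ih _ q hq) (le_max_right _ _)

theorem adm_mem {S : Set ℕ} {h : ℕ} {d : ℕ → ℕ → ℕ} {Θ : List (ℕ × ℕ) → ℕ}
    (fs : List (ℕ × ℕ)) : ∀ j : ℕ, Adm S h d Θ fs → ∀ q ∈ en fs j, q.1 ∈ S := by
  induction fs with
  | nil => intro j _ q hq; exact absurd hq List.not_mem_nil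
  | cons p fs ih =>
    intro j hA q hq
    simp only [en, List.mem_cons] at hq
    simp only [Adm] at hA
    rcases hq with rfl | hq
    · exact hA.1
    · exact ih _ hA.2.2.2 q hq

theorem W_anti {G : SimpleGraph V} {m : ℕ} {D : ℕ → Lv V} {W : ℕ → Set V} (hT : Twr G m D W)
    {a b : ℕ} (h : a ≤ b) : W b ⊆ W a := by
  induction b, h using Nat.le_induction with
  | base => exact subset_rfl
  | succ b _ ih => exact ((hT.sub b).trans (hT.ok b).sub).trans ih

/-! ### The average law -/

theorem av_apply (D : Lv V) (x y : V) :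
    av D x y = (D.q : ℝ)⁻¹ * ∑ s ∈ range D.q, D.p s x y := by
  rw [av, Finsupp.finsetSum_apply, Finset.mul_sum]
  exact Finset.sum_congr rfl fun s _ => by rw [Finsupp.smul_apply, smul_eq_mul]

theorem av_congr {D : Lv V} {x x' : V} (h : ∀ r < D.q, D.p r x = D.p r x') :
    av D x = av D x' := by
  rw [av, av]
  exact Finset.sum_congr rfl fun s hs => by rw [h s (mem_range.1 hs)]

theorem av_ne {D : Lv V} {x y : V} (h : av D x y ≠ 0) : ∃ s < D.q, D.p s x y ≠ 0 := by
  by_contra hc
  push Not at hc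
  apply h
  rw [av_apply, Finset.sum_eq_zero fun s hs => hc s (mem_range.1 hs), mul_zero]

theorem av_nonneg {G : SimpleGraph V} {m R : ℕ} {C : V → V → Prop} {W : Set V} {D : Lv V}
    (h : OK G m C R W D) {x : V} (hx : x ∈ D.dom) (y : V) : 0 ≤ av D x y := by
  rw [av_apply]
  exact mul_nonneg (inv_nonneg.2 (Nat.cast_nonneg _))
    (Finset.sum_nonneg fun s hs => h.nn s (mem_range.1 hs) x hx y)

theorem av_le {G : SimpleGraph V} {m R : ℕ} {C : V → V → Prop} {W : Set V} {D : Lv V}
    (h : OK G m C R W D) {x : V} (hx : x ∈ D.dom) (y : V) (hy : y ∈ D.dom) : av D x y ≤ (R : ℝ)⁻¹ := by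
  have hR : (0 : ℝ) < R := by
    have := h.R1
    exact_mod_cast this
  have hq : (0 : ℝ) < D.q := by
    have h1 := h.R1
    have h2 := h.qR
    have : 0 < D.q := by omega
    exact_mod_cast this
  rw [av_apply, inv_mul_le_iff₀ hq]
  have h1 : ∑ s ∈ range D.q, D.p s x y ≤ ∑ _s ∈ range D.q, (R : ℝ)⁻¹ := by
    refine Finset.sum_le_sum fun s hs => ?_
    have h2 := h.atm s (mem_range.1 hs) x hx y hy
    rw [← one_div, le_div_iff₀ hR, mul_comm]
    exact h2
  rw [Finset.sum_const, Finset.card_range, nsmul_eq_mul] at h1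
  exact h1

/-! ### The mass of the good vertices -/

theorem mass (G : SimpleGraph V) (P : V →₀ ℝ) (hP : ∀ x, 0 ≤ P x) (y : V) (ys : List V) :
    ms P {x | G.Adj y x} - (ys.map fun z => ms P {x | G.Adj z x} + P z).sum ≤
      ∑ x ∈ P.support, P x *
        (if G.Adj y x ∧ ∀ z ∈ ys, z ≠ x ∧ ¬ G.Adj z x then (1 : ℝ) else 0) := by
  induction ys with
  | nil =>
    rw [List.map_nil, List.sum_nil, sub_zero, ms, Finset.sum_filter]
    refine Finset.sum_le_sum fun x _ => ?_
    by_cases h : G.Adj y x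
    · simp [h]
    · simp [h]
  | cons z ys ih =>
    rw [List.map_cons, List.sum_cons]
    have h1 : ms P {x | G.Adj z x} = ∑ x ∈ P.support, P x * (if G.Adj z x then (1 : ℝ) else 0) := by
      rw [ms, Finset.sum_filter]
      refine Finset.sum_congr rfl fun x _ => ?_
      by_cases h : G.Adj z x
      · simp [h]
      · simp [h]
    have h2 : P z = ∑ x ∈ P.support, P x * (if z = x then (1 : ℝ) else 0) := by
      simp only [mul_ite, mul_one, mul_zero, Finset.sum_ite_eq]
      by_cases h : z ∈ P.support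
      · rw [if_pos h]
      · rw [if_neg h]
        exact Finsupp.notMem_support_iff.1 h
    have h3 : ∑ x ∈ P.support, P x *
        (if G.Adj y x ∧ ∀ z ∈ ys, z ≠ x ∧ ¬ G.Adj z x then (1 : ℝ) else 0) ≤
        ∑ x ∈ P.support, P x *
          (if G.Adj y x ∧ ∀ z' ∈ z :: ys, z' ≠ x ∧ ¬ G.Adj z' x then (1 : ℝ) else 0) +
        (∑ x ∈ P.support, P x * (if G.Adj z x then (1 : ℝ) else 0) +
          ∑ x ∈ P.support, P x * (if z = x then (1 : ℝ) else 0)) := by
      rw [← Finset.sum_add_distrib, ← Finset.sum_add_distrib]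
      refine Finset.sum_le_sum fun x _ => ?_
      rw [← mul_add, ← mul_add]
      refine mul_le_mul_of_nonneg_left ?_ (hP x)
      by_cases ha : G.Adj z x
      · rw [if_pos ha]
        have e1 : (if G.Adj y x ∧ ∀ z ∈ ys, z ≠ x ∧ ¬ G.Adj z x then (1 : ℝ) else 0) ≤ 1 := by
          split_ifs <;> norm_num
        have e2 : (0 : ℝ) ≤
            (if G.Adj y x ∧ ∀ z' ∈ z :: ys, z' ≠ x ∧ ¬ G.Adj z' x then (1 : ℝ) else 0) := by
          split_ifs <;> norm_num
        have e3 : (0 : ℝ) ≤ (if z = x then (1 : ℝ) else 0) := by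
          split_ifs <;> norm_num
        linarith
      · rw [if_neg ha]
        by_cases hb : z = x
        · rw [if_pos hb]
          have e1 : (if G.Adj y x ∧ ∀ z ∈ ys, z ≠ x ∧ ¬ G.Adj z x then (1 : ℝ) else 0) ≤ 1 := by
            split_ifs <;> norm_num
          have e2 : (0 : ℝ) ≤
              (if G.Adj y x ∧ ∀ z' ∈ z :: ys, z' ≠ x ∧ ¬ G.Adj z' x then (1 : ℝ) else 0) := by
            split_ifs <;> norm_num
          linarith
        · rw [if_neg hb]
          by_cases hc : G.Adj y x ∧ ∀ z ∈ ys, z ≠ x ∧ ¬ G.Adj z x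
          · have hd : G.Adj y x ∧ ∀ z' ∈ z :: ys, z' ≠ x ∧ ¬ G.Adj z' x := by
              refine ⟨hc.1, fun z' hz' => ?_⟩
              rcases List.mem_cons.1 hz' with rfl | hz'
              · exact ⟨hb, ha⟩
              · exact hc.2 z' hz'
            rw [if_pos hc, if_pos hd]
            norm_num
          · rw [if_neg hc]
            split_ifs <;> norm_num
    rw [← h1, ← h2] at h3
    linarith

theorem ind_snoc (G : SimpleGraph V) (y x : V) (ys : List V) (h : Ind G (ys ++ [y]))
    (hyx : G.Adj y x) (hz : ∀ z ∈ ys, z ≠ x ∧ ¬ G.Adj z x) : Ind G (ys ++ [y] ++ [x]) := by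
  induction ys with
  | nil =>
    simp only [List.nil_append, List.cons_append, Ind]
    refine ⟨fun w hw => ?_, fun w hw => ?_, fun w hw => ?_, fun w hw => ?_, trivial⟩
    · simp only [List.head?_cons, Option.mem_def, Option.some.injEq] at hw
      rwa [← hw]
    · exact absurd hw List.not_mem_nil
    · exact absurd hw (by simp)
    · exact absurd hw List.not_mem_nil
  | cons a ys ih =>
    have ih' := ih (by
      rw [List.cons_append] at h
      exact h.2.2) fun z hz' => hz z (List.mem_cons_of_mem _ hz')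
    have ha := hz a List.mem_cons_self
    cases ys with
    | nil =>
      simp only [List.nil_append, List.cons_append] at h ih' ⊢
      refine ⟨h.1, fun w hw => ?_, ih'⟩
      simp only [List.tail_cons, List.mem_singleton] at hw
      rw [hw]
      exact ha
    | cons c ys =>
      simp only [List.cons_append] at h ih' ⊢
      refine ⟨h.1, fun w hw => ?_, ih'⟩
      simp only [List.tail_cons] at hw
      rcases List.mem_append.1 hw with hw | hw
      · exact h.2.1 w hw
      · rw [List.mem_singleton.1 hw]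
        exact ha

/-- The lower bound for words of length `l` below a vertex. -/
noncomputable def cc : ℕ → ℝ
  | 0 => 1
  | l + 1 => cc l * ((8 : ℝ)⁻¹ ^ (l + 1) / 2)

theorem cc_pos : ∀ l, 0 < cc l
  | 0 => one_pos
  | l + 1 => mul_pos (cc_pos l) (by positivity)

theorem sum_map_add' (f g : V → ℝ) (ys : List V) :
    (ys.map fun z => f z + g z).sum = (ys.map f).sum + (ys.map g).sum := by
  induction ys with
  | nil => simp
  | cons a ys ih =>
    simp only [List.map_cons, List.sum_cons, ih]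
    ring

theorem sum_map_le (f : V → ℝ) (e : ℝ) (ys : List V) (h : ∀ z ∈ ys, f z ≤ e) :
    (ys.map f).sum ≤ ys.length * e := by
  induction ys with
  | nil => simp
  | cons a ys ih =>
    simp only [List.map_cons, List.sum_cons, List.length_cons, Nat.cast_add, Nat.cast_one]
    have h1 := h a List.mem_cons_self
    have h2 := ih fun z hz => h z (List.mem_cons_of_mem _ hz)
    linarith

/-- The law of the vertex at the level `q.1` and the distance `q.2` below `v`. -/
noncomputable def lw (D : ℕ → Lv V) (v : V) (q : ℕ × ℕ) : V →₀ ℝ := av (D q.1) (own D q.2 q.1 v)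

section Main

variable {G : SimpleGraph V} {m : ℕ} {D : ℕ → Lv V} {W : ℕ → Set V}

theorem lw_dom (hSh : StSh) (hT : Twr G m D W) {v : V} {b J : ℕ} (hv : v ∈ W (b + J + 1)) :
    own D J b v ∈ (D b).dom :=
  hT.sub b ((hSh V G m D W hT).1 b J v hv)

theorem main (hSh : StSh) (hEW : StEW) (hT : Twr G m D W) (h : ℕ) (e : ℝ)
    (he0 : 0 ≤ e) (he : (2 * (h : ℝ) + 2) * e ≤ (8 : ℝ)⁻¹ ^ h / 3) {S : Set ℕ} {d : ℕ → ℕ → ℕ}
    {Θ : List (ℕ × ℕ) → ℕ}
    -- the properties of a new vertex
    (hnew : ∀ (p : ℕ × ℕ) (fs : List (ℕ × ℕ)), Adm S h d Θ (p :: fs) → fs.length ≤ h →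
      ∀ (v : V) (J : ℕ), v ∈ W (hg (p :: fs) J) → ∀ x, lw D v (p.1, J) x ≠ 0 →
      ∀ (q : ℕ × ℕ) (gs : List (ℕ × ℕ)), fs = q :: gs →
        (8 : ℝ)⁻¹ ^ fs.length - e ≤ ms (lw D v (q.1, J + ty fs + 1)) {z | G.Adj x z} ∧
        ∀ r ∈ en gs (J + ty fs + 1 + ty gs + 1),
          ms (lw D v r) {z | G.Adj x z} ≤ (8 : ℝ)⁻¹ ^ fs.length + e)
    (hat : ∀ (p : ℕ × ℕ) (fs : List (ℕ × ℕ)), Adm S h d Θ (p :: fs) →
      ∀ (v : V) (J : ℕ), v ∈ W (hg (p :: fs) J) → ∀ x ∈ (D p.1).dom, lw D v (p.1, J) x ≤ e)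
    (hdm : ∀ (p : ℕ × ℕ) (fs : List (ℕ × ℕ)), Adm S h d Θ (p :: fs) →
      ∀ (v : V) (J : ℕ), v ∈ W (hg (p :: fs) J) → ∀ x, lw D v (p.1, J) x ≠ 0 →
      ∀ q ∈ fs, x ∈ (D q.1).dom)
    (v : V) : ∀ (fs : List (ℕ × ℕ)), Adm S h d Θ fs → ∀ (J : ℕ), v ∈ W (hg fs J) →
    ∀ (ys : List V) (y : V), (∀ z ∈ ys ++ [y], ∀ q ∈ fs, z ∈ (D q.1).dom) →
      ys.length + fs.length ≤ h → Ind G (ys ++ [y]) →
      (∀ r ∈ en fs J, (ys.map fun z => ms (lw D v r) {w | G.Adj z w}).sum ≤
        (8 : ℝ)⁻¹ ^ fs.length / 7 + ys.length * e) →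
      (∀ (q : ℕ × ℕ) (gs : List (ℕ × ℕ)), fs = q :: gs →
        (8 : ℝ)⁻¹ ^ fs.length - e ≤ ms (lw D v (q.1, J)) {z | G.Adj y z} ∧
        ∀ r ∈ en gs (J + ty gs + 1),
          ms (lw D v r) {z | G.Adj y z} ≤ (8 : ℝ)⁻¹ ^ fs.length + e) →
      cc fs.length ≤ EW D v fs J (fun xs => if Ind G (ys ++ [y] ++ xs) then 1 else 0) := by
  intro fs
  induction fs with
  | nil =>
    intro _ J _ ys y _ _ hI _ _
    simp only [List.length_nil, cc, EW, List.append_nil]
    rw [if_pos hI]
  | cons p fs ih =>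
    intro hA J hv ys y hys hlen hI h1 h2
    obtain ⟨h3, h4⟩ := h2 p fs rfl
    have hA' : Adm S h d Θ fs := hA.2.2.2
    have hv1 : v ∈ W (p.1 + J + 1) := W_anti hT (by
      simp only [hg]
      exact le_max_left _ _) hv
    have hv2 : v ∈ W (hg fs (J + ty fs + 1)) := W_anti hT (by
      simp only [hg]
      exact le_max_right _ _) hv
    have hdom : own D J p.1 v ∈ (D p.1).dom := lw_dom hSh hT hv1
    have hP0 : ∀ x, 0 ≤ lw D v (p.1, J) x := fun x => av_nonneg (hT.ok p.1) hdom x
    have hl : fs.length ≤ h := by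
      simp only [List.length_cons] at hlen
      omega
    -- the mass of the good vertices
    have hm := mass G (lw D v (p.1, J)) hP0 y ys
    rw [sum_map_add'] at hm
    have hs1 := h1 (p.1, J) (by simp [en])
    have hs2 := sum_map_le (fun z => lw D v (p.1, J) z) e ys
      (fun z hz => hat p fs hA v J hv z
        (hys z (List.mem_append_left _ hz) p List.mem_cons_self))
    have hmass : (8 : ℝ)⁻¹ ^ (fs.length + 1) / 2 ≤ ∑ x ∈ (lw D v (p.1, J)).support,
        lw D v (p.1, J) x *
          (if G.Adj y x ∧ ∀ z ∈ ys, z ≠ x ∧ ¬ G.Adj z x then (1 : ℝ) else 0) := by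
      refine le_trans ?_ hm
      simp only [List.length_cons] at hs1 h3 hlen
      have e1 : (8 : ℝ)⁻¹ ^ h ≤ (8 : ℝ)⁻¹ ^ (fs.length + 1) :=
        pow_le_pow_of_le_one (by norm_num) (by norm_num) (by omega)
      have e2 : (ys.length : ℝ) ≤ h := by
        have : ys.length ≤ h := by omega
        exact_mod_cast this
      have e3 : (ys.length : ℝ) * e ≤ h * e := mul_le_mul_of_nonneg_right e2 he0
      have e4 : 0 ≤ (8 : ℝ)⁻¹ ^ (fs.length + 1) := by positivity
      nlinarith
    -- the expectation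
    have hEW0 : ∀ x, 0 ≤ EW D v fs (J + ty fs + 1)
        (fun xs => if Ind G (ys ++ [y] ++ (x :: xs)) then (1 : ℝ) else 0) := by
      intro x
      obtain ⟨c1, c2, -, -⟩ := hEW V G m D W hT fs (J + ty fs + 1) v hv2
      have c3 := c2 (fun _ => (0 : ℝ))
        (fun xs => if Ind G (ys ++ [y] ++ (x :: xs)) then (1 : ℝ) else 0) (fun xs _ => by
          split_ifs <;> norm_num)
      rw [c1 0] at c3
      exact c3
    have hstep : ∀ x ∈ (lw D v (p.1, J)).support,
        lw D v (p.1, J) x * (cc fs.length *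
          (if G.Adj y x ∧ ∀ z ∈ ys, z ≠ x ∧ ¬ G.Adj z x then (1 : ℝ) else 0)) ≤
        lw D v (p.1, J) x * EW D v fs (J + ty fs + 1)
          (fun xs => if Ind G (ys ++ [y] ++ (x :: xs)) then (1 : ℝ) else 0) := by
      intro x hx
      refine mul_le_mul_of_nonneg_left ?_ (hP0 x)
      by_cases hg : G.Adj y x ∧ ∀ z ∈ ys, z ≠ x ∧ ¬ G.Adj z x
      · rw [if_pos hg, mul_one]
        have hi := ih hA' (J + ty fs + 1) hv2 (ys ++ [y]) x (by
          intro z hz q hq
          rcases List.mem_append.1 hz with hz | hz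
          · exact hys z hz q (List.mem_cons_of_mem _ hq)
          · rw [List.mem_singleton.1 hz]
            exact hdm p fs hA v J hv x (Finsupp.mem_support_iff.1 hx) q hq) (by
          simp only [List.length_append, List.length_cons, List.length_nil] at hlen ⊢
          omega) (ind_snoc G y x ys hI hg.1 hg.2) ?_ ?_
        · have e1 : ∀ xs : List V, ys ++ [y] ++ [x] ++ xs = ys ++ [y] ++ (x :: xs) := by
            intro xs
            simp
          simp only [e1] at hi
          exact hi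
        · intro r hr
          have f1 := h1 r (by
            simp only [en, List.mem_cons]
            exact Or.inr hr)
          have f2 := h4 r hr
          rw [List.map_append, List.sum_append, List.map_singleton, List.sum_singleton,
            List.length_append, List.length_singleton]
          simp only [List.length_cons, pow_succ] at f1 f2
          push_cast
          linarith
        · intro q gs hfs
          exact hnew p fs hA hl v J hv x (Finsupp.mem_support_iff.1 hx) q gs hfs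
      · rw [if_neg hg, mul_zero]
        exact hEW0 x
    have hfin : EW D v (p :: fs) J (fun xs => if Ind G (ys ++ [y] ++ xs) then (1 : ℝ) else 0) =
        ∑ x ∈ (lw D v (p.1, J)).support, lw D v (p.1, J) x * EW D v fs (J + ty fs + 1)
          (fun xs => if Ind G (ys ++ [y] ++ (x :: xs)) then (1 : ℝ) else 0) := rfl
    rw [hfin]
    refine le_trans ?_ (Finset.sum_le_sum hstep)
    have h5 : ∑ x ∈ (lw D v (p.1, J)).support, lw D v (p.1, J) x * (cc fs.length *
          (if G.Adj y x ∧ ∀ z ∈ ys, z ≠ x ∧ ¬ G.Adj z x then (1 : ℝ) else 0)) =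
        cc fs.length * ∑ x ∈ (lw D v (p.1, J)).support, lw D v (p.1, J) x *
          (if G.Adj y x ∧ ∀ z ∈ ys, z ≠ x ∧ ¬ G.Adj z x then (1 : ℝ) else 0) := by
      rw [Finset.mul_sum]
      exact Finset.sum_congr rfl fun x _ => by ring
    rw [h5]
    simp only [List.length_cons, cc]
    exact mul_le_mul_of_nonneg_left hmass (cc_pos _).le

end Main

end Iw_

open Iw_

theorem stIw : StSh → StEW → StFc → StIw := by
  intro hSh hEW _ h
  refine ⟨cc h, cc_pos h, ?_⟩
  intro V G m D W hT u hu S d hd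
  set e : ℝ := (8 : ℝ)⁻¹ ^ h / 3 / (2 * (h : ℝ) + 2) with hedef
  have hden : (0 : ℝ) < 2 * (h : ℝ) + 2 := by positivity
  have hepos : 0 < e := by positivity
  have he : (2 * (h : ℝ) + 2) * e ≤ (8 : ℝ)⁻¹ ^ h / 3 := by
    rw [hedef, mul_div_cancel₀ _ hden.ne']
  choose N hN using fun b j => hu b j e hepos
  obtain ⟨N0, hN0⟩ := exists_nat_gt e⁻¹
  refine ⟨fun fs => hg fs (ty fs) + N0 + ((en fs (ty fs)).map fun q => N q.1 q.2).sum, ?_⟩
  set Θ : List (ℕ × ℕ) → ℕ :=
    fun fs => hg fs (ty fs) + N0 + ((en fs (ty fs)).map fun q => N q.1 q.2).sum with hΘ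
  have hat : ∀ (p : ℕ × ℕ) (fs : List (ℕ × ℕ)), Adm S h d Θ (p :: fs) →
      ∀ (v : V) (J : ℕ), v ∈ W (hg (p :: fs) J) → ∀ x ∈ (D p.1).dom,
        lw D v (p.1, J) x ≤ e := by
    intro p fs hA v J hv x hx
    have hv1 : v ∈ W (p.1 + J + 1) := W_anti hT (by
      simp only [hg]
      exact le_max_left _ _) hv
    have h1 := av_le (hT.ok p.1) (lw_dom hSh hT hv1) x hx
    refine h1.trans ?_
    have h2 : N0 ≤ p.1 := by
      have h3 := hA.2.2.1
      simp only [hΘ] at h3
      omega
    have h4 : e⁻¹ ≤ ((p.1 + 1 : ℕ) : ℝ) := by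
      have h5 : (N0 : ℝ) ≤ ((p.1 + 1 : ℕ) : ℝ) := by
        have : N0 ≤ p.1 + 1 := by omega
        exact_mod_cast this
      linarith
    exact inv_le_of_inv_le₀ hepos h4
  have hdm : ∀ (p : ℕ × ℕ) (fs : List (ℕ × ℕ)), Adm S h d Θ (p :: fs) →
      ∀ (v : V) (J : ℕ), v ∈ W (hg (p :: fs) J) → ∀ x, lw D v (p.1, J) x ≠ 0 →
      ∀ q ∈ fs, x ∈ (D q.1).dom := by
    intro p fs hA v J hv x hx q hq
    have hv1 : v ∈ W (p.1 + J + 1) := W_anti hT (by
      simp only [hg]
      exact le_max_left _ _) hv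
    obtain ⟨s, hs, hsx⟩ := av_ne hx
    have hxW : x ∈ W p.1 := ((hT.ok p.1).sup s hs _ (lw_dom hSh hT hv1) x hsx).1
    have h3 := hA.2.2.1
    simp only [hΘ] at h3
    have h4 := hg_lt fs (ty fs) q hq
    exact hT.sub q.1 (W_anti hT (by omega) hxW)
  have hnew : ∀ (p : ℕ × ℕ) (fs : List (ℕ × ℕ)), Adm S h d Θ (p :: fs) → fs.length ≤ h →
      ∀ (v : V) (J : ℕ), v ∈ W (hg (p :: fs) J) → ∀ x, lw D v (p.1, J) x ≠ 0 →
      ∀ (q : ℕ × ℕ) (gs : List (ℕ × ℕ)), fs = q :: gs →
        (8 : ℝ)⁻¹ ^ fs.length - e ≤ ms (lw D v (q.1, J + ty fs + 1)) {z | G.Adj x z} ∧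
        ∀ r ∈ en gs (J + ty fs + 1 + ty gs + 1),
          ms (lw D v r) {z | G.Adj x z} ≤ (8 : ℝ)⁻¹ ^ fs.length + e := by
    intro p fs hA hl v J hv x hx q gs hfs
    have hv1 : v ∈ W (p.1 + J + 1) := W_anti hT (by
      simp only [hg]
      exact le_max_left _ _) hv
    obtain ⟨s, hs, hsx⟩ := av_ne hx
    have hxW : x ∈ W p.1 := ((hT.ok p.1).sup s hs _ (lw_dom hSh hT hv1) x hsx).1
    have hΘp := hA.2.2.1
    simp only [hΘ] at hΘp
    -- the law at an entry
    have key : ∀ r ∈ en fs (ty fs),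
        ms (lw D v (r.1, r.2 + (J + 1))) {z | G.Adj x z} ≤ u r.1 r.2 + e ∧
        u r.1 r.2 - e ≤ ms (lw D v (r.1, r.2 + (J + 1))) {z | G.Adj x z} := by
      intro r hr
      have h1 := hg_le fs (ty fs) r hr
      have h2 : N r.1 r.2 ≤ ((en fs (ty fs)).map fun q => N q.1 q.2).sum :=
        List.single_le_sum (fun _ _ => Nat.zero_le _) _ (List.mem_map_of_mem hr)
      have h3 := hN r.1 r.2 x (W_anti hT (by omega) hxW)
      have h4 : lw D v (r.1, r.2 + (J + 1)) = av (D r.1) (own D r.2 r.1 x) := by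
        refine (av_congr fun t ht => ?_).symm
        exact (hSh V G m D W hT).2 p.1 J v hv1 s hs x hsx r.1 r.2 (by omega) t ht
      rw [h4]
      have h5 : ms (av (D r.1) (own D r.2 r.1 x)) {z | G.Adj x z} = U G D r.1 r.2 x := rfl
      rw [h5]
      rw [abs_le] at h3
      constructor <;> linarith [h3.1, h3.2]
    subst hfs
    have hA' : Adm S h d Θ (q :: gs) := hA.2.2.2
    have hk : h - 1 - gs.length < h := by
      simp only [List.length_cons] at hl
      omega
    have hhk : h - (h - 1 - gs.length) = (q :: gs).length := by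
      simp only [List.length_cons] at hl ⊢
      omega
    obtain ⟨hd1, hd2, -⟩ := hd q.1 hA'.1 _ hk
    rw [hhk] at hd1 hd2
    have hty : ty (q :: gs) = d (h - 1 - gs.length) q.1 := hA'.2.1
    constructor
    · have h1 := (key (q.1, ty (q :: gs)) (by simp [en])).2
      have h2 : ty (q :: gs) + (J + 1) = J + ty (q :: gs) + 1 := by omega
      simp only [h2] at h1
      rw [← hty] at hd1
      linarith
    · intro r hr
      have h1 : J + ty (q :: gs) + 1 + ty gs + 1 = (ty (q :: gs) + ty gs + 1) + (J + 1) := by omega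
      rw [h1, en_shift] at hr
      obtain ⟨r', hr', rfl⟩ := List.mem_map.1 hr
      have hr2 : r' ∈ en (q :: gs) (ty (q :: gs)) := by
        simp only [en, List.mem_cons]
        exact Or.inr hr'
      have h2 := (key r' hr2).1
      have h3 : r'.1 ∈ S := adm_mem gs _ hA'.2.2.2 r' hr'
      have h4 : r'.1 ≤ q.1 := by
        have h5 := hA'.2.2.1
        simp only [hΘ] at h5
        have h6 : (ty (q :: gs) + ty gs + 1) = ty gs + (ty (q :: gs) + 1) := by omega
        rw [h6, en_shift] at hr'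
        obtain ⟨r'', hr'', rfl⟩ := List.mem_map.1 hr'
        have h7 := hg_le gs (ty gs) r'' hr''
        simp only
        omega
      have h5 := le_en gs _ r' hr'
      obtain ⟨-, hd3, hd4⟩ := hd r'.1 h3 _ hk
      rw [hhk] at hd3
      have h6 := hd4 q.1 hA'.1 h4
      have h7 := hd3 r'.2 (by omega)
      linarith
  intro fs hfl hA j v hv
  cases fs with
  | nil => simp at hfl
  | cons p fs =>
    have hfl' : fs.length = h := by
      simp only [List.length_cons] at hfl
      omega
    have hv1 : v ∈ W (p.1 + j + 1) := W_anti hT (by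
      simp only [hg]
      exact le_max_left _ _) hv
    have hv2 : v ∈ W (hg fs (j + ty fs + 1)) := W_anti hT (by
      simp only [hg]
      exact le_max_right _ _) hv
    have hdom : own D j p.1 v ∈ (D p.1).dom := lw_dom hSh hT hv1
    have hP0 : ∀ x, 0 ≤ lw D v (p.1, j) x := fun x => av_nonneg (hT.ok p.1) hdom x
    have hstep : ∀ x ∈ (lw D v (p.1, j)).support, lw D v (p.1, j) x * cc h ≤
        lw D v (p.1, j) x * EW D v fs (j + ty fs + 1)
          (fun xs => if Ind G (x :: xs) then (1 : ℝ) else 0) := by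
      intro x hx
      refine mul_le_mul_of_nonneg_left ?_ (hP0 x)
      have hi := main hSh hEW hT h e hepos.le he hnew hat hdm v fs hA.2.2.2 (j + ty fs + 1) hv2 [] x
        (by
          intro z hz q hq
          rw [List.nil_append, List.mem_singleton] at hz
          rw [hz]
          exact hdm p fs hA v j hv x (Finsupp.mem_support_iff.1 hx) q hq)
        (by simp [hfl']) (by
          simp only [List.nil_append, Ind]
          refine ⟨fun w hw => ?_, fun w hw => ?_, trivial⟩
          · simp at hw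
          · simp at hw) ?_ ?_
      · rw [hfl'] at hi
        simp only [List.nil_append, List.singleton_append] at hi
        exact hi
      · intro r _
        simp only [List.map_nil, List.sum_nil, List.length_nil, Nat.cast_zero, zero_mul, add_zero]
        positivity
      · intro q gs hfs
        exact hnew p fs hA (by omega) v j hv x (Finsupp.mem_support_iff.1 hx) q gs hfs
    have h1 : EW D v (p :: fs) j (fun xs => if Ind G xs then (1 : ℝ) else 0) =
        ∑ x ∈ (lw D v (p.1, j)).support, lw D v (p.1, j) x * EW D v fs (j + ty fs + 1)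
          (fun xs => if Ind G (x :: xs) then (1 : ℝ) else 0) := rfl
    have h2 := (hEW V G m D W hT [p] j v (W_anti hT (by simp [hg]) hv1)).1 (cc h)
    have h3 : EW D v [p] j (fun _ => cc h) =
        ∑ x ∈ (lw D v (p.1, j)).support, lw D v (p.1, j) x * cc h := rfl
    rw [h1, ← h2, h3]
    exact Finset.sum_le_sum hstep

end Pool.Agent.Lib.TCW
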