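import Pool.Agent.Lib.TCW.Bas

/-!
# Towers of coherent levels: levels without collisions
-/

set_option autoImplicit false

namespace Pool.Agent.Lib.TCW

open Finset Classical
open Pool.Agent.Lib.TCH

namespace KilAux

variable {V : Type} {big : Set V → Prop}

lemma ide_bi {ι : Type} (hI : Ide big) (s : Finset ι) (A : ι → Set V) :
    big (⋃ i ∈ s, A i) → ∃ i ∈ s, big (A i) := by
  induction s using Finset.induction_on with
  | empty =>
    intro h
    simp only [Finset.notMem_empty, Set.iUnion_of_empty, Set.iUnion_empty] at h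
    exact absurd h hI.emp
  | insert a s ha ih =>
    intro h
    rw [Finset.set_biUnion_insert] at h
    rcases hI.split _ _ h with h | h
    · exact ⟨a, Finset.mem_insert_self _ _, h⟩
    · obtain ⟨i, hi, hb⟩ := ih h
      exact ⟨i, Finset.mem_insert_of_mem hi, hb⟩

/-- The law `p` conditioned on `S`. -/
noncomputable def cnd (p : V →₀ ℝ) (S : Set V) : V →₀ ℝ :=
  (ms p S)⁻¹ • p.filter (· ∈ S)

lemma cnd_apply (p : V →₀ ℝ) (S : Set V) (y : V) :
    cnd p S y = (ms p S)⁻¹ * (if y ∈ S then p y else 0) := by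
  unfold cnd
  rw [Finsupp.smul_apply, smul_eq_mul, Finsupp.filter_apply]

lemma ms_filter (p : V →₀ ℝ) (S N : Set V) :
    ms (p.filter (· ∈ S)) N = ms p (S ∩ N) := by
  have hs : (p.filter (· ∈ S)).support ⊆ p.support := by
    rw [Finsupp.support_filter]
    exact Finset.filter_subset _ _
  rw [ms_eq _ N p.support hs, ms_eq p (S ∩ N) p.support Finset.Subset.rfl]
  refine Finset.sum_congr rfl fun y _ => ?_
  rw [Finsupp.filter_apply]
  by_cases h : y ∈ S <;> by_cases h' : y ∈ N <;> simp [h, h']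

lemma ms_cnd (p : V →₀ ℝ) (S N : Set V) : ms (cnd p S) N = (ms p S)⁻¹ * ms p (S ∩ N) := by
  unfold cnd
  rw [ms_smul, ms_filter]

lemma cnd_one (p : V →₀ ℝ) (S : Set V) (h : ms p S ≠ 0) :
    ∑ y ∈ (cnd p S).support, cnd p S y = 1 := by
  rw [← ms_univ, ms_cnd, Set.inter_univ, inv_mul_cancel₀ h]

/-- Enumeration of a finite set. -/
lemma enum (J : Finset ℕ) : ∃ j : ℕ → ℕ, (∀ s < J.card, j s ∈ J) ∧
    ∀ s < J.card, ∀ s' < J.card, j s = j s' → s = s' := by
  refine ⟨fun s => if h : s < J.card then (J.equivFin.symm ⟨s, h⟩ : ℕ) else 0, ?_, ?_⟩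
  · intro s hs
    simp only [hs, dite_true]
    exact (J.equivFin.symm ⟨s, hs⟩).2
  · intro s hs s' hs' h
    simp only [hs, hs', dite_true] at h
    have h1 := J.equivFin.symm.injective (Subtype.ext h)
    simpa using h1

/-- Disjoint events. -/
lemma sum_disj {ι : Type} (X : Finset ι) (p : V →₀ ℝ) (hp : ∀ y, 0 ≤ p y) (S : ι → Set V)
    (N : Set V) (hd : ∀ x ∈ X, ∀ x' ∈ X, ∀ y, y ∈ S x → y ∈ S x' → x = x') :
    ∑ x ∈ X, ms p (S x ∩ N) ≤ ms p N := by
  have h1 : ∀ x ∈ X, ms p (S x ∩ N) = ∑ y ∈ p.support, if y ∈ S x ∧ y ∈ N then p y else 0 := by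
    intro x _
    rw [ms_eq p _ _ Finset.Subset.rfl]
    refine Finset.sum_congr rfl fun y _ => ?_
    by_cases h : y ∈ S x ∧ y ∈ N
    · rw [if_pos h, if_pos (show y ∈ S x ∩ N from h)]
    · rw [if_neg h, if_neg (show y ∉ S x ∩ N from h)]
  rw [Finset.sum_congr rfl h1, Finset.sum_comm, ms_eq p N p.support Finset.Subset.rfl]
  refine Finset.sum_le_sum fun y _ => ?_
  by_cases hN : y ∈ N
  · rw [if_pos hN]
    by_cases hx : ∃ x ∈ X, y ∈ S x
    · obtain ⟨x, hx, hy⟩ := hx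
      rw [Finset.sum_eq_single x]
      · rw [if_pos ⟨hy, hN⟩]
      · intro x' hx' hne
        exact if_neg fun h => hne (hd x' hx' x hx y h.1 hy)
      · intro h
        exact absurd hx h
    · push Not at hx
      rw [Finset.sum_eq_zero fun x hx' => if_neg fun h => hx x hx' h.1]
      exact hp y
  · rw [if_neg hN]
    exact (Finset.sum_eq_zero fun x _ => if_neg fun h => hN h.2).le

/-- Conditioned levels. -/
lemma cond_ok {G : SimpleGraph V} {m : ℕ} {C C' : V → V → Prop} {Q R : ℕ} {W : Set V}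
    {D : Lv V} (h : OK G m C Q W D) (j : ℕ → ℕ) (q : ℕ) (hj : ∀ s < q, j s < D.q)
    (hinj : ∀ s < q, ∀ s' < q, j s = j s' → s = s') (Z : Set V) (hZ : Z ⊆ D.dom)
    (S : V → Set V) (a : ℝ) (ha : 0 < a) (ha1 : a ≤ 1)
    (hS : ∀ s < q, ∀ x ∈ Z, a ≤ ms (D.p (j s) x) (S x))
    (hR1 : 1 ≤ R) (hRq : R ≤ q) (hRQ : (R : ℝ) ≤ a * Q)
    (hC : ∀ x y, x ∈ Z → y ∈ S x → C x y → C' x y)
    (hd : ∀ x x' y, y ∈ S x → y ∈ S x' → S x = S x') (mu : ℕ → V → V →₀ ℝ) :
    OK G m C' R W ⟨q, fun s x => cnd (D.p (j s) x) (S x), fun s => D.near (j s),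
      D.N, Z, mu⟩ := by
  have hle : ∀ s < q, ∀ x ∈ Z, ∀ u : ℝ, 0 ≤ u →
      (R : ℝ) * ((ms (D.p (j s) x) (S x))⁻¹ * u) ≤ Q * u := by
    intro s hs x hx u hu
    have h1 := hS s hs x hx
    have h2 : 0 < ms (D.p (j s) x) (S x) := lt_of_lt_of_le ha h1
    rw [← mul_assoc, ← div_eq_mul_inv]
    refine mul_le_mul_of_nonneg_right ?_ hu
    rw [div_le_iff₀ h2]
    calc (R : ℝ) ≤ a * Q := hRQ
      _ = Q * a := mul_comm _ _
      _ ≤ Q * ms (D.p (j s) x) (S x) := mul_le_mul_of_nonneg_left h1 (Nat.cast_nonneg _)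
  have hnn : ∀ s < q, ∀ x ∈ Z, ∀ y, 0 ≤ D.p (j s) x y := fun s hs x hx y =>
    h.nn (j s) (hj s hs) x (hZ hx) y
  refine ⟨hZ.trans h.sub, hR1, hRq, ?_, ?_, ?_, ?_, ?_, ?_, ?_⟩
  · intro s hs x hx y
    show 0 ≤ cnd (D.p (j s) x) (S x) y
    rw [cnd_apply]
    refine mul_nonneg (inv_nonneg.2 (ha.le.trans (hS s hs x hx))) ?_
    split_ifs
    · exact hnn s hs x hx y
    · exact le_rfl
  · intro s hs x hx
    exact cnd_one _ _ (lt_of_lt_of_le ha (hS s hs x hx)).ne'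
  · intro s hs x hx y hy
    have hy' : cnd (D.p (j s) x) (S x) y ≠ 0 := hy
    rw [cnd_apply] at hy'
    by_cases hyS : y ∈ S x
    · rw [if_pos hyS] at hy'
      have h1 := h.sup (j s) (hj s hs) x (hZ hx) y (right_ne_zero_of_mul hy')
      exact ⟨h1.1, hC x y hx hyS h1.2⟩
    · rw [if_neg hyS, mul_zero] at hy'
      exact absurd rfl hy'
  · intro s hs x hx y hy
    show (R : ℝ) * cnd (D.p (j s) x) (S x) y ≤ 1
    rw [cnd_apply]
    by_cases hyS : y ∈ S x
    · rw [if_pos hyS]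
      exact (hle s hs x hx _ (hnn s hs x hx y)).trans (h.atm (j s) (hj s hs) x (hZ hx) y (hZ hy))
    · rw [if_neg hyS, mul_zero, mul_zero]
      exact zero_le_one
  · intro s hs x hx
    show (R : ℝ) * ms (cnd (D.p (j s) x) (S x)) {y | ¬ G.Adj x y} ≤ 1
    rw [ms_cnd]
    refine (hle s hs x hx _ (ms_nn (hnn s hs x hx) _)).trans ?_
    refine le_trans ?_ (h.adj (j s) (hj s hs) x (hZ hx))
    refine mul_le_mul_of_nonneg_left ?_ (Nat.cast_nonneg _)
    exact ms_mono (hnn s hs x hx) fun y _ hy => hy.2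
  · intro r hr t ht I hI hIc X hX hXm
    change ∀ x ∈ X, x ∈ Z ∧ ∀ s ∈ I, D.near (j s) x t ∧
      1 ≤ (R : ℝ) * ms (cnd (D.p (j s) x) (S x)) {y | G.Adj y t} at hXm
    change ∃ X' ⊆ X, X'.card = R ∧ ∃ J ⊆ I, J.card = r ∧ ∀ x ∈ X', ∀ x' ∈ X', ∀ s ∈ J,
      cnd (D.p (j s) x) (S x) = cnd (D.p (j s) x') (S x')
    have hIq : ∀ s ∈ I, s < q := fun s hs => Finset.mem_range.1 (hI hs)
    have hRQ' : R ≤ Q := by
      have h1 : a * (Q : ℝ) ≤ 1 * Q := mul_le_mul_of_nonneg_right ha1 (Nat.cast_nonneg _)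
      have h2 : (R : ℝ) ≤ Q := by linarith
      exact_mod_cast h2
    have hinjI : Set.InjOn j (I : Set ℕ) := fun s hs s' hs' he =>
      hinj s (hIq s (Finset.mem_coe.1 hs)) s' (hIq s' (Finset.mem_coe.1 hs')) he
    obtain ⟨X1, hX1, hX1c, J, hJ, hJc, hJe⟩ := h.wb r (hr.trans hRQ') t (hZ ht) (I.image j) (by
      intro u hu
      obtain ⟨s, hs, rfl⟩ := Finset.mem_image.1 hu
      exact Finset.mem_range.2 (hj s (hIq s hs))) (by
      rw [Finset.card_image_of_injOn hinjI]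
      exact hIc) X hX (by
      intro x hx
      refine ⟨hZ (hXm x hx).1, fun u hu => ?_⟩
      obtain ⟨s, hs, rfl⟩ := Finset.mem_image.1 hu
      obtain ⟨h1, h2⟩ := (hXm x hx).2 s hs
      refine ⟨h1, h2.trans ?_⟩
      rw [ms_cnd]
      have hnn' := hnn s (hIq s hs) x (hXm x hx).1
      refine (hle s (hIq s hs) x (hXm x hx).1 _ (ms_nn hnn' _)).trans ?_
      refine mul_le_mul_of_nonneg_left ?_ (Nat.cast_nonneg _)
      exact ms_mono hnn' fun y _ hy => hy.2)
    -- the stages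
    set J' : Finset ℕ := I.filter fun s => j s ∈ J with hJ'
    have hJ'J : J'.image j = J := by
      ext u
      constructor
      · intro hu
        obtain ⟨s, hs, rfl⟩ := Finset.mem_image.1 hu
        exact (Finset.mem_filter.1 hs).2
      · intro hu
        obtain ⟨s, hs, rfl⟩ := Finset.mem_image.1 (hJ hu)
        exact Finset.mem_image_of_mem _ (Finset.mem_filter.2 ⟨hs, hu⟩)
    have hJ'c : J'.card = r := by
      rw [← hJc, ← hJ'J, Finset.card_image_of_injOn]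
      intro s hs s' hs' he
      exact hinjI (Finset.mem_coe.2 (Finset.mem_filter.1 (Finset.mem_coe.1 hs)).1)
        (Finset.mem_coe.2 (Finset.mem_filter.1 (Finset.mem_coe.1 hs')).1) he
    rcases Nat.eq_zero_or_pos r with h0 | hpos
    · obtain ⟨X2, h6, h7⟩ := Finset.exists_subset_card_eq (s := X1) (n := R) (by
        rw [hX1c]
        exact hRQ')
      refine ⟨X2, h6.trans hX1, h7, J', Finset.filter_subset _ _, hJ'c, ?_⟩
      intro x _ x' _ s hs
      rw [h0, Finset.card_eq_zero] at hJ'c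
      rw [hJ'c] at hs
      exact absurd hs (Finset.notMem_empty s)
    obtain ⟨s0, hs0⟩ : J'.Nonempty := by
      rw [← Finset.card_pos, hJ'c]
      exact hpos
    obtain ⟨hs0I, hs0J⟩ := Finset.mem_filter.1 hs0
    obtain ⟨x0, hx0⟩ : X1.Nonempty := by
      rw [← Finset.card_pos, hX1c]
      exact lt_of_lt_of_le hR1 hRQ'
    have hx0Z : x0 ∈ Z := (hXm x0 (hX1 hx0)).1
    -- the number of events
    have hcount : ((X1.image S).card : ℝ) * a ≤ 1 := by
      have h1 : ∀ v ∈ X1.image S, a ≤ ms (D.p (j s0) x0) v := by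
        intro v hv
        obtain ⟨x, hx, rfl⟩ := Finset.mem_image.1 hv
        have h2 := hS s0 (hIq s0 hs0I) x (hXm x (hX1 hx)).1
        rwa [hJe x hx x0 hx0 (j s0) hs0J] at h2
      have h2 := Finset.card_nsmul_le_sum (X1.image S) (fun v => ms (D.p (j s0) x0) v) a h1
      rw [nsmul_eq_mul] at h2
      refine h2.trans ?_
      have h3 := sum_disj (X1.image S) (D.p (j s0) x0) (hnn s0 (hIq s0 hs0I) x0 hx0Z)
        (fun v => v) Set.univ (by
          intro v hv v' hv' y hy hy'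
          obtain ⟨x, hx, rfl⟩ := Finset.mem_image.1 hv
          obtain ⟨x', hx', rfl⟩ := Finset.mem_image.1 hv'
          exact hd x x' y hy hy')
      simp only [Set.inter_univ] at h3
      refine h3.trans ?_
      rw [ms_univ, h.one (j s0) (hj s0 (hIq s0 hs0I)) x0 (hZ hx0Z)]
    have hfib : (X1.image S).card * R ≤ X1.card := by
      have h1 : ((X1.image S).card : ℝ) * R ≤ Q := by
        calc ((X1.image S).card : ℝ) * R ≤ (X1.image S).card * (a * Q) :=
              mul_le_mul_of_nonneg_left hRQ (Nat.cast_nonneg _)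
          _ = (X1.image S).card * a * Q := by ring
          _ ≤ 1 * Q := mul_le_mul_of_nonneg_right hcount (Nat.cast_nonneg _)
          _ = Q := one_mul _
      rw [hX1c]
      exact_mod_cast h1
    obtain ⟨v, -, hv⟩ := Finset.exists_le_card_fiber_of_mul_le_card_of_maps_to
      (s := X1) (t := X1.image S) (f := S) (n := R) (fun x hx => Finset.mem_image_of_mem _ hx)
      ⟨S x0, Finset.mem_image_of_mem _ hx0⟩ hfib
    obtain ⟨X2, h6, h7⟩ := Finset.exists_subset_card_eq hv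
    refine ⟨X2, h6.trans ((Finset.filter_subset _ _).trans hX1), h7, J',
      Finset.filter_subset _ _, hJ'c, ?_⟩
    intro x hx x' hx' s hs
    have e1 := Finset.mem_filter.1 (h6 hx)
    have e2 := Finset.mem_filter.1 (h6 hx')
    rw [hJe x e1.1 x' e2.1 (j s) (Finset.mem_filter.1 hs).2, e1.2, e2.2]
  · intro x hx t ht
    show ((range q).filter fun s => ¬ D.near (j s) x t).card ≤ m
    refine le_trans ?_ (h.conf x (hZ hx) t (hZ ht))
    refine Finset.card_le_card_of_injOn j ?_ ?_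
    · intro s hs
      have hs' := Finset.mem_filter.1 (Finset.mem_coe.1 hs)
      exact Finset.mem_coe.2 (Finset.mem_filter.2
        ⟨Finset.mem_range.2 (hj s (Finset.mem_range.1 hs'.1)), hs'.2⟩)
    · intro s hs s' hs' he
      have hs1 := Finset.mem_filter.1 (Finset.mem_coe.1 hs)
      have hs1' := Finset.mem_filter.1 (Finset.mem_coe.1 hs')
      exact hinj s (Finset.mem_range.1 hs1.1) s' (Finset.mem_range.1 hs1'.1) he

/-- Sub-pools. -/
lemma pool_ok {G : SimpleGraph V} {m : ℕ} {C : V → V → Prop} {Q R : ℕ} {W : Set V}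
    {D : Lv V} (h : OK G m C Q W D) (j : ℕ → ℕ) (q : ℕ) (hj : ∀ s < q, j s < D.q)
    (hinj : ∀ s < q, ∀ s' < q, j s = j s' → s = s') (Z : Set V) (hZ : Z ⊆ D.dom)
    (hR1 : 1 ≤ R) (hRq : R ≤ q) (hRQ : R ≤ Q) (mu : ℕ → V → V →₀ ℝ) :
    OK G m C R W ⟨q, fun s => D.p (j s), fun s => D.near (j s), D.N, Z, mu⟩ := by
  have hRQ' : (R : ℝ) ≤ Q := by exact_mod_cast hRQ
  refine ⟨hZ.trans h.sub, hR1, hRq, ?_, ?_, ?_, ?_, ?_, ?_, ?_⟩
  · intro s hs x hx y
    exact h.nn (j s) (hj s hs) x (hZ hx) y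
  · intro s hs x hx
    exact h.one (j s) (hj s hs) x (hZ hx)
  · intro s hs x hx y hy
    exact h.sup (j s) (hj s hs) x (hZ hx) y hy
  · intro s hs x hx y hy
    exact le_trans (mul_le_mul_of_nonneg_right hRQ' (h.nn (j s) (hj s hs) x (hZ hx) y))
      (h.atm (j s) (hj s hs) x (hZ hx) y (hZ hy))
  · intro s hs x hx
    exact le_trans (mul_le_mul_of_nonneg_right hRQ' (ms_nn (h.nn (j s) (hj s hs) x (hZ hx)) _))
      (h.adj (j s) (hj s hs) x (hZ hx))
  · intro r hr t ht I hI hIc X hX hXm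
    change ∀ x ∈ X, x ∈ Z ∧ ∀ s ∈ I, D.near (j s) x t ∧
      1 ≤ (R : ℝ) * ms (D.p (j s) x) {y | G.Adj y t} at hXm
    change ∃ X' ⊆ X, X'.card = R ∧ ∃ J ⊆ I, J.card = r ∧ ∀ x ∈ X', ∀ x' ∈ X', ∀ s ∈ J,
      D.p (j s) x = D.p (j s) x'
    have hIq : ∀ s ∈ I, s < q := fun s hs => Finset.mem_range.1 (hI hs)
    have hinjI : Set.InjOn j (I : Set ℕ) := fun s hs s' hs' he =>
      hinj s (hIq s (Finset.mem_coe.1 hs)) s' (hIq s' (Finset.mem_coe.1 hs')) he
    obtain ⟨X1, hX1, hX1c, J, hJ, hJc, hJe⟩ := h.wb r (hr.trans hRQ) t (hZ ht) (I.image j) (by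
      intro u hu
      obtain ⟨s, hs, rfl⟩ := Finset.mem_image.1 hu
      exact Finset.mem_range.2 (hj s (hIq s hs))) (by
      rw [Finset.card_image_of_injOn hinjI]
      exact hIc) X hX (by
      intro x hx
      refine ⟨hZ (hXm x hx).1, fun u hu => ?_⟩
      obtain ⟨s, hs, rfl⟩ := Finset.mem_image.1 hu
      obtain ⟨h1, h2⟩ := (hXm x hx).2 s hs
      refine ⟨h1, h2.trans (mul_le_mul_of_nonneg_right hRQ' ?_)⟩
      exact ms_nn (h.nn (j s) (hj s (hIq s hs)) x (hZ (hXm x hx).1)) _)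
    obtain ⟨X2, h6, h7⟩ := Finset.exists_subset_card_eq (s := X1) (n := R) (by
      rw [hX1c]
      exact hRQ)
    set J' : Finset ℕ := I.filter fun s => j s ∈ J with hJ'
    have hJ'J : J'.image j = J := by
      ext u
      constructor
      · intro hu
        obtain ⟨s, hs, rfl⟩ := Finset.mem_image.1 hu
        exact (Finset.mem_filter.1 hs).2
      · intro hu
        obtain ⟨s, hs, rfl⟩ := Finset.mem_image.1 (hJ hu)
        exact Finset.mem_image_of_mem _ (Finset.mem_filter.2 ⟨hs, hu⟩)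
    refine ⟨X2, h6.trans hX1, h7, J', Finset.filter_subset _ _, ?_, ?_⟩
    · rw [← hJc, ← hJ'J, Finset.card_image_of_injOn]
      intro s hs s' hs' he
      exact hinjI (Finset.mem_coe.2 (Finset.mem_filter.1 (Finset.mem_coe.1 hs)).1)
        (Finset.mem_coe.2 (Finset.mem_filter.1 (Finset.mem_coe.1 hs')).1) he
    · intro x hx x' hx' s hs
      exact hJe x (h6 hx) x' (h6 hx') (j s) (Finset.mem_filter.1 hs).2
  · intro x hx t ht
    show ((range q).filter fun s => ¬ D.near (j s) x t).card ≤ m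
    refine le_trans ?_ (h.conf x (hZ hx) t (hZ ht))
    refine Finset.card_le_card_of_injOn j ?_ ?_
    · intro s hs
      have hs' := Finset.mem_filter.1 (Finset.mem_coe.1 hs)
      exact Finset.mem_coe.2 (Finset.mem_filter.2
        ⟨Finset.mem_range.2 (hj s (Finset.mem_range.1 hs'.1)), hs'.2⟩)
    · intro s hs s' hs' he
      have hs1 := Finset.mem_filter.1 (Finset.mem_coe.1 hs)
      have hs1' := Finset.mem_filter.1 (Finset.mem_coe.1 hs')
      exact hinj s (Finset.mem_range.1 hs1.1) s' (Finset.mem_range.1 hs1'.1) he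

/-- The new relation. -/
def KC (D : Lv V) (I : Finset ℕ) (μ : ℕ → V → V →₀ ℝ) (C : V → V → Prop) (x y : V) : Prop :=
  C x y ∧ ∀ s ∈ I, D.p s y = μ s x

/-- The kill. -/
lemma kill1 {G : SimpleGraph V} {m R : ℕ} {C : V → V → Prop} {W : Set V}
    (hno : ¬ ∃ D : Lv V, OK G m C (R + 1) W D ∧ big D.dom ∧
        Good G big m (fun x y => C x y ∧ ∀ s < D.q, D.p s y = D.mu s x) D.dom)
    (D : Lv V) (hD : OK G m C (R + 1) W D) (I : Finset ℕ) (hI : I ⊆ range D.q)
    (hIc : I.card = R + 1) (μ : ℕ → V → V →₀ ℝ) (Y : Set V) (hY : Y ⊆ D.dom) (hYb : big Y) :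
    ∃ Y', Y' ⊆ Y ∧ big Y' ∧ ∃ R', ∀ Y1, Y1 ⊆ Y' → ∀ R1, R' ≤ R1 → ∀ E : Lv V,
      ¬ (OK G m (KC D I μ C) (R1 + 1) Y1 E ∧ big E.dom) := by
  obtain ⟨j, hj, hinj⟩ := enum I
  rw [hIc] at hj hinj
  have hjq : ∀ s < R + 1, j s < D.q := fun s hs => Finset.mem_range.1 (hI (hj s hs))
  have hsurj : ∀ i ∈ I, ∃ s < R + 1, j s = i := by
    intro i hi
    have himg : (range (R + 1)).image j = I := by
      refine Finset.eq_of_subset_of_card_le ?_ ?_
      · intro a ha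
        obtain ⟨s, hs, rfl⟩ := Finset.mem_image.1 ha
        exact hj s (Finset.mem_range.1 hs)
      · rw [Finset.card_image_of_injOn, Finset.card_range, hIc]
        intro s hs s' hs' he
        exact hinj s (Finset.mem_range.1 (Finset.mem_coe.1 hs)) s'
          (Finset.mem_range.1 (Finset.mem_coe.1 hs')) he
    rw [← himg] at hi
    obtain ⟨s, hs, h⟩ := Finset.mem_image.1 hi
    exact ⟨s, Finset.mem_range.1 hs, h⟩
  have h1 := pool_ok hD j (R + 1) hjq hinj Y hY (Nat.succ_le_succ (Nat.zero_le _)) le_rfl le_rfl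
    (fun s x => μ (j s) x)
  have h2 : ¬ Good G big m (fun x y => C x y ∧ ∀ s < R + 1, D.p (j s) y = μ (j s) x) Y :=
    fun hG => hno ⟨_, h1, hYb, hG⟩
  unfold Good at h2
  push Not at h2
  obtain ⟨Y', hY', hb, R', hR'⟩ := h2
  refine ⟨Y', hY', hb, R', ?_⟩
  rintro Y1 hY1 R1 hR1 E ⟨hE, hEb⟩
  refine hR' E ?_ hEb
  refine hE.mono ?_ (Nat.succ_le_succ hR1) (Nat.succ_le_succ (Nat.zero_le _)) hY1
  intro x y hxy
  refine ⟨hxy.1, fun s hs => hxy.2 (j s) (hj s hs)⟩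

/-- Finitely many kills. -/
lemma kill {ι : Type} {G : SimpleGraph V} {m R : ℕ} {C : V → V → Prop} {W : Set V}
    (hno : ¬ ∃ D : Lv V, OK G m C (R + 1) W D ∧ big D.dom ∧
        Good G big m (fun x y => C x y ∧ ∀ s < D.q, D.p s y = D.mu s x) D.dom)
    (T : Finset ι) (D : ι → Lv V) (I : ι → Finset ℕ) (μ : ι → ℕ → V → V →₀ ℝ) :
    (∀ i ∈ T, OK G m C (R + 1) W (D i) ∧ I i ⊆ range (D i).q ∧ (I i).card = R + 1) →
    ∀ Y : Set V, (∀ i ∈ T, Y ⊆ (D i).dom) → big Y →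
    ∃ Y', Y' ⊆ Y ∧ big Y' ∧ ∃ R', ∀ i ∈ T, ∀ Y1, Y1 ⊆ Y' → ∀ R1, R' ≤ R1 → ∀ E : Lv V,
      ¬ (OK G m (KC (D i) (I i) (μ i) C) (R1 + 1) Y1 E ∧ big E.dom) := by
  induction T using Finset.induction_on with
  | empty =>
    intro _ Y _ hb
    exact ⟨Y, Set.Subset.rfl, hb, 0, fun i hi => absurd hi (Finset.notMem_empty i)⟩
  | insert a T ha ih =>
    intro hT Y hY hb
    obtain ⟨Y1, h1, hb1, R1, hR1⟩ := ih (fun i hi => hT i (Finset.mem_insert_of_mem hi)) Y
      (fun i hi => hY i (Finset.mem_insert_of_mem hi)) hb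
    have h2 := hT a (Finset.mem_insert_self _ _)
    obtain ⟨Y2, h3, hb2, R2, hR2⟩ := kill1 hno (D a) h2.1 (I a) h2.2.1 h2.2.2 (μ a) Y1
      (h1.trans (hY a (Finset.mem_insert_self _ _))) hb1
    refine ⟨Y2, h3.trans h1, hb2, max R1 R2, ?_⟩
    intro i hi Z hZ R3 hR3 E
    rcases Finset.mem_insert.1 hi with rfl | hi
    · exact hR2 Z hZ R3 ((le_max_right _ _).trans hR3) E
    · exact hR1 i hi Z (hZ.trans h3) R3 ((le_max_left _ _).trans hR3) E

/-! ### Collisions -/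

/-- If two laws collide then there is a common heavy value. -/
lemma heavy {L : Type} (P P' : V →₀ ℝ) (hP : ∀ y, 0 ≤ P y) (hP' : ∀ y, 0 ≤ P' y)
    (h1 : ∑ y ∈ P.support, P y ≤ 1) (h1' : ∑ y ∈ P'.support, P' y ≤ 1) (vec : V → L) (n : ℝ)
    (hn : 0 < n)
    (h : 1 < n * ∑ y ∈ P.support, ∑ y' ∈ P'.support with vec y = vec y', P y * P' y') :
    ∃ y0, (2 * n)⁻¹ ≤ ms P {y | vec y = vec y0} ∧ (2 * n)⁻¹ ≤ ms P' {y | vec y = vec y0} := by
  by_contra hcon
  push Not at hcon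
  have h2n : 0 < (2 * n)⁻¹ := inv_pos.2 (by linarith)
  -- the value is light for P'
  have hsplit : ∀ y ∈ P.support, ∑ y' ∈ P'.support with vec y = vec y', P y * P' y' ≤
      P y * (2 * n)⁻¹ + ∑ y' ∈ P'.support,
        if vec y = vec y' ∧ (2 * n)⁻¹ ≤ ms P' {z | vec z = vec y'} then P y * P' y' else 0 := by
    intro y _
    by_cases hy : (2 * n)⁻¹ ≤ ms P' {z | vec z = vec y}
    · have h3 : ∑ y' ∈ P'.support with vec y = vec y', P y * P' y' = ∑ y' ∈ P'.support,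
          if vec y = vec y' ∧ (2 * n)⁻¹ ≤ ms P' {z | vec z = vec y'} then P y * P' y' else 0 := by
        rw [Finset.sum_filter]
        refine Finset.sum_congr rfl fun y' _ => ?_
        by_cases he : vec y = vec y'
        · rw [if_pos he, if_pos ⟨he, he ▸ hy⟩]
        · rw [if_neg he, if_neg fun h => he h.1]
      rw [h3]
      have := mul_nonneg (hP y) h2n.le
      linarith
    · have h3 : ∑ y' ∈ P'.support with vec y = vec y', P y * P' y' =
          P y * ms P' {z | vec z = vec y} := by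
        rw [ms, Finset.mul_sum]
        refine Finset.sum_congr ?_ fun _ _ => rfl
        ext y'
        simp only [Finset.mem_filter, Set.mem_ofPred_eq, eq_comm]
      rw [h3]
      have h4 : 0 ≤ ∑ y' ∈ P'.support,
          if vec y = vec y' ∧ (2 * n)⁻¹ ≤ ms P' {z | vec z = vec y'} then P y * P' y' else 0 := by
        refine Finset.sum_nonneg fun y' _ => ?_
        split_ifs
        · exact mul_nonneg (hP y) (hP' y')
        · exact le_rfl
      have h5 := mul_le_mul_of_nonneg_left (not_le.1 hy).le (hP y)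
      linarith
  have hA := Finset.sum_le_sum hsplit
  rw [Finset.sum_add_distrib, ← Finset.sum_mul, Finset.sum_comm] at hA
  have hB : ∀ y' ∈ P'.support, (∑ y ∈ P.support,
      if vec y = vec y' ∧ (2 * n)⁻¹ ≤ ms P' {z | vec z = vec y'} then P y * P' y' else 0) ≤
      P' y' * (2 * n)⁻¹ := by
    intro y' _
    by_cases hy : (2 * n)⁻¹ ≤ ms P' {z | vec z = vec y'}
    · have h3 : (∑ y ∈ P.support,
          if vec y = vec y' ∧ (2 * n)⁻¹ ≤ ms P' {z | vec z = vec y'} then P y * P' y' else 0) =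
          P' y' * ms P {z | vec z = vec y'} := by
        rw [ms_eq P _ P.support Finset.Subset.rfl, Finset.mul_sum]
        refine Finset.sum_congr rfl fun y _ => ?_
        by_cases he : vec y = vec y'
        · rw [if_pos ⟨he, hy⟩, if_pos (show y ∈ {z | vec z = vec y'} from he), mul_comm]
        · rw [if_neg fun h => he h.1, if_neg (show y ∉ {z | vec z = vec y'} from he), mul_zero]
      rw [h3]
      refine mul_le_mul_of_nonneg_left ?_ (hP' y')
      by_contra hlt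
      exact absurd hy (not_le.2 (hcon y' (not_le.1 hlt).le))
    · rw [Finset.sum_eq_zero fun y _ => if_neg fun h => hy h.2]
      exact mul_nonneg (hP' y') h2n.le
  have hB' := Finset.sum_le_sum hB
  rw [← Finset.sum_mul] at hB'
  have h5 := mul_le_mul_of_nonneg_right h1 h2n.le
  have h6 := mul_le_mul_of_nonneg_right h1' h2n.le
  have h7 : ∑ y ∈ P.support, ∑ y' ∈ P'.support with vec y = vec y', P y * P' y' ≤
      (2 * n)⁻¹ + (2 * n)⁻¹ := by linarith
  have h8 := mul_le_mul_of_nonneg_left h7 hn.le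
  have h9 : n * ((2 * n)⁻¹ + (2 * n)⁻¹) = 1 := by
    field_simp
    norm_num
  linarith

/-- Many stages with a large probability. -/
lemma stages (q : ℕ) (a : ℕ → ℝ) (ha : ∀ s < q, a s ≤ 1) (n : ℝ) (hn : 0 < n) (hq : 0 < q)
    (h : (2 * n)⁻¹ ≤ (q : ℝ)⁻¹ * ∑ s ∈ range q, a s) :
    (q : ℝ) ≤ 4 * n * ((range q).filter fun s => (4 * n)⁻¹ ≤ a s).card := by
  have hq' : (0 : ℝ) < q := Nat.cast_pos.2 hq
  have h1 : ∑ s ∈ range q, a s ≤ ((range q).filter fun s => (4 * n)⁻¹ ≤ a s).card +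
      q * (4 * n)⁻¹ := by
    have h2 : ∀ s ∈ range q, a s ≤ (if (4 * n)⁻¹ ≤ a s then (1 : ℝ) else 0) + (4 * n)⁻¹ := by
      intro s hs
      have h3 : 0 < (4 * n)⁻¹ := inv_pos.2 (by linarith)
      split_ifs with h4
      · have := ha s (Finset.mem_range.1 hs)
        linarith
      · linarith [not_le.1 h4]
    refine (Finset.sum_le_sum h2).trans (le_of_eq ?_)
    rw [Finset.sum_add_distrib, Finset.sum_const, Finset.card_range, nsmul_eq_mul,
      Finset.sum_boole]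
  have h2 := mul_le_mul_of_nonneg_left h hq'.le
  rw [← mul_assoc, mul_inv_cancel₀ hq'.ne', one_mul] at h2
  have h3 : (q : ℝ) * (2 * n)⁻¹ - q * (4 * n)⁻¹ = q * (4 * n)⁻¹ := by
    field_simp
    ring
  have h4 : (q : ℝ) * (4 * n)⁻¹ ≤ ((range q).filter fun s => (4 * n)⁻¹ ≤ a s).card := by
    linarith
  have h5 : (0 : ℝ) < 4 * n := by linarith
  calc (q : ℝ) = 4 * n * (q * (4 * n)⁻¹) := by field_simp
    _ ≤ _ := mul_le_mul_of_nonneg_left h4 h5.le

/-- The heavy values of a law can be enumerated. -/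
lemma enum_heavy {L : Type} [Inhabited L] (P : V →₀ ℝ) (hP : ∀ y, 0 ≤ P y)
    (h1 : ∑ y ∈ P.support, P y ≤ 1) (vec : V → L) (e : ℕ) (he : 0 < e) :
    ∃ en : ℕ → L, ∀ y0, (2 * (e : ℝ))⁻¹ ≤ ms P {y | vec y = vec y0} →
      ∃ i < 2 * e, en i = vec y0 := by
  set H : Finset L := (P.support.image vec).filter fun l => (2 * (e : ℝ))⁻¹ ≤ ms P {y | vec y = l}
    with hH
  have he' : (0 : ℝ) < e := Nat.cast_pos.2 he
  have hc : H.card ≤ 2 * e := by
    have h2 : ∑ l ∈ H, ms P {y | vec y = l} ≤ ∑ l ∈ P.support.image vec, ms P {y | vec y = l} :=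
      Finset.sum_le_sum_of_subset_of_nonneg (Finset.filter_subset _ _) fun l _ _ => ms_nn hP _
    have h3 : ∑ l ∈ P.support.image vec, ms P {y | vec y = l} = ∑ y ∈ P.support, P y := by
      rw [← Finset.sum_fiberwise_of_maps_to (s := P.support) (t := P.support.image vec) (g := vec)
        (fun x hx => Finset.mem_image_of_mem _ hx)]
      refine Finset.sum_congr rfl fun l _ => ?_
      rw [ms]
      rfl
    have h4 : ∑ l ∈ H, (2 * (e : ℝ))⁻¹ ≤ ∑ l ∈ H, ms P {y | vec y = l} :=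
      Finset.sum_le_sum fun l hl => (Finset.mem_filter.1 hl).2
    rw [Finset.sum_const, nsmul_eq_mul] at h4
    have h5 : (H.card : ℝ) * (2 * (e : ℝ))⁻¹ ≤ 1 := by linarith
    have h6 : (H.card : ℝ) ≤ 2 * e := by
      have h7 := mul_le_mul_of_nonneg_right h5 (show (0 : ℝ) ≤ 2 * e by linarith)
      rw [mul_assoc, inv_mul_cancel₀ (by linarith : (2 * (e : ℝ)) ≠ 0)] at h7
      linarith
    exact_mod_cast h6
  refine ⟨fun i => H.toList.getD i default, ?_⟩
  intro y0 hy0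
  have h2e : 0 < (2 * (e : ℝ))⁻¹ := inv_pos.2 (by linarith)
  have hmem : vec y0 ∈ H := by
    rw [hH, Finset.mem_filter]
    refine ⟨?_, hy0⟩
    by_contra hn
    have h0 : ms P {y | vec y = vec y0} = 0 := by
      unfold ms
      refine Finset.sum_eq_zero fun y hy => ?_
      rw [Finset.mem_filter] at hy
      exact absurd (Finset.mem_image.2 ⟨y, hy.1, hy.2⟩) hn
    rw [h0] at hy0
    linarith
  obtain ⟨i, hi, hie⟩ := List.mem_iff_getElem.1 (Finset.mem_toList.2 hmem)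
  refine ⟨i, lt_of_lt_of_le hi (by rw [Finset.length_toList]; exact hc), ?_⟩
  simp only []
  rw [List.getD_eq_getElem _ _ hi]
  exact hie

/-- The labels on the stages in `I`. -/
noncomputable def vec (D : Lv V) (I : Finset ℕ) (y : V) : ℕ → V →₀ ℝ :=
  fun s => if s ∈ I then D.p s y else 0

lemma vec_eq (D : Lv V) (I : Finset ℕ) (y y' : V) :
    vec D I y = vec D I y' ↔ ∀ s ∈ I, D.p s y = D.p s y' := by
  constructor
  · intro h s hs
    have h1 := congrFun h s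
    simp only [vec, if_pos hs] at h1
    exact h1
  · intro h
    funext s
    unfold vec
    by_cases hs : s ∈ I
    · rw [if_pos hs, if_pos hs, h s hs]
    · rw [if_neg hs, if_neg hs]

lemma vec_set (D : Lv V) (I : Finset ℕ) (y0 : V) (f : ℕ → V →₀ ℝ) (h : f = vec D I y0) :
    {y | vec D I y = vec D I y0} = {y | ∀ s ∈ I, D.p s y = f s} := by
  ext y
  show vec D I y = vec D I y0 ↔ ∀ s ∈ I, D.p s y = f s
  rw [vec_eq]
  refine forall₂_congr fun s hs => ?_
  rw [h, vec, if_pos hs]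

lemma col_vec (D : Lv V) (I : Finset ℕ) (P P' : V →₀ ℝ) :
    col D I P P' = ∑ y ∈ P.support, ∑ y' ∈ P'.support with vec D I y = vec D I y', P y * P' y' := by
  unfold col
  refine Finset.sum_congr rfl fun y _ => ?_
  refine Finset.sum_congr ?_ fun _ _ => rfl
  ext y'
  simp only [Finset.mem_filter, vec_eq]

/-- One more level. -/
lemma step {G : SimpleGraph V} {m R : ℕ} {C : V → V → Prop} {W : Set V} (hI : Ide big)
    (hG : Good G big m C W)
    (hno : ¬ ∃ D : Lv V, OK G m C (R + 1) W D ∧ big D.dom ∧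
        Good G big m (fun x y => C x y ∧ ∀ s < D.q, D.p s y = D.mu s x) D.dom)
    (e : ℕ) (l : ℕ → Lv V) (Y : Set V) (hYW : Y ⊆ W) (hY : big Y)
    (hl : ∀ b < e, OK G m C (R + 1) W (l b) ∧ Y ⊆ (l b).dom) :
    ∃ X, X ⊆ Y ∧ big X ∧ ∃ E : Lv V, OK G m C (e + 1) X E ∧ OK G m C (R + 1) X E ∧
      ∃ Y', Y' ⊆ E.dom ∧ big Y' ∧ ∀ b c, b < c → c < e → ∀ I ⊆ range (l b).q, I.card = R + 1 →
        ∀ x ∈ Y', (e : ℝ) * col (l b) I (av (l c) x) (av E x) ≤ 1 := by
  have he1 : (0 : ℝ) < ((e + 1 : ℕ) : ℝ) := Nat.cast_pos.2 (Nat.succ_pos e)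
  -- the heavy values
  have hen : ∀ (b c : ℕ) (I : Finset ℕ) (x : V), ∃ en : ℕ → (ℕ → V →₀ ℝ), c < e → x ∈ Y →
      ∀ y0, (2 * ((e + 1 : ℕ) : ℝ))⁻¹ ≤ ms (av (l c) x) {y | vec (l b) I y = vec (l b) I y0} →
        ∃ i < 2 * (e + 1), en i = vec (l b) I y0 := by
    intro b c I x
    by_cases h : c < e ∧ x ∈ Y
    · have h1 := hl c h.1
      obtain ⟨en, hen⟩ := enum_heavy (av (l c) x) (h1.1.av_nn (h1.2 h.2))
        (h1.1.av_one (h1.2 h.2)).le (vec (l b) I) (e + 1) (Nat.succ_pos e)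
      exact ⟨en, fun _ _ => hen⟩
    · exact ⟨fun _ _ => 0, fun h1 h2 => absurd ⟨h1, h2⟩ h⟩
  choose en hen using hen
  let N : ℕ := (range e).sup fun b => (l b).q
  let T : Finset (ℕ × ℕ × Finset ℕ × ℕ) :=
    ((range e) ×ˢ (range e) ×ˢ ((range N).powerset) ×ˢ (range (2 * (e + 1)))).filter
      fun t => t.2.2.1 ⊆ range (l t.1).q ∧ t.2.2.1.card = R + 1
  let μ : ℕ × ℕ × Finset ℕ × ℕ → ℕ → V → V →₀ ℝ := fun t s x => en t.1 t.2.1 t.2.2.1 x t.2.2.2 s
  have hTm : ∀ b c I i, b < e → c < e → I ⊆ range (l b).q → I.card = R + 1 → i < 2 * (e + 1) →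
      (b, c, I, i) ∈ T := by
    intro b c I i hb hc hIb hIc hi
    refine Finset.mem_filter.2 ⟨?_, hIb, hIc⟩
    refine Finset.mem_product.2 ⟨Finset.mem_range.2 hb, Finset.mem_product.2
      ⟨Finset.mem_range.2 hc, Finset.mem_product.2 ⟨?_, Finset.mem_range.2 hi⟩⟩⟩
    refine Finset.mem_powerset.2 (hIb.trans ?_)
    refine Finset.range_subset_range.2 ?_
    exact Finset.le_sup (f := fun b => (l b).q) (Finset.mem_range.2 hb)
  have hTe : ∀ t ∈ T, t.1 < e ∧ t.2.2.1 ⊆ range (l t.1).q ∧ t.2.2.1.card = R + 1 := by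
    intro t ht
    obtain ⟨h1, h2⟩ := Finset.mem_filter.1 ht
    exact ⟨Finset.mem_range.1 (Finset.mem_product.1 h1).1, h2⟩
  obtain ⟨X, hXY, hX, R', hR'⟩ := kill hno T (fun t => l t.1) (fun t => t.2.2.1) μ
    (fun t ht => ⟨(hl t.1 (hTe t ht).1).1, (hTe t ht).2⟩) Y
    (fun t ht => (hl t.1 (hTe t ht).1).2) hY
  obtain ⟨E, hE, hEb⟩ := hG X (hXY.trans hYW) hX (e + R + 4 * (e + 1) * (R' + 1))
  refine ⟨X, hXY, hX, E, ?_, ?_, ?_⟩
  · exact hE.mono (fun _ _ h => h) (by omega) (by omega) Set.Subset.rfl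
  · exact hE.mono (fun _ _ h => h) (by omega) (by omega) Set.Subset.rfl
  let Y' : Set V := {x | x ∈ E.dom ∧ ∀ b c, b < c → c < e → ∀ I ⊆ range (l b).q,
    I.card = R + 1 → (e : ℝ) * col (l b) I (av (l c) x) (av E x) ≤ 1}
  refine ⟨Y', fun x hx => hx.1, ?_, fun b c hbc hce I hIb hIc x hx => hx.2 b c hbc hce I hIb hIc⟩
  let S : ℕ × ℕ × Finset ℕ × ℕ → V → Set V := fun t x =>
    {y | ∀ s ∈ t.2.2.1, (l t.1).p s y = μ t s x}
  let A : (ℕ × ℕ × Finset ℕ × ℕ) × Finset ℕ → Set V := fun u =>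
    {x | x ∈ E.dom ∧ ∀ s ∈ u.2, (4 * ((e + 1 : ℕ) : ℝ))⁻¹ ≤ ms (E.p s x) (S u.1 x)}
  let Us : Finset ((ℕ × ℕ × Finset ℕ × ℕ) × Finset ℕ) :=
    (T ×ˢ (range E.q).powerset).filter fun u =>
      (E.q : ℝ) ≤ 4 * ((e + 1 : ℕ) : ℝ) * u.2.card
  have hcov : E.dom ⊆ Y' ∪ ⋃ u ∈ Us, A u := by
    intro x hx
    by_cases hxY : x ∈ Y'
    · exact Or.inl hxY
    right
    have h1 : ∃ b c, b < c ∧ c < e ∧ ∃ I, I ⊆ range (l b).q ∧ I.card = R + 1 ∧
        1 < (e : ℝ) * col (l b) I (av (l c) x) (av E x) := by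
      by_contra hcon
      refine hxY ⟨hx, fun b c hbc hce I hIb hIc => ?_⟩
      by_contra hlt
      exact hcon ⟨b, c, hbc, hce, I, hIb, hIc, not_le.1 hlt⟩
    obtain ⟨b, c, hbc, hce, I, hIb, hIc, hcol⟩ := h1
    have hxY0 : x ∈ Y := hXY (hE.sub hx)
    have hcl := hl c hce
    have hcol2 : 1 < ((e + 1 : ℕ) : ℝ) * col (l b) I (av (l c) x) (av E x) := by
      have h0 : 0 ≤ col (l b) I (av (l c) x) (av E x) := by
        unfold col
        refine Finset.sum_nonneg fun y _ => Finset.sum_nonneg fun y' _ => ?_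
        exact mul_nonneg (hcl.1.av_nn (hcl.2 hxY0) y) (hE.av_nn hx y')
      push_cast
      linarith
    rw [col_vec] at hcol2
    obtain ⟨y0, hy1, hy2⟩ := heavy _ _ (hcl.1.av_nn (hcl.2 hxY0)) (hE.av_nn hx)
      (hcl.1.av_one (hcl.2 hxY0)).le (hE.av_one hx).le _ _ he1 hcol2
    obtain ⟨i, hi, hie⟩ := hen b c I x hce hxY0 y0 hy1
    rw [ms_av] at hy2
    have hst := stages E.q (fun s => ms (E.p s x) {y | vec (l b) I y = vec (l b) I y0})
      (fun s hs => hE.ms_one hs hx _) _ he1 hE.q0 hy2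
    refine Set.mem_biUnion (x := ((b, c, I, i), (range E.q).filter fun s =>
      (4 * ((e + 1 : ℕ) : ℝ))⁻¹ ≤ ms (E.p s x) {y | vec (l b) I y = vec (l b) I y0})) ?_ ?_
    · refine Finset.mem_coe.2 (Finset.mem_filter.2 ⟨Finset.mem_product.2 ⟨?_, ?_⟩, hst⟩)
      · exact hTm b c I i (hbc.trans hce) hce hIb hIc hi
      · exact Finset.mem_powerset.2 (Finset.filter_subset _ _)
    · refine ⟨hx, fun s hs => ?_⟩
      have h2 := (Finset.mem_filter.1 hs).2
      rw [vec_set (l b) I y0 _ hie] at h2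
      exact h2
  rcases hI.split _ _ (hI.mono _ _ hcov hEb) with h | h
  · exact h
  exfalso
  obtain ⟨⟨t, J⟩, hu, hAb⟩ := ide_bi hI Us A h
  obtain ⟨hu1, hu2⟩ := Finset.mem_filter.1 hu
  obtain ⟨ht, hJ⟩ := Finset.mem_product.1 hu1
  have hu2' : (E.q : ℝ) ≤ 4 * ((e + 1 : ℕ) : ℝ) * J.card := hu2
  have hJ' : J ⊆ range E.q := Finset.mem_powerset.1 hJ
  obtain ⟨j, hj, hinj⟩ := enum J
  have hcard : R' + 1 ≤ J.card := by
    have h1 : 4 * (e + 1) * (R' + 1) ≤ E.q := le_trans (by omega) hE.qR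
    have h2 : E.q ≤ 4 * (e + 1) * J.card := by exact_mod_cast hu2'
    exact Nat.le_of_mul_le_mul_left (h1.trans h2) (by positivity)
  refine hR' t ht X Set.Subset.rfl R' le_rfl _ ⟨cond_ok hE j J.card
    (fun s hs => Finset.mem_range.1 (hJ' (hj s hs))) hinj (A (t, J)) (fun x hx => hx.1)
    (S t) (4 * ((e + 1 : ℕ) : ℝ))⁻¹ (inv_pos.2 (by linarith)) (inv_le_one_of_one_le₀ (by
      have h1 : (1 : ℝ) ≤ ((e + 1 : ℕ) : ℝ) := by exact_mod_cast Nat.succ_pos e
      linarith)) ?_ (Nat.succ_pos _) hcard ?_ ?_ ?_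
    (fun _ _ => 0), hAb⟩
  · intro s hs x hx
    exact hx.2 (j s) (hj s hs)
  · rw [inv_mul_eq_div, le_div_iff₀ (by linarith)]
    have h1 : (R' + 1) * (4 * (e + 1)) ≤ e + R + 4 * (e + 1) * (R' + 1) + 1 := by nlinarith
    exact_mod_cast h1
  · intro x y _ hy hC
    exact ⟨hC, hy⟩
  · intro x x' y hy hy'
    have h1 : ∀ s ∈ t.2.2.1, μ t s x = μ t s x' := fun s hs => (hy s hs).symm.trans (hy' s hs)
    show {y | ∀ s ∈ t.2.2.1, (l t.1).p s y = μ t s x} =
      {y | ∀ s ∈ t.2.2.1, (l t.1).p s y = μ t s x'}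
    ext z
    exact forall₂_congr fun s hs => by rw [h1 s hs]

end KilAux

open KilAux in
theorem stKil : StKil := by
  intro V G big m R C W hI hW hG hno
  let P : ℕ → (ℕ → Lv V) × Set V → Prop := fun n p =>
    big p.2 ∧ p.2 ⊆ W ∧ ∀ b < n, OK G m C (R + 1) W (p.1 b) ∧ p.2 ⊆ (p.1 b).dom
  let Rel : ℕ → (ℕ → Lv V) × Set V → (ℕ → Lv V) × Set V → Prop := fun n p p' =>
    (∀ j < n, p'.1 j = p.1 j) ∧ ∃ X, X ⊆ p.2 ∧ X.Nonempty ∧ OK G m C (n + 1) X (p'.1 n) ∧
      p'.2 ⊆ (p'.1 n).dom ∧ ∀ b c, b < c → c < n → ∀ I ⊆ range (p.1 b).q, I.card = R + 1 →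
        ∀ x ∈ p'.2, (n : ℝ) * col (p.1 b) I (av (p.1 c) x) (av (p'.1 n) x) ≤ 1
  have base : ∃ p, P 0 p :=
    ⟨(fun _ => default, W), hW, Set.Subset.rfl, fun b hb => absurd hb (Nat.not_lt_zero b)⟩
  have hstep : ∀ n (p : {p // P n p}), ∃ p' : {p // P (n + 1) p}, Rel n p.1 p'.1 := by
    rintro n ⟨⟨l, Y⟩, hb, hYW, hl⟩
    obtain ⟨X, hXY, hX, E, hE1, hE2, Y', hY', hYb, hcol⟩ := step hI hG hno n l Y hYW hb hl
    have hup : ∀ j < n, Function.update l n E j = l j := fun j hj =>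
      Function.update_of_ne (Nat.ne_of_lt hj) _ _
    have hself : Function.update l n E n = E := Function.update_self _ _ _
    have hY'Y : Y' ⊆ Y := hY'.trans (hE1.sub.trans hXY)
    refine ⟨⟨(Function.update l n E, Y'), hYb, hY'Y.trans hYW, ?_⟩, hup, X, hXY,
      Set.nonempty_iff_ne_empty.2 fun h => hI.emp (h ▸ hX), ?_, ?_, ?_⟩
    · intro b hb'
      show OK G m C (R + 1) W (Function.update l n E b) ∧ Y' ⊆ (Function.update l n E b).dom
      rcases Nat.lt_succ_iff_lt_or_eq.1 hb' with h1 | h1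
      · rw [hup b h1]
        exact ⟨(hl b h1).1, hY'Y.trans (hl b h1).2⟩
      · subst h1
        rw [hself]
        exact ⟨hE2.mono (fun _ _ h => h) le_rfl (Nat.succ_pos _) (hXY.trans hYW), hY'⟩
    · show OK G m C (n + 1) X (Function.update l n E n)
      rw [hself]
      exact hE1
    · show Y' ⊆ (Function.update l n E n).dom
      rw [hself]
      exact hY'
    · intro b c hbc hcn I hIb hIc x hx
      show (n : ℝ) * col (l b) I (av (l c) x) (av (Function.update l n E n) x) ≤ 1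
      rw [hself]
      exact hcol b c hbc hcn I hIb hIc x hx
  choose f hf using hstep
  obtain ⟨p0, hp0⟩ := base
  let σ : ∀ n, {p // P n p} := fun n => Nat.rec ⟨p0, hp0⟩ (fun n p => f n p) n
  have hσ : ∀ n, Rel n (σ n).1 (σ (n + 1)).1 := fun n => hf n (σ n)
  let D : ℕ → Lv V := fun n => (σ (n + 1)).1.1 n
  have hag : ∀ n, ∀ j < n, (σ n).1.1 j = D j := by
    intro n
    induction n with
    | zero => intro j hj; exact absurd hj (Nat.not_lt_zero j)
    | succ n ih =>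
      intro j hj
      rcases Nat.lt_succ_iff_lt_or_eq.1 hj with hj' | hj'
      · rw [(hσ n).1 j hj', ih j hj']
      · subst hj'
        rfl
  choose hσ1 X hX1 hX2 hX3 hX4 hX5 using hσ
  refine ⟨D, X, fun e => ⟨hX2 e, hX3 e, (hX1 (e + 1)).trans (hX4 e)⟩, ?_⟩
  intro b c e hbc hce I hIb hIc x hx
  have h1 := hX5 e b c hbc hce I
  rw [hag e b (hbc.trans hce), hag e c hce] at h1
  exact h1 hIb hIc x (hX1 (e + 1) hx)

end Pool.Agent.Lib.TCW
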