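import Pool.Agent.Lib.TCW.S2
import Pool.Agent.Lib.TCH.Mx

/-!
# A spread law or a bounded cover, for closed neighbourhoods
-/

set_option autoImplicit false

namespace Pool.Agent.Lib.TCW

open Finset Classical
open Pool.Agent.Lib.TCH

namespace NeAux

/-- Powers of two. -/
lemma pow_gt (D0 n : ℕ) (hn : D0 + 1 ≤ n) : D0 + n < 2 ^ n := by
  have h1 : ∀ k : ℕ, 2 * (k + 1) ≤ 2 ^ (k + 1) := by
    intro k
    have h2 : k + 1 ≤ 2 ^ k := Nat.lt_two_pow_self
    rw [pow_succ]
    omega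
  obtain ⟨k, rfl⟩ : ∃ k, n = k + 1 := ⟨n - 1, by omega⟩
  have := h1 k
  omega

/-- The closed neighbourhood. -/
def Rl {V : Type} (G : SimpleGraph V) (X q : V) : Prop := X = q ∨ G.Adj X q

/-- The closed neighbourhoods do not shatter large sets. -/
lemma closed {V : Type} (G : SimpleGraph V) (D0 : ℕ) (hVC : GIT.VC G D0) (U : Finset V)
    (hU : 2 * D0 + 1 ≤ U.card) :
    ∃ T, T ⊆ U ∧ ∀ X : V, (U.filter fun q => Rl G X q) ≠ T := by
  by_contra hcon
  push Not at hcon
  obtain ⟨v0, _⟩ := Finset.card_pos.mp (show 0 < U.card by omega)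
  have : Nonempty V := ⟨v0⟩
  obtain ⟨U1, hU1, hc1⟩ := Finset.exists_subset_card_eq (show D0 ≤ U.card by omega)
  obtain ⟨T1, hT1, hne⟩ := hVC U1 (by omega)
  choose! f hf using hcon
  set U2 := U \ U1 with hU2
  have hc2 : D0 + 1 ≤ U2.card := by
    have := Finset.card_sdiff_add_card_eq_card hU1
    rw [← hU2] at this
    omega
  have hUc : U.card = D0 + U2.card := by
    have := Finset.card_sdiff_add_card_eq_card hU1
    rw [← hU2] at this
    omega
  have hsub : ∀ T2 ∈ U2.powerset, T1 ∪ T2 ⊆ U := by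
    intro T2 h2
    exact Finset.union_subset (hT1.trans hU1)
      ((Finset.mem_powerset.mp h2).trans Finset.sdiff_subset)
  have hinj : ∀ T2 ∈ U2.powerset, ∀ T3 ∈ U2.powerset, f (T1 ∪ T2) = f (T1 ∪ T3) → T2 = T3 := by
    intro T2 h2 T3 h3 he
    have e2 := hf _ (hsub T2 h2)
    have e3 := hf _ (hsub T3 h3)
    rw [he, e3] at e2
    have hd : ∀ T ∈ U2.powerset, ∀ u, u ∈ T ↔ u ∈ T1 ∪ T ∧ u ∈ U2 := by
      intro T hT u
      rw [Finset.mem_union]
      constructor
      · intro hu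
        exact ⟨Or.inr hu, Finset.mem_powerset.mp hT hu⟩
      · rintro ⟨h4 | h4, h5⟩
        · exact absurd (hT1 h4) (Finset.mem_sdiff.mp h5).2
        · exact h4
    ext u
    rw [hd T2 h2 u, hd T3 h3 u, e2]
  have hex : ∃ T2 ∈ U2.powerset, f (T1 ∪ T2) ∉ U := by
    by_contra hall
    push Not at hall
    have h4 := Finset.card_le_card_of_injOn (fun T2 => f (T1 ∪ T2))
      (s := U2.powerset) (t := U) (fun T hT => hall T hT)
      (fun T2 h2 T3 h3 he => hinj T2 h2 T3 h3 he)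
    rw [Finset.card_powerset] at h4
    have := pow_gt D0 U2.card hc2
    omega
  obtain ⟨T2, h2, hout⟩ := hex
  refine hne (f (T1 ∪ T2)) ?_
  have e2 := hf _ (hsub T2 h2)
  unfold FracGS.nb
  ext u
  rw [Finset.mem_filter]
  constructor
  · rintro ⟨hu, ha⟩
    have h5 : u ∈ T1 ∪ T2 := by
      rw [← e2, Finset.mem_filter]
      exact ⟨hU1 hu, Or.inr ha⟩
    rcases Finset.mem_union.mp h5 with h6 | h6
    · exact h6
    · exact absurd hu (Finset.mem_sdiff.mp (Finset.mem_powerset.mp h2 h6)).2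
  · intro hu
    have h5 : u ∈ T1 ∪ T2 := Finset.mem_union_left _ hu
    rw [← e2, Finset.mem_filter] at h5
    rcases h5.2 with h6 | h6
    · exact absurd (h6 ▸ h5.1) hout
    · exact ⟨hT1 hu, h6⟩

/-- A bound for the mass of a set. -/
lemma ms_le {V : Type} (p : V →₀ ℝ) (S : Set V) (A : Finset V) (hp : ∀ y, 0 ≤ p y)
    (h : p.support ⊆ A) : ms p S ≤ ∑ y ∈ A with y ∈ S, p y := by
  unfold ms
  exact Finset.sum_le_sum_of_subset_of_nonneg (Finset.filter_subset_filter _ h)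
    fun X _ _ => hp X

/-- An empty sum. -/
lemma sum_zero {V : Type} (S : Set V) (A : Finset V) (l : V → ℝ) (h : ∀ X ∈ A, X ∉ S) :
    ∑ X ∈ A with X ∈ S, l X = 0 := by
  rw [Finset.filter_eq_empty_iff.mpr h, Finset.sum_empty]

end NeAux

open NeAux in
/-- Module `Ne`. -/
theorem stNe : StNe := by
  intro D0 ε hε
  obtain ⟨t, ht⟩ := stMx (2 * D0 + 1) ε hε
  refine ⟨t, ?_⟩
  intro V G hVC hfin dom A x hA
  have hAf : A.Finite := by
    refine (hfin x).subset ?_
    intro X hX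
    exact (hA X hX).symm
  rcases A.eq_empty_or_nonempty with rfl | hne
  · exact Or.inr ⟨∅, by simp, by simp, by simp⟩
  have hBf : {q : V | q ∈ dom ∧ ∃ X ∈ A, X = q ∨ G.Adj X q}.Finite := by
    refine Set.Finite.subset (Set.Finite.biUnion hAf
      (t := fun X => insert X {u | G.Adj X u}) (fun X _ => (hfin X).insert X)) ?_
    rintro q ⟨_, X, hX, h⟩
    simp only [Set.mem_iUnion]
    refine ⟨X, hX, ?_⟩
    rcases h with rfl | h
    · exact Set.mem_insert _ _
    · exact Set.mem_insert_of_mem _ h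
  have hmA : ∀ X, X ∈ hAf.toFinset ↔ X ∈ A := fun X => hAf.mem_toFinset
  have hmB : ∀ q, q ∈ hBf.toFinset ↔ (q ∈ dom ∧ ∃ X ∈ A, X = q ∨ G.Adj X q) :=
    fun q => hBf.mem_toFinset
  rcases ht V V hAf.toFinset hBf.toFinset (fun X q => X ∈ {X | X = q ∨ G.Adj X q})
    ((hAf.toFinset_nonempty).mpr hne) (by
      intro U _ hU
      obtain ⟨T, hT, h⟩ := closed G D0 hVC U hU
      exact ⟨T, hT, fun X _ => h X⟩) with ⟨l, hl0, hlA, hl1, hlB⟩ | ⟨F, hFB, hFc, hF⟩
  · left
    have hs : ∀ X, l X ≠ 0 → X ∈ hAf.toFinset := hlA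
    refine ⟨Finsupp.onFinset hAf.toFinset l hs, ?_, ?_, ?_, ?_⟩
    · intro X
      exact hl0 X
    · rw [← hl1]
      refine Finset.sum_subset Finsupp.support_onFinset_subset ?_
      intro X _ hX
      rw [Finsupp.notMem_support_iff] at hX
      exact hX
    · intro X hX
      exact (hmA X).mp (hlA X hX)
    · intro q hq
      have hle := ms_le (Finsupp.onFinset hAf.toFinset l hs) {X | X = q ∨ G.Adj X q}
        hAf.toFinset (fun X => hl0 X) Finsupp.support_onFinset_subset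
      refine hle.trans ?_
      by_cases hqB : q ∈ hBf.toFinset
      · exact hlB q hqB
      · exact (sum_zero {X | X = q ∨ G.Adj X q} hAf.toFinset l fun X hX h =>
          hqB ((hmB q).mpr ⟨hq, X, (hmA X).mp hX, h⟩)).le.trans hε.le
  · right
    refine ⟨F, hFc, fun q hq => ((hmB q).mp (hFB hq)).1, ?_⟩
    intro X hX
    exact hF X ((hmA X).mpr hX)

end Pool.Agent.Lib.TCW
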