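import Pool.Agent.Lib.TCW.S2
import Pool.Agent.Lib.TCH.PL

/-!
# Towers of coherent levels: the trees are placed downwards
-/

set_option autoImplicit false

namespace Pool.Agent.Lib.TCW

open Finset Classical
open Pool.Agent.Lib.TCH
open Pool.Agent.Lib.GSR3 (Tree)
open Pool.Agent.Lib.FracGS (TAdj)
open Pool.Agent.Lib.ILT (Par)

namespace PlcA

/-! ### The numbers of the words -/

/-- The number of a word. -/
def num {M : ℕ} : List (Fin M) → ℕ
  | [] => 0
  | t :: w => M * num w + 1 + t.1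

lemma num_par {M : ℕ} (t : Fin M) (w : List (Fin M)) : (num (t :: w) - 1) / M = num w := by
  have h1 : num (t :: w) - 1 = M * num w + t.1 := by
    change M * num w + 1 + t.1 - 1 = _
    omega
  have hM : 0 < M := lt_of_le_of_lt (Nat.zero_le _) t.2
  rw [h1, Nat.mul_add_div hM, Nat.div_eq_of_lt t.2, add_zero]

lemma num_mod {M : ℕ} (t : Fin M) (w : List (Fin M)) : (num (t :: w) - 1) % M = t.1 := by
  have h1 : num (t :: w) - 1 = M * num w + t.1 := by
    change M * num w + 1 + t.1 - 1 = _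
    omega
  rw [h1, Nat.mul_add_mod, Nat.mod_eq_of_lt t.2]

lemma num_cons_pos {M : ℕ} (t : Fin M) (w : List (Fin M)) : 0 < num (t :: w) := by
  change 0 < M * num w + 1 + t.1
  omega

lemma num_inj {M : ℕ} : ∀ u w : List (Fin M), num u = num w → u = w
  | [], [], _ => rfl
  | [], t :: w, h => by
    have := num_cons_pos t w
    rw [← h] at this
    exact absurd this (lt_irrefl 0)
  | t :: u, [], h => by
    have := num_cons_pos t u
    rw [h] at this
    exact absurd this (lt_irrefl 0)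
  | t :: u, s :: w, h => by
    have h1 : num u = num w := by rw [← num_par t u, ← num_par s w, h]
    have h2 : t.1 = s.1 := by rw [← num_mod t u, ← num_mod s w, h]
    rw [num_inj u w h1, Fin.ext h2]

/-- A bound for the numbers of the words of length at most `h`. -/
lemma num_le (M : ℕ) : ∀ h : ℕ, ∃ n0 : ℕ, ∀ w : List (Fin M), w.length ≤ h → num w ≤ n0
  | 0 => ⟨0, fun w hw => by
    cases w with
    | nil => exact le_rfl
    | cons t w => simp at hw⟩
  | h + 1 => by
    obtain ⟨n0, hn0⟩ := num_le M h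
    refine ⟨M * n0 + 1 + M, fun w hw => ?_⟩
    cases w with
    | nil => exact Nat.zero_le _
    | cons t w =>
      have h1 := hn0 w (by simpa using hw)
      have h2 : M * num w ≤ M * n0 := Nat.mul_le_mul_left M h1
      have h3 := t.2
      change M * num w + 1 + t.1 ≤ _
      omega

lemma par_par (M : ℕ) : Par (fun j => (j - 1) / M) := by
  refine ⟨?_, ?_⟩
  · intro j hj
    have := Nat.div_le_self (j - 1) M
    show (j - 1) / M < j
    omega
  · intro a b hab
    exact Nat.div_le_div_right (Nat.sub_le_sub_right hab 1)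

/-! ### Masses -/

section Mass

variable {V : Type}

lemma ms_T (p : V →₀ ℝ) (S : Set V) (T : Finset V) (hT : p.support ⊆ T) :
    ms p S = ∑ y ∈ T with y ∈ S, p y := by
  unfold ms
  refine Finset.sum_subset (Finset.filter_subset_filter _ hT) ?_
  intro y hy hy'
  rw [Finset.mem_filter] at hy hy'
  by_contra h
  exact hy' ⟨Finsupp.mem_support_iff.2 h, hy.2⟩

lemma ms_T' (p : V →₀ ℝ) (S : Set V) (T : Finset V) (hT : p.support ⊆ T) :
    ms p S = ∑ y ∈ T, if y ∈ S then p y else 0 := by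
  rw [ms_T p S T hT, Finset.sum_filter]

lemma tot_T (p : V →₀ ℝ) (T : Finset V) (hT : p.support ⊆ T) :
    ∑ y ∈ p.support, p y = ∑ y ∈ T, p y := by
  refine Finset.sum_subset hT ?_
  intro y _ hy'
  exact Finsupp.notMem_support_iff.1 hy'

lemma ms_nn (p : V →₀ ℝ) (hp : ∀ y, 0 ≤ p y) (S : Set V) : 0 ≤ ms p S :=
  Finset.sum_nonneg fun y _ => hp y

lemma ms_mono (p : V →₀ ℝ) (hp : ∀ y, 0 ≤ p y) (S S' : Set V) (h : S ⊆ S') :
    ms p S ≤ ms p S' := by
  unfold ms
  refine Finset.sum_le_sum_of_subset_of_nonneg ?_ fun y _ _ => hp y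
  intro y hy
  rw [Finset.mem_filter] at hy ⊢
  exact ⟨hy.1, h hy.2⟩

/-- sums of laws -/
lemma ms_sum {ι : Type} (s : Finset ι) (c : ι → ℝ) (p : ι → V →₀ ℝ) (S : Set V) :
    ms (∑ i ∈ s, c i • p i) S = ∑ i ∈ s, c i * ms (p i) S := by
  set T : Finset V := (∑ i ∈ s, c i • p i).support ∪ s.biUnion fun i => (p i).support with hT
  rw [ms_T' _ S T Finset.subset_union_left]
  have h1 : ∀ i ∈ s, ms (p i) S = ∑ y ∈ T, if y ∈ S then p i y else 0 := by
    intro i hi
    refine ms_T' _ S T ?_
    intro y hy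
    rw [hT, Finset.mem_union, Finset.mem_biUnion]
    exact Or.inr ⟨i, hi, hy⟩
  have h2 : ∑ i ∈ s, c i * ms (p i) S = ∑ i ∈ s, ∑ y ∈ T, c i * if y ∈ S then p i y else 0 :=
    Finset.sum_congr rfl fun i hi => by rw [h1 i hi, Finset.mul_sum]
  rw [h2, Finset.sum_comm]
  refine Finset.sum_congr rfl fun y _ => ?_
  rw [Finsupp.finsetSum_apply]
  split_ifs with h
  · exact Finset.sum_congr rfl fun i _ => by rw [Finsupp.smul_apply, smul_eq_mul]
  · simp

lemma tot_sum {ι : Type} (s : Finset ι) (c : ι → ℝ) (p : ι → V →₀ ℝ) :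
    ∑ y ∈ (∑ i ∈ s, c i • p i).support, (∑ i ∈ s, c i • p i) y =
      ∑ i ∈ s, c i * ∑ y ∈ (p i).support, p i y := by
  have h1 : ∀ q : V →₀ ℝ, ∑ y ∈ q.support, q y = ms q Set.univ := by
    intro q
    unfold ms
    simp
  rw [h1, ms_sum]
  exact Finset.sum_congr rfl fun i _ => by rw [h1]

/-- domination -/
lemma ms_dom {ι : Type} (s : Finset ι) (c : ℝ) (p : V →₀ ℝ) (q : ι → V →₀ ℝ)
    (h : ∀ y, p y ≤ c * ∑ i ∈ s, q i y) (S : Set V) :
    ms p S ≤ c * ∑ i ∈ s, ms (q i) S := by
  set T : Finset V := p.support ∪ s.biUnion fun i => (q i).support with hT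
  rw [ms_T' _ S T Finset.subset_union_left]
  have h1 : ∀ i ∈ s, ms (q i) S = ∑ y ∈ T, if y ∈ S then q i y else 0 := by
    intro i hi
    refine ms_T' _ S T ?_
    intro y hy
    rw [hT, Finset.mem_union, Finset.mem_biUnion]
    exact Or.inr ⟨i, hi, hy⟩
  rw [Finset.sum_congr rfl h1, Finset.sum_comm, Finset.mul_sum]
  refine Finset.sum_le_sum fun y _ => ?_
  split_ifs with hy
  · exact h y
  · simp

/-- The collision probability as a sum over a large set. -/
lemma col_T (D : Lv V) (I : Finset ℕ) (P P' : V →₀ ℝ) (T : Finset V) (h : P.support ⊆ T)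
    (h' : P'.support ⊆ T) : col D I P P' =
      ∑ y ∈ T, ∑ y' ∈ T, if ∀ s ∈ I, D.p s y = D.p s y' then P y * P' y' else 0 := by
  unfold col
  have h1 : ∀ y, ∑ y' ∈ P'.support with ∀ s ∈ I, D.p s y = D.p s y', P y * P' y' =
      ∑ y' ∈ T, if ∀ s ∈ I, D.p s y = D.p s y' then P y * P' y' else 0 := by
    intro y
    rw [Finset.sum_filter]
    refine Finset.sum_subset h' ?_
    intro y' _ hy'
    rw [Finsupp.notMem_support_iff.1 hy', mul_zero, ite_self]
  rw [Finset.sum_congr rfl fun y _ => h1 y]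
  refine Finset.sum_subset h ?_
  intro y _ hy
  rw [Finsupp.notMem_support_iff.1 hy]
  simp

lemma col_comm (D : Lv V) (I : Finset ℕ) (P P' : V →₀ ℝ) : col D I P P' = col D I P' P := by
  rw [col_T D I P P' (P.support ∪ P'.support) Finset.subset_union_left
    Finset.subset_union_right, col_T D I P' P (P.support ∪ P'.support) Finset.subset_union_right
    Finset.subset_union_left, Finset.sum_comm]
  refine Finset.sum_congr rfl fun y _ => Finset.sum_congr rfl fun y' _ => ?_
  rw [mul_comm]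
  refine if_congr ?_ rfl rfl
  exact ⟨fun h s hs => (h s hs).symm, fun h s hs => (h s hs).symm⟩

lemma col_le_one (D : Lv V) (I : Finset ℕ) (P P' : V →₀ ℝ) (h0 : ∀ y, 0 ≤ P y)
    (h0' : ∀ y, 0 ≤ P' y) (h : ∑ y ∈ P.support, P y = 1) (h' : ∑ y ∈ P'.support, P' y = 1) :
    col D I P P' ≤ 1 := by
  unfold col
  calc _ ≤ ∑ y ∈ P.support, P y := by
        refine Finset.sum_le_sum fun y _ => ?_
        rw [← Finset.mul_sum]
        refine mul_le_of_le_one_right (h0 y) ?_
        rw [← h']
        exact Finset.sum_le_sum_of_subset_of_nonneg (Finset.filter_subset _ _)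
          fun y' _ _ => h0' y'
    _ = 1 := h

/-- The collision probability of a law dominated by a sum of laws. -/
lemma col_dom (D : Lv V) (I : Finset ℕ) {ι : Type} (s : Finset ι) (c : ℝ)
    (p : V →₀ ℝ) (q : ι → V →₀ ℝ) (hp : ∀ y, 0 ≤ p y)
    (h : ∀ y, p y ≤ c * ∑ i ∈ s, q i y) :
    col D I p p ≤ c ^ 2 * ∑ i ∈ s, ∑ i' ∈ s, col D I (q i) (q i') := by
  set T : Finset V := p.support ∪ s.biUnion fun i => (q i).support with hT
  have hT' : ∀ i ∈ s, (q i).support ⊆ T := by
    intro i hi y hy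
    rw [hT, Finset.mem_union, Finset.mem_biUnion]
    exact Or.inr ⟨i, hi, hy⟩
  rw [col_T D I p p T Finset.subset_union_left Finset.subset_union_left]
  have h1 : ∑ i ∈ s, ∑ i' ∈ s, col D I (q i) (q i') = ∑ y ∈ T, ∑ y' ∈ T,
      ∑ i ∈ s, ∑ i' ∈ s, if ∀ s ∈ I, D.p s y = D.p s y' then q i y * q i' y' else 0 := by
    rw [Finset.sum_congr rfl fun i hi => Finset.sum_congr rfl fun i' hi' =>
      col_T D I (q i) (q i') T (hT' i hi) (hT' i' hi')]
    rw [Finset.sum_congr rfl fun i _ => Finset.sum_comm, Finset.sum_comm]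
    refine Finset.sum_congr rfl fun y _ => ?_
    rw [Finset.sum_congr rfl fun i _ => Finset.sum_comm, Finset.sum_comm]
  rw [h1, Finset.mul_sum]
  refine Finset.sum_le_sum fun y _ => ?_
  rw [Finset.mul_sum]
  refine Finset.sum_le_sum fun y' _ => ?_
  split_ifs with hs
  · calc p y * p y' ≤ (c * ∑ i ∈ s, q i y) * (c * ∑ i ∈ s, q i y') :=
          mul_le_mul (h y) (h y') (hp y') ((hp y).trans (h y))
      _ = c ^ 2 * ((∑ i ∈ s, q i y) * ∑ i' ∈ s, q i' y') := by ring
      _ = _ := by rw [Finset.sum_mul_sum]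
  · simp

end Mass

/-! ### One level -/

section Level

variable {V : Type} {G : SimpleGraph V} {m : ℕ} {C : V → V → Prop} {b : ℕ} {W : Set V} {D : Lv V}

lemma q_pos (h : OK G m C (b + 1) W D) : 0 < (D.q : ℝ) := by
  have := h.qR
  exact_mod_cast Nat.lt_of_lt_of_le (Nat.succ_pos b) this

lemma av_apply (D : Lv V) (x y : V) :
    av D x y = ∑ s ∈ range D.q, ((D.q : ℝ)⁻¹) * D.p s x y := by
  unfold av
  rw [Finsupp.finsetSum_apply]
  exact Finset.sum_congr rfl fun s _ => by rw [Finsupp.smul_apply, smul_eq_mul]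

lemma av_nn (h : OK G m C (b + 1) W D) (x : V) (hx : x ∈ D.dom) (y : V) : 0 ≤ av D x y := by
  rw [av_apply]
  exact Finset.sum_nonneg fun s hs =>
    mul_nonneg (inv_nonneg.2 (q_pos h).le) (h.nn s (Finset.mem_range.1 hs) x hx y)

lemma av_tot (h : OK G m C (b + 1) W D) (x : V) (hx : x ∈ D.dom) :
    ∑ y ∈ (av D x).support, av D x y = 1 := by
  unfold av
  rw [tot_sum, Finset.sum_congr rfl fun s hs => by
    rw [h.one s (Finset.mem_range.1 hs) x hx, mul_one], Finset.sum_const, Finset.card_range,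
    nsmul_eq_mul, mul_inv_cancel₀ (q_pos h).ne']

lemma av_sup (h : OK G m C (b + 1) W D) (x : V) (hx : x ∈ D.dom) (y : V) (hy : av D x y ≠ 0) :
    y ∈ W := by
  rw [av_apply] at hy
  obtain ⟨s, hs, hs'⟩ := Finset.exists_ne_zero_of_sum_ne_zero hy
  exact (h.sup s (Finset.mem_range.1 hs) x hx y (right_ne_zero_of_mul hs')).1

lemma av_ms (h : OK G m C (b + 1) W D) (x : V) (S : Set V) (c : ℝ)
    (hS : ∀ s < D.q, ms (D.p s x) S ≤ c) : ms (av D x) S ≤ c := by
  unfold av
  rw [ms_sum]
  have hq := q_pos h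
  calc ∑ s ∈ range D.q, (D.q : ℝ)⁻¹ * ms (D.p s x) S
      ≤ ∑ s ∈ range D.q, (D.q : ℝ)⁻¹ * c := Finset.sum_le_sum fun s hs =>
        mul_le_mul_of_nonneg_left (hS s (Finset.mem_range.1 hs)) (inv_nonneg.2 hq.le)
    _ = c := by
      rw [Finset.sum_const, Finset.card_range, nsmul_eq_mul, ← mul_assoc,
        mul_inv_cancel₀ hq.ne', one_mul]

lemma av_atm (h : OK G m C (b + 1) W D) (x : V) (hx : x ∈ D.dom) (y : V) (hy : y ∈ D.dom) :
    av D x y ≤ 1 / (b + 1) := by
  rw [av_apply]
  have hq := q_pos h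
  have hb : (0 : ℝ) < b + 1 := by positivity
  calc ∑ s ∈ range D.q, (D.q : ℝ)⁻¹ * D.p s x y
      ≤ ∑ s ∈ range D.q, (D.q : ℝ)⁻¹ * (1 / (b + 1)) := Finset.sum_le_sum fun s hs => by
        refine mul_le_mul_of_nonneg_left ?_ (inv_nonneg.2 hq.le)
        rw [le_div_iff₀ hb, mul_comm]
        have := h.atm s (Finset.mem_range.1 hs) x hx y hy
        push_cast at this
        exact this
    _ = 1 / (b + 1) := by
      rw [Finset.sum_const, Finset.card_range, nsmul_eq_mul, ← mul_assoc,
        mul_inv_cancel₀ hq.ne', one_mul]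

lemma av_adj (h : OK G m C (b + 1) W D) (x : V) (hx : x ∈ D.dom) (hb1 : 1 ≤ b) :
    1 / 2 ≤ ms (av D x) {y | G.Adj x y} := by
  have hb : (0 : ℝ) < b + 1 := by positivity
  have h1 : ms (av D x) {y | ¬ G.Adj x y} ≤ 1 / (b + 1) := by
    refine av_ms h x _ _ fun s hs => ?_
    rw [le_div_iff₀ hb, mul_comm]
    have := h.adj s hs x hx
    push_cast at this
    exact this
  have h2 : ms (av D x) {y | G.Adj x y} + ms (av D x) {y | ¬ G.Adj x y} = 1 := by
    rw [← av_tot h x hx, ms_T' _ _ _ (Finset.Subset.refl _), ms_T' _ _ _ (Finset.Subset.refl _),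
      ← Finset.sum_add_distrib]
    refine Finset.sum_congr rfl fun y _ => ?_
    by_cases hy : G.Adj x y
    · simp [hy]
    · simp [hy]
  have h3 : (1 : ℝ) / (b + 1) ≤ 1 / 2 := by
    refine one_div_le_one_div_of_le two_pos ?_
    have : (1 : ℝ) ≤ b := by exact_mod_cast hb1
    linarith
  linarith

/-- The law of the hubs of `x`, given that they are adjacent to `x`. -/
noncomputable def cd (G : SimpleGraph V) (D : Lv V) (x : V) : V →₀ ℝ :=
  (ms (av D x) {y | G.Adj x y})⁻¹ • (av D x).filter (fun y => G.Adj x y)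

lemma cd_apply (G : SimpleGraph V) (D : Lv V) (x y : V) : cd G D x y =
    (ms (av D x) {y | G.Adj x y})⁻¹ * if G.Adj x y then av D x y else 0 := by
  unfold cd
  rw [Finsupp.smul_apply, smul_eq_mul, Finsupp.filter_apply]

lemma cd_nn (h : OK G m C (b + 1) W D) (x : V) (hx : x ∈ D.dom) (hb1 : 1 ≤ b) (y : V) :
    0 ≤ cd G D x y := by
  rw [cd_apply]
  have h1 := av_adj h x hx hb1
  refine mul_nonneg (inv_nonneg.2 (by linarith)) ?_
  split_ifs
  · exact av_nn h x hx y
  · exact le_rfl

lemma cd_le (h : OK G m C (b + 1) W D) (x : V) (hx : x ∈ D.dom) (hb1 : 1 ≤ b) (y : V) :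
    cd G D x y ≤ 2 * av D x y := by
  rw [cd_apply]
  have h1 := av_adj h x hx hb1
  have h0 := av_nn h x hx y
  have h2 : (ms (av D x) {y | G.Adj x y})⁻¹ ≤ 2 := by
    rw [inv_le_comm₀ (by linarith) two_pos]
    linarith
  split_ifs
  · exact mul_le_mul_of_nonneg_right h2 h0
  · rw [mul_zero]
    linarith

lemma cd_sup (h : OK G m C (b + 1) W D) (x : V) (hx : x ∈ D.dom) (y : V)
    (hy : cd G D x y ≠ 0) : G.Adj x y ∧ y ∈ W := by
  rw [cd_apply] at hy
  have h1 := right_ne_zero_of_mul hy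
  split_ifs at h1 with ha
  · exact ⟨ha, av_sup h x hx y h1⟩
  · exact absurd rfl h1

lemma cd_tot (h : OK G m C (b + 1) W D) (x : V) (hx : x ∈ D.dom) (hb1 : 1 ≤ b) :
    ∑ y ∈ (cd G D x).support, cd G D x y = 1 := by
  have h1 := av_adj h x hx hb1
  have hs : (cd G D x).support ⊆ (av D x).support := by
    intro y hy
    rw [Finsupp.mem_support_iff] at hy ⊢
    rw [cd_apply] at hy
    have h1 := right_ne_zero_of_mul hy
    split_ifs at h1 with ha
    · exact h1
    · exact absurd rfl h1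
  rw [tot_T _ _ hs]
  simp only [cd_apply]
  rw [← Finset.mul_sum, ← Finset.sum_filter]
  have h2 : ms (av D x) {y | G.Adj x y} ≠ 0 := by linarith
  exact inv_mul_cancel₀ h2

end Level

/-! ### The kernels -/

section Kern

variable {V : Type} {G : SimpleGraph V} {m : ℕ} {C : V → V → Prop} {D : ℕ → Lv V}
  {X : ℕ → Set V}

/-- The law of a child of `x` in the block `[a, 2 a)`. -/
noncomputable def kn (G : SimpleGraph V) (D : ℕ → Lv V) (a : ℕ) (x : V) : V →₀ ℝ :=
  ∑ b ∈ Ico a (2 * a), ((a : ℝ)⁻¹) • cd G (D b) x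

lemma kn_apply (G : SimpleGraph V) (D : ℕ → Lv V) (a : ℕ) (x y : V) :
    kn G D a x y = ∑ b ∈ Ico a (2 * a), ((a : ℝ)⁻¹) * cd G (D b) x y := by
  unfold kn
  rw [Finsupp.finsetSum_apply]
  exact Finset.sum_congr rfl fun s _ => by rw [Finsupp.smul_apply, smul_eq_mul]

/-- A sequence of levels. -/
structure Sq (G : SimpleGraph V) (m : ℕ) (C : V → V → Prop) (D : ℕ → Lv V)
    (X : ℕ → Set V) : Prop where
  ok : ∀ e, OK G m C (e + 1) (X e) (D e)
  sub : ∀ e, X (e + 1) ⊆ (D e).dom

lemma Sq.anti (h : Sq G m C D X) {b c : ℕ} (hbc : b ≤ c) : X c ⊆ X b := by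
  have h1 : Antitone X := antitone_nat_of_succ_le fun e => (h.sub e).trans (h.ok e).sub
  exact h1 hbc

lemma Sq.dom (h : Sq G m C D X) {b c : ℕ} (hbc : b < c) : X c ⊆ (D b).dom :=
  (h.anti hbc).trans (h.sub b)

variable (h : Sq G m C D X) {a : ℕ} (ha : 1 ≤ a) {x : V} (hx : x ∈ X (2 * a))

include h ha hx

lemma mdom {b : ℕ} (hb : b ∈ Ico a (2 * a)) : x ∈ (D b).dom ∧ 1 ≤ b := by
  rw [Finset.mem_Ico] at hb
  exact ⟨h.dom hb.2 hx, ha.trans hb.1⟩

lemma kn_nn (y : V) : 0 ≤ kn G D a x y := by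
  rw [kn_apply]
  refine Finset.sum_nonneg fun b hb => mul_nonneg (by positivity) ?_
  obtain ⟨h1, h2⟩ := mdom h ha hx hb
  exact cd_nn (h.ok b) x h1 h2 y

lemma kn_tot : ∑ y ∈ (kn G D a x).support, kn G D a x y = 1 := by
  have ha' : (0 : ℝ) < a := by exact_mod_cast ha
  unfold kn
  rw [tot_sum, Finset.sum_congr rfl fun b hb => by
    obtain ⟨h1, h2⟩ := mdom h ha hx hb
    rw [cd_tot (h.ok b) x h1 h2, mul_one], Finset.sum_const, Nat.card_Ico, nsmul_eq_mul,
    show 2 * a - a = a by omega, mul_inv_cancel₀ ha'.ne']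

lemma kn_sup (y : V) (hy : kn G D a x y ≠ 0) : G.Adj x y ∧ y ∈ X a := by
  rw [kn_apply] at hy
  obtain ⟨b, hb, hb'⟩ := Finset.exists_ne_zero_of_sum_ne_zero hy
  obtain ⟨h1, h2⟩ := mdom h ha hx hb
  have h3 := cd_sup (h.ok b) x h1 y (right_ne_zero_of_mul hb')
  exact ⟨h3.1, h.anti (Finset.mem_Ico.1 hb).1 h3.2⟩

lemma kn_le (y : V) : kn G D a x y ≤ 2 / a * ∑ b ∈ Ico a (2 * a), av (D b) x y := by
  have ha' : (0 : ℝ) < a := by exact_mod_cast ha
  rw [kn_apply, Finset.mul_sum]
  refine Finset.sum_le_sum fun b hb => ?_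
  obtain ⟨h1, h2⟩ := mdom h ha hx hb
  have h3 := cd_le (h.ok b) x h1 h2 y
  calc (a : ℝ)⁻¹ * cd G (D b) x y ≤ (a : ℝ)⁻¹ * (2 * av (D b) x y) :=
        mul_le_mul_of_nonneg_left h3 (by positivity)
    _ = _ := by ring

lemma kn_pt (y : V) (hy : y ∈ X (2 * a)) : kn G D a x y ≤ 2 / a := by
  have ha' : (0 : ℝ) < a := by exact_mod_cast ha
  refine (kn_le h ha hx y).trans ?_
  have h1 : ∑ b ∈ Ico a (2 * a), av (D b) x y ≤ ∑ b ∈ Ico a (2 * a), 1 / (a : ℝ) := by
    refine Finset.sum_le_sum fun b hb => ?_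
    obtain ⟨h1, h2⟩ := mdom h ha hx hb
    refine (av_atm (h.ok b) x h1 y (mdom h ha hy hb).1).trans ?_
    refine one_div_le_one_div_of_le ha' ?_
    have : (a : ℝ) ≤ b := by exact_mod_cast (Finset.mem_Ico.1 hb).1
    linarith
  rw [Finset.sum_const, Nat.card_Ico, nsmul_eq_mul, show 2 * a - a = a by omega,
    mul_one_div_cancel ha'.ne'] at h1
  calc 2 / (a : ℝ) * ∑ b ∈ Ico a (2 * a), av (D b) x y ≤ 2 / a * 1 :=
        mul_le_mul_of_nonneg_left h1 (by positivity)
    _ = 2 / a := mul_one _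

lemma kn_ms (t : V) (ht : t ∈ X (2 * a)) : ms (kn G D a x) {w | G.Adj w t ∨ w = t} ≤
    2 / a * (1 + ∑ b ∈ Ico a (2 * a), ms (av (D b) x) {w | G.Adj w t}) := by
  have ha' : (0 : ℝ) < a := by exact_mod_cast ha
  refine (ms_dom _ _ _ _ (kn_le h ha hx) _).trans ?_
  refine mul_le_mul_of_nonneg_left ?_ (by positivity)
  have h1 : ∀ b ∈ Ico a (2 * a), ms (av (D b) x) {w | G.Adj w t ∨ w = t} ≤
      1 / a + ms (av (D b) x) {w | G.Adj w t} := by
    intro b hb
    obtain ⟨h1, h2⟩ := mdom h ha hx hb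
    have h3 : ms (av (D b) x) {w | G.Adj w t ∨ w = t} ≤
        av (D b) x t + ms (av (D b) x) {w | G.Adj w t} := by
      have hT : (av (D b) x).support ⊆ insert t (av (D b) x).support :=
        Finset.subset_insert _ _
      rw [ms_T' _ _ _ hT, ms_T' _ _ _ hT]
      have h4 : av (D b) x t = ∑ y ∈ insert t (av (D b) x).support,
          if y = t then av (D b) x y else 0 := by
        rw [Finset.sum_ite_eq' (insert t (av (D b) x).support) t,
          if_pos (Finset.mem_insert_self _ _)]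
      rw [h4, ← Finset.sum_add_distrib]
      refine Finset.sum_le_sum fun y _ => ?_
      have h5 := av_nn (h.ok b) x h1 y
      by_cases hy : G.Adj y t
      · simp only [Set.mem_ofPred_eq, hy, true_or, if_true]
        split_ifs
        · linarith
        · linarith
      · simp only [Set.mem_ofPred_eq, hy, false_or, if_false, add_zero]
        exact le_rfl
    have h6 : av (D b) x t ≤ 1 / a := by
      refine (av_atm (h.ok b) x h1 t (mdom h ha ht hb).1).trans ?_
      refine one_div_le_one_div_of_le ha' ?_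
      have : (a : ℝ) ≤ b := by exact_mod_cast (Finset.mem_Ico.1 hb).1
      linarith
    linarith
  refine (Finset.sum_le_sum h1).trans ?_
  rw [Finset.sum_add_distrib, Finset.sum_const, Nat.card_Ico, nsmul_eq_mul,
    show 2 * a - a = a by omega, mul_one_div_cancel ha'.ne']

/-- The collision probability of the kernels. -/
lemma kn_col (R : ℕ) (hcol : ∀ b c e, b < c → c < e → ∀ I ⊆ range (D b).q, I.card = R + 1 →
      ∀ x ∈ X (e + 1), (e : ℝ) * col (D b) I (av (D c) x) (av (D e) x) ≤ 1)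
    (b : ℕ) (hb : b < a) (I : Finset ℕ) (hI : I ⊆ range (D b).q) (hI' : I.card = R + 1) :
    col (D b) I (kn G D a x) (kn G D a x) ≤ 8 / a := by
  have ha' : (0 : ℝ) < a := by exact_mod_cast ha
  refine (col_dom (D b) I (Ico a (2 * a)) (2 / a) _ (fun i => av (D i) x) (kn_nn h ha hx)
    (kn_le h ha hx)).trans ?_
  have key : ∀ c e, c ∈ Ico a (2 * a) → e ∈ Ico a (2 * a) → c < e →
      col (D b) I (av (D c) x) (av (D e) x) ≤ 1 / a := by
    intro c e hc he hce
    rw [Finset.mem_Ico] at hc he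
    have h1 := hcol b c e (by omega) hce I hI hI' x (h.anti (by omega) hx)
    have he' : (0 : ℝ) < e := by exact_mod_cast (show 0 < e by omega)
    have h2 : col (D b) I (av (D c) x) (av (D e) x) ≤ 1 / e := by
      rw [le_div_iff₀ he', mul_comm]
      exact h1
    refine h2.trans (one_div_le_one_div_of_le ha' ?_)
    exact_mod_cast he.1
  have h1 : ∀ c ∈ Ico a (2 * a), ∑ e ∈ Ico a (2 * a), col (D b) I (av (D c) x) (av (D e) x) ≤
      2 := by
    intro c hc
    obtain ⟨hc1, hc2⟩ := mdom h ha hx hc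
    have h2 : ∀ e ∈ Ico a (2 * a), col (D b) I (av (D c) x) (av (D e) x) ≤
        (if e = c then 1 else 0) + 1 / (a : ℝ) := by
      intro e he
      rcases lt_trichotomy c e with hce | hce | hce
      · rw [if_neg (by omega), zero_add]
        exact key c e hc he hce
      · rw [if_pos hce.symm, ← hce]
        have h3 := col_le_one (D b) I _ _ (av_nn (h.ok c) x hc1) (av_nn (h.ok c) x hc1)
          (av_tot (h.ok c) x hc1) (av_tot (h.ok c) x hc1)
        have h4 : 0 ≤ 1 / (a : ℝ) := by positivity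
        linarith
      · rw [if_neg (by omega), zero_add, col_comm]
        exact key e c he hc hce
    refine (Finset.sum_le_sum h2).trans ?_
    rw [Finset.sum_add_distrib, Finset.sum_ite_eq' (Ico a (2 * a)) c, if_pos hc,
      Finset.sum_const, Nat.card_Ico, nsmul_eq_mul, show 2 * a - a = a by omega,
      mul_one_div_cancel ha'.ne']
    norm_num
  have h2 := Finset.sum_le_sum h1
  rw [Finset.sum_const, Nat.card_Ico, nsmul_eq_mul, show 2 * a - a = a by omega] at h2
  calc (2 / (a : ℝ)) ^ 2 * ∑ c ∈ Ico a (2 * a), ∑ e ∈ Ico a (2 * a),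
        col (D b) I (av (D c) x) (av (D e) x) ≤ (2 / (a : ℝ)) ^ 2 * (a * 2) :=
        mul_le_mul_of_nonneg_left h2 (by positivity)
    _ = 8 / a := by
      field_simp
      ring

end Kern

/-- The sequence of the blocks. -/
lemma exists_seq (δ : ℕ → ℝ) (hδ : ∀ b, 0 < δ b) (L : ℕ) : ∃ a : ℕ → ℕ, L ≤ a 0 ∧
    ∀ i, 2 * a i ≤ a (i + 1) ∧ ∀ b < 2 * a i, 8 ≤ δ b * a (i + 1) := by
  have h1 : ∀ N : ℕ, ∃ A : ℕ, N ≤ A ∧ ∀ b < N, 8 ≤ δ b * A := by
    intro N
    refine ⟨N + ∑ b ∈ range N, ⌈8 / δ b⌉₊, Nat.le_add_right _ _, fun b hb => ?_⟩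
    have h2 : ⌈8 / δ b⌉₊ ≤ N + ∑ b ∈ range N, ⌈8 / δ b⌉₊ :=
      (Finset.single_le_sum (f := fun b => ⌈8 / δ b⌉₊) (fun _ _ => Nat.zero_le _)
        (Finset.mem_range.2 hb)).trans (Nat.le_add_left _ _)
    have h3 : 8 / δ b ≤ ((N + ∑ b ∈ range N, ⌈8 / δ b⌉₊ : ℕ) : ℝ) :=
      (Nat.le_ceil _).trans (by exact_mod_cast h2)
    rw [div_le_iff₀ (hδ b)] at h3
    linarith
  choose A hA1 hA2 using h1
  refine ⟨fun i => Nat.rec L (fun _ a => A (2 * a)) i, le_rfl, fun i => ⟨hA1 _, hA2 _⟩⟩

lemma seq_mono (a : ℕ → ℕ) (ha : ∀ i, 2 * a i ≤ a (i + 1)) (i j : ℕ) (hij : i < j) :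
    2 * a i ≤ a j := by
  have h1 : Monotone a := monotone_nat_of_le_succ fun i => by have := ha i; omega
  exact (ha i).trans (h1 hij)

end PlcA

open PlcA in
theorem stPlc : StNc → StSib → StPlc := by
  classical
  intro hNc hSib V G m k h M R C D X hk hT hyp
  obtain ⟨h1, hcol⟩ := hyp
  have hsq : Sq G m C D X := ⟨fun e => (h1 e).2.1, fun e => (h1 e).2.2⟩
  obtain ⟨M', hM'⟩ := hSib h M k
  obtain ⟨n, hn⟩ := num_le M' h
  -- constants
  set ε : ℝ := 1 / (2 * (n * (n + 1) + 1)) with hε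
  have hε0 : 0 < ε := by positivity
  obtain ⟨q0, hq0⟩ := hNc (R + 1) m (ε / 4) (by positivity)
  choose δ' hδ' hNc' using hq0
  set δ : ℕ → ℝ := fun b => δ' (D b).N with hδ
  obtain ⟨a, ha0, ha⟩ := exists_seq δ (fun b => hδ' _) (max (max q0 1) ⌈4 / ε⌉₊)
  have ha1 := seq_mono a (fun i => (ha i).1)
  have hamono : Monotone a := monotone_nat_of_le_succ fun i => by have := (ha i).1; omega
  have hage : ∀ i, q0 ≤ a i ∧ 1 ≤ a i ∧ 4 / ε ≤ a i := by
    intro i
    have h2 := ha0.trans (hamono (Nat.zero_le i))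
    refine ⟨(le_max_left _ _).trans ((le_max_left _ _).trans h2),
      (le_max_right _ _).trans ((le_max_left _ _).trans h2), ?_⟩
    exact (Nat.le_ceil _).trans (by exact_mod_cast (le_max_right _ _).trans h2)
  obtain ⟨r, hr⟩ := (h1 (a n)).1
  -- the finite set
  set S : ℕ → Finset V := fun i => Nat.rec {r} (fun _ s => s ∪ s.biUnion fun v =>
    (range (n + 1)).biUnion fun i' => (kn G D (a i') v).support) i with hS
  have hS1 : ∀ i, S (i + 1) = S i ∪ (S i).biUnion fun v =>
    (range (n + 1)).biUnion fun i' => (kn G D (a i') v).support := fun i => rfl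
  have hSm : Monotone S := monotone_nat_of_le_succ fun i => by
    rw [hS1]
    exact Finset.subset_union_left
  have hSs : ∀ i i' v, i' ≤ n → v ∈ S i → (kn G D (a i') v).support ⊆ S (i + 1) := by
    intro i i' v hi' hv y hy
    rw [hS1, Finset.mem_union, Finset.mem_biUnion]
    exact Or.inr ⟨v, hv, Finset.mem_biUnion.2 ⟨i', Finset.mem_range.2 (by omega), hy⟩⟩
  set A : Finset (ℕ × V) := ((range (n + 1)) ×ˢ S n).filter (fun p => p.2 ∈ S p.1) with hA
  have hA1 : ∀ j y, (j, y) ∈ A ↔ j ≤ n ∧ y ∈ S j := by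
    intro j y
    rw [hA, Finset.mem_filter, Finset.mem_product, Finset.mem_range]
    constructor
    · rintro ⟨⟨h2, -⟩, h3⟩
      exact ⟨Nat.lt_succ_iff.1 h2, h3⟩
    · rintro ⟨h2, h3⟩
      exact ⟨⟨Nat.lt_succ_of_le h2, hSm h2 h3⟩, h3⟩
  set par : ℕ → ℕ := fun j => (j - 1) / M' with hpar
  have hPar : Par par := par_par M'
  have hpl := hPar.1
  set Ad : ℕ → Set (ℕ × V) := fun j => {p | p.1 = j ∧ p.2 ∈ X (a (n - j))} with hAd
  set K : ℕ → (ℕ × V) → (ℕ × V) → (ℕ × V) → ℝ := fun j _ v w =>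
    if w.1 = j ∧ v.2 ∈ X (2 * a (n - j)) then kn G D (a (n - j)) v.2 w.2 else 0 with hK
  set Cf : ℕ → ℕ → (ℕ × V) → (ℕ × V) → Prop := fun j l w z =>
    if par l = par j then w.2 = z.2 else (G.Adj w.2 z.2 ∨ w.2 = z.2) with hCf
  have hK1 : ∀ j x v y, v.2 ∈ X (2 * a (n - j)) →
      K j x v (j, y) = kn G D (a (n - j)) v.2 y := by
    intro j x v y hv
    rw [hK]
    simp only
    rw [if_pos ⟨trivial, hv⟩]
  have hCf1 : ∀ j l w z, par l = par j → (Cf j l w z ↔ w.2 = z.2) := by
    intro j l w z h2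
    rw [hCf]
    simp only
    rw [if_pos h2]
  have hCf2 : ∀ j l w z, Cf j l w z → G.Adj w.2 z.2 ∨ w.2 = z.2 := by
    intro j l w z h2
    rw [hCf] at h2
    split_ifs at h2
    · exact Or.inr h2
    · exact h2
  clear_value Cf K
  -- facts on the nodes
  have hup : ∀ i j, i < j → j ≤ n → X (a (n - i)) ⊆ X (2 * a (n - j)) := by
    intro i j hij hj
    exact hsq.anti (ha1 _ _ (by omega))
  have htr : ∀ j, 1 ≤ j → j ≤ n → ∀ v ∈ A, v ∈ Ad (par j) → ∀ F : ℕ × V → ℝ,
      (∀ w, F w ≠ 0 → w.1 = j ∧ w.2 ∈ (kn G D (a (n - j)) v.2).support) →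
      ∑ w ∈ A, F w = ∑ y ∈ (kn G D (a (n - j)) v.2).support, F (j, y) := by
    intro j hj hjn v hv hv' F hF
    symm
    refine Finset.sum_of_injOn (fun y => (j, y)) ?_ ?_ ?_ ?_
    · intro y _ y' _ hyy
      exact (Prod.ext_iff.1 hyy).2
    · intro y hy
      have h2 : v = (par j, v.2) := Prod.ext hv'.1 rfl
      rw [h2, hA1] at hv
      refine (hA1 j y).2 ⟨hjn, ?_⟩
      have h3 := hSs (par j) (n - j) v.2 (by omega) hv.2 hy
      exact hSm (hpl j hj) h3
    · intro w _ hw
      by_contra hne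
      obtain ⟨h2, h3⟩ := hF w hne
      refine hw ⟨w.2, h3, ?_⟩
      exact Prod.ext h2.symm rfl
    · intro y _
      rfl
  have hkey := stPL (ℕ × V) A n par hPar Ad K Cf ε (0, r)
    ((hA1 0 r).2 ⟨Nat.zero_le _, Finset.mem_singleton_self r⟩) ⟨rfl, hr⟩ hε0.le
    ?_ ?_ ?_ ?_ ?_ ?_
  · -- the copy
    obtain ⟨φ, hφ0, hφ1, hφ2, hφ3⟩ := hkey
    have hadj : ∀ j, 1 ≤ j → j ≤ n → G.Adj (φ (par j)).2 (φ j).2 := by
      intro j hj hjn
      have h2 := hφ2 j hj hjn
      rw [hK] at h2
      simp only at h2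
      split_ifs at h2 with h3
      · exact (kn_sup hsq (hage _).2.1 h3.2 _ h2).1
      · exact absurd rfl h2
    have hne : ∀ j ≤ n, ∀ l < j, (φ j).2 ≠ (φ l).2 := by
      intro j hj l hl heq
      rcases eq_or_ne l (par j) with h2 | h2
      · have h3 := hadj j (by omega) hj
        rw [← h2, heq] at h3
        exact h3.ne rfl
      · refine hφ3 j hj l hl h2 ?_
        rw [hCf]
        simp only
        split_ifs
        · exact heq
        · exact Or.inr heq
    refine Exists.elim (hM' V G hk (fun w => (φ (num w)).2) ?_ ?_ ?_) (fun ψ hψ => hT ψ hψ)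
    · intro u w hu hw huw
      by_contra hne'
      rcases lt_trichotomy (num u) (num w) with h2 | h2 | h2
      · exact hne _ (hn w hw) _ h2 huw.symm
      · exact hne' (num_inj u w h2)
      · exact hne _ (hn u hu) _ h2 huw
    · intro t u htu
      have h2 := hadj (num (t :: u)) (num_cons_pos t u) (hn _ htu)
      rw [hpar] at h2
      simp only at h2
      rw [num_par] at h2
      exact h2.symm
    · have key : ∀ u w : List (Fin M'), u.length ≤ h → w.length ≤ h → num w < num u →
          G.Adj (φ (num u)).2 (φ (num w)).2 →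
          (∃ t, u = t :: w) ∨ ∃ t t' z, u = t :: z ∧ w = t' :: z := by
        intro u w hu hw hlt hadj'
        cases u with
        | nil => exact absurd hlt (Nat.not_lt_zero _)
        | cons t z =>
          have hpz : par (num (t :: z)) = num z := num_par t z
          rcases eq_or_ne (num w) (par (num (t :: z))) with h2 | h2
          · rw [hpz] at h2
            exact Or.inl ⟨t, by rw [num_inj w z h2]⟩
          · have h3 := hφ3 _ (hn _ hu) _ hlt h2
            rw [hCf] at h3
            simp only at h3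
            split_ifs at h3 with h4
            · cases w with
              | nil =>
                exfalso
                apply h2
                rw [← h4]
                show 0 = (0 - 1) / M'
                simp
              | cons t' z' =>
                have h5 : par (num (t' :: z')) = num z' := num_par t' z'
                rw [h5, hpz] at h4
                exact Or.inr ⟨t, t', z, rfl, by rw [num_inj z' z h4]⟩
            · exact absurd (Or.inl hadj') h3
      intro u w hu hw hadj'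
      rcases lt_trichotomy (num u) (num w) with h2 | h2 | h2
      · rcases key w u hw hu h2 hadj'.symm with ⟨t, h3⟩ | ⟨t, t', z, h3, h4⟩
        · exact Or.inl (Or.inr ⟨t, h3⟩)
        · exact Or.inr ⟨t', t, z, h4, h3⟩
      · exfalso
        have h3 : (φ (num u)).2 = (φ (num w)).2 := by rw [h2]
        exact hadj'.ne h3
      · rcases key u w hu hw h2 hadj' with ⟨t, h3⟩ | h3
        · exact Or.inl (Or.inl ⟨t, h3⟩)
        · exact Or.inr h3
  · -- nonnegative
    intro j x v w
    rw [hK]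
    simp only
    split_ifs with h2
    · exact kn_nn hsq (hage _).2.1 h2.2 _
    · exact le_rfl
  · -- total mass
    intro j hj hjn x _ _ v hv hv'
    have hv2 : v.2 ∈ X (2 * a (n - j)) := hup _ _ (hpl j hj) hjn hv'.2
    rw [htr j hj hjn v hv hv' (K j x v) ?_]
    · rw [← kn_tot hsq (hage (n - j)).2.1 hv2]
      refine Finset.sum_congr rfl fun y _ => ?_
      rw [hK]
      simp only
      rw [if_pos ⟨trivial, hv2⟩]
    · intro w hw
      rw [hK] at hw
      simp only at hw
      split_ifs at hw with h2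
      · exact ⟨h2.1, Finsupp.mem_support_iff.2 hw⟩
      · exact absurd rfl hw
  · -- support
    intro j hj hjn x _ _ v _ _ w _ hw
    rw [hK] at hw
    simp only at hw
    split_ifs at hw with h2
    · exact ⟨h2.1, (kn_sup hsq (hage _).2.1 h2.2 _ hw).2⟩
    · exact absurd rfl hw
  · -- conflicts of nodes which are not siblings
    intro j l hj hjn hlj hpp hlp y hy hy' x hx hx' z hz hz'
    have hpj1 : 1 ≤ par j := by omega
    have hpj : par j < j := hpl j hj
    have hppj : par (par j) < par j := hpl _ hpj1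
    have hx2 : x.2 ∈ X (2 * a (n - par j)) := hup _ _ hppj (by omega) hx'.2
    have hz2 : z.2 ∈ X (2 * a (n - j)) := hup _ _ hlj hjn hz'.2
    have ha' : (0 : ℝ) < a (n - j) := by exact_mod_cast (hage (n - j)).2.1
    set P := kn G D (a (n - par j)) x.2 with hP
    have hP0 : ∀ v, 0 ≤ P v := kn_nn hsq (hage _).2.1 hx2
    have hP1 : ∑ v ∈ P.support, P v = 1 := kn_tot hsq (hage _).2.1 hx2
    have hPs : ∀ v, P v ≠ 0 → v ∈ X (2 * a (n - j)) := fun v hv =>
      hup _ _ hpj hjn (kn_sup hsq (hage _).2.1 hx2 v hv).2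
    rw [htr (par j) hpj1 (by omega) x hx hx' _ ?_]
    · -- one child
      have h3 : ∀ v ∈ P.support, K (par j) y x (par j, v) *
          ∑ w ∈ A with Cf j l w z, K j x (par j, v) w ≤
          P v * ms (kn G D (a (n - j)) v) {w | G.Adj w z.2 ∨ w = z.2} := by
        intro v hv
        have hv2 := hPs v (Finsupp.mem_support_iff.1 hv)
        have h4 : K (par j) y x (par j, v) = P v := by
          rw [hK]
          simp only
          rw [if_pos ⟨trivial, hx2⟩]
        rw [h4]
        refine mul_le_mul_of_nonneg_left ?_ (hP0 v)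
        have hvA : ((par j, v) : ℕ × V) ∈ A := by
          have h5 : x = (par (par j), x.2) := Prod.ext hx'.1 rfl
          rw [h5, hA1] at hx
          refine (hA1 _ _).2 ⟨by omega, ?_⟩
          exact hSm hppj (hSs (par (par j)) (n - par j) x.2 (by omega) hx.2 hv)
        have hvAd : ((par j, v) : ℕ × V) ∈ Ad (par j) :=
          ⟨rfl, (kn_sup hsq (hage _).2.1 hx2 v (Finsupp.mem_support_iff.1 hv)).2⟩
        rw [Finset.sum_filter, htr j hj hjn _ hvA hvAd _ ?_]
        · unfold ms
          rw [Finset.sum_filter]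
          refine Finset.sum_le_sum fun w _ => ?_
          have hw0 := kn_nn hsq (hage (n - j)).2.1 hv2 w
          rw [hK1 j x (par j, v) w hv2]
          by_cases hc : Cf j l (j, w) z
          · have hc' : w ∈ {w | G.Adj w z.2 ∨ w = z.2} := hCf2 j l (j, w) z hc
            rw [if_pos hc, if_pos hc']
          · rw [if_neg hc]
            split_ifs
            · exact hw0
            · exact le_rfl
        · intro w hw
          split_ifs at hw with h5
          · rw [hK] at hw
            simp only at hw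
            split_ifs at hw with h6
            · exact ⟨h6.1, Finsupp.mem_support_iff.2 hw⟩
            · exact absurd rfl hw
          · exact absurd rfl hw
      refine (Finset.sum_le_sum h3).trans ?_
      -- the two parts
      have h4 : ∀ v ∈ P.support, P v * ms (kn G D (a (n - j)) v) {w | G.Adj w z.2 ∨ w = z.2} ≤
          2 / a (n - j) * (P v + ∑ b ∈ Ico (a (n - j)) (2 * a (n - j)),
            P v * ms (av (D b) v) {w | G.Adj w z.2}) := by
        intro v hv
        have hv2 := hPs v (Finsupp.mem_support_iff.1 hv)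
        have h5 := mul_le_mul_of_nonneg_left (kn_ms hsq (hage (n - j)).2.1 hv2 z.2 hz2) (hP0 v)
        refine h5.trans (le_of_eq ?_)
        rw [← Finset.mul_sum]
        ring
      refine (Finset.sum_le_sum h4).trans ?_
      rw [← Finset.mul_sum, Finset.sum_add_distrib, hP1, Finset.sum_comm]
      have h5 : ∀ b ∈ Ico (a (n - j)) (2 * a (n - j)),
          ∑ v ∈ P.support, P v * ms (av (D b) v) {w | G.Adj w z.2} ≤ ε / 4 := by
        intro b hb
        rw [Finset.mem_Ico] at hb
        refine hNc' (D b).N V G C (b + 1) (X b) (D b) (hsq.ok b) le_rfl ?_ z.2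
          (hsq.dom hb.2 hz2) P hP0 hP1.le (fun v hv => hsq.dom hb.2 (hPs v hv)) ?_
        · have h6 := (hsq.ok b).qR
          have h7 := (hage (n - j)).1
          omega
        · intro I hI hI'
          refine (kn_col hsq (hage _).2.1 hx2 R hcol b ?_ I hI hI').trans ?_
          · have := ha1 (n - j) (n - par j) (by omega)
            omega
          · have h6 : (0 : ℝ) < a (n - par j) := by exact_mod_cast (hage _).2.1
            rw [div_le_iff₀ h6]
            have h7 := (ha (n - j)).2 b hb.2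
            have h8 : (a (n - j + 1) : ℝ) ≤ a (n - par j) := by
              exact_mod_cast hamono (by omega)
            exact h7.trans (mul_le_mul_of_nonneg_left h8 (hδ' _).le)
      have h6 := Finset.sum_le_sum h5
      rw [Finset.sum_const, Nat.card_Ico, nsmul_eq_mul,
        show 2 * a (n - j) - a (n - j) = a (n - j) by omega] at h6
      have h7 : 4 / ε ≤ a (n - j) := (hage _).2.2
      rw [div_le_iff₀ hε0] at h7
      calc 2 / (a (n - j) : ℝ) * (1 + ∑ b ∈ Ico (a (n - j)) (2 * a (n - j)),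
            ∑ v ∈ P.support, P v * ms (av (D b) v) {w | G.Adj w z.2})
          ≤ 2 / (a (n - j) : ℝ) * (1 + a (n - j) * (ε / 4)) :=
            mul_le_mul_of_nonneg_left (by linarith) (by positivity)
        _ = 2 / (a (n - j) : ℝ) + ε / 2 := by
            field_simp
            ring
        _ ≤ ε := by
            have h8 : 2 / (a (n - j) : ℝ) ≤ ε / 2 := by
              rw [div_le_iff₀ ha']
              linarith
            linarith
    · intro w hw
      have hw' := left_ne_zero_of_mul hw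
      rw [hK] at hw'
      simp only at hw'
      split_ifs at hw' with h6
      · exact ⟨h6.1, Finsupp.mem_support_iff.2 hw'⟩
      · exact absurd rfl hw'
  · -- siblings
    intro j l hl hlj hjn hpp x hx hx' v hv hv' z hz hz'
    have hj : 1 ≤ j := by omega
    have hv2 : v.2 ∈ X (2 * a (n - j)) := hup _ _ (hpl j hj) hjn hv'.2
    have ha' : (0 : ℝ) < a (n - j) := by exact_mod_cast (hage (n - j)).2.1
    have hz2 : z.2 ∈ X (2 * a (n - j)) := by
      have hz3 := hz'
      rw [hK] at hz3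
      simp only at hz3
      split_ifs at hz3 with h3
      · exact hup _ _ hlj hjn (kn_sup hsq (hage _).2.1 h3.2 _ hz3).2
      · exact absurd rfl hz3
    rw [Finset.sum_filter, htr j hj hjn v hv hv' _ ?_]
    · have h3 : ∀ y ∈ (kn G D (a (n - j)) v.2).support,
          (if Cf j l (j, y) z then K j x v (j, y) else 0) ≤
            if y = z.2 then 2 / (a (n - j) : ℝ) else 0 := by
        intro y _
        have h4 : Cf j l (j, y) z ↔ y = z.2 := hCf1 j l (j, y) z hpp
        rw [if_congr h4 rfl rfl]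
        split_ifs with h5
        · rw [hK]
          simp only
          rw [if_pos ⟨trivial, hv2⟩]
          exact kn_pt hsq (hage _).2.1 hv2 y (h5 ▸ hz2)
        · exact le_rfl
      refine (Finset.sum_le_sum h3).trans ?_
      rw [Finset.sum_ite_eq' (kn G D (a (n - j)) v.2).support z.2]
      have h7 : 4 / ε ≤ a (n - j) := (hage _).2.2
      rw [div_le_iff₀ hε0] at h7
      have h8 : 2 / (a (n - j) : ℝ) ≤ ε := by
        rw [div_le_iff₀ ha']
        linarith
      split_ifs
      · exact h8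
      · exact hε0.le
    · intro w hw
      split_ifs at hw with h5
      · rw [hK] at hw
        simp only at hw
        split_ifs at hw with h6
        · exact ⟨h6.1, Finsupp.mem_support_iff.2 hw⟩
        · exact absurd rfl hw
      · exact absurd rfl hw
  · -- the constant
    rw [hε]
    rw [mul_one_div, div_lt_one (by positivity)]
    nlinarith [Nat.cast_nonneg (α := ℝ) n]

end Pool.Agent.Lib.TCW
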