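import Pool.Agent.Lib.TCW.Bas

/-!
# Towers of coherent levels: the shift of labels
-/

set_option autoImplicit false

namespace Pool.Agent.Lib.TCW

open Finset Classical
open Pool.Agent.Lib.TCH

namespace Sh_

variable {V : Type} {G : SimpleGraph V} {m : ℕ} {D : ℕ → Lv V} {W : ℕ → Set V}

lemma own_mem (h : Twr G m D W) : ∀ j b v, v ∈ W (b + j + 1) → own D j b v ∈ W (b + 1) := by
  intro j
  induction j with
  | zero => exact fun b v hv => hv
  | succ j ih =>
    intro b v hv
    have h1 : own D j (b + 1) v ∈ W (b + 1 + 1) :=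
      ih (b + 1) v (by rw [show b + 1 + j + 1 = b + (j + 1) + 1 by ring]; exact hv)
    have h2 : own D j (b + 1) v ∈ (D (b + 1)).dom := h.sub (b + 1) h1
    exact ((h.ok (b + 1)).sup 0 (h.ok (b + 1)).q0 _ h2 _
      (pk_mem ((h.ok (b + 1)).p_ex (h.ok (b + 1)).q0 h2))).1

/-- The law of the hubs of the owner at the level `b + 1` is not zero. -/
lemma own_ex (h : Twr G m D W) {j b : ℕ} {v : V} (hv : v ∈ W (b + j + 2)) :
    ∃ y, (D (b + 1)).p 0 (own D j (b + 1) v) y ≠ 0 :=
  (h.ok (b + 1)).p_ex (h.ok (b + 1)).q0 (h.sub (b + 1) (own_mem h j (b + 1) v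
    (by rw [show b + 1 + j + 1 = b + j + 2 by ring]; exact hv)))

/-- The case of natural hubs. -/
lemma sh_zero (h : Twr G m D W) {c : ℕ} {v : V} (hv : v ∈ W (c + 1)) {s : ℕ} (hs : s < (D c).q)
    {y : V} (hy : (D c).p s v y ≠ 0) :
    ∀ i b, b + i < c → ∀ r < (D b).q,
      (D b).p r (own D i b y) = (D b).p r (own D (i + 1) b v) := by
  have hvc : v ∈ (D c).dom := h.sub c hv
  have hyc := (h.ok c).sup s hs v hvc y hy
  intro i
  induction i with
  | zero =>
    intro b hb r hr
    have hb' : b < c := hb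
    have h1 : (D b).p r y = (D b).mu r v := hyc.2 b hb' r hr
    have hvb : v ∈ (D (b + 1)).dom := h.mem_dom (by omega) hv
    have h2 := (h.ok (b + 1)).sup 0 (h.ok (b + 1)).q0 v hvb _
      (pk_mem (d := v) ((h.ok (b + 1)).p_ex (h.ok (b + 1)).q0 hvb))
    have h3 : (D b).p r (own D 1 b v) = (D b).mu r v := h2.2 b (Nat.lt_succ_self b) r hr
    change (D b).p r y = (D b).p r (own D 1 b v)
    rw [h1, h3]
  | succ i ih =>
    intro b hb r hr
    have h1 := ih (b + 1) (by omega) 0 (h.ok (b + 1)).q0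
    have hy' : y ∈ W (b + i + 2) := h.anti (by omega) hyc.1
    have h2 : own D (i + 1) b y = own D (i + 1 + 1) b v := by
      change pk ((D (b + 1)).p 0 (own D i (b + 1) y)) (own D i (b + 1) y) =
        pk ((D (b + 1)).p 0 (own D (i + 1) (b + 1) v)) (own D (i + 1) (b + 1) v)
      rw [pk_def _ (own D (i + 1) (b + 1) v) (own_ex h hy'), h1]
    rw [h2]

lemma sh (h : Twr G m D W) : ∀ j c v, v ∈ W (c + j + 1) → ∀ s < (D c).q, ∀ y,
    (D c).p s (own D j c v) y ≠ 0 → ∀ b i, b + i < c → ∀ r < (D b).q,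
      (D b).p r (own D i b y) = (D b).p r (own D (i + j + 1) b v) := by
  intro j
  induction j with
  | zero =>
    intro c v hv s hs y hy b i hb r hr
    exact sh_zero h hv hs hy i b hb r hr
  | succ j ih =>
    intro c v hv s hs y hy b i hb r hr
    have ho : own D (j + 1) c v ∈ W (c + 1) := own_mem h (j + 1) c v hv
    rw [sh_zero h ho hs hy i b hb r hr]
    have hv' : v ∈ W (c + 1 + j + 1) := by
      rw [show c + 1 + j + 1 = c + (j + 1) + 1 by ring]
      exact hv
    have h1 := ih (c + 1) v hv' 0 (h.ok (c + 1)).q0 (own D (j + 1) c v)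
      (pk_mem (own_ex h (by rw [show c + j + 2 = c + (j + 1) + 1 by ring]; exact hv)))
      b (i + 1) (by omega) r hr
    rw [h1, show i + 1 + j + 1 = i + (j + 1) + 1 by ring]

end Sh_

theorem stSh : StSh := by
  intro V G m D W h
  exact ⟨fun b j v hv => Sh_.own_mem h j b v hv,
    fun c j v hv s hs y hy b i hb r hr => Sh_.sh h j c v hv s hs y hy b i hb r hr⟩

end Pool.Agent.Lib.TCW
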