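import Pool.Agent.Lib.TCW.S2
import Pool.Agent.Lib.MP_763321_co.Half

/-!
# Module `Sib`: copies of the tree in which siblings may be adjacent
-/

set_option autoImplicit false

namespace Pool.Agent.Lib.TCW

open Finset Classical
open Pool.Agent.Lib.TCH
open Pool.Agent.Lib.GSR3 (Tree)
open Pool.Agent.Lib.FracGS (TAdj)

namespace Sib

/-- The word with the chosen children. -/
def lift {M M' : ℕ} (c : List (Fin M') → Fin M → Fin M') : List (Fin M) → List (Fin M')
  | [] => []
  | t :: u => c (lift c u) t :: lift c u

lemma length_lift {M M' : ℕ} (c : List (Fin M') → Fin M → Fin M') (u : List (Fin M)) :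
    (lift c u).length = u.length := by
  induction u with
  | nil => rfl
  | cons t u ih => rw [lift, List.length_cons, List.length_cons, ih]

lemma lift_inj {M M' : ℕ} (c : List (Fin M') → Fin M → Fin M') (h : ℕ)
    (hc : ∀ z : List (Fin M'), z.length + 1 ≤ h → Function.Injective (c z))
    (u : List (Fin M)) : ∀ w : List (Fin M), u.length ≤ h → lift c u = lift c w → u = w := by
  induction u with
  | nil =>
    intro w _ hw
    have h1 := congrArg List.length hw
    rw [length_lift, length_lift] at h1
    exact (List.length_eq_zero_iff.1 h1.symm).symm
  | cons t u ih =>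
    intro w hu hw
    cases w with
    | nil =>
      have h1 := congrArg List.length hw
      rw [length_lift, length_lift, List.length_cons] at h1
      simp at h1
    | cons t' w =>
      rw [lift, lift, List.cons.injEq] at hw
      rw [List.length_cons] at hu
      have h2 := ih w (by omega) hw.2
      subst h2
      have h3 := hc (lift c u) (by rw [length_lift]; exact hu) hw.1
      rw [h3]

end Sib

open Sib

theorem stSib : StSib := by
  intro h M k
  obtain ⟨R, hR⟩ := Pool.Agent.Lib.MP_763321_co.ramsey_pair (k + M) k M rfl
  refine ⟨R + 1, fun V G hcl φ hinj hpar hadj => ?_⟩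
  have key : ∀ z : List (Fin (R + 1)), ∃ c : Fin M → Fin (R + 1), z.length + 1 ≤ h →
      Function.Injective c ∧ ∀ i j, i ≠ j → ¬ G.Adj (φ (c i :: z)) (φ (c j :: z)) := by
    intro z
    by_cases hz : z.length + 1 ≤ h
    · have hzi : ∀ i j : Fin (R + 1), φ (i :: z) = φ (j :: z) → i = j := by
        intro i j hij
        have h1 := hinj (i :: z) (j :: z) (by rw [List.length_cons]; exact hz)
          (by rw [List.length_cons]; exact hz) hij
        rw [List.cons.injEq] at h1
        exact h1.1
      rcases hR (fun i j : Fin (R + 1) => G.Adj (φ (i :: z)) (φ (j :: z)))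
        (fun i j hij => hij.symm) Finset.univ
        (by rw [Finset.card_univ, Fintype.card_fin]; omega) with
        ⟨T, -, hT, hr⟩ | ⟨T, -, hT, hr⟩
      · exfalso
        refine hcl (T.image fun i => φ (i :: z)) ⟨?_, ?_⟩
        · intro a ha b hb hab
          rw [Finset.mem_coe, Finset.mem_image] at ha hb
          obtain ⟨i, hi, rfl⟩ := ha
          obtain ⟨j, hj, rfl⟩ := hb
          exact hr i hi j hj fun hij => hab (by rw [hij])
        · rw [Finset.card_image_of_injective _ (fun i j hij => hzi i j hij), hT]
      · refine ⟨fun i => T.orderEmbOfFin hT i, fun _ => ⟨fun i j hij => ?_, fun i j hij => ?_⟩⟩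
        · exact (T.orderEmbOfFin hT).injective hij
        · exact hr _ (T.orderEmbOfFin_mem hT i) _ (T.orderEmbOfFin_mem hT j)
            fun he => hij ((T.orderEmbOfFin hT).injective he)
    · exact ⟨fun _ => 0, fun hz' => absurd hz' hz⟩
  choose c hc using key
  have hli := lift_inj c h (fun z hz => (hc z hz).1)
  refine ⟨fun w => φ (lift c w), ⟨fun u w hu hw huw => ?_, fun u w hu hw => ⟨fun ha => ?_, ?_⟩⟩⟩
  · exact hli u w hu (hinj _ _ (by rw [length_lift]; exact hu) (by rw [length_lift]; exact hw)
      huw)
  · rcases hadj _ _ (by rw [length_lift]; exact hu) (by rw [length_lift]; exact hw) ha with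
      (⟨t, ht⟩ | ⟨t, ht⟩) | ⟨t, t', z, hz, hz'⟩
    · cases u with
      | nil => exact absurd ht (by rw [lift]; exact fun h => by cases h)
      | cons a u =>
        rw [lift, List.cons.injEq] at ht
        rw [List.length_cons] at hu
        left
        exact ⟨a, by rw [hli u w (by omega) ht.2]⟩
    · cases w with
      | nil => exact absurd ht (by rw [lift]; exact fun h => by cases h)
      | cons a w =>
        rw [lift, List.cons.injEq] at ht
        rw [List.length_cons] at hw
        right
        exact ⟨a, by rw [hli w u (by omega) ht.2]⟩
    · exfalso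
      cases u with
      | nil => exact absurd hz (by rw [lift]; exact fun h => by cases h)
      | cons a u =>
        cases w with
        | nil => exact absurd hz' (by rw [lift]; exact fun h => by cases h)
        | cons b w =>
          rw [lift, List.cons.injEq] at hz hz'
          rw [List.length_cons] at hu hw
          have huw := hli u w (by omega) (hz.2.trans hz'.2.symm)
          subst huw
          have hab : a ≠ b := by
            rintro rfl
            exact G.loopless.irrefl _ ha
          exact (hc (lift c u) (by rw [length_lift]; exact hu)).2 a b hab ha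
  · rintro (⟨t, rfl⟩ | ⟨t, rfl⟩)
    · exact hpar _ _ (by rw [List.length_cons, length_lift, ← List.length_cons (a := t)]; exact hu)
    · exact (hpar _ _
        (by rw [List.length_cons, length_lift, ← List.length_cons (a := t)]; exact hw)).symm

end Pool.Agent.Lib.TCW
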