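import Pool.Agent.Lib.TCW.Bas

/-!
# Towers of coherent levels: the labels of one vertex are pairwise different
-/

set_option autoImplicit false

namespace Pool.Agent.Lib.TCW

open Finset Classical
open Pool.Agent.Lib.TCH

namespace Sr_

section

variable {V : Type} {G : SimpleGraph V} {m : ℕ} {D : ℕ → Lv V} {W : ℕ → Set V}

/-- Consecutive labels are the label and the hub label of one vertex. -/
lemma step (hSh : StSh) (h : Twr G m D W) (b i : ℕ) (v : V) (hv : v ∈ W (b + i + 2)) :
    ∃ z ∈ W (b + 1), (∀ s < (D b).q, (D b).p s (own D i b v) = (D b).p s z) ∧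
      ∀ s < (D b).q, (D b).p s (own D (i + 1) b v) = (D b).mu s z := by
  have hS := hSh V G m D W h
  have hz : own D i (b + 1) v ∈ W (b + 1 + 1) :=
    hS.1 (b + 1) i v (h.anti (by omega) hv)
  refine ⟨own D i (b + 1) v, h.anti (by omega) hz, ?_, ?_⟩
  · intro s hs
    cases i with
    | zero => rfl
    | succ i =>
      have hz2 : own D i (b + 2) v ∈ W (b + 2 + 1) :=
        hS.1 (b + 2) i v (h.anti (by omega) hv)
      have h1 : ∃ y, (D (b + 2)).p 0 (own D i (b + 2) v) y ≠ 0 :=
        (h.ok (b + 2)).p_ex (h.ok (b + 2)).q0 (h.mem_dom (Nat.lt_succ_self _) hz2)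
      have h2 := hS.2 (b + 2) i v (h.anti (by omega) hv) 0 (h.ok (b + 2)).q0
        (own D (i + 1) (b + 1) v) (pk_mem h1) b 0 (by omega) s hs
      rw [Nat.zero_add] at h2
      exact h2.symm
  · intro s hs
    have h1 : ∃ y, (D (b + 1)).p 0 (own D i (b + 1) v) y ≠ 0 :=
      (h.ok (b + 1)).p_ex (h.ok (b + 1)).q0 (h.mem_dom (Nat.lt_succ_self _) hz)
    have h2 := (h.ok (b + 1)).sup 0 (h.ok (b + 1)).q0 _ (h.mem_dom (Nat.lt_succ_self _) hz)
      (own D (i + 1) b v) (pk_mem h1)
    exact h2.2 b (Nat.lt_succ_self _) s hs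

lemma sgn_zero {p p' : V →₀ ℝ} (h : sgn p p' = 0) : p = p' := by
  unfold sgn at h
  by_contra hne
  rw [if_neg hne] at h
  split_ifs at h

lemma sgn_one {p p' : V →₀ ℝ} (h : sgn p p' = 1) : WellOrderingRel p p' := by
  unfold sgn at h
  by_cases hne : p = p'
  · rw [if_pos hne] at h
    exact absurd h (by norm_num)
  · rw [if_neg hne] at h
    by_contra hno
    rw [if_neg hno] at h
    exact absurd h (by norm_num)

lemma sgn_two {p p' : V →₀ ℝ} (h0 : sgn p p' ≠ 0) (h1 : sgn p p' ≠ 1) :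
    WellOrderingRel p' p := by
  unfold sgn at h0 h1
  by_cases hne : p = p'
  · rw [if_pos hne] at h0
    exact absurd rfl h0
  · rw [if_neg hne] at h0 h1
    by_cases hr : WellOrderingRel p p'
    · rw [if_pos hr] at h1
      exact absurd rfl h1
    · rcases trichotomous_of (WellOrderingRel (α := V →₀ ℝ)) p p' with h2 | h2 | h2
      · exact absurd h2 hr
      · exact absurd h2 hne
      · exact h2

/-- A sequence which is strictly monotone for a transitive irreflexive relation. -/
lemma mono_ne {α : Type} (r : α → α → Prop) [Std.Irrefl r] [IsTrans α r] (f : ℕ → α) (i j : ℕ)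
    (hij : i < j) (hf : ∀ l, i ≤ l → l < j → r (f l) (f (l + 1))) : f i ≠ f j := by
  have h : ∀ d, i + (d + 1) ≤ j → r (f i) (f (i + (d + 1))) := by
    intro d
    induction d with
    | zero => exact fun hd => hf i le_rfl (by omega)
    | succ d ih =>
      intro hd
      exact _root_.trans (ih (by omega)) (hf (i + (d + 1)) (by omega) (by omega))
  have h1 := h (j - i - 1) (by omega)
  rw [show i + (j - i - 1 + 1) = j by omega] at h1
  intro h2
  rw [← h2] at h1
  exact irrefl_of r _ h1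

/-- A clique is found below `v` if there are many levels at which the hubs of a vertex have the
label of this vertex. -/
lemma clique (h : Twr G m D W) (k : ℕ) (c : ℕ → ℕ) (hc : StrictMono c) (hk : k ≤ c 0)
    (hbad : ∀ n, ∃ s < (D (c n)).q, ∀ x ∈ W (c n + 1), (D (c n)).p s x = (D (c n)).mu s x)
    (v : V) (hv : v ∈ W (c k + 1)) :
    ∀ n ≤ k, ∃ T : Finset V, T.card = n ∧ G.IsClique T ∧ (∀ z ∈ T, z ∈ W (c (k - n))) ∧
      ∀ z ∈ T, ∀ b < c (k - n), ∀ s < (D b).q, (D b).p s z = (D b).mu s v := by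
  intro n
  induction n with
  | zero =>
    intro _
    exact ⟨∅, rfl, by simp, by simp, by simp⟩
  | succ n ih =>
    intro hn
    obtain ⟨T, hT1, hT2, hT3, hT4⟩ := ih (by omega)
    set b : ℕ := c (k - (n + 1)) with hb
    have hlt : b < c (k - n) := hc (by omega)
    have hbk : k ≤ b := hk.trans (hc.monotone (Nat.zero_le _))
    obtain ⟨s, hs, hsx⟩ := hbad (k - (n + 1))
    rw [← hb] at hs hsx
    have hvb : v ∈ W (b + 1) := h.anti (by
      have : b ≤ c k := hc.monotone (by omega)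
      omega) hv
    have hvd : v ∈ (D b).dom := h.mem_dom (Nat.lt_succ_self _) hvb
    have hP : ∀ z ∈ T, (D b).p s z = (D b).p s v := by
      intro z hz
      rw [hT4 z hz b hlt s hs, hsx v hvb]
    have hO := h.ok b
    have hb1 : (0 : ℝ) < ((b + 1 : ℕ) : ℝ) := Nat.cast_pos.2 (Nat.succ_pos _)
    -- the mass of the non-neighbours
    have hm : ∀ z ∈ T, ms ((D b).p s v) {y | ¬ G.Adj z y} ≤ 1 / ((b + 1 : ℕ) : ℝ) := by
      intro z hz
      have hzd : z ∈ (D b).dom := h.mem_dom hlt (hT3 z hz)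
      have h1 := hO.adj s hs z hzd
      rw [hP z hz] at h1
      rw [le_div_iff₀ hb1, mul_comm]
      exact h1
    have hex : ∃ y, (D b).p s v y ≠ 0 ∧ ∀ z ∈ T, G.Adj z y := by
      by_contra hcon
      push Not at hcon
      have h1 : ∀ S : V → Set V, (∀ y, (D b).p s v y ≠ 0 → ∃ z ∈ T, y ∈ S z) →
          (1 : ℝ) ≤ ∑ z ∈ T, ms ((D b).p s v) (S z) := by
        intro S hS
        rw [← hO.one s hs v hvd, Finset.sum_congr rfl fun z _ =>
          ms_eq ((D b).p s v) (S z) _ Finset.Subset.rfl, Finset.sum_comm]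
        refine Finset.sum_le_sum fun y hy => ?_
        obtain ⟨z, hz, hzy⟩ := hS y (Finsupp.mem_support_iff.1 hy)
        have h3 := Finset.single_le_sum
          (f := fun z => if y ∈ S z then (D b).p s v y else 0) (fun z _ => by
            split_ifs
            · exact hO.nn s hs v hvd y
            · exact le_rfl) hz
        rwa [if_pos hzy] at h3
      have h1 := h1 (fun z => {y | ¬ G.Adj z y}) hcon
      have h2 : ∑ z ∈ T, ms ((D b).p s v) {y | ¬ G.Adj z y} ≤ n * (1 / ((b + 1 : ℕ) : ℝ)) := by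
        have h3 := Finset.sum_le_sum hm
        rwa [Finset.sum_const, hT1, nsmul_eq_mul] at h3
      have h3 : (n : ℝ) * (1 / ((b + 1 : ℕ) : ℝ)) < 1 := by
        rw [mul_one_div, div_lt_one hb1]
        exact_mod_cast (by omega : n < b + 1)
      linarith
    obtain ⟨y, hy, hyT⟩ := hex
    have hyn : y ∉ T := fun hyT' => G.loopless.irrefl y (hyT y hyT')
    obtain ⟨hyW, hyC⟩ := hO.sup s hs v hvd y hy
    refine ⟨insert y T, ?_, ?_, ?_, ?_⟩
    · rw [Finset.card_insert_of_notMem hyn, hT1]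
    · rw [Finset.coe_insert, SimpleGraph.isClique_insert]
      exact ⟨hT2, fun z hz _ => (hyT z hz).symm⟩
    · intro z hz
      rcases Finset.mem_insert.1 hz with rfl | hz
      · exact hyW
      · exact h.anti hlt.le (hT3 z hz)
    · intro z hz b' hb' r hr
      rcases Finset.mem_insert.1 hz with rfl | hz
      · exact hyC b' hb' r hr
      · exact hT4 z hz b' (hb'.trans hlt) r hr

end

end Sr_

open Sr_ in
/-- Module `Sr`. -/
theorem stSr (hSh : StSh) : StSr := by
  intro V G m k D W h hG hsgn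
  -- the levels at which the signs are different from zero
  have hb0 : ∃ b0 : ℕ, ∀ b, b0 ≤ b → ∀ s < (D b).q, ∀ x ∈ W (b + 1),
      sgn ((D b).p s x) ((D b).mu s x) ≠ 0 := by
    by_contra hcon
    push Not at hcon
    have hbad : ∀ N : ℕ, ∃ b, N ≤ b ∧ ∃ s < (D b).q, ∀ x ∈ W (b + 1),
        (D b).p s x = (D b).mu s x := by
      intro N
      obtain ⟨b, hb, s, hs, x, hx, hx0⟩ := hcon N
      refine ⟨b, hb, s, hs, fun y hy => ?_⟩
      exact sgn_zero ((hsgn b s hs y hy x hx).trans hx0)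
    choose f hf1 hf2 using hbad
    let c : ℕ → ℕ := fun n => Nat.rec (f k) (fun _ a => f (a + 1)) n
    have hcs : ∀ n, c (n + 1) = f (c n + 1) := fun n => rfl
    have hc : StrictMono c := strictMono_nat_of_lt_succ fun n => by
      rw [hcs]
      exact hf1 (c n + 1)
    have hcb : ∀ n, ∃ s < (D (c n)).q, ∀ x ∈ W (c n + 1),
        (D (c n)).p s x = (D (c n)).mu s x := by
      intro n
      cases n with
      | zero => exact hf2 k
      | succ n =>
        rw [hcs]
        exact hf2 (c n + 1)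
    obtain ⟨v, hv⟩ := h.ne (c k + 1)
    obtain ⟨T, hT1, hT2, -, -⟩ := clique h k c hc (hf1 k) hcb v hv k le_rfl
    exact hG T ⟨hT2, hT1⟩
  obtain ⟨b0, hb0⟩ := hb0
  refine ⟨b0, fun b hb s hs i j hij v hv => ?_⟩
  have hmem : ∀ l, i ≤ l → l < j → ∃ z ∈ W (b + 1),
      (D b).p s (own D l b v) = (D b).p s z ∧ (D b).p s (own D (l + 1) b v) = (D b).mu s z := by
    intro l _ hl
    obtain ⟨z, hz, hz1, hz2⟩ := step hSh h b l v (h.anti (by omega) hv)
    exact ⟨z, hz, hz1 s hs, hz2 s hs⟩
  obtain ⟨x, hx⟩ := h.ne (b + 1)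
  have hx0 := hb0 b hb s hs x hx
  by_cases hx1 : sgn ((D b).p s x) ((D b).mu s x) = 1
  · refine mono_ne (α := V →₀ ℝ) WellOrderingRel (fun l => (D b).p s (own D l b v)) i j hij ?_
    intro l hl1 hl2
    obtain ⟨z, hz, hz1, hz2⟩ := hmem l hl1 hl2
    rw [hz1, hz2]
    exact sgn_one ((hsgn b s hs z hz x hx).trans hx1)
  · refine mono_ne (α := V →₀ ℝ) (fun p p' => WellOrderingRel p' p)
      (fun l => (D b).p s (own D l b v)) i j hij ?_
    intro l hl1 hl2
    obtain ⟨z, hz, hz1, hz2⟩ := hmem l hl1 hl2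
    rw [hz1, hz2]
    refine sgn_two ?_ ?_
    · rw [hsgn b s hs z hz x hx]
      exact hx0
    · rw [hsgn b s hs z hz x hx]
      exact hx1

end Pool.Agent.Lib.TCW
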