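import Pool.Agent.Lib.TCW.S2

/-!
# The notions of a tower depend on the first levels only
-/

set_option autoImplicit false

namespace Pool.Agent.Lib.TCW

open Finset Classical
open Pool.Agent.Lib.TCH

namespace Tc_

theorem own_eq {V : Type} {D D' : ℕ → Lv V} {N : ℕ} (h : ∀ e < N, D e = D' e) :
    ∀ (i b : ℕ) (v : V), b + i < N → own D i b v = own D' i b v
  | 0, _, _, _ => rfl
  | i + 1, b, v, hb => by
    have h1 : own D i (b + 1) v = own D' i (b + 1) v := own_eq h i (b + 1) v (by omega)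
    have h2 : D (b + 1) = D' (b + 1) := h _ (by omega)
    simp only [own, h1, h2]

theorem ew_eq {V : Type} {D D' : ℕ → Lv V} {N : ℕ} (h : ∀ e < N, D e = D' e) (v : V) :
    ∀ (fs : List (ℕ × ℕ)) (j : ℕ) (g : List V → ℝ), hg fs j ≤ N →
      EW D v fs j g = EW D' v fs j g
  | [], _, _, _ => rfl
  | p :: fs, j, g, hj => by
    have ha : p.1 + j + 1 ≤ N := le_trans (le_max_left _ _) hj
    have hb : hg fs (j + ty fs + 1) ≤ N := le_trans (le_max_right _ _) hj
    have h1 : own D j p.1 v = own D' j p.1 v := own_eq h j p.1 v (by omega)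
    have h2 : D p.1 = D' p.1 := h _ (by omega)
    simp only [EW, h1, h2]
    refine Finset.sum_congr rfl fun x _ => ?_
    rw [ew_eq h v fs (j + ty fs + 1) _ hb]

theorem sl_eq {V : Type} {D D' : ℕ → Lv V} {N f : ℕ} (h : ∀ e < N, D e = D' e) (hf : f ≤ N) :
    sl D f = sl D' f := by
  ext X
  simp only [sl, Set.mem_ofPred_eq]
  refine forall_congr' fun e => forall_congr' fun he => ?_
  rw [h e (by omega)]

theorem spl_iff {V : Type} {G : SimpleGraph V} {ε : ℝ} {D D' : ℕ → Lv V} {N f : ℕ}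
    (h : ∀ e < N, D e = D' e) (hf : f < N) (xs : List V) {A A' : V → Prop}
    (hA : ∀ X, A X ↔ A' X) : SpL G D ε f xs A ↔ SpL G D' ε f xs A' := by
  have h1 : sl D f = sl D' f := sl_eq h hf.le
  have h2 : D f = D' f := h f hf
  have h3 : A = A' := funext fun X => propext (hA X)
  simp only [SpL, h1, h2, h3]

theorem gd_iff {V : Type} {G : SimpleGraph V} {M : ℕ} {ε : ℝ} {D D' : ℕ → Lv V} {N : ℕ}
    (h : ∀ e < N, D e = D' e) :
    ∀ (n : ℕ) (xs : List V) (a b : ℕ), b ≤ N → (GD G D M ε n xs a b ↔ GD G D' M ε n xs a b)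
  | 0, _, _, _, _ => Iff.rfl
  | n + 1, xs, a, b, hb => by
    have key : ∀ f g : ℕ → ℕ, (∀ i < M, a ≤ f i ∧ f i < g i ∧ g i ≤ b) →
        ((∀ i < M, SpL G D ε (f i) xs (fun X => GD G D M ε n (X :: xs) (f i + 1) (g i))) ↔
        (∀ i < M, SpL G D' ε (f i) xs (fun X => GD G D' M ε n (X :: xs) (f i + 1) (g i)))) := by
      intro f g hfg
      refine forall_congr' fun i => forall_congr' fun hi => ?_
      obtain ⟨_, h2, h3⟩ := hfg i hi
      exact spl_iff h (by omega) xs fun X => gd_iff h n (X :: xs) (f i + 1) (g i) (by omega)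
    simp only [GD]
    constructor
    · rintro ⟨hI, f, g, h1, h2, h3⟩
      exact ⟨hI, f, g, h1, h2, (key f g h1).1 h3⟩
    · rintro ⟨hI, f, g, h1, h2, h3⟩
      exact ⟨hI, f, g, h1, h2, (key f g h1).2 h3⟩

end Tc_

theorem stTc : StTc := by
  intro V G M ε D D' N h
  refine ⟨fun b i v hb => Tc_.own_eq h i b v hb, fun b i v hb => ?_, fun b i x hb => ?_,
    fun fs j v g hj => Tc_.ew_eq h v fs j g hj, fun n xs a b hb => Tc_.gd_iff h n xs a b hb, ?_⟩
  · have h1 := Tc_.own_eq h i b v hb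
    have h2 : D b = D' b := h b (by omega)
    unfold lb
    rw [h1, h2]
  · have h1 := Tc_.own_eq h i b x hb
    have h2 : D b = D' b := h b (by omega)
    unfold U
    rw [h1, h2]
  · intro n f g ws hf hg
    have h1 : sl D f = sl D' f := Tc_.sl_eq h hf.le
    have key : ∀ xs : List V, (SpL G D ε f xs (fun X => GD G D M ε n (X :: xs) (f + 1) g) ↔
        SpL G D' ε f xs (fun X => GD G D' M ε n (X :: xs) (f + 1) g)) := fun xs =>
      Tc_.spl_iff h hf xs fun X => Tc_.gd_iff h n (X :: xs) (f + 1) g hg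
    unfold Fl
    refine exists_congr fun X => exists_congr fun xs => ?_
    rw [h1, Tc_.gd_iff h n (X :: xs) (f + 1) g hg, key xs]

end Pool.Agent.Lib.TCW
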