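import Pool.Agent.Lib.TCW.S2

/-!
# Towers of coherent levels: existence of towers
-/

set_option autoImplicit false

namespace Pool.Agent.Lib.TCW

open Finset Classical
open Pool.Agent.Lib.TCH

namespace TwAux

variable {V : Type} {big : Set V → Prop}

lemma one_fn (hI : Ide big) (φ : V → ℕ) : ∀ (B : ℕ) (W : Set V), big W → (∀ x ∈ W, φ x < B) →
    ∃ W', W' ⊆ W ∧ big W' ∧ ∀ x ∈ W', ∀ y ∈ W', φ x = φ y := by
  intro B
  induction B with
  | zero =>
    intro W hW h
    exfalso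
    refine hI.emp (hI.mono W ∅ (fun x hx => ?_) hW)
    exact absurd (h x hx) (Nat.not_lt_zero _)
  | succ B ih =>
    intro W hW h
    have hu : W ⊆ {x | x ∈ W ∧ φ x < B} ∪ {x | x ∈ W ∧ φ x = B} := by
      intro x hx
      rcases Nat.lt_or_ge (φ x) B with h1 | h1
      · exact Or.inl ⟨hx, h1⟩
      · exact Or.inr ⟨hx, le_antisymm (Nat.lt_succ_iff.1 (h x hx)) h1⟩
    rcases hI.split _ _ (hI.mono _ _ hu hW) with h1 | h1
    · obtain ⟨W', hW', hb, hc⟩ := ih _ h1 fun x hx => hx.2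
      exact ⟨W', fun x hx => (hW' hx).1, hb, hc⟩
    · exact ⟨_, fun x hx => hx.1, h1, fun x hx y hy => hx.2.trans hy.2.symm⟩

lemma fin_fn (hI : Ide big) (F : Set (V → ℕ)) (hF : F.Finite) :
    (∀ φ ∈ F, ∃ B, ∀ x, φ x < B) → ∀ W : Set V, big W →
      ∃ W', W' ⊆ W ∧ big W' ∧ ∀ φ ∈ F, ∀ x ∈ W', ∀ y ∈ W', φ x = φ y := by
  induction F, hF using Set.Finite.induction_on with
  | empty =>
    intro _ W hW
    exact ⟨W, Set.Subset.rfl, hW, fun φ hφ => absurd hφ (Set.notMem_empty φ)⟩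
  | @insert φ F _ _ ih =>
    intro h W hW
    obtain ⟨W1, h1, hb1, hc1⟩ := ih (fun ψ hψ => h ψ (Set.mem_insert_of_mem _ hψ)) W hW
    obtain ⟨B, hB⟩ := h φ (Set.mem_insert _ _)
    obtain ⟨W2, h2, hb2, hc2⟩ := one_fn hI φ B W1 hb1 fun x _ => hB x
    refine ⟨W2, h2.trans h1, hb2, ?_⟩
    intro ψ hψ x hx y hy
    rcases Set.mem_insert_iff.1 hψ with rfl | hψ'
    · exact hc2 x hx y hy
    · exact hc1 ψ hψ' x (h2 hx) y (h2 hy)

lemma good_mono {G : SimpleGraph V} {m : ℕ} {C C' : V → V → Prop} {W W' : Set V}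
    (h : Good G big m C W) (hC : ∀ x y, C x y → C' x y) (hW : W' ⊆ W) : Good G big m C' W' := by
  intro W1 hW1 hb R
  obtain ⟨D, hD, hDb⟩ := h W1 (hW1.trans hW) hb R
  exact ⟨D, ⟨hD.sub, hD.R1, hD.qR, hD.nn, hD.one,
    fun s hs x hx y hy => ⟨(hD.sup s hs x hx y hy).1, hC _ _ (hD.sup s hs x hx y hy).2⟩,
    hD.atm, hD.adj, hD.wb, hD.conf⟩, hDb⟩

lemma coh_congr {D D' : ℕ → Lv V} {n : ℕ} (h : ∀ b < n, D b = D' b) : coh D n = coh D' n := by
  funext x y
  apply propext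
  constructor
  · intro hc b hb
    rw [← h b hb]
    exact hc b hb
  · intro hc b hb
    rw [h b hb]
    exact hc b hb

lemma tr_congr {D D' : ℕ → Lv V} {n : ℕ} (h : ∀ b < n, D b = D' b) : tr n D = tr n D' := by
  funext j
  unfold tr
  by_cases hj : j < n
  · rw [if_pos hj, if_pos hj, h j hj]
  · rw [if_neg hj, if_neg hj]

end TwAux

open TwAux in
theorem stTw : StExt → StTw := by
  intro hExt V G big m k h M hI hk hT W0 hW0 hG0 Fam hfin hbd
  let P : ℕ → (ℕ → Lv V) × Set V → Prop := fun n p =>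
    big p.2 ∧ Good G big m (coh p.1 n) p.2 ∧
      ∀ φ ∈ Fam n (tr n p.1), ∀ x ∈ p.2, ∀ y ∈ p.2, φ x = φ y
  let Rel : ℕ → (ℕ → Lv V) × Set V → (ℕ → Lv V) × Set V → Prop := fun n p p' =>
    (∀ j < n, p'.1 j = p.1 j) ∧ OK G m (coh p.1 n) (n + 1) p.2 (p'.1 n) ∧
      p'.2 ⊆ (p'.1 n).dom
  have base : ∃ p, P 0 p := by
    obtain ⟨W', h1, h2, h3⟩ := fin_fn hI (Fam 0 (tr 0 fun _ => default)) (hfin _ _)
      (hbd _ _) W0 hW0
    refine ⟨(fun _ => default, W'), h2, ?_, h3⟩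
    exact good_mono hG0 (fun x y _ b hb => absurd hb (Nat.not_lt_zero b)) h1
  have step : ∀ n (p : {p // P n p}), ∃ p' : {p // P (n + 1) p}, Rel n p.1 p'.1 := by
    rintro n ⟨⟨l, W⟩, hb, hg, hc⟩
    obtain ⟨E, hE, hEb, hEg⟩ := hExt V G big m k h M hI hk hT (coh l n) W n hb hg
    obtain ⟨W', h1, h2, h3⟩ := fin_fn hI (Fam (n + 1) (tr (n + 1) (Function.update l n E)))
      (hfin _ _) (hbd _ _) E.dom hEb
    have hup : ∀ j < n, Function.update l n E j = l j := fun j hj =>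
      Function.update_of_ne (Nat.ne_of_lt hj) _ _
    have hself : Function.update l n E n = E := Function.update_self _ _ _
    refine ⟨⟨(Function.update l n E, W'), h2, ?_, h3⟩, hup, ?_, ?_⟩
    · refine good_mono hEg (fun x y hxy b hb => ?_) h1
      show ∀ s < (Function.update l n E b).q,
        (Function.update l n E b).p s y = (Function.update l n E b).mu s x
      rcases Nat.lt_succ_iff_lt_or_eq.1 hb with hb' | hb'
      · rw [hup b hb']
        exact hxy.1 b hb'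
      · subst hb'
        rw [hself]
        exact hxy.2
    · show OK G m (coh l n) (n + 1) W (Function.update l n E n)
      rw [hself]
      exact hE
    · show W' ⊆ (Function.update l n E n).dom
      rw [hself]
      exact h1
  choose f hf using step
  obtain ⟨p0, hp0⟩ := base
  let σ : ∀ n, {p // P n p} := fun n => Nat.rec ⟨p0, hp0⟩ (fun n p => f n p) n
  have hσ : ∀ n, Rel n (σ n).1 (σ (n + 1)).1 := fun n => hf n (σ n)
  let D : ℕ → Lv V := fun n => (σ (n + 1)).1.1 n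
  let W : ℕ → Set V := fun n => (σ n).1.2
  have hag : ∀ n, ∀ j < n, (σ n).1.1 j = D j := by
    intro n
    induction n with
    | zero => intro j hj; exact absurd hj (Nat.not_lt_zero j)
    | succ n ih =>
      intro j hj
      rcases Nat.lt_succ_iff_lt_or_eq.1 hj with hj' | hj'
      · rw [(hσ n).1 j hj', ih j hj']
      · subst hj'
        rfl
  refine ⟨D, W, ⟨?_, ?_, ?_⟩, ?_⟩
  · intro n
    have h1 := (hσ n).2.1
    rw [coh_congr (hag n)] at h1
    exact h1
  · intro n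
    exact (hσ n).2.2
  · intro n
    rw [Set.nonempty_iff_ne_empty]
    intro he
    apply hI.emp
    rw [← he]
    exact (σ n).2.1
  · intro n φ hφ
    refine (σ n).2.2.2 φ ?_
    rw [tr_congr (hag n)]
    exact hφ

end Pool.Agent.Lib.TCW
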