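import Pool.Agent.Lib.TCW.S2

/-!
# Towers of coherent levels: the types of the working levels
-/

set_option autoImplicit false

namespace Pool.Agent.Lib.TCW

open Finset
open Pool.Agent.Lib.TCH

theorem stTy : StTy := by
  intro h th u b1 hth h0 hb
  have hfin : ∀ k < h, ∀ b, b1 ≤ b → {j | th k ≤ u b j}.Finite := by
    intro k hk b hbb
    obtain ⟨M, hM⟩ := hb b hbb k hk
    by_contra hinf
    obtain ⟨F, hF, hc⟩ := Set.Infinite.exists_subset_card_eq hinf (M + 1)
    have := hM F fun j hj => hF hj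
    omega
  have hne : ∀ k < h, ∀ b, b1 ≤ b → {j | th k ≤ u b j}.Nonempty := fun k _ b hbb =>
    ⟨0, (hth k).2.trans (h0 b hbb)⟩
  let d : ℕ → ℕ → ℕ := fun k b => sSup {j | th k ≤ u b j}
  have hd1 : ∀ k < h, ∀ b, b1 ≤ b → th k ≤ u b (d k b) := fun k hk b hbb =>
    Nat.sSup_mem (hne k hk b hbb) (hfin k hk b hbb).bddAbove
  have hd2 : ∀ k < h, ∀ b, b1 ≤ b → ∀ j, d k b < j → u b j < th k := by
    intro k hk b hbb j hj
    by_contra hcon
    exact absurd (le_csSup (hfin k hk b hbb).bddAbove (not_lt.1 hcon)) (not_le.2 hj)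
  -- a monotone subsequence
  obtain ⟨g, hg⟩ := (Set.isPWO_of_wellQuasiOrderedLE
    (Set.univ : Set (Fin h → ℕ))).exists_monotone_subseq
    (f := fun n k => d k (b1 + n)) fun n => Set.mem_univ _
  refine ⟨Set.range fun n => b1 + g n, d, ?_, ?_⟩
  · exact Set.infinite_range_of_injective fun a b hab =>
      g.injective (Nat.add_left_cancel hab)
  · rintro _ ⟨n, rfl⟩
    have hn : b1 ≤ b1 + g n := Nat.le_add_right _ _
    refine ⟨hn, fun k hk => ⟨hd1 k hk _ hn, hd2 k hk _ hn, ?_⟩⟩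
    rintro _ ⟨n', rfl⟩ hle
    have h1 : n ≤ n' := by
      have h2 : g n ≤ g n' := Nat.le_of_add_le_add_left hle
      exact g.le_iff_le.1 h2
    exact hg h1 ⟨k, hk⟩

end Pool.Agent.Lib.TCW
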