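import Pool.Agent.Lib.TCW.Bas

/-!
# Towers of coherent levels: words with the tree above
-/

set_option autoImplicit false

namespace Pool.Agent.Lib.TCW

open Finset Classical
open Pool.Agent.Lib.TCH

section GD

variable {V : Type} {G : SimpleGraph V} {D : ℕ → Lv V} {M : ℕ} {ε : ℝ} {n : ℕ} {xs : List V}

lemma GD_Ind {a b : ℕ} (h : GD G D M ε n xs a b) : Ind G xs := by
  cases n with
  | zero => exact h
  | succ n => exact h.1

lemma GD_mono {a b b' : ℕ} (hb : b ≤ b') (h : GD G D M ε n xs a b) : GD G D M ε n xs a b' := by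
  cases n with
  | zero => exact h
  | succ n =>
    obtain ⟨h1, f, g, h2, h3, h4⟩ := h
    exact ⟨h1, f, g, fun i hi => ⟨(h2 i hi).1, (h2 i hi).2.1, (h2 i hi).2.2.trans hb⟩, h3, h4⟩

end GD

lemma ite_bd (A B C : Prop) [Decidable A] [Decidable B] [Decidable C] (h : A → B ∨ C) :
    (if A then (1 : ℝ) else 0) ≤ 1 * (if B then 1 else 0) + 1 * (if C then 1 else 0) := by
  by_cases hA : A
  · rcases h hA with hB | hC
    · rw [if_pos hA, if_pos hB]
      split_ifs <;> norm_num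
    · rw [if_pos hA, if_pos hC]
      split_ifs <;> norm_num
  · rw [if_neg hA]
    split_ifs <;> norm_num

section EW

variable {V : Type} {G : SimpleGraph V} {m : ℕ} {D : ℕ → Lv V} {W : ℕ → Set V}

lemma EW_sum (hEW : StEW) (tw : Twr G m D W) (fs : List (ℕ × ℕ)) (j : ℕ) {v : V}
    (hv : v ∈ W (hg fs j)) {ι : Type} (s : Finset ι) (g : ι → List V → ℝ) :
    EW D v fs j (fun xs => ∑ i ∈ s, g i xs) = ∑ i ∈ s, EW D v fs j (g i) := by
  obtain ⟨hc, -, hl, -⟩ := hEW V G m D W tw fs j v hv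
  induction s using Finset.induction_on with
  | empty => simpa using hc 0
  | insert i s hi ih =>
    rw [Finset.sum_insert hi, ← ih]
    have h1 := hl 1 1 (g i) (fun xs => ∑ i ∈ s, g i xs)
    simp only [one_mul] at h1
    rw [← h1]
    congr 1
    funext xs
    rw [Finset.sum_insert hi]

lemma EW_tail (hEW : StEW) (tw : Twr G m D W) (p : ℕ × ℕ) (fs : List (ℕ × ℕ)) (j : ℕ) {v : V}
    (hv : v ∈ W (hg (p :: fs) j)) (g : List V → ℝ) :
    EW D v (p :: fs) j (fun ws => g ws.tail) = EW D v fs (j + ty fs + 1) g := by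
  have h1 : v ∈ W (hg [p] j) := tw.anti (by simp [hg]) hv
  have h2 := (hEW V G m D W tw [p] j v h1).1 1
  have h3 : ∑ x ∈ (av (D p.1) (own D j p.1 v)).support, av (D p.1) (own D j p.1 v) x = 1 := by
    simpa [EW] using h2
  simp only [EW, List.tail_cons]
  rw [← Finset.sum_mul, h3, one_mul]

/-- The spread law above the level `f` for good words. -/
def Ev (G : SimpleGraph V) (D : ℕ → Lv V) (M : ℕ) (ε : ℝ) (n f g : ℕ) (xs : List V) : Prop :=
  Ind G xs ∧ SpL G D ε f xs (fun X => GD G D M ε n (X :: xs) (f + 1) g)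

lemma up_one (hEW : StEW) (tw : Twr G m D W) {M : ℕ} {ε : ℝ} (n : ℕ) (p : ℕ × ℕ)
    (fs : List (ℕ × ℕ)) (j g : ℕ) {v : V} (hv : v ∈ W (hg (p :: fs) j)) {κ : ℝ}
    (h1 : κ ≤ EW D v (p :: fs) j (fun xs => if GD G D M ε n xs (p.1 + 1) g then 1 else 0))
    (h2 : v ∉ Bd D (p :: fs) j (κ / 2) (Fl G D M ε n p.1 g)) :
    κ / 2 ≤ EW D v fs (j + ty fs + 1) (fun xs => if Ev G D M ε n p.1 g xs then 1 else 0) := by
  obtain ⟨-, hm, hl, hw⟩ := hEW V G m D W tw (p :: fs) j v hv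
  have h3 : EW D v (p :: fs) j (fun ws => if Fl G D M ε n p.1 g ws then 1 else 0) < κ / 2 := by
    by_contra hcon
    exact h2 (not_lt.1 hcon)
  have h4 := hm (fun xs => if GD G D M ε n xs (p.1 + 1) g then 1 else 0)
    (fun ws => 1 * (if Fl G D M ε n p.1 g ws then 1 else 0) +
      1 * (fun ws : List V => (fun xs => if Ev G D M ε n p.1 g xs then (1 : ℝ) else 0) ws.tail) ws)
    (fun ws hws => ?_)
  · have h5 := EW_tail hEW tw p fs j hv (fun xs => if Ev G D M ε n p.1 g xs then (1 : ℝ) else 0)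
    rw [hl, h5] at h4
    linarith
  · have h5 := hw ws hws
    obtain ⟨X, xs, hX, -, -⟩ := hws
    subst hX
    rw [List.forall₂_cons] at h5
    refine ite_bd _ _ _ fun h6 => ?_
    by_cases h7 : Ev G D M ε n p.1 g xs
    · exact Or.inr h7
    · exact Or.inl ⟨X, xs, rfl, h5.1.2, h6, fun h => h7 ⟨(GD_Ind h6).2.2, h⟩⟩

end EW

/-- Many events of the sequence give a good word with one more level. -/
lemma GD_of_count {V : Type} {G : SimpleGraph V} {D : ℕ → Lv V} {M : ℕ} {ε : ℝ} {n : ℕ}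
    {xs : List V} {a b Nb : ℕ} (f g : ℕ → ℕ) (ha : ∀ i, a ≤ f i) (hfg : ∀ i, f i < g i)
    (hb : ∀ i < Nb, g i ≤ b) (hgf : ∀ i i', i < i' → g i ≤ f i')
    (hc : max M 1 ≤ ((range Nb).filter fun i => Ev G D M ε n (f i) (g i) xs).card) :
    GD G D M ε (n + 1) xs a b := by
  set T := (range Nb).filter fun i => Ev G D M ε n (f i) (g i) xs with hT
  have hT1 : ∀ i ∈ T, i < Nb ∧ Ev G D M ε n (f i) (g i) xs := fun i hi => by
    rw [hT, Finset.mem_filter, Finset.mem_range] at hi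
    exact hi
  have hMT : M ≤ T.card := (le_max_left _ _).trans hc
  have h1T : 1 ≤ T.card := (le_max_right _ _).trans hc
  have hI : Ind G xs := by
    obtain ⟨i, hi⟩ := Finset.card_pos.1 h1T
    exact (hT1 i hi).2.1
  let e : ℕ → ℕ := fun i => if h : i < T.card then T.orderEmbOfFin rfl ⟨i, h⟩ else 0
  have he : ∀ i < M, e i ∈ T := fun i hi => by
    simp only [e, dif_pos (lt_of_lt_of_le hi hMT)]
    exact Finset.orderEmbOfFin_mem T rfl _
  have he2 : ∀ i, i + 1 < M → e i < e (i + 1) := fun i hi => by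
    simp only [e, dif_pos (lt_of_lt_of_le hi hMT), dif_pos (lt_of_lt_of_le
      ((Nat.lt_succ_self i).trans hi) hMT)]
    exact (T.orderEmbOfFin rfl).strictMono (by simp)
  exact ⟨hI, fun i => f (e i), fun i => g (e i),
    fun i hi => ⟨ha _, hfg _, hb _ (hT1 _ (he i hi)).1⟩,
    fun i hi => hgf _ _ (he2 i hi), fun i hi => (hT1 _ (he i hi)).2.2⟩

lemma up_all (hEW : StEW) (V : Type) (G : SimpleGraph V) (m h M : ℕ) (κ ε : ℝ) (D : ℕ → Lv V)
    (W : ℕ → Set V) (S : Set ℕ) (d : ℕ → ℕ → ℕ) (Θ : List (ℕ × ℕ) → ℕ) (tw : Twr G m D W)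
    (hS : S.Infinite) (hκ : 0 < κ)
    (hI : ∀ fs : List (ℕ × ℕ), fs.length = h + 1 → Adm S h d Θ fs → ∀ j : ℕ, ∃ N : ℕ,
      ∀ v ∈ W N, κ ≤ EW D v fs j (fun xs => if Ind G xs then 1 else 0))
    (hF : ∀ n < h, ∀ (p : ℕ × ℕ) (fs : List (ℕ × ℕ)), fs.length = h - n → Adm S h d Θ (p :: fs) →
        ∀ g j : ℕ, ∃ N : ℕ, ∀ v ∈ W N, v ∉ Bd D (p :: fs) j (κ / 4 ^ n / 2)
          (Fl G D M ε n p.1 g)) :
    ∀ n, n ≤ h → ∀ fs : List (ℕ × ℕ), fs.length = h + 1 - n → Adm S h d Θ fs → ∀ a : ℕ,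
      ∃ b J : ℕ, ∀ j, J ≤ j → ∃ N : ℕ, ∀ v ∈ W N,
        κ / 4 ^ n ≤ EW D v fs j (fun xs => if GD G D M ε n xs a b then 1 else 0) := by
  intro n
  induction n with
  | zero =>
    intro _ fs hfs hA a
    refine ⟨0, 0, fun j _ => ?_⟩
    obtain ⟨N, hN⟩ := hI fs (by simpa using hfs) hA j
    refine ⟨N, fun v hv => ?_⟩
    have h1 := hN v hv
    rw [pow_zero, div_one]
    exact h1
  | succ n ih =>
    intro hn fs hfs hA a
    have hκn : 0 < κ / 4 ^ n := by positivity
    -- one step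
    have hstep : ∀ a0 : ℕ, ∃ f g J : ℕ, a0 ≤ f ∧ f < g ∧ ∀ j, J ≤ j → ∃ N : ℕ, ∀ v ∈ W N,
        κ / 4 ^ n / 2 ≤ EW D v fs (j + ty fs + 1)
          (fun xs => if Ev G D M ε n f g xs then 1 else 0) := by
      intro a0
      obtain ⟨f, hfS, hf⟩ := hS.exists_gt (max a0 (Θ fs))
      have hA' : Adm S h d Θ ((f, d (h - 1 - fs.length) f) :: fs) :=
        ⟨hfS, rfl, (le_max_right _ _).trans hf.le, hA⟩
      obtain ⟨b, J, hJ⟩ := ih (by omega) ((f, d (h - 1 - fs.length) f) :: fs)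
        (by rw [List.length_cons, hfs]; omega) hA' (f + 1)
      refine ⟨f, max b (f + 1), J, (le_max_left _ _).trans hf.le,
        lt_of_lt_of_le (Nat.lt_succ_self f) (le_max_right _ _), fun j hj => ?_⟩
      obtain ⟨N1, hN1⟩ := hJ j hj
      obtain ⟨N2, hN2⟩ := hF n (by omega) (f, d (h - 1 - fs.length) f) fs (by omega) hA'
        (max b (f + 1)) j
      refine ⟨max (max N1 N2) (hg ((f, d (h - 1 - fs.length) f) :: fs) j), fun v hv => ?_⟩
      have hv1 : v ∈ W N1 := tw.anti ((le_max_left _ _).trans (le_max_left _ _)) hv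
      have hv2 : v ∈ W N2 := tw.anti ((le_max_right _ _).trans (le_max_left _ _)) hv
      have hv3 : v ∈ W (hg ((f, d (h - 1 - fs.length) f) :: fs) j) :=
        tw.anti (le_max_right _ _) hv
      refine up_one hEW tw n (f, d (h - 1 - fs.length) f) fs j (max b (f + 1)) hv3 ?_ (hN2 v hv2)
      refine (hN1 v hv1).trans ((hEW V G m D W tw _ j v hv3).2.1 _ _ fun xs _ => ?_)
      by_cases h1 : GD G D M ε n xs (f + 1) b
      · rw [if_pos h1, if_pos (GD_mono (le_max_left _ _) h1)]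
      · rw [if_neg h1]
        split_ifs <;> norm_num
    choose F Gf J hF1 hF2 hF3 using hstep
    -- the sequence
    let c : ℕ → ℕ := fun i => Nat.rec a (fun _ x => Gf x) i
    have hc0 : c 0 = a := rfl
    have hc1 : ∀ i, c (i + 1) = Gf (c i) := fun i => rfl
    have hcm : Monotone c := monotone_nat_of_le_succ fun i => by
      rw [hc1]
      exact ((hF1 _).trans (hF2 _).le)
    -- the number of steps
    obtain ⟨Nb, hNb⟩ := exists_nat_ge (4 * ((max M 1 : ℕ) : ℝ) / (κ / 4 ^ n))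
    have hM1 : (1 : ℝ) ≤ ((max M 1 : ℕ) : ℝ) := by exact_mod_cast le_max_right M 1
    have hNb1 : 4 * ((max M 1 : ℕ) : ℝ) ≤ Nb * (κ / 4 ^ n) := by
      rwa [div_le_iff₀ hκn] at hNb
    have hNb0 : (0 : ℝ) < Nb := by
      by_contra hcon
      have h1 : (Nb : ℝ) * (κ / 4 ^ n) ≤ 0 := mul_nonpos_of_nonpos_of_nonneg (not_lt.1 hcon) hκn.le
      linarith
    refine ⟨c Nb, (range Nb).sup (fun i => J (c i)) + ty fs + 1, fun j hj => ?_⟩
    have hj1 : ∀ i ∈ range Nb, ∃ N : ℕ, ∀ v ∈ W N,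
        κ / 4 ^ n / 2 ≤ EW D v fs j
          (fun xs => if Ev G D M ε n (F (c i)) (Gf (c i)) xs then 1 else 0) := by
      intro i hi
      have h1 : J (c i) ≤ (range Nb).sup (fun i => J (c i)) :=
        Finset.le_sup (f := fun i => J (c i)) hi
      have h2 := hF3 (c i) (j - ty fs - 1) (by omega)
      have h3 : j - ty fs - 1 + ty fs + 1 = j := by omega
      rwa [h3] at h2
    choose! N hN using hj1
    refine ⟨max ((range Nb).sup N) (hg fs j), fun v hv => ?_⟩
    have hv1 : v ∈ W (hg fs j) := tw.anti (le_max_right _ _) hv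
    have hv2 : ∀ i ∈ range Nb, v ∈ W (N i) := fun i hi =>
      tw.anti ((Finset.le_sup (f := N) hi).trans (le_max_left _ _)) hv
    have h4 : (Nb : ℝ) * (κ / 4 ^ n / 2) ≤ EW D v fs j
        (fun xs => ∑ i ∈ range Nb, if Ev G D M ε n (F (c i)) (Gf (c i)) xs then (1 : ℝ) else 0) := by
      rw [EW_sum hEW tw fs j hv1]
      calc (Nb : ℝ) * (κ / 4 ^ n / 2) = ∑ i ∈ range Nb, (κ / 4 ^ n / 2) := by
            rw [Finset.sum_const, Finset.card_range, nsmul_eq_mul]
        _ ≤ _ := Finset.sum_le_sum fun i hi => hN i hi v (hv2 i hi)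
    obtain ⟨hcst, hm, hl, -⟩ := hEW V G m D W tw fs j v hv1
    have h5 := hm (fun xs => ∑ i ∈ range Nb,
        if Ev G D M ε n (F (c i)) (Gf (c i)) xs then (1 : ℝ) else 0)
      (fun xs => ((max M 1 : ℕ) : ℝ) * (fun _ => (1 : ℝ)) xs + (Nb : ℝ) *
        (fun xs => if GD G D M ε (n + 1) xs a (c Nb) then (1 : ℝ) else 0) xs) (fun xs _ => ?_)
    · rw [hl, hcst] at h5
      have h6 := h4.trans h5
      have h7 : κ / 4 ^ (n + 1) = κ / 4 ^ n / 4 := by
        rw [pow_succ, div_div]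
      rw [h7]
      have h8 : (Nb : ℝ) * (κ / 4 ^ n / 4) ≤ (Nb : ℝ) * EW D v fs j
          (fun xs => if GD G D M ε (n + 1) xs a (c Nb) then (1 : ℝ) else 0) := by
        have : (Nb : ℝ) * (κ / 4 ^ n / 2) = 2 * (Nb * (κ / 4 ^ n / 4)) := by ring
        have h9 : (Nb : ℝ) * (κ / 4 ^ n) = 4 * (Nb * (κ / 4 ^ n / 4)) := by ring
        linarith
      exact le_of_mul_le_mul_left h8 hNb0
    · have hcard : (∑ i ∈ range Nb,
          if Ev G D M ε n (F (c i)) (Gf (c i)) xs then (1 : ℝ) else 0) =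
          (((range Nb).filter fun i => Ev G D M ε n (F (c i)) (Gf (c i)) xs).card : ℝ) := by
        rw [Finset.sum_boole]
      show (∑ i ∈ range Nb,
          if Ev G D M ε n (F (c i)) (Gf (c i)) xs then (1 : ℝ) else 0) ≤ _
      rw [hcard]
      by_cases h10 : max M 1 ≤
          ((range Nb).filter fun i => Ev G D M ε n (F (c i)) (Gf (c i)) xs).card
      · have h11 : GD G D M ε (n + 1) xs a (c Nb) := by
          refine GD_of_count (Nb := Nb) (fun i => F (c i)) (fun i => Gf (c i)) (fun i => ?_)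
            (fun i => hF2 _) (fun i hi => ?_) (fun i i' hi => ?_) h10
          · exact (hc0 ▸ hcm (Nat.zero_le i)).trans (hF1 _)
          · exact hc1 i ▸ hcm hi
          · exact (hc1 i ▸ hcm hi : Gf (c i) ≤ c i').trans (hF1 _)
        simp only [if_pos h11, mul_one]
        have h12 : (((range Nb).filter fun i => Ev G D M ε n (F (c i)) (Gf (c i)) xs).card : ℝ) ≤
            Nb := by
          exact_mod_cast (Finset.card_filter_le _ _).trans (Finset.card_range Nb).le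
        linarith
      · have h11 : (((range Nb).filter fun i => Ev G D M ε n (F (c i)) (Gf (c i)) xs).card : ℝ) ≤
            ((max M 1 : ℕ) : ℝ) := by
          exact_mod_cast (not_le.1 h10).le
        have h12 : (0 : ℝ) ≤ (Nb : ℝ) * (if GD G D M ε (n + 1) xs a (c Nb) then (1 : ℝ) else 0) := by
          split_ifs <;> simp
        simp only [mul_one]
        linarith

/-- Module `Up`: words with the tree above. -/
theorem stUp (hEW : StEW) : StUp := by
  intro V G m h M κ ε D W S d Θ tw hS hκ hI hF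
  have key := up_all hEW V G m h M κ ε D W S d Θ tw hS hκ hI hF
  obtain ⟨f, hfS, hf⟩ := hS.exists_gt (Θ [])
  obtain ⟨b, J, hJ⟩ := key h le_rfl [(f, d (h - 1 - 0) f)] (by simp) ⟨hfS, rfl, hf.le, trivial⟩
    (f + 1)
  obtain ⟨N, hN⟩ := hJ J le_rfl
  obtain ⟨v, hv⟩ := tw.ne N
  have h1 := hN v hv
  have h2 : 0 < κ / 4 ^ h := by positivity
  by_contra hcon
  push Not at hcon
  have h3 : EW D v [(f, d (h - 1 - 0) f)] J
      (fun xs => if GD G D M ε h xs (f + 1) b then 1 else 0) = 0 := by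
    simp only [EW]
    refine Finset.sum_eq_zero fun x _ => ?_
    rw [if_neg (hcon f b x), mul_zero]
  linarith

end Pool.Agent.Lib.TCW
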