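import Pool.Agent.Lib.TCW.Nc
import Pool.Agent.Lib.TCW.Kil
import Pool.Agent.Lib.TCW.Sib
import Pool.Agent.Lib.TCW.Plc
import Pool.Agent.Lib.TCW.Tw
import Pool.Agent.Lib.TCW.Sh
import Pool.Agent.Lib.TCW.Sr
import Pool.Agent.Lib.TCW.Bu
import Pool.Agent.Lib.TCW.Ty
import Pool.Agent.Lib.TCW.EW
import Pool.Agent.Lib.TCW.Fc
import Pool.Agent.Lib.TCW.Iw
import Pool.Agent.Lib.TCW.Em
import Pool.Agent.Lib.TCW.Ne
import Pool.Agent.Lib.TCW.Dq
import Pool.Agent.Lib.TCW.Ct
import Pool.Agent.Lib.TCW.C6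
import Pool.Agent.Lib.TCW.Up
import Pool.Agent.Lib.TCW.Tc
import Pool.Agent.Lib.TCW.Fin

/-!
# The chain theorem
-/

set_option autoImplicit false

namespace Pool.Agent.Lib.TCW

/-- The extension lemma. -/
theorem stExt : StExt := by
  intro V G big m k h M hI hk hT C W R hW hG
  by_contra hcon
  obtain ⟨D, X, h1, h2⟩ := stKil V G big m R C W hI hW hG hcon
  exact stPlc stNc stSib V G m k h M R C D X hk hT ⟨h1, h2⟩

/-- The chain theorem: a graph without large cliques and without induced copies of a tree does not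
have levels of every quality on all big subsets of a big set. -/
theorem stChain : StChain :=
  fin (stTw stExt) stSh (stSr stSh) (stBu stSh) stTy (stEW stSh)
    (stIw stSh (stEW stSh) (stFc stSh)) stEm stNe stDq
    (stC6 stSh (stCt stSh (stEW stSh) (stFc stSh)) stDq) (stUp (stEW stSh)) stTc

end Pool.Agent.Lib.TCW
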