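import Pool.Agent.Lib.TCW.EqW

/-!
# The set of vertices in self-linked incidences of equal heights

For every record (worlds, heights, weights) of `q` stages the set of the vertices which lie in
self-linked incidences of equal heights at all stages is `C`-colourable.  No property of the
record is assumed: all conditions are on the incidences through the single vertex.
-/

set_option autoImplicit false

namespace Pool.Agent.Lib.TCW

open Finset Classical
open Pool.Agent.Lib.TCH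
open Pool.Agent.Lib.GR3 (Env Cl Sm)

/-- A self-linked incidence of equal heights through `v` in the world `W` with the heights `h`,
weights `r` of the nodes and `w` of the labels. -/
structure EqInc {V : Type} (G : SimpleGraph V) (K0 K1 ε δ g L : ℝ) (W : Finset V) (h r w : V → ℝ)
    (I : V → V → Prop) (v : V) : Prop where
  mem : ∀ x z, I x z → x ∈ W ∧ z ∈ W ∧ G.Adj x z ∧ |h x - h z| ≤ g
  wI : ∀ x z, I x z → ∑ y ∈ W with G.Adj x y ∧ |h x - h y| ≤ g, w y ≤ K0
  rI : ∀ x z, I x z → ∑ y ∈ W with G.Adj z y ∧ |h z - h y| ≤ g, r y ≤ K0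
  kp : ∀ x z, I x z → ε ≤ TCH.kap W W I r w x z
  ne : ∃ z, I v z
  nr : ∑ z ∈ W with G.Adj z v ∧ |h z - h v| ≤ L + 3 * g, w z ≤ K1
  fr : ∀ x ∈ W, L < |h x - h v| → ∑ z ∈ W with G.Adj z v ∧ |h z - h x| ≤ 3 * g, w z ≤ δ

namespace EqX_

theorem kap_le {V : Type} {As O W : Finset V} {I I' : V → V → Prop} {r w : V → ℝ}
    (hr : ∀ x, 0 ≤ r x) (hw : ∀ x, 0 ≤ w x) (hI : ∀ x z, I x z → I' x z)
    (hAs : ∀ x z, I' x z → x ∈ W → x ∈ As) (hO : ∀ x z, I' x z → z ∈ W → z ∈ O) (x z : V) :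
    TCH.kap W W I r w x z ≤ TCH.kap As O I' r w x z := by
  unfold TCH.kap
  have h1 : ∀ x' : V, ∑ o' ∈ W with I x o' ∧ I x' o', w o' ≤
      ∑ o' ∈ O with I' x o' ∧ I' x' o', w o' := by
    intro x'
    refine Finset.sum_le_sum_of_subset_of_nonneg ?_ fun o _ _ => hw o
    intro o ho
    rw [Finset.mem_filter] at ho ⊢
    exact ⟨hO x o (hI x o ho.2.1) ho.1, hI x o ho.2.1, hI x' o ho.2.2⟩
  refine (Finset.sum_le_sum fun x' _ => mul_le_mul_of_nonneg_left (h1 x') (hr x')).trans ?_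
  refine Finset.sum_le_sum_of_subset_of_nonneg ?_ fun x' _ _ =>
    mul_nonneg (hr x') (Finset.sum_nonneg fun o _ => hw o)
  intro x' hx'
  rw [Finset.mem_filter] at hx' ⊢
  exact ⟨hAs x' z (hI x' z hx'.2) hx'.1, hI x' z hx'.2⟩

end EqX_

open EqX_

/-- The vertices in self-linked incidences of equal heights at `q` stages form a small set. -/
def StEqX : Prop :=
  ∀ (V : Type) (E : Env V) (D0 m : ℕ) (W0 : Set V) (R : ℕ), GIT.VC E.G D0 →
    (∀ D : Lv V, OK E.G m (fun _ _ => True) (R + 1) W0 D → Sm E D.dom) →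
      ∀ (q : ℕ) (K0 ε : ℝ), 0 < K0 → 0 < ε → R + 1 ≤ q → ∃ δ : ℝ, 0 < δ ∧
        ∀ K1 : ℝ, ∃ C : ℕ, ∀ (n : ℕ) (g L : ℕ → ℝ) (W : ℕ → Finset V) (h r w : ℕ → V → ℝ),
          (∀ s < q, ∀ z ∈ W s, z ∈ W0 ∧ E.c z = n) →
          (∀ s x, 0 ≤ r s x) → (∀ s x, 0 ≤ w s x) →
          Cl E {v | ∀ s < q, ∃ I : V → V → Prop,
            EqInc E.G K0 K1 ε δ (g s) (L s) (W s) (h s) (r s) (w s) I v} C

theorem stEqX : StEqX := by
  intro V E D0 m W0 R hvc hno q K0 ε hK0 hε hq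
  obtain ⟨δ, hδ, hC0⟩ := stUnifE V E D0 m W0 R hvc hno q K0 ε hK0 hε hq
  refine ⟨δ, hδ, fun K1 => ?_⟩
  obtain ⟨C, hC⟩ := hC0 K1
  refine ⟨C, ?_⟩
  intro n g L W h r w hW hr hw
  set B : Set V := {v | ∀ s < q, ∃ I : V → V → Prop,
    EqInc E.G K0 K1 ε δ (g s) (L s) (W s) (h s) (r s) (w s) I v} with hB
  have hBW : ∀ v ∈ B, ∀ s < q, v ∈ W s := by
    intro v hv s hs
    obtain ⟨I, hI⟩ := hv s hs
    obtain ⟨z, hz⟩ := hI.ne
    exact (hI.mem v z hz).1
  -- the finite set of the vertices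
  set A : Finset V := (W 0).filter fun v => v ∈ B with hA
  have hAB : ∀ v, v ∈ A ↔ v ∈ B := by
    intro v
    rw [hA, Finset.mem_filter]
    exact ⟨fun h => h.2, fun h => ⟨hBW v h 0 (by omega), h⟩⟩
  -- the union of the incidences
  set I : ℕ → V → V → Prop := fun s x z => ∃ (v : V) (I : V → V → Prop), v ∈ B ∧
    EqInc E.G K0 K1 ε δ (g s) (L s) (W s) (h s) (r s) (w s) I v ∧ I x z with hI
  have hset : {x | x ∈ A} = B := by
    ext v
    exact hAB v
  rw [← hset]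
  refine hC V n g L A (fun s => (W s).filter fun x => ∃ z, I s x z)
    (fun s => (W s).filter fun z => ∃ x, I s x z) (fun _ z => z) I h h r w ?_
  refine ⟨?_, ?_, ?_⟩
  · intro x hx
    have h1 := hBW x ((hAB x).1 hx) 0 (by omega)
    exact hW 0 (by omega) x h1
  · intro s hs
    refine ⟨⟨?_, hr s, hw s, ?_, ?_, ?_, ?_, ?_⟩, ?_, ?_, ?_⟩
    · intro x hx
      have hxB := (hAB x).1 hx
      rw [Finset.mem_filter]
      obtain ⟨J, hJ⟩ := hxB s hs
      obtain ⟨z, hz⟩ := hJ.ne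
      exact ⟨hBW x hxB s hs, z, x, J, hxB, hJ, hz⟩
    · intro x hx
      rw [Finset.mem_filter] at hx
      obtain ⟨-, z, v, J, -, hJ, hz⟩ := hx
      refine le_trans (Finset.sum_le_sum_of_subset_of_nonneg ?_ fun o _ _ => hw s o) (hJ.wI x z hz)
      intro o ho
      rw [Finset.mem_filter, Finset.mem_filter] at ho
      rw [Finset.mem_filter]
      obtain ⟨⟨ho1, -⟩, v', J', -, hJ', hz'⟩ := ho
      exact ⟨ho1, (hJ'.mem x o hz').2.2.1, (hJ'.mem x o hz').2.2.2⟩
    · intro z hz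
      rw [Finset.mem_filter] at hz
      obtain ⟨-, x, v, J, -, hJ, hz⟩ := hz
      refine le_trans (Finset.sum_le_sum_of_subset_of_nonneg ?_ fun o _ _ => hr s o) (hJ.rI x z hz)
      intro o ho
      rw [Finset.mem_filter, Finset.mem_filter] at ho
      rw [Finset.mem_filter]
      obtain ⟨⟨ho1, -⟩, v', J', -, hJ', hz'⟩ := ho
      have h2 := (hJ'.mem o z hz').2.2.2
      rw [abs_sub_comm] at h2
      exact ⟨ho1, (hJ'.mem o z hz').2.2.1.symm, h2⟩
    · intro x hx z hz hxz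
      obtain ⟨v, J, hv, hJ, hz'⟩ := hxz
      refine (hJ.kp x z hz').trans (kap_le (hr s) (hw s) ?_ ?_ ?_ x z)
      · exact fun a b hab => ⟨v, J, hv, hJ, hab⟩
      · intro a b hab ha
        rw [Finset.mem_filter]
        exact ⟨ha, b, hab⟩
      · intro a b hab hb
        rw [Finset.mem_filter]
        exact ⟨hb, a, hab⟩
    · intro x hx
      have hxB := (hAB x).1 hx
      obtain ⟨J, hJ⟩ := hxB s hs
      obtain ⟨z, hz⟩ := hJ.ne
      refine ⟨z, ?_, x, J, hxB, hJ, hz⟩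
      rw [Finset.mem_filter]
      exact ⟨(hJ.mem x z hz).2.1, x, x, J, hxB, hJ, hz⟩
    · intro x _ z _ hxz
      obtain ⟨v, J, hv, hJ, hz'⟩ := hxz
      exact (hJ.mem x z hz').2.2.1
    · intro x _ z _ hxz
      obtain ⟨v, J, hv, hJ, hz'⟩ := hxz
      exact (hJ.mem x z hz').2.2.2
    · intro t ht
      obtain ⟨J, hJ⟩ := (hAB t).1 ht s hs
      refine le_trans (Finset.sum_le_sum_of_subset_of_nonneg ?_ fun o _ _ => hw s o) hJ.nr
      intro o ho
      rw [Finset.mem_filter, Finset.mem_filter] at ho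
      rw [Finset.mem_filter]
      exact ⟨ho.1.1, ho.2⟩
    · intro t ht x hx hk
      obtain ⟨J, hJ⟩ := (hAB t).1 ht s hs
      refine le_trans (Finset.sum_le_sum_of_subset_of_nonneg ?_ fun o _ _ => hw s o)
        (hJ.fr x (hBW x ((hAB x).1 hx) s hs) hk)
      intro o ho
      rw [Finset.mem_filter, Finset.mem_filter] at ho
      rw [Finset.mem_filter]
      exact ⟨ho.1.1, ho.2⟩
  · intro s hs z hz
    rw [Finset.mem_filter] at hz
    exact hW s hs z hz.1

end Pool.Agent.Lib.TCW
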