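import Pool.Agent.Lib.TCW.BX
import Pool.Agent.Lib.TCW.EqX

/-!
# Finite graphs in the fibres

The theorems `stEqX` and `stBX` for records on a finite graph `G'` which is embedded in a fibre of
`W0`.
-/

set_option autoImplicit false

namespace Pool.Agent.Lib.TCW

open Finset Classical
open Pool.Agent.Lib.TCH
open Pool.Agent.Lib.GR3 (Env Cl Sm)

/-- The set `S` of vertices of `G` is `n`-colourable. -/
def ColG {X : Type} (G : SimpleGraph X) (S : Set X) (n : ℕ) : Prop :=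
  ∃ f : X → ℕ, (∀ v ∈ S, f v < n) ∧ ∀ u ∈ S, ∀ v ∈ S, G.Adj u v → f u ≠ f v

/-- The graph `G'` is embedded in the fibre `n` of `W0`. -/
structure Emb {V X : Type} (E : Env V) (W0 : Set V) (n : ℕ) (G' : SimpleGraph X) (e : X ↪ V) :
    Prop where
  adj : ∀ x y, G'.Adj x y ↔ E.G.Adj (e x) (e y)
  mem : ∀ x, e x ∈ W0 ∧ E.c (e x) = n

theorem ColG.mono {X : Type} {G : SimpleGraph X} {S T : Set X} {n m : ℕ} (h : ColG G T n)
    (hS : S ⊆ T) (hn : n ≤ m) : ColG G S m := by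
  obtain ⟨f, h1, h2⟩ := h
  exact ⟨f, fun v hv => (h1 v (hS hv)).trans_le hn, fun u hu v hv => h2 u (hS hu) v (hS hv)⟩

theorem ColG.union {X : Type} {G : SimpleGraph X} {A B : Set X} {n m : ℕ} (hA : ColG G A n)
    (hB : ColG G B m) : ColG G (A ∪ B) (n + m) := by
  obtain ⟨f, f1, f2⟩ := hA
  obtain ⟨g, g1, g2⟩ := hB
  refine ⟨fun v => if v ∈ A then f v else n + g v, fun v hv => ?_, fun u hu v hv ha => ?_⟩
  · by_cases h : v ∈ A
    · simp only [h, if_true]
      exact (f1 v h).trans_le (Nat.le_add_right _ _)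
    · simp only [h, if_false]
      exact Nat.add_lt_add_left (g1 v (hv.resolve_left h)) n
  · by_cases h : u ∈ A <;> by_cases h' : v ∈ A
    · simp only [h, h', if_true]
      exact f2 u h v h' ha
    · simp only [h, h', if_true, if_false]
      have := f1 u h
      omega
    · simp only [h, h', if_true, if_false]
      have := f1 v h'
      omega
    · simp only [h, h', if_false]
      have := g2 u (hu.resolve_left h) v (hv.resolve_left h') ha
      omega

theorem ColG.empty {X : Type} (G : SimpleGraph X) : ColG G ∅ 0 :=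
  ⟨fun _ => 0, fun _ hv => hv.elim, fun _ hu => hu.elim⟩

/-- A colouring of an image in the environment gives a colouring of the finite graph. -/
theorem colG_of_cl {V X : Type} {E : Env V} {W0 : Set V} {n : ℕ} {G' : SimpleGraph X} {e : X ↪ V}
    (he : Emb E W0 n G' e) {S : Set X} {B : Set V} {C : ℕ} (hS : ∀ x ∈ S, e x ∈ B)
    (hB : Cl E B C) : ColG G' S C := by
  obtain ⟨f, h1, h2⟩ := hB
  exact ⟨fun x => f (e x), fun v hv => h1 _ (hS v hv),
    fun u hu v hv ha => h2 _ (hS u hu) _ (hS v hv) ((he.adj u v).1 ha)⟩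

/-- If the parts of `W0` in the fibres are uniformly colourable then `W0` is small. -/
theorem cl_of_fib {V : Type} (E : Env V) (W0 : Set V) (C : ℕ)
    (h : ∀ n : ℕ, ∃ (X : Type) (_ : Fintype X) (G' : SimpleGraph X) (e : X ↪ V),
      Emb E W0 n G' e ∧ (∀ v ∈ W0, E.c v = n → ∃ x, e x = v) ∧ ColG G' Set.univ C) :
    Cl E W0 C := by
  choose X hX G' e he hs f hf1 hf2 using h
  have h1 : ∀ v : V, ∃ k : ℕ, ∀ (x : X (E.c v)), e (E.c v) x = v → k = f (E.c v) x := by
    intro v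
    by_cases hv : ∃ x : X (E.c v), e (E.c v) x = v
    · obtain ⟨x, hx⟩ := hv
      exact ⟨f (E.c v) x, fun y hy => by rw [(e (E.c v)).injective (hy.trans hx.symm)]⟩
    · exact ⟨0, fun x hx => absurd ⟨x, hx⟩ hv⟩
  choose F hF using h1
  refine ⟨F, fun v hv => ?_, fun u hu v hv huv => ?_⟩
  · obtain ⟨x, hx⟩ := hs (E.c v) v hv rfl
    rw [hF v x hx]
    exact hf1 _ x trivial
  · have hc : E.c v = E.c u := (E.adj_c u v huv).symm
    obtain ⟨x, hx⟩ := hs (E.c u) u hu rfl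
    obtain ⟨y, hy⟩ := hs (E.c u) v hv hc
    have h2 : F v = f (E.c u) y := by
      have h3 : ∀ m : ℕ, m = E.c u → ∀ (z : X m), e m z = v → F v = f m z := by
        intro m hm z hz
        subst hm
        have h4 : ∀ m' : ℕ, m' = E.c u → ∀ (z' : X (E.c u)), e (E.c u) z' = v →
            E.c v = m' → F v = f (E.c u) z' := by
          intro m' hm' z' hz' hvm
          subst hm'
          have h5 : ∀ (z'' : X (E.c v)), e (E.c v) z'' = v → F v = f (E.c v) z'' := hF v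
          rw [hvm] at h5
          exact h5 z' hz'
        exact h4 (E.c u) rfl z hz hc
      exact h3 (E.c u) rfl y hy
    rw [hF u x hx, h2]
    exact hf2 _ x trivial y trivial ((he _).adj x y |>.2 (by rw [hx, hy]; exact huv))

namespace XFin_

section

variable {V X Ω Λ : Type}

theorem sum_map_filter (e : X ↪ V) (A : Finset X) (p : X → Prop) (p' : V → Prop)
    [DecidablePred p] [DecidablePred p'] (w : X → ℝ) (w' : V → ℝ) (hp : ∀ x, p' (e x) ↔ p x)
    (hw : ∀ x, w' (e x) = w x) :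
    ∑ y ∈ (A.map e).filter p', w' y = ∑ x ∈ A.filter p, w x := by
  rw [Finset.sum_filter, Finset.sum_filter, Finset.sum_map]
  refine Finset.sum_congr rfl fun x _ => ?_
  rw [hw x]
  by_cases h : p x
  · rw [if_pos h, if_pos ((hp x).2 h)]
  · rw [if_neg h, if_neg fun h' => h ((hp x).1 h')]

theorem kap_map (e : X ↪ V) (d : Ω ↪ Λ) (A : Finset X) (O : Finset Ω) (I : X → Ω → Prop)
    (I' : V → Λ → Prop) (r : X → ℝ) (r' : V → ℝ) (w : Ω → ℝ) (w' : Λ → ℝ)
    (hI : ∀ x o, I' (e x) (d o) ↔ I x o) (hr : ∀ x, r' (e x) = r x) (hw : ∀ o, w' (d o) = w o)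
    (x : X) (o : Ω) :
    TCH.kap (A.map e) (O.map d) I' r' w' (e x) (d o) = TCH.kap A O I r w x o := by
  unfold TCH.kap
  refine sum_map_filter e A _ _ _ _ (fun y => hI y o) fun y => ?_
  rw [hr y]
  congr 1
  exact sum_map_filter d O (fun z => I x z ∧ I y z) (fun z => I' (e x) z ∧ I' (e y) z) _ _
    (fun z => and_congr (hI x z) (hI y z)) hw

end

end XFin_

open XFin_

/-- `stEqX` for finite graphs in the fibres. -/
theorem eqX_fin {V : Type} (E : Env V) (D0 m : ℕ) (W0 : Set V) (R : ℕ) (hvc : GIT.VC E.G D0)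
    (hno : ∀ D : Lv V, OK E.G m (fun _ _ => True) (R + 1) W0 D → Sm E D.dom) (q : ℕ) (K0 ε : ℝ)
    (hK0 : 0 < K0) (hε : 0 < ε) (hq : R + 1 ≤ q) : ∃ δ : ℝ, 0 < δ ∧ ∀ K1 : ℝ, ∃ C : ℕ,
      ∀ (X : Type) (G' : SimpleGraph X) (e : X ↪ V) (n : ℕ), Emb E W0 n G' e →
        ∀ (g L : ℕ → ℝ) (W : ℕ → Finset X) (h r w : ℕ → X → ℝ),
          (∀ s x, 0 ≤ r s x) → (∀ s x, 0 ≤ w s x) →
          ColG G' {v | ∀ s < q, ∃ I : X → X → Prop,
            EqInc G' K0 K1 ε δ (g s) (L s) (W s) (h s) (r s) (w s) I v} C := by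
  obtain ⟨δ, hδ, hC0⟩ := stEqX V E D0 m W0 R hvc hno q K0 ε hK0 hε hq
  refine ⟨δ, hδ, fun K1 => ?_⟩
  obtain ⟨C, hC⟩ := hC0 K1
  refine ⟨C, ?_⟩
  intro X G' e n he g L W h r w hr hw
  have hex : ∀ (f : X → ℝ) (x : X), Function.extend e f (fun _ => 0) (e x) = f x :=
    fun f x => e.injective.extend_apply f _ x
  have hex0 : ∀ (f : X → ℝ), (∀ x, 0 ≤ f x) → ∀ v, 0 ≤ Function.extend e f (fun _ => 0) v := by
    intro f hf v
    by_cases hv : ∃ x, e x = v
    · obtain ⟨x, rfl⟩ := hv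
      rw [hex]
      exact hf x
    · rw [Function.extend_apply' _ _ _ hv]
  refine colG_of_cl he ?_ (hC n g L (fun s => (W s).map e)
    (fun s => Function.extend e (h s) fun _ => 0) (fun s => Function.extend e (r s) fun _ => 0)
    (fun s => Function.extend e (w s) fun _ => 0) ?_ (fun s => hex0 _ (hr s))
    (fun s => hex0 _ (hw s)))
  · intro v hv s hs
    obtain ⟨I, hI⟩ := hv s hs
    have hI' : ∀ x z, (∃ a b, e a = e x ∧ e b = e z ∧ I a b) ↔ I x z := by
      intro x z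
      constructor
      · rintro ⟨a, b, h1, h2, h3⟩
        rw [e.injective h1, e.injective h2] at h3
        exact h3
      · exact fun h3 => ⟨x, z, rfl, rfl, h3⟩
    refine ⟨fun x' z' => ∃ a b, e a = x' ∧ e b = z' ∧ I a b, ?_, ?_, ?_, ?_, ?_, ?_, ?_⟩
    · rintro _ _ ⟨x, z, rfl, rfl, hxz⟩
      obtain ⟨h1, h2, h3, h4⟩ := hI.mem x z hxz
      refine ⟨Finset.mem_map_of_mem e h1, Finset.mem_map_of_mem e h2, (he.adj x z).1 h3, ?_⟩
      rw [hex, hex]
      exact h4
    · rintro _ _ ⟨x, z, rfl, rfl, hxz⟩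
      refine le_of_eq_of_le ?_ (hI.wI x z hxz)
      refine sum_map_filter e (W s) _ _ _ _ (fun y => ?_) (hex _)
      rw [← he.adj, hex, hex]
    · rintro _ _ ⟨x, z, rfl, rfl, hxz⟩
      refine le_of_eq_of_le ?_ (hI.rI x z hxz)
      refine sum_map_filter e (W s) _ _ _ _ (fun y => ?_) (hex _)
      rw [← he.adj, hex, hex]
    · rintro _ _ ⟨x, z, rfl, rfl, hxz⟩
      refine (hI.kp x z hxz).trans (le_of_eq ?_)
      exact (kap_map e e (W s) (W s) I _ (r s) _ (w s) _ hI' (hex _) (hex _) x z).symm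
    · obtain ⟨z, hz⟩ := hI.ne
      exact ⟨e z, v, z, rfl, rfl, hz⟩
    · refine le_of_eq_of_le ?_ hI.nr
      refine sum_map_filter e (W s) _ _ _ _ (fun y => ?_) (hex _)
      rw [← he.adj, hex, hex]
    · intro x' hx'
      obtain ⟨x, hx, rfl⟩ := Finset.mem_map.1 hx'
      rw [hex, hex]
      intro hL
      refine le_of_eq_of_le ?_ (hI.fr x hx hL)
      refine sum_map_filter e (W s) _ _ _ _ (fun y => ?_) (hex _)
      rw [← he.adj, hex]
  · intro s _ z hz
    obtain ⟨x, -, rfl⟩ := Finset.mem_map.1 hz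
    exact he.mem x

/-- `eqX_fin` for one record. -/
theorem eqX_one {V : Type} (E : Env V) (D0 m : ℕ) (W0 : Set V) (R : ℕ) (hvc : GIT.VC E.G D0)
    (hno : ∀ D : Lv V, OK E.G m (fun _ _ => True) (R + 1) W0 D → Sm E D.dom) (K0 ε : ℝ)
    (hK0 : 0 < K0) (hε : 0 < ε) : ∃ δ : ℝ, 0 < δ ∧ ∀ K1 : ℝ, ∃ C : ℕ,
      ∀ (X : Type) (G' : SimpleGraph X) (e : X ↪ V) (n : ℕ), Emb E W0 n G' e →
        ∀ (g L : ℝ) (W : Finset X) (h r w : X → ℝ), (∀ x, 0 ≤ r x) → (∀ x, 0 ≤ w x) →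
          ColG G' {v | ∃ I : X → X → Prop, EqInc G' K0 K1 ε δ g L W h r w I v} C := by
  obtain ⟨δ, hδ, hC0⟩ := eqX_fin E D0 m W0 R hvc hno (R + 1) K0 ε hK0 hε le_rfl
  refine ⟨δ, hδ, fun K1 => ?_⟩
  obtain ⟨C, hC⟩ := hC0 K1
  refine ⟨C, fun X G' e n he g L W h r w hr hw => ?_⟩
  exact (hC X G' e n he (fun _ => g) (fun _ => L) (fun _ => W) (fun _ => h) (fun _ => r)
    (fun _ => w) (fun _ => hr) (fun _ => hw)).mono (fun v hv s _ => hv) le_rfl

/-- `stBX` for finite graphs in the fibres. -/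
theorem bX_fin {V : Type} (E : Env V) (D0 m m' R : ℕ) (W0 : Set V) (hvc : GIT.VC E.G D0)
    (hm : m' ≤ m) (hno : ∀ D : Lv V, OK E.G m (fun _ _ => True) (R + 1) W0 D → Sm E D.dom)
    (q v0 : ℕ) (K0 ε : ℝ) (hK0 : 0 < K0) (hε : 0 < ε) (hq : R + 1 ≤ q) : ∃ η : ℝ, 0 < η ∧
      ∀ k : Cst, v0 ≤ k.w0 → k.l0 + 6 * k.w0 + 1 ≤ k.u → ∃ C : ℕ,
        ∀ (X Ω : Type) (G' : SimpleGraph X) (e : X ↪ V) (n : ℕ), Emb E W0 n G' e →
          ∀ (As : ℕ → Finset X) (O : ℕ → Finset Ω) (hub : ℕ → Ω → X) (Ow : ℕ → X → Ω → Prop)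
            (r : ℕ → X → ℝ) (w : ℕ → Ω → ℝ) (h : ℕ → X → ℝ) (H : ℕ → ℕ → Ω → ℤ),
            (∀ s < q, RecB G' s v0 K0 k (As s) (O s) (hub s) (Ow s) (r s) (w s) h (H s)) →
              ColG G' {v | ∀ s < q,
                (∃ I : X → Ω → Prop, IncB ε (As s) (O s) (Ow s) (r s) (w s) I v) ∧
                NrB G' m' s η k (O s) (hub s) (w s) h (H s) v} C := by
  obtain ⟨η, hη, hC0⟩ := stBX V E D0 m m' R W0 hvc hm hno q v0 K0 ε hK0 hε hq
  refine ⟨η, hη, fun k hk1 hk2 => ?_⟩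
  obtain ⟨C, hC⟩ := hC0 k hk1 hk2
  refine ⟨C, ?_⟩
  intro X Ω G' e n he As O hub Ow r w h H hrec
  have hex : ∀ (f : X → ℝ) (x : X), Function.extend e f (fun _ => 0) (e x) = f x :=
    fun f x => e.injective.extend_apply f _ x
  have hex0 : ∀ (f : X → ℝ), (∀ x, 0 ≤ f x) → ∀ v, 0 ≤ Function.extend e f (fun _ => 0) v := by
    intro f hf v
    by_cases hv : ∃ x, e x = v
    · obtain ⟨x, rfl⟩ := hv
      rw [hex]
      exact hf x
    · rw [Function.extend_apply' _ _ _ hv]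
  have hOw : ∀ s (x : X) o, (∃ a, e a = e x ∧ Ow s a o) ↔ Ow s x o := by
    intro s x o
    constructor
    · rintro ⟨a, h1, h2⟩
      rw [e.injective h1] at h2
      exact h2
    · exact fun h2 => ⟨x, rfl, h2⟩
  refine colG_of_cl he ?_ (hC Ω n (fun s => (As s).map e) O (fun s o => e (hub s o))
    (fun s x' o => ∃ a, e a = x' ∧ Ow s a o) (fun s => Function.extend e (r s) fun _ => 0) w
    (fun c => Function.extend e (h c) fun _ => 0) H ?_ ?_)
  · intro v hv
    refine ⟨(he.mem v).1, (he.mem v).2, fun s hs => ?_⟩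
    obtain ⟨⟨I, hI⟩, hN⟩ := hv s hs
    constructor
    · have hI' : ∀ x o, (∃ a, e a = e x ∧ I a o) ↔ I x o := by
        intro x o
        constructor
        · rintro ⟨a, h1, h2⟩
          rw [e.injective h1] at h2
          exact h2
        · exact fun h2 => ⟨x, rfl, h2⟩
      refine ⟨fun x' o => ∃ a, e a = x' ∧ I a o, ?_, ?_, ?_⟩
      · rintro _ o ⟨a, rfl, ha⟩
        obtain ⟨h1, h2, h3⟩ := hI.mem a o ha
        exact ⟨Finset.mem_map_of_mem e h1, h2, a, rfl, h3⟩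
      · rintro _ o ⟨a, rfl, ha⟩
        refine (hI.kp a o ha).trans (le_of_eq ?_)
        have h1 := kap_map e (Function.Embedding.refl Ω) (As s) (O s) I
          (fun x' o => ∃ a, e a = x' ∧ I a o) (r s) (Function.extend e (r s) fun _ => 0) (w s)
          (w s) hI' (hex _) (fun _ => rfl) a o
        rw [Finset.map_refl] at h1
        exact h1.symm
      · obtain ⟨o, ho⟩ := hI.ne
        exact ⟨o, v, rfl, ho⟩
    · refine ⟨?_, ?_, ?_⟩
      · refine le_of_eq_of_le ?_ hN.nr1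
        refine Finset.sum_congr (Finset.filter_congr fun o _ => ?_) fun _ _ => rfl
        rw [← he.adj, hex]
      · intro S' h1 h2 i
        refine le_of_eq_of_le ?_ (hN.nr2 S' h1 h2 i)
        refine Finset.sum_congr (Finset.filter_congr fun o _ => ?_) fun _ _ => rfl
        rw [← he.adj]
        refine and_congr Iff.rfl (and_congr Iff.rfl (forall_congr' fun c => ?_))
        rw [hex]
      · intro S' h1 h2 F h3
        refine hN.fan S' h1 h2 F fun a ha => ?_
        obtain ⟨h4, h5, h6, h7⟩ := h3 a ha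
        refine ⟨h4, h5, h6, fun o ho => ?_⟩
        obtain ⟨h8, h9⟩ := h7 o ho
        refine ⟨(he.adj _ _).2 h8, fun c hc => ?_⟩
        have h10 := h9 c hc
        rw [hex] at h10
        exact h10
  · intro s hs
    have hR := hrec s hs
    refine ⟨hex0 _ hR.r0, hR.w0, ?_, ?_, ?_, ?_, ?_⟩
    · intro x' hx'
      obtain ⟨x, hx, rfl⟩ := Finset.mem_map.1 hx'
      refine le_of_eq_of_le ?_ (hR.wE x hx)
      exact Finset.sum_congr (Finset.filter_congr fun o _ => hOw s x o) fun _ _ => rfl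
    · intro o ho
      refine le_of_eq_of_le ?_ (hR.rE o ho)
      exact sum_map_filter e (As s) _ _ _ _ (fun x => hOw s x o) (hex _)
    · intro x' hx' o ho hxo
      obtain ⟨x, hx, rfl⟩ := Finset.mem_map.1 hx'
      exact (he.adj _ _).1 (hR.adj x hx o ho ((hOw s x o).1 hxo))
    · intro x' hx' o ho hxo
      obtain ⟨x, hx, rfl⟩ := Finset.mem_map.1 hx'
      rw [hex]
      exact hR.own x hx o ho ((hOw s x o).1 hxo)
    · intro x' hx' o ho hxo c hc
      obtain ⟨x, hx, rfl⟩ := Finset.mem_map.1 hx'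
      rw [hex]
      exact hR.low x hx o ho ((hOw s x o).1 hxo) c hc
  · intro s _ o _
    exact he.mem _

end Pool.Agent.Lib.TCW
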