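import Pool.Agent.Lib.TCW.UnifH

/-!
# The set of the vertices in self-linked incidences with heights

For every record (allowed nodes and labels, heights, weights) of `q` stages the set of the
vertices `v` which lie in self-linked incidences at all stages, such that there are few labels
near `v` and no fans at `v`, is `C`-colourable.  Nothing else is assumed about the record.  The
heights of the labels are integers, the heights of the vertices are real.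
-/

set_option autoImplicit false

namespace Pool.Agent.Lib.TCW

open Finset Classical
open Pool.Agent.Lib.GR3 (Env Cl Sm)

/-- The record of the stage `s`: allowed nodes `As`, allowed labels `O`, own incidence `E`. -/
structure RecB {V Ω : Type} (G : SimpleGraph V) (s v0 : ℕ) (K0 : ℝ) (k : Cst) (As : Finset V)
    (O : Finset Ω) (hub : Ω → V) (E : V → Ω → Prop) (r : V → ℝ) (w : Ω → ℝ) (h : ℕ → V → ℝ)
    (H : ℕ → Ω → ℤ) : Prop where
  r0 : ∀ x, 0 ≤ r x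
  w0 : ∀ o, 0 ≤ w o
  wE : ∀ x ∈ As, ∑ o ∈ O with E x o, w o ≤ K0
  rE : ∀ o ∈ O, ∑ x ∈ As with E x o, r x ≤ K0
  adj : ∀ x ∈ As, ∀ o ∈ O, E x o → G.Adj x (hub o)
  own : ∀ x ∈ As, ∀ o ∈ O, E x o → |h s x - H s o| ≤ v0
  low : ∀ x ∈ As, ∀ o ∈ O, E x o → ∀ c < s, |h c x - H c o| ≤ k.w0

/-- A self-linked incidence `I` through `v`. -/
structure IncB {V Ω : Type} (ε : ℝ) (As : Finset V) (O : Finset Ω) (E : V → Ω → Prop)
    (r : V → ℝ) (w : Ω → ℝ) (I : V → Ω → Prop) (v : V) : Prop where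
  mem : ∀ x o, I x o → x ∈ As ∧ o ∈ O ∧ E x o
  kp : ∀ x o, I x o → ε ≤ TCH.kap As O I r w x o
  ne : ∃ o, I v o

/-- The labels near `t`: few which are not lower than `t` at the stage `s`, few in one scale which
are lower than `t` at the stage `s` and at `m` earlier stages, and no fans. -/
structure NrB {V Ω : Type} (G : SimpleGraph V) (m s : ℕ) (η : ℝ) (k : Cst) (O : Finset Ω)
    (hub : Ω → V) (w : Ω → ℝ) (h : ℕ → V → ℝ) (H : ℕ → Ω → ℤ) (t : V) : Prop where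
  nr1 : ∑ o ∈ O with G.Adj (hub o) t ∧ h s t ≤ H s o + k.u, w o ≤ k.K
  nr2 : ∀ S' ⊆ range s, S'.card = m → ∀ i : ℤ,
    ∑ o ∈ O with G.Adj (hub o) t ∧ H s o = i ∧ ∀ c ∈ insert s S', H c o + k.l0 ≤ h c t, w o ≤ k.K
  fan : ∀ S' ⊆ range s, S'.card = m → ∀ F : ℕ → Finset Ω,
    (∀ a < k.R1, F a ⊆ O ∧ η ≤ ∑ o ∈ F a, w o ∧ (∀ o ∈ F a, ∀ o' ∈ F a, H s o = H s o') ∧
      ∀ o ∈ F a, G.Adj (hub o) t ∧ ∀ c ∈ insert s S', H c o + k.l0 ≤ h c t) →
    ¬ ∀ a b, a < b → b < k.R1 → ∀ o ∈ F a, ∀ o' ∈ F b, ∀ c ∈ insert s S', H c o + k.l1 ≤ H c o'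

theorem NrB.mono {V Ω : Type} {G : SimpleGraph V} {m s : ℕ} {η : ℝ} {k : Cst} {O O' : Finset Ω}
    {hub : Ω → V} {w : Ω → ℝ} {h : ℕ → V → ℝ} {H : ℕ → Ω → ℤ} {t : V} (hO : O' ⊆ O)
    (hw : ∀ o, 0 ≤ w o) (hN : NrB G m s η k O hub w h H t) : NrB G m s η k O' hub w h H t where
  nr1 := (Finset.sum_le_sum_of_subset_of_nonneg (Finset.filter_subset_filter _ hO)
    fun o _ _ => hw o).trans hN.nr1
  nr2 S' h1 h2 i := (Finset.sum_le_sum_of_subset_of_nonneg (Finset.filter_subset_filter _ hO)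
    fun o _ _ => hw o).trans (hN.nr2 S' h1 h2 i)
  fan S' h1 h2 F h3 := hN.fan S' h1 h2 F fun a ha =>
    ⟨(h3 a ha).1.trans hO, (h3 a ha).2⟩

/-- The vertices in self-linked incidences with heights form a small set. -/
def StBX : Prop :=
  ∀ (V : Type) (E : Env V) (D0 m m' R : ℕ) (W0 : Set V), GIT.VC E.G D0 → m' ≤ m →
    (∀ D : Lv V, OK E.G m (fun _ _ => True) (R + 1) W0 D → Sm E D.dom) →
      ∀ (q v0 : ℕ) (K0 ε : ℝ), 0 < K0 → 0 < ε → R + 1 ≤ q → ∃ η : ℝ, 0 < η ∧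
        ∀ k : Cst, v0 ≤ k.w0 → k.l0 + 6 * k.w0 + 1 ≤ k.u → ∃ C : ℕ,
          ∀ (Ω : Type) (n : ℕ) (As : ℕ → Finset V) (O : ℕ → Finset Ω) (hub : ℕ → Ω → V)
            (Ow : ℕ → V → Ω → Prop) (r : ℕ → V → ℝ) (w : ℕ → Ω → ℝ) (h : ℕ → V → ℝ)
            (H : ℕ → ℕ → Ω → ℤ),
            (∀ s < q, RecB E.G s v0 K0 k (As s) (O s) (hub s) (Ow s) (r s) (w s) h (H s)) →
            (∀ s < q, ∀ o ∈ O s, hub s o ∈ W0 ∧ E.c (hub s o) = n) →
              Cl E {v | v ∈ W0 ∧ E.c v = n ∧ ∀ s < q,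
                (∃ I : V → Ω → Prop, IncB ε (As s) (O s) (Ow s) (r s) (w s) I v) ∧
                NrB E.G m' s η k (O s) (hub s) (w s) h (H s) v} C

namespace BX_

theorem fl_abs {x : ℝ} {z : ℤ} {v : ℕ} (h : |x - z| ≤ v) : |⌊x⌋ - z| ≤ (v : ℤ) := by
  rw [abs_le] at h ⊢
  have h1 : (z - v : ℤ) ≤ ⌊x⌋ := by
    rw [Int.le_floor]
    push_cast
    linarith
  have h2 : ⌊x⌋ ≤ (z + v : ℤ) := by
    rw [← Int.lt_add_one_iff, Int.floor_lt]
    push_cast
    linarith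
  constructor <;> linarith

theorem kap_le {V Ω : Type} {As : Finset V} {O : Finset Ω} {I I' : V → Ω → Prop} {r : V → ℝ}
    {w : Ω → ℝ} (hr : ∀ x, 0 ≤ r x) (hw : ∀ x, 0 ≤ w x) (hI : ∀ x z, I x z → I' x z) (x : V)
    (z : Ω) : TCH.kap As O I r w x z ≤ TCH.kap As O I' r w x z := by
  unfold TCH.kap
  have h1 : ∀ x' : V, ∑ o' ∈ O with I x o' ∧ I x' o', w o' ≤
      ∑ o' ∈ O with I' x o' ∧ I' x' o', w o' := by
    intro x'
    refine Finset.sum_le_sum_of_subset_of_nonneg ?_ fun o _ _ => hw o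
    intro o ho
    rw [Finset.mem_filter] at ho ⊢
    exact ⟨ho.1, hI x o ho.2.1, hI x' o ho.2.2⟩
  refine (Finset.sum_le_sum fun x' _ => mul_le_mul_of_nonneg_left (h1 x') (hr x')).trans ?_
  refine Finset.sum_le_sum_of_subset_of_nonneg ?_ fun x' _ _ =>
    mul_nonneg (hr x') (Finset.sum_nonneg fun o _ => hw o)
  intro x' hx'
  rw [Finset.mem_filter] at hx' ⊢
  exact ⟨hx'.1, hI x' z hx'.2⟩

end BX_

open BX_

theorem stBX : StBX := by
  intro V E D0 m m' R W0 hG hm hno q v0 K0 ε hK0 hε hq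
  obtain ⟨η, hη, hU⟩ := unifH E D0 m m' R hm W0 hG hno q v0 K0 ε hK0 hε hq
  refine ⟨η, hη, fun k hv hu => ?_⟩
  obtain ⟨C, hC⟩ := hU ⟨k.w0, k.l0, k.l1, k.u - 1, k.K, k.R1⟩ hv (by
    simp only
    omega)
  refine ⟨C, ?_⟩
  intro Ω n As O hub Ow r w h H hrec hhub
  set B : Set V := {v | v ∈ W0 ∧ E.c v = n ∧ ∀ s < q,
    (∃ I : V → Ω → Prop, IncB ε (As s) (O s) (Ow s) (r s) (w s) I v) ∧
    NrB E.G m' s η k (O s) (hub s) (w s) h (H s) v} with hB
  have hBA : ∀ v ∈ B, ∀ s < q, v ∈ As s := by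
    intro v hv s hs
    obtain ⟨I, hI⟩ := (hv.2.2 s hs).1
    obtain ⟨o, ho⟩ := hI.ne
    exact (hI.mem v o ho).1
  -- the finite set of the vertices
  set A : Finset V := (As 0).filter fun v => v ∈ B with hA
  have hAB : ∀ v, v ∈ A ↔ v ∈ B := by
    intro v
    rw [hA, Finset.mem_filter]
    exact ⟨fun h => h.2, fun h => ⟨hBA v h 0 (by omega), h⟩⟩
  -- the union of the incidences
  set J : ℕ → V → Ω → Prop := fun s x o => ∃ (v : V) (I : V → Ω → Prop), v ∈ B ∧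
    IncB ε (As s) (O s) (Ow s) (r s) (w s) I v ∧ I x o with hJ
  have hset : {x | x ∈ A} = B := by
    ext v
    exact hAB v
  have hJm : ∀ s x o, J s x o → x ∈ As s ∧ o ∈ O s ∧ Ow s x o := by
    rintro s x o ⟨v, I, -, hI, hxo⟩
    exact hI.mem x o hxo
  rw [← hset]
  refine hC Ω n A As O hub J r w (fun c x => ⌊h c x⌋) H ⟨?_, ?_, hhub⟩
  · intro x hx
    have hxB := (hAB x).1 hx
    exact ⟨hxB.1, hxB.2.1⟩
  · intro s hs
    have hR := hrec s hs
    refine ⟨?_, hR.r0, hR.w0, ?_, ?_, ?_, ?_, ?_, ?_, ?_, ?_, ?_, ?_⟩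
    · intro x hx
      exact hBA x ((hAB x).1 hx) s hs
    · intro x hx
      refine le_trans (Finset.sum_le_sum_of_subset_of_nonneg ?_ fun o _ _ => hR.w0 o) (hR.wE x hx)
      intro o ho
      rw [Finset.mem_filter] at ho ⊢
      exact ⟨ho.1, (hJm s x o ho.2).2.2⟩
    · intro o ho
      refine le_trans (Finset.sum_le_sum_of_subset_of_nonneg ?_ fun o _ _ => hR.r0 o) (hR.rE o ho)
      intro x hx
      rw [Finset.mem_filter] at hx ⊢
      exact ⟨hx.1, (hJm s x o hx.2).2.2⟩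
    · rintro x - o - ⟨v, I, hv, hI, hxo⟩
      refine (hI.kp x o hxo).trans (kap_le hR.r0 hR.w0 ?_ x o)
      intro x' o' h'
      exact ⟨v, I, hv, hI, h'⟩
    · intro x hx
      have hxB := (hAB x).1 hx
      obtain ⟨I, hI⟩ := (hxB.2.2 s hs).1
      obtain ⟨o, ho⟩ := hI.ne
      exact ⟨o, (hI.mem x o ho).2.1, x, I, hxB, hI, ho⟩
    · intro x hx o ho hxo
      exact hR.adj x hx o ho (hJm s x o hxo).2.2
    · intro x hx o ho hxo
      exact fl_abs (hR.own x hx o ho (hJm s x o hxo).2.2)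
    · intro x hx o ho hxo c hc
      exact fl_abs (hR.low x hx o ho (hJm s x o hxo).2.2 c hc)
    · intro t ht
      have h1 := (((hAB t).1 ht).2.2 s hs).2.nr1
      refine le_trans (Finset.sum_le_sum_of_subset_of_nonneg ?_ fun o _ _ => hR.w0 o) h1
      intro o ho
      rw [Finset.mem_filter] at ho ⊢
      refine ⟨ho.1, ho.2.1, ?_⟩
      have h2 : ⌊h s t⌋ ≤ H s s o + (k.u - 1) := ho.2.2
      have h3 := Int.lt_floor_add_one (h s t)
      have h4 : ((⌊h s t⌋ : ℤ) : ℝ) ≤ ((H s s o + (k.u - 1) : ℤ) : ℝ) := by exact_mod_cast h2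
      push_cast at h4
      linarith
    · intro t ht S' h1 h2 i
      have h3 := (((hAB t).1 ht).2.2 s hs).2.nr2 S' h1 h2 i
      refine le_trans (Finset.sum_le_sum_of_subset_of_nonneg ?_ fun o _ _ => hR.w0 o) h3
      intro o ho
      rw [Finset.mem_filter] at ho ⊢
      refine ⟨ho.1, ho.2.1, ho.2.2.1, fun c hc => ?_⟩
      have h4 := Int.le_floor.1 (ho.2.2.2 c hc)
      push_cast at h4
      exact h4
    · intro t ht S' h1 h2 F hF
      refine (((hAB t).1 ht).2.2 s hs).2.fan S' h1 h2 F fun a ha => ?_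
      obtain ⟨h3, h4, h5, h6⟩ := hF a ha
      refine ⟨h3, h4, h5, fun o ho => ⟨(h6 o ho).1, fun c hc => ?_⟩⟩
      have h7 := Int.le_floor.1 ((h6 o ho).2 c hc)
      push_cast at h7
      exact h7

end Pool.Agent.Lib.TCW
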