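import Pool.Agent.Lib.TCW.XFin
import Pool.Agent.Lib.GSR.Cld

/-!
# The small set of the self-linked incidences with heights: strict conditions are open

`A.XB` is the set of the vertices which satisfy all the conditions of `stBX` strictly.  It depends
on the parameter `θ` in an open way, and it is `C`-colourable for every parameter.
-/

set_option autoImplicit false

namespace Pool.Agent.Lib.TCW

open Finset Classical
open Pool.Agent.Lib.GR3 (Env Cl Sm)
open Pool.Agent.Lib.GSR (ClD OpD)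

/-- The strict form of `NrB` for the labels with `pl`. -/
structure NrS {V Ω : Type} [Fintype Ω] (G : SimpleGraph V) (m s : ℕ) (η : ℝ) (k : Cst)
    (pl : Ω → Prop) (hub : Ω → V) (w : Ω → ℝ) (h : ℕ → V → ℝ) (H : ℕ → Ω → ℤ) (t : V) : Prop where
  nr1 : ∑ o with pl o ∧ G.Adj (hub o) t ∧ h s t ≤ H s o + k.u, w o < k.K
  nr2 : ∀ S' ∈ (range s).powersetCard m, ∀ o0 : Ω,
    ∑ o with pl o ∧ (G.Adj (hub o) t ∧ H s o = H s o0) ∧
      ∀ c ∈ insert s S', H c o + k.l0 ≤ h c t, w o < k.K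
  fan : ∀ S' ∈ (range s).powersetCard m, ∀ F : Fin k.R1 → Finset Ω,
    (∀ a, ∀ o ∈ F a, ∀ o' ∈ F a, H s o = H s o') →
    (∀ a b, a < b → ∀ o ∈ F a, ∀ o' ∈ F b, ∀ c ∈ insert s S', H c o + k.l1 ≤ H c o') →
    ∃ a, ∑ o ∈ F a with pl o ∧ G.Adj (hub o) t ∧ ∀ c ∈ insert s S', H c o + k.l0 ≤ h c t, w o < η

theorem NrS.nrB {V Ω : Type} [Fintype Ω] {G : SimpleGraph V} {m s : ℕ} {η : ℝ} {k : Cst}
    {pl : Ω → Prop} {hub : Ω → V} {w : Ω → ℝ} {h : ℕ → V → ℝ} {H : ℕ → Ω → ℤ} {t : V}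
    (hw : ∀ o, 0 ≤ w o) (hN : NrS G m s η k pl hub w h H t) :
    NrB G m s η k (Finset.univ.filter pl) hub w h H t where
  nr1 := by
    rw [Finset.filter_filter]
    exact hN.nr1.le
  nr2 S' h1 h2 i := by
    by_cases h3 : ∃ o0, H s o0 = i
    · obtain ⟨o0, rfl⟩ := h3
      refine le_trans (le_of_eq ?_) (hN.nr2 S' (Finset.mem_powersetCard.2 ⟨h1, h2⟩) o0).le
      rw [Finset.filter_filter]
      refine Finset.sum_congr (Finset.filter_congr fun o _ => ?_) fun _ _ => rfl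
      rw [and_assoc]
    · rw [Finset.sum_eq_zero]
      · exact (Finset.sum_nonneg fun o _ => hw o).trans hN.nr1.le
      · intro o ho
        exact absurd ⟨o, (Finset.mem_filter.1 ho).2.2.1⟩ h3
  fan S' h1 h2 F h3 h4 := by
    obtain ⟨a, ha⟩ := hN.fan S' (Finset.mem_powersetCard.2 ⟨h1, h2⟩) (fun a => F a)
      (fun a => (h3 a a.2).2.2.1) (fun a b hab => h4 a b hab b.2)
    obtain ⟨h5, h6, -, h7⟩ := h3 a a.2
    rw [Finset.filter_true_of_mem fun o ho => ⟨(Finset.mem_filter.1 (h5 ho)).2, h7 o ho⟩] at ha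
    exact absurd h6 (not_le.2 ha)

/-- A record of functions of the parameter `θ` for the stages: `r`, `w` the weights, `h` the
heights of the vertices, `H` the heights of the labels, `po` an open and `pk` a closed own
incidence, `pl` a closed set of labels. -/
structure FRec (P V Ω : Type) where
  hub : ℕ → Ω → V
  H : ℕ → ℕ → Ω → ℤ
  r : ℕ → V → P → ℝ
  w : ℕ → Ω → P → ℝ
  h : ℕ → V → P → ℝ
  po : ℕ → V → Ω → P → Prop
  pk : ℕ → V → Ω → P → Prop
  pl : ℕ → Ω → P → Prop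

section frec

variable {P V Ω : Type} (A : FRec P V Ω) (G : SimpleGraph V) (v0 : ℕ) (k : Cst)

/-- The open own incidence with strict windows. -/
def FRec.Oo (s : ℕ) (x : V) (o : Ω) (θ : P) : Prop :=
  A.po s x o θ ∧ G.Adj x (A.hub s o) ∧ |A.h s x θ - A.H s s o| < v0 ∧
    ∀ c ∈ range s, |A.h c x θ - A.H s c o| < k.w0

/-- The closed own incidence with closed windows. -/
def FRec.Oc (s : ℕ) (x : V) (o : Ω) (θ : P) : Prop :=
  A.pk s x o θ ∧ G.Adj x (A.hub s o) ∧ |A.h s x θ - A.H s s o| ≤ v0 ∧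
    ∀ c ∈ range s, |A.h c x θ - A.H s c o| ≤ k.w0

/-- A strictly self-linked incidence `I` through `v`. -/
structure FRec.IncS [Fintype V] [Fintype Ω] (K0 ε : ℝ) (s : ℕ) (θ : P) (I : V → Ω → Prop)
    (v : V) : Prop where
  mem : ∀ x o, I x o → A.Oo G v0 k s x o θ
  wI : ∀ x o, I x o → ∑ o' with A.Oc G v0 k s x o' θ, A.w s o' θ < K0
  rI : ∀ x o, I x o → ∑ x' with A.Oc G v0 k s x' o θ, A.r s x' θ < K0
  kp : ∀ x o, I x o → ε < TCH.kap Finset.univ Finset.univ I (fun x => A.r s x θ)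
    (fun o => A.w s o θ) x o
  ne : ∃ o, I v o

/-- The small set. -/
def FRec.XB [Fintype V] [Fintype Ω] (K0 ε η : ℝ) (m q : ℕ) (θ : P) : Set V :=
  {v | ∀ s ∈ range q, (∃ I : V → Ω → Prop, A.IncS G v0 k K0 ε s θ I v) ∧
    NrS G m s η k (fun o => A.pl s o θ) (A.hub s) (fun o => A.w s o θ)
      (fun c x => A.h c x θ) (A.H s) v}

end frec

/-- The record is continuous on `D`. -/
structure FRec.Ok {P V Ω : Type} [TopologicalSpace P] (A : FRec P V Ω) (D : Set P) (q : ℕ) :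
    Prop where
  r0 : ∀ s < q, ∀ x, ∀ θ ∈ D, 0 ≤ A.r s x θ
  w0 : ∀ s < q, ∀ o, ∀ θ ∈ D, 0 ≤ A.w s o θ
  cr : ∀ s < q, ∀ x, ContinuousOn (A.r s x) D
  cw : ∀ s < q, ∀ o, ContinuousOn (A.w s o) D
  ch : ∀ s < q, ∀ x, ContinuousOn (A.h s x) D
  opo : ∀ s < q, ∀ x o, OpD D (A.po s x o)
  cpk : ∀ s < q, ∀ x o, ClD D (A.pk s x o)
  cpl : ∀ s < q, ∀ o, ClD D (A.pl s o)
  sub : ∀ s < q, ∀ x o, ∀ θ ∈ D, A.po s x o θ → A.pk s x o θ ∧ A.pl s o θ

namespace XB_

variable {P V Ω : Type} [TopologicalSpace P] {D : Set P} {A : FRec P V Ω}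
  {G : SimpleGraph V} {v0 q : ℕ} {k : Cst}

omit [TopologicalSpace P] in
theorem filter_dec {ι : Type} (O : Finset ι) (p : ι → Prop) (d d' : DecidablePred p) :
    @Finset.filter ι p d O = @Finset.filter ι p d' O := by
  rw [Subsingleton.elim d d']

theorem sum_lt {ι : Type} (hD : IsClosed D) (O : Finset ι) {p : ι → P → Prop}
    (dp : ∀ θ, DecidablePred fun o => p o θ) {w : ι → P → ℝ} {K : ℝ}
    (hp : ∀ o ∈ O, ClD D (p o)) (hw : ∀ o ∈ O, ContinuousOn (w o) D)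
    (hw0 : ∀ o ∈ O, ∀ θ ∈ D, 0 ≤ w o θ) :
    OpD D fun θ => ∑ o ∈ @Finset.filter ι (fun o => p o θ) (dp θ) O, w o θ < K := by
  have h1 := OpD.sum_lt (K := fun _ => K) hD O hp hw hw0 continuousOn_const
  refine h1.congr fun θ _ => ?_
  rw [filter_dec O (fun o => p o θ) (dp θ) (fun o => Classical.propDecidable _)]

theorem abs_cont (hA : A.Ok D q) {s : ℕ} (hs : s < q) (x : V) (z : ℤ) :
    ContinuousOn (fun θ => |A.h s x θ - z|) D :=
  ((hA.ch s hs x).sub continuousOn_const).abs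

theorem oo_open (hD : IsClosed D) (hA : A.Ok D q) {s : ℕ} (hs : s < q) (x : V) (o : Ω) :
    OpD D (A.Oo G v0 k s x o) := by
  unfold FRec.Oo
  refine (hA.opo s hs x o).and ((OpD.const hD _).and ((OpD.lt hD (abs_cont hA hs x _)
    continuousOn_const).and (OpD.allF _ fun c hc => ?_)))
  exact OpD.lt hD (abs_cont hA ((Finset.mem_range.1 hc).trans hs) x _) continuousOn_const

theorem oc_closed (hD : IsClosed D) (hA : A.Ok D q) {s : ℕ} (hs : s < q) (x : V) (o : Ω) :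
    ClD D (A.Oc G v0 k s x o) := by
  unfold FRec.Oc
  refine (hA.cpk s hs x o).and ((ClD.const hD _).and ((ClD.le hD (abs_cont hA hs x _)
    continuousOn_const).and (ClD.allF hD _ fun c hc => ?_)))
  exact ClD.le hD (abs_cont hA ((Finset.mem_range.1 hc).trans hs) x _) continuousOn_const

theorem hi_closed (hD : IsClosed D) (hA : A.Ok D q) {s : ℕ} (hs : s < q) {S' : Finset ℕ}
    (hS : S' ⊆ range s) (x : V) (o : Ω) :
    ClD D fun θ => ∀ c ∈ insert s S', (A.H s c o + k.l0 : ℝ) ≤ A.h c x θ := by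
  refine ClD.allF hD _ fun c hc => ?_
  have h1 : c < q := by
    rcases Finset.mem_insert.1 hc with rfl | hc
    · exact hs
    · exact (Finset.mem_range.1 (hS hc)).trans hs
  exact ClD.le hD continuousOn_const (hA.ch c h1 x)

variable [Fintype V] [Fintype Ω]

theorem kap_cont (hA : A.Ok D q) {s : ℕ} (hs : s < q) (I : V → Ω → Prop) (x : V) (o : Ω) :
    ContinuousOn (fun θ => TCH.kap Finset.univ Finset.univ I (fun x => A.r s x θ)
      (fun o => A.w s o θ) x o) D := by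
  unfold TCH.kap
  exact continuousOn_finsetSum _ fun x' _ => (hA.cr s hs x').mul
    (continuousOn_finsetSum _ fun o' _ => hA.cw s hs o')

theorem inc_open (hD : IsClosed D) (hA : A.Ok D q) {K0 ε : ℝ} {s : ℕ} (hs : s < q)
    (I : V → Ω → Prop) (v : V) : OpD D fun θ => A.IncS G v0 k K0 ε s θ I v := by
  have h1 : OpD D fun θ => (∀ x o, I x o → A.Oo G v0 k s x o θ) ∧
      (∀ x o, I x o → ∑ o' with A.Oc G v0 k s x o' θ, A.w s o' θ < K0) ∧
      (∀ x o, I x o → ∑ x' with A.Oc G v0 k s x' o θ, A.r s x' θ < K0) ∧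
      (∀ x o, I x o → ε < TCH.kap Finset.univ Finset.univ I (fun x => A.r s x θ)
        (fun o => A.w s o θ) x o) ∧ ∃ o, I v o := by
    refine OpD.and ?_ (OpD.and ?_ (OpD.and ?_ (OpD.and ?_ (OpD.const hD _))))
    · exact OpD.all fun x => OpD.all fun o => OpD.imp (ClD.const hD _) (oo_open hD hA hs x o)
    · exact OpD.all fun x => OpD.all fun o => OpD.imp (ClD.const hD _)
        (sum_lt hD Finset.univ (p := fun o' θ => A.Oc G v0 k s x o' θ) _
          (w := fun o' θ => A.w s o' θ) (fun o' _ => oc_closed hD hA hs x o')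
          (fun o' _ => hA.cw s hs o') (fun o' _ θ hθ => hA.w0 s hs o' θ hθ))
    · exact OpD.all fun x => OpD.all fun o => OpD.imp (ClD.const hD _)
        (sum_lt hD Finset.univ (p := fun x' θ => A.Oc G v0 k s x' o θ) _
          (w := fun x' θ => A.r s x' θ) (fun x' _ => oc_closed hD hA hs x' o)
          (fun x' _ => hA.cr s hs x') (fun x' _ θ hθ => hA.r0 s hs x' θ hθ))
    · exact OpD.all fun x => OpD.all fun o => OpD.imp (ClD.const hD _)
        (OpD.lt hD continuousOn_const (kap_cont hA hs I x o))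
  exact h1.congr fun θ _ => ⟨fun h => ⟨h.1, h.2.1, h.2.2.1, h.2.2.2.1, h.2.2.2.2⟩,
    fun h => ⟨h.mem, h.wI, h.rI, h.kp, h.ne⟩⟩

omit [Fintype V] in
theorem nr_open (hD : IsClosed D) (hA : A.Ok D q) {η : ℝ} {m s : ℕ} (hs : s < q) (v : V) :
    OpD D fun θ => NrS G m s η k (fun o => A.pl s o θ) (A.hub s) (fun o => A.w s o θ)
      (fun c x => A.h c x θ) (A.H s) v := by
  have h1 : OpD D fun θ =>
      (∑ o with A.pl s o θ ∧ G.Adj (A.hub s o) v ∧ A.h s v θ ≤ A.H s s o + k.u, A.w s o θ < k.K) ∧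
      (∀ S' ∈ (range s).powersetCard m, ∀ o0 : Ω,
        ∑ o with A.pl s o θ ∧ (G.Adj (A.hub s o) v ∧ A.H s s o = A.H s s o0) ∧
          ∀ c ∈ insert s S', A.H s c o + k.l0 ≤ A.h c v θ, A.w s o θ < k.K) ∧
      (∀ S' ∈ (range s).powersetCard m, ∀ F : Fin k.R1 → Finset Ω,
        (∀ a, ∀ o ∈ F a, ∀ o' ∈ F a, A.H s s o = A.H s s o') →
        (∀ a b, a < b → ∀ o ∈ F a, ∀ o' ∈ F b, ∀ c ∈ insert s S',
          A.H s c o + k.l1 ≤ A.H s c o') →
        ∃ a, ∑ o ∈ F a with A.pl s o θ ∧ G.Adj (A.hub s o) v ∧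
          ∀ c ∈ insert s S', A.H s c o + k.l0 ≤ A.h c v θ, A.w s o θ < η) := by
    refine OpD.and ?_ (OpD.and ?_ ?_)
    · refine sum_lt hD Finset.univ (p := fun o θ => A.pl s o θ ∧ G.Adj (A.hub s o) v ∧
        A.h s v θ ≤ A.H s s o + k.u) _ (w := fun o θ => A.w s o θ)
        (fun o _ => ?_) (fun o _ => hA.cw s hs o) (fun o _ θ hθ => hA.w0 s hs o θ hθ)
      exact (hA.cpl s hs o).and ((ClD.const hD _).and
        (ClD.le hD (hA.ch s hs v) continuousOn_const))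
    · refine OpD.allF _ fun S' hS' => OpD.all fun o0 => ?_
      refine sum_lt hD Finset.univ (p := fun o θ => A.pl s o θ ∧ (G.Adj (A.hub s o) v ∧
        A.H s s o = A.H s s o0) ∧ ∀ c ∈ insert s S', A.H s c o + k.l0 ≤ A.h c v θ) _
        (w := fun o θ => A.w s o θ)
        (fun o _ => ?_) (fun o _ => hA.cw s hs o) (fun o _ θ hθ => hA.w0 s hs o θ hθ)
      exact (hA.cpl s hs o).and ((ClD.const hD _).and
        (hi_closed hD hA hs (Finset.mem_powersetCard.1 hS').1 v o))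
    · refine OpD.allF _ fun S' hS' => OpD.all fun F => OpD.imp (ClD.const hD _)
        (OpD.imp (ClD.const hD _) (OpD.ex hD fun a => ?_))
      refine sum_lt hD (F a) (p := fun o θ => A.pl s o θ ∧ G.Adj (A.hub s o) v ∧
        ∀ c ∈ insert s S', A.H s c o + k.l0 ≤ A.h c v θ) _
        (w := fun o θ => A.w s o θ)
        (fun o _ => ?_) (fun o _ => hA.cw s hs o) (fun o _ θ hθ => hA.w0 s hs o θ hθ)
      exact (hA.cpl s hs o).and ((ClD.const hD _).and
        (hi_closed hD hA hs (Finset.mem_powersetCard.1 hS').1 v o))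
  exact h1.congr fun θ _ => ⟨fun h => ⟨h.1, h.2.1, h.2.2⟩, fun h => ⟨h.nr1, h.nr2, h.fan⟩⟩

end XB_

open XB_

/-- The condition `v ∈ XB` is open. -/
theorem xb_open {P V Ω : Type} [TopologicalSpace P] [Fintype V] [Fintype Ω] {D : Set P}
    (hD : IsClosed D) {A : FRec P V Ω} {q : ℕ} (hA : A.Ok D q) (G : SimpleGraph V) (v0 : ℕ)
    (k : Cst) (K0 ε η : ℝ) (m : ℕ) (v : V) :
    OpD D fun θ => v ∈ A.XB G v0 k K0 ε η m q θ := by
  have h1 : OpD D fun θ => ∀ s ∈ range q, (∃ I : V → Ω → Prop, A.IncS G v0 k K0 ε s θ I v) ∧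
      NrS G m s η k (fun o => A.pl s o θ) (A.hub s) (fun o => A.w s o θ)
        (fun c x => A.h c x θ) (A.H s) v :=
    OpD.allF _ fun s hs => (OpD.ex hD fun I => inc_open hD hA (Finset.mem_range.1 hs) I v).and
      (nr_open hD hA (Finset.mem_range.1 hs) v)
  exact h1

/-- The sets `XB` are small for every parameter. -/
theorem xb_col {V : Type} (E : Env V) (D0 m m' R : ℕ) (W0 : Set V) (hvc : GIT.VC E.G D0)
    (hm : m' ≤ m) (hno : ∀ D : Lv V, OK E.G m (fun _ _ => True) (R + 1) W0 D → Sm E D.dom)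
    (q v0 : ℕ) (K0 ε : ℝ) (hK0 : 0 < K0) (hε : 0 < ε) (hq : R + 1 ≤ q) : ∃ η : ℝ, 0 < η ∧
      ∀ k : Cst, v0 ≤ k.w0 → k.l0 + 6 * k.w0 + 1 ≤ k.u → ∃ C : ℕ,
        ∀ (X Ω : Type) [Fintype X] [Fintype Ω] (G' : SimpleGraph X) (e : X ↪ V) (n : ℕ),
          Emb E W0 n G' e → ∀ (P : Type) [TopologicalSpace P] (D : Set P) (A : FRec P X Ω),
            A.Ok D q → ∀ θ ∈ D, ColG G' (A.XB G' v0 k K0 ε η m' q θ) C := by
  obtain ⟨η, hη, h1⟩ := bX_fin E D0 m m' R W0 hvc hm hno q v0 K0 ε hK0 hε hq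
  refine ⟨η, hη, fun k hk1 hk2 => ?_⟩
  obtain ⟨C, hC⟩ := h1 k hk1 hk2
  refine ⟨C, ?_⟩
  intro X Ω _ _ G' e n he P _ D A hA θ hθ
  -- the own incidence
  obtain ⟨Ow, hOw⟩ : ∃ Ow : ℕ → X → Ω → Prop, Ow = fun s x o => A.Oo G' v0 k s x o θ ∧
      ∑ o' with A.Oc G' v0 k s x o' θ, A.w s o' θ < K0 ∧
      ∑ x' with A.Oc G' v0 k s x' o θ, A.r s x' θ < K0 := ⟨_, rfl⟩
  have hoc : ∀ s < q, ∀ x o, A.Oo G' v0 k s x o θ → A.Oc G' v0 k s x o θ := by
    intro s hs x o h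
    exact ⟨(hA.sub s hs x o θ hθ h.1).1, h.2.1, h.2.2.1.le, fun c hc => (h.2.2.2 c hc).le⟩
  have hrec : ∀ s < q, RecB G' s v0 K0 k Finset.univ (Finset.univ.filter fun o => A.pl s o θ)
      (A.hub s) (Ow s) (fun x => A.r s x θ) (fun o => A.w s o θ) (fun c x => A.h c x θ)
      (A.H s) := by
    intro s hs
    refine ⟨fun x => hA.r0 s hs x θ hθ, fun o => hA.w0 s hs o θ hθ, ?_, ?_, ?_, ?_, ?_⟩
    · intro x _
      by_cases h2 : ∃ o, Ow s x o
      · obtain ⟨o, ho⟩ := h2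
        rw [hOw] at ho
        refine le_trans (Finset.sum_le_sum_of_subset_of_nonneg ?_ fun o' _ _ =>
          hA.w0 s hs o' θ hθ) ho.2.1.le
        intro o' ho'
        rw [Finset.mem_filter] at ho' ⊢
        have h3 := ho'.2
        rw [hOw] at h3
        exact ⟨Finset.mem_univ _, hoc s hs x o' h3.1⟩
      · rw [Finset.sum_eq_zero]
        · exact hK0.le
        · intro o ho
          exact absurd ⟨o, (Finset.mem_filter.1 ho).2⟩ h2
    · intro o _
      by_cases h2 : ∃ x, Ow s x o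
      · obtain ⟨x, hx⟩ := h2
        rw [hOw] at hx
        refine le_trans (Finset.sum_le_sum_of_subset_of_nonneg ?_ fun x' _ _ =>
          hA.r0 s hs x' θ hθ) hx.2.2.le
        intro x' hx'
        rw [Finset.mem_filter] at hx' ⊢
        have h3 := hx'.2
        rw [hOw] at h3
        exact ⟨Finset.mem_univ _, hoc s hs x' o h3.1⟩
      · rw [Finset.sum_eq_zero]
        · exact hK0.le
        · intro x hx
          exact absurd ⟨x, (Finset.mem_filter.1 hx).2⟩ h2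
    · intro x _ o _ h
      rw [hOw] at h
      exact h.1.2.1
    · intro x _ o _ h
      rw [hOw] at h
      exact h.1.2.2.1.le
    · intro x _ o _ h c hc
      rw [hOw] at h
      exact (h.1.2.2.2 c (Finset.mem_range.2 hc)).le
  refine (hC X Ω G' e n he (fun _ => Finset.univ) (fun s => Finset.univ.filter fun o => A.pl s o θ)
    A.hub Ow (fun s x => A.r s x θ) (fun s o => A.w s o θ) (fun c x => A.h c x θ) A.H
    hrec).mono ?_ le_rfl
  intro v hv s hs
  obtain ⟨⟨I, hI⟩, hN⟩ := hv s (Finset.mem_range.2 hs)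
  refine ⟨⟨I, ?_, ?_, hI.ne⟩, hN.nrB fun o => hA.w0 s hs o θ hθ⟩
  · intro x o hxo
    have h2 := hI.mem x o hxo
    refine ⟨Finset.mem_univ _, Finset.mem_filter.2 ⟨Finset.mem_univ _,
      (hA.sub s hs x o θ hθ h2.1).2⟩, ?_⟩
    rw [hOw]
    exact ⟨h2, hI.wI x o hxo, hI.rI x o hxo⟩
  · intro x o hxo
    refine le_trans (hI.kp x o hxo).le (le_of_eq ?_)
    unfold TCH.kap
    refine Finset.sum_congr rfl fun x' hx' => ?_
    congr 1
    refine Finset.sum_congr ?_ fun _ _ => rfl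
    ext o'
    rw [Finset.mem_filter, Finset.mem_filter, Finset.mem_filter]
    exact ⟨fun h => ⟨⟨Finset.mem_univ _, (hA.sub s hs x o' θ hθ (hI.mem x o' h.2.1).1).2⟩, h.2⟩,
      fun h => ⟨Finset.mem_univ _, h.2⟩⟩

end Pool.Agent.Lib.TCW
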