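import Pool.Agent.Lib.TCW.Bas

/-!
# Towers of coherent levels: no bad vertices above a level with a constant colouring
-/

set_option autoImplicit false

namespace Pool.Agent.Lib.TCW

open Finset Classical
open Pool.Agent.Lib.TCH

/-- Module `C6`. -/
theorem stC6 : StSh → StCt → StDq → StC6 := by
  intro hSh hCt hDq V G m D W hT p p0 fs j n n1 η A hη hDif h1 h2 h3 h4 h5 h6 hA hcon v hv hBd
  set Δ : ℕ := cb m n1 η (D p.1).N with hΔ
  set S : Set V := (D n).dom ∩ Bd D (p :: p0 :: fs) j η A with hS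
  have hSW : S ⊆ W n ∩ Bd D (p :: p0 :: fs) j η A :=
    fun x hx => ⟨hT.dom_sub n hx.1, hx.2⟩
  have hdom : v ∈ (D n).dom := hT.mem_dom (Nat.lt_add_of_pos_right Nat.two_pos) hv
  have hvS : v ∈ S := ⟨hdom, hBd⟩
  have hfin := hCt V G m D W hT p p0 fs j n n1 η A hη h1 h2 h3 h4 h6 hA S hSW
  have hdom' : v ∈ (D (n + 1)).dom := hT.mem_dom (Nat.lt_succ_self (n + 1)) hv
  obtain ⟨y, hy⟩ := (hT.ok (n + 1)).p_ex (hT.ok (n + 1)).q0 hdom'
  have hyW : y ∈ W (n + 1) := ((hT.ok (n + 1)).sup 0 (hT.ok (n + 1)).q0 v hdom' y hy).1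
  have hvW : v ∈ W (n + 1) := hT.anti (Nat.le_succ (n + 1)) hv
  have hlab : lb D p0.1 (j + p0.2 + 1) y = lb D p0.1 (j + p0.2 + 2) v := by
    funext s
    unfold lb
    split_ifs with hs
    · exact (hSh V G m D W hT).2 (n + 1) 0 v hv 0 (hT.ok (n + 1)).q0 y hy p0.1 (j + p0.2 + 1)
        (by omega) s hs
    · rfl
  have hne : lb D p0.1 (j + p0.2 + 2) v ≠ lb D p0.1 (j + p0.2 + 1) v := by
    intro he
    have hq : 0 < (D p0.1).q := (hT.ok p0.1).q0
    have h0 := congrFun he 0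
    unfold lb at h0
    rw [if_pos hq, if_pos hq] at h0
    exact hDif 0 hq (j + p0.2 + 1) (j + p0.2 + 2) (Nat.lt_succ_self _) v
      (hT.anti (by omega) hv) h0.symm
  exact (hDq V (ℕ → V →₀ ℝ) S (lb D p0.1 (j + p0.2 + 1)) (lb D p0.1 (j + p0.2 + 2)) Δ).2 hfin v
    hvS hne y hlab (hcon y hyW v hvW)

end Pool.Agent.Lib.TCW
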