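import Pool.Agent.Lib.TCW.LvlS
import Pool.Agent.Lib.TCW.Bas
import Pool.Agent.Lib.TCH.Pt
import Pool.Agent.Lib.TCH.Tr
import Pool.Agent.Lib.TCH.Dg

/-!
# The classes of one stage

A self-linked incidence gives every node a class of labels and a law on the vertices of this
class.
-/

set_option autoImplicit false

namespace Pool.Agent.Lib.TCW

open Finset Classical
open Pool.Agent.Lib.TCH (kap stPt stTr stDg)

namespace Cell_

/-! ### Push-forward -/

/-- The push-forward of the weights `g` on `S`. -/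
noncomputable def pf {V Ω : Type} (S : Finset Ω) (hub : Ω → V) (g : Ω → ℝ) : V →₀ ℝ :=
  ∑ o ∈ S, Finsupp.single (hub o) (g o)

theorem ms_single {V : Type} (y : V) (a : ℝ) (Q : Set V) :
    ms (Finsupp.single y a) Q = if y ∈ Q then a else 0 := by
  rw [ms_eq _ Q {y} Finsupp.support_single_subset]
  simp

theorem ms_pf {V Ω : Type} (S : Finset Ω) (hub : Ω → V) (g : Ω → ℝ) (Q : Set V) :
    ms (pf S hub g) Q = ∑ o ∈ S with hub o ∈ Q, g o := by
  unfold pf
  rw [ms_sum, Finset.sum_filter]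
  exact Finset.sum_congr rfl fun o _ => ms_single _ _ _

theorem ms_pf_le {V Ω : Type} (S T : Finset Ω) (hub : Ω → V) (g : Ω → ℝ) (Q : Set V)
    (hg : ∀ o, 0 ≤ g o) (h : ∀ o ∈ S, hub o ∈ Q → o ∈ T) : ms (pf S hub g) Q ≤ ∑ o ∈ T, g o := by
  rw [ms_pf]
  refine Finset.sum_le_sum_of_subset_of_nonneg ?_ fun o _ _ => hg o
  intro o ho
  rw [Finset.mem_filter] at ho
  exact h o ho.1 ho.2

theorem pf_apply {V Ω : Type} (S : Finset Ω) (hub : Ω → V) (g : Ω → ℝ) (y : V) :
    pf S hub g y = ∑ o ∈ S with hub o = y, g o := by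
  unfold pf
  rw [Finsupp.finsetSum_apply, Finset.sum_filter]
  refine Finset.sum_congr rfl fun o _ => ?_
  rw [Finsupp.single_apply]

theorem pf_nn {V Ω : Type} (S : Finset Ω) (hub : Ω → V) (g : Ω → ℝ) (hg : ∀ o ∈ S, 0 ≤ g o)
    (y : V) : 0 ≤ pf S hub g y := by
  rw [pf_apply]
  exact Finset.sum_nonneg fun o ho => hg o (Finset.mem_filter.1 ho).1

theorem pf_tot {V Ω : Type} (S : Finset Ω) (hub : Ω → V) (g : Ω → ℝ) :
    ∑ y ∈ (pf S hub g).support, pf S hub g y = ∑ o ∈ S, g o := by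
  rw [← ms_univ, ms_pf]
  simp

/-! ### One stage -/

/-- The classes of one stage: the class of `x` is a set `C x` of own labels of the node `l x`, and
`P x` is the law on the vertices of this class. -/
def StCell : Prop :=
  ∀ (D0 R : ℕ) (K ε : ℝ), 0 < K → 0 < ε → ∃ (B n : ℕ) (c : ℝ), 0 < c ∧
    ∀ (V Ω : Type) (G : SimpleGraph V) (A As : Finset V) (O : Finset Ω) (hub : Ω → V)
      (E : V → Ω → Prop) (r : V → ℝ) (w : Ω → ℝ), GIT.VC G D0 → A.Nonempty → A ⊆ As →
      (∀ x, 0 ≤ r x) → (∀ o, 0 ≤ w o) → (∀ x ∈ As, ∑ o ∈ O with E x o, w o ≤ K) →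
      (∀ o ∈ O, ∑ x ∈ As with E x o, r x ≤ K) →
      (∀ x ∈ As, ∀ o ∈ O, E x o → ε ≤ kap As O E r w x o) → (∀ x ∈ A, ∃ o ∈ O, E x o) →
      (∀ x ∈ As, ∀ o ∈ O, E x o → G.Adj x (hub o)) →
      ∃ (i : V → Fin B) (l : V → V) (j : V → Fin n) (C : V → Finset Ω) (P : V → V →₀ ℝ),
        (∀ x ∈ A, ∀ y, 0 ≤ P x y) ∧ (∀ x ∈ A, ∑ y ∈ (P x).support, P x y = 1) ∧
        (∀ x ∈ A, ∀ y, P x y ≠ 0 → ∃ o ∈ O, hub o = y) ∧
        (∀ x ∈ A, ((R + 1 : ℕ) : ℝ) * ms (P x) {y | ¬ G.Adj x y} ≤ 1) ∧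
        (∀ x ∈ A, l x ∈ As ∧ (∀ o ∈ C x, o ∈ O ∧ E (l x) o) ∧ ∃ o ∈ C x, E x o) ∧
        (∀ x ∈ A, ∀ x' ∈ A, i x = i x' → l x ≠ l x' → Disjoint (C x) (C x')) ∧
        (∀ x ∈ A, ∀ Q : Set V, c * ms (P x) Q ≤ ∑ o ∈ C x with hub o ∈ Q, w o) ∧
        ∀ x ∈ A, ∀ x' ∈ A, i x = i x' → l x = l x' → j x = j x' → P x = P x'

theorem vc_lab {V Ω : Type} {G : SimpleGraph V} {D0 : ℕ} (hG : GIT.VC G D0) (A : Finset V)
    (hub : Ω → V) (U : Finset Ω) (hU : max D0 2 ≤ U.card) :
    ∃ T, T ⊆ U ∧ ∀ x ∈ A, (U.filter fun o => G.Adj x (hub o)) ≠ T := by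
  by_contra hcon
  push Not at hcon
  have hinj : ∀ o ∈ U, ∀ o' ∈ U, hub o = hub o' → o = o' := by
    intro o ho o' ho' he
    by_contra hne
    obtain ⟨x, -, hx⟩ := hcon {o} (Finset.singleton_subset_iff.2 ho)
    have h1 : o ∈ U.filter fun o => G.Adj x (hub o) := by
      rw [hx]
      exact Finset.mem_singleton_self o
    have h2 : o' ∈ U.filter fun o => G.Adj x (hub o) :=
      Finset.mem_filter.2 ⟨ho', he ▸ (Finset.mem_filter.1 h1).2⟩
    rw [hx, Finset.mem_singleton] at h2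
    exact hne h2.symm
  have hcard : (U.image hub).card = U.card :=
    Finset.card_image_of_injOn fun o ho o' ho' he => hinj o ho o' ho' he
  obtain ⟨T, hT, hT'⟩ := hG (U.image hub) (by
    rw [hcard]
    exact (le_max_left _ _).trans hU)
  obtain ⟨x, -, hx⟩ := hcon (U.filter fun o => hub o ∈ T) (Finset.filter_subset _ _)
  refine hT' x ?_
  ext y
  unfold FracGS.nb
  rw [Finset.mem_filter, Finset.mem_image]
  constructor
  · rintro ⟨⟨o, ho, rfl⟩, hy⟩
    have h1 : o ∈ U.filter fun o => G.Adj x (hub o) := Finset.mem_filter.2 ⟨ho, hy⟩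
    rw [hx] at h1
    exact (Finset.mem_filter.1 h1).2
  · intro hy
    obtain ⟨o, ho, rfl⟩ := Finset.mem_image.1 (hT hy)
    have h1 : o ∈ U.filter fun o => hub o ∈ T := Finset.mem_filter.2 ⟨ho, hy⟩
    rw [← hx] at h1
    exact ⟨⟨o, ho, rfl⟩, (Finset.mem_filter.1 h1).2⟩

theorem stCell : StCell := by
  intro D0 R K ε hK hε
  obtain ⟨B, c, hc, hPt⟩ := stPt K ε hK hε
  have hR : (0 : ℝ) < (R + 1 : ℕ) := by positivity
  obtain ⟨n, hTr⟩ := stTr (max D0 2) (c / (R + 1 : ℕ)) K (by positivity) hK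
  refine ⟨B, n, c, hc, ?_⟩
  intro V Ω G A As O hub E r w hG hA hsub hr0 hw0 hwE hrE hkp hne hadj
  obtain ⟨x0, hx0⟩ := hA
  obtain ⟨cl, hcl1, hcl2⟩ := hPt V Ω As O E r w hr0 hw0 hwE hrE hkp
  -- the top class
  have h1 : ∀ x : V, ∃ (i : Fin B) (l : V), x ∈ A → c ≤ ∑ o ∈ O with E x o ∧ cl i o = some l, w o := by
    intro x
    by_cases hx : x ∈ A
    · obtain ⟨i, l, h⟩ := hcl2 x (hsub hx) (hne x hx)
      exact ⟨i, l, fun _ => h⟩
    · obtain ⟨i, l, -⟩ := hcl2 x0 (hsub hx0) (hne x0 hx0)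
      exact ⟨i, l, fun h => absurd h hx⟩
  choose i l hil using h1
  -- the members of the class
  have hmem : ∀ x ∈ A, ∃ o ∈ O, E x o ∧ cl (i x) o = some (l x) := by
    intro x hx
    by_contra hcon
    push Not at hcon
    have h2 := hil x hx
    rw [Finset.filter_false_of_mem fun o ho h => hcon o ho h.1 h.2, Finset.sum_empty] at h2
    linarith
  have hlAs : ∀ x ∈ A, l x ∈ As := by
    intro x hx
    obtain ⟨o, ho, -, h2⟩ := hmem x hx
    exact (hcl1 (i x) o ho (l x) h2).1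
  -- the classes have bounded mass
  have hclK : ∀ (b : Fin B) (z : V), ∑ o ∈ O with cl b o = some z, w o ≤ K := by
    intro b z
    by_cases hz : z ∈ As
    · refine le_trans (Finset.sum_le_sum_of_subset_of_nonneg ?_ fun o _ _ => hw0 o) (hwE z hz)
      intro o ho
      rw [Finset.mem_filter] at ho ⊢
      exact ⟨ho.1, (hcl1 b o ho.1 z ho.2).2⟩
    · rw [Finset.filter_false_of_mem fun o ho h => hz (hcl1 b o ho z h).1, Finset.sum_empty]
      exact hK.le
  -- the traces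
  have h2 : ∀ (b : Fin B) (z : V), ∃ f : V → Fin n, ∀ x ∈ A, ∀ x' ∈ A, f x = f x' →
      ∑ o ∈ (O.filter fun o => cl b o = some z) with
        ¬ (G.Adj x (hub o) ↔ G.Adj x' (hub o)), w o ≤ c / (R + 1 : ℕ) := by
    intro b z
    exact hTr V Ω A (O.filter fun o => cl b o = some z) (fun x o => G.Adj x (hub o)) w hw0
      (hclK b z) fun U _ hU' => vc_lab hG A hub U hU'
  choose tr htr using h2
  -- the names
  set nm : V → Fin B × V × Fin n := fun x => (i x, l x, tr (i x) (l x) x) with hnm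
  have h3 : ∀ x : V, ∃ x' : V, x ∈ A → x' ∈ A ∧ nm x' = nm x := fun x => ⟨x, fun h => ⟨h, rfl⟩⟩
  set rp : V → V := fun x => if h : ∃ x', x' ∈ A ∧ nm x' = nm x then h.choose else x0 with hrp
  have hrp1 : ∀ x ∈ A, rp x ∈ A ∧ nm (rp x) = nm x := by
    intro x hx
    have h : ∃ x', x' ∈ A ∧ nm x' = nm x := ⟨x, hx, rfl⟩
    rw [hrp]
    simp only
    rw [dif_pos h]
    exact h.choose_spec
  have hrp2 : ∀ x x', nm x = nm x' → rp x = rp x' := by
    intro x x' h
    rw [hrp]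
    simp only
    rw [h]
  clear_value rp
  set S : V → Finset Ω := fun x =>
    O.filter fun o => cl (i x) o = some (l x) ∧ G.Adj (rp x) (hub o) with hSdef
  set tot : V → ℝ := fun x => ∑ o ∈ S x, w o with htot
  have hSeq : ∀ x x', nm x = nm x' → S x = S x' := by
    intro x x' h
    have h4 := hrp2 x x' h
    rw [hnm] at h
    simp only [Prod.mk.injEq] at h
    rw [hSdef]
    simp only
    rw [h4, h.1, h.2.1]
  have htotc : ∀ x ∈ A, c ≤ tot x := by
    intro x hx
    obtain ⟨h4, h5⟩ := hrp1 x hx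
    rw [hnm] at h5
    simp only [Prod.mk.injEq] at h5
    refine (hil (rp x) h4).trans ?_
    refine Finset.sum_le_sum_of_subset_of_nonneg ?_ fun o _ _ => hw0 o
    intro o ho
    rw [Finset.mem_filter] at ho
    rw [hSdef]
    simp only
    rw [Finset.mem_filter, ← h5.1, ← h5.2.1]
    exact ⟨ho.1, ho.2.2, hadj _ (hsub h4) o ho.1 ho.2.1⟩
  have htot0 : ∀ x ∈ A, 0 < tot x := fun x hx => lt_of_lt_of_le hc (htotc x hx)
  refine ⟨i, l, fun x => tr (i x) (l x) x, fun x => O.filter fun o => cl (i x) o = some (l x),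
    fun x => pf (S x) hub fun o => w o / tot x, ?_, ?_, ?_, ?_, ?_, ?_, ?_, ?_⟩
  · -- nonnegative
    intro x hx y
    exact pf_nn _ _ _ (fun o _ => div_nonneg (hw0 o) (htot0 x hx).le) y
  · -- total mass
    intro x hx
    simp only
    rw [pf_tot, ← Finset.sum_div]
    exact div_self (htot0 x hx).ne'
  · -- support
    intro x hx y hy
    simp only at hy
    rw [pf_apply] at hy
    obtain ⟨o, ho, -⟩ := Finset.exists_ne_zero_of_sum_ne_zero hy
    rw [Finset.mem_filter, hSdef] at ho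
    exact ⟨o, (Finset.mem_filter.1 ho.1).1, ho.2⟩
  · -- the vertices which are not neighbours
    intro x hx
    obtain ⟨h4, h5⟩ := hrp1 x hx
    rw [hnm] at h5
    simp only [Prod.mk.injEq] at h5
    have h6 : tr (i x) (l x) (rp x) = tr (i x) (l x) x := by
      have h7 := h5.2.2
      rw [h5.1, h5.2.1] at h7
      exact h7
    have h7 := htr (i x) (l x) (rp x) h4 x hx h6
    have h8 := ms_pf_le (S x) ((O.filter fun o => cl (i x) o = some (l x)).filter fun o =>
      ¬ (G.Adj (rp x) (hub o) ↔ G.Adj x (hub o))) hub (fun o => w o / tot x)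
      {y | ¬ G.Adj x y} (fun o => div_nonneg (hw0 o) (htot0 x hx).le) (by
        intro o ho hQ
        rw [hSdef] at ho
        simp only at ho
        rw [Finset.mem_filter] at ho
        rw [Finset.mem_filter, Finset.mem_filter]
        exact ⟨⟨ho.1, ho.2.1⟩, fun h => hQ (h.1 ho.2.2)⟩)
    rw [← Finset.sum_div] at h8
    refine (mul_le_mul_of_nonneg_left h8 hR.le).trans ?_
    rw [mul_div_assoc', div_le_one (htot0 x hx)]
    refine (mul_le_mul_of_nonneg_left h7 hR.le).trans ?_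
    rw [mul_div_cancel₀ c hR.ne']
    exact htotc x hx
  · -- the class
    intro x hx
    refine ⟨hlAs x hx, ?_, ?_⟩
    · intro o ho
      rw [Finset.mem_filter] at ho
      exact ⟨ho.1, (hcl1 (i x) o ho.1 (l x) ho.2).2⟩
    · obtain ⟨o, ho, h4, h5⟩ := hmem x hx
      exact ⟨o, Finset.mem_filter.2 ⟨ho, h5⟩, h4⟩
  · -- disjoint classes
    intro x _ x' _ hi hl
    rw [Finset.disjoint_left]
    intro o ho ho'
    rw [Finset.mem_filter] at ho ho'
    rw [hi] at ho
    exact hl (Option.some.inj (ho.2.symm.trans ho'.2))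
  · -- the mass of the law
    intro x hx Q
    have h8 := ms_pf_le (S x) ((O.filter fun o => cl (i x) o = some (l x)).filter fun o =>
      hub o ∈ Q) hub (fun o => w o / tot x) Q (fun o => div_nonneg (hw0 o) (htot0 x hx).le) (by
        intro o ho hQ
        rw [hSdef] at ho
        simp only at ho
        rw [Finset.mem_filter] at ho
        rw [Finset.mem_filter, Finset.mem_filter]
        exact ⟨⟨ho.1, ho.2.1⟩, hQ⟩)
    rw [← Finset.sum_div] at h8
    refine (mul_le_mul_of_nonneg_left h8 hc.le).trans ?_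
    rw [mul_div_assoc', div_le_iff₀ (htot0 x hx), mul_comm]
    exact mul_le_mul_of_nonneg_left (htotc x hx) (Finset.sum_nonneg fun o _ => hw0 o)
  · -- equal names
    intro x _ x' _ hi hl hj
    simp only at hj ⊢
    have h8 : nm x = nm x' := by
      rw [hnm]
      simp only [Prod.mk.injEq]
      exact ⟨hi, hl, hj⟩
    have h9 := hSeq x x' h8
    have h10 : tot x = tot x' := by
      rw [htot]
      simp only
      rw [h9]
    rw [h9, h10]

theorem le_ms {V : Type} {p : V →₀ ℝ} (hp : ∀ y, 0 ≤ p y) {S : Set V} {y : V} (hy : y ∈ S) :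
    p y ≤ ms p S := by
  by_cases h : p y = 0
  · rw [h]
    exact ms_nn hp S
  · exact Finset.single_le_sum (f := fun y => p y) (fun z _ => hp z)
      (Finset.mem_filter.2 ⟨Finsupp.mem_support_iff.2 h, hy⟩)

/-- Few heavy atoms. -/
theorem heavy {V : Type} (p : V →₀ ℝ) (R : ℕ) (h0 : ∀ y, 0 ≤ p y)
    (h1 : ∑ y ∈ p.support, p y = 1) :
    (p.support.filter fun y => 1 < ((R + 1 : ℕ) : ℝ) * p y).card ≤ R + 1 := by
  have h2 : ((p.support.filter fun y => 1 < ((R + 1 : ℕ) : ℝ) * p y).card : ℝ) ≤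
      ((R + 1 : ℕ) : ℝ) := by
    calc ((p.support.filter fun y => 1 < ((R + 1 : ℕ) : ℝ) * p y).card : ℝ)
        = ∑ y ∈ p.support with 1 < ((R + 1 : ℕ) : ℝ) * p y, (1 : ℝ) := by simp
      _ ≤ ∑ y ∈ p.support with 1 < ((R + 1 : ℕ) : ℝ) * p y, ((R + 1 : ℕ) : ℝ) * p y :=
          Finset.sum_le_sum fun y hy => (Finset.mem_filter.1 hy).2.le
      _ ≤ ∑ y ∈ p.support, ((R + 1 : ℕ) : ℝ) * p y :=
          Finset.sum_le_sum_of_subset_of_nonneg (Finset.filter_subset _ _) fun y _ _ =>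
            mul_nonneg (Nat.cast_nonneg _) (h0 y)
      _ = ((R + 1 : ℕ) : ℝ) := by rw [← Finset.mul_sum, h1, mul_one]
  exact_mod_cast h2

/-- A colouring which separates every node from its heavy atoms. -/
theorem atoms {V : Type} (q R : ℕ) (A : Finset V) (P : ℕ → V → V →₀ ℝ)
    (h0 : ∀ s < q, ∀ x ∈ A, ∀ y, 0 ≤ P s x y)
    (h1 : ∀ s < q, ∀ x ∈ A, ∑ y ∈ (P s x).support, P s x y = 1) :
    ∃ φ : V → Fin (3 ^ (q * (R + 1))), ∀ s < q, ∀ x ∈ A, ∀ y, y ≠ x → φ y = φ x →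
      ((R + 1 : ℕ) : ℝ) * P s x y ≤ 1 := by
  obtain ⟨φ, hφ⟩ := stDg V (q * (R + 1)) (fun x => if x ∈ A then (range q).biUnion fun s =>
    (P s x).support.filter fun y => 1 < ((R + 1 : ℕ) : ℝ) * P s x y else ∅) (by
      intro x
      split_ifs with hx
      · refine Finset.card_biUnion_le.trans ?_
        calc ∑ s ∈ range q, ((P s x).support.filter fun y =>
              1 < ((R + 1 : ℕ) : ℝ) * P s x y).card ≤ ∑ _s ∈ range q, (R + 1) :=
              Finset.sum_le_sum fun s hs =>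
                heavy (P s x) R (h0 s (Finset.mem_range.1 hs) x hx)
                  (h1 s (Finset.mem_range.1 hs) x hx)
          _ = q * (R + 1) := by rw [Finset.sum_const, Finset.card_range, smul_eq_mul]
      · exact Nat.zero_le _)
  refine ⟨φ, fun s hs x hx y hyx hy => ?_⟩
  by_contra hlt
  push Not at hlt
  refine hφ x y ?_ hyx hy
  rw [if_pos hx, Finset.mem_biUnion]
  refine ⟨s, Finset.mem_range.2 hs, ?_⟩
  rw [Finset.mem_filter, Finsupp.mem_support_iff]
  refine ⟨fun h => ?_, hlt⟩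
  rw [h, mul_zero] at hlt
  linarith


end Cell_

end Pool.Agent.Lib.TCW
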