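import Pool.Agent.Lib.TCW.EqX

/-!
# Self-linked incidences of equal heights: strict conditions are open

If the heights and the weights depend continuously on a parameter then the set of the parameters
for which `v` lies in a strictly self-linked incidence of equal heights is open.
-/

set_option autoImplicit false

namespace Pool.Agent.Lib.TCW

open Finset Classical
open Pool.Agent.Lib.TCH
open Pool.Agent.Lib.GR3 (Env Cl Sm)

/-- The strict form of `EqInc`. -/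
structure EqIncS {V : Type} (G : SimpleGraph V) (K0 K1 ε δ g L : ℝ) (W : Finset V)
    (h r w : V → ℝ) (I : V → V → Prop) (v : V) : Prop where
  mem : ∀ x z, I x z → x ∈ W ∧ z ∈ W ∧ G.Adj x z ∧ |h x - h z| < g
  wI : ∀ x z, I x z → ∑ y ∈ W with G.Adj x y ∧ |h x - h y| ≤ g, w y < K0
  rI : ∀ x z, I x z → ∑ y ∈ W with G.Adj z y ∧ |h z - h y| ≤ g, r y < K0
  kp : ∀ x z, I x z → ε < TCH.kap W W I r w x z
  ne : ∃ z, I v z
  nr : ∑ z ∈ W with G.Adj z v ∧ |h z - h v| ≤ L + 3 * g, w z < K1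
  fr : ∀ x ∈ W, L ≤ |h x - h v| → ∑ z ∈ W with G.Adj z v ∧ |h z - h x| ≤ 3 * g, w z < δ

theorem EqIncS.eqInc {V : Type} {G : SimpleGraph V} {K0 K1 ε δ g L : ℝ} {W : Finset V}
    {h r w : V → ℝ} {I : V → V → Prop} {v : V} (H : EqIncS G K0 K1 ε δ g L W h r w I v) :
    EqInc G K0 K1 ε δ g L W h r w I v where
  mem := fun x z hI => ⟨(H.mem x z hI).1, (H.mem x z hI).2.1, (H.mem x z hI).2.2.1,
    (H.mem x z hI).2.2.2.le⟩
  wI := fun x z hI => (H.wI x z hI).le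
  rI := fun x z hI => (H.rI x z hI).le
  kp := fun x z hI => (H.kp x z hI).le
  ne := H.ne
  nr := H.nr.le
  fr := fun x hx hL => (H.fr x hx hL.le).le

namespace EqO_

variable {Θ V : Type} [TopologicalSpace Θ]

/-- Sums over closed windows are upper semicontinuous. -/
theorem isOpen_sum (T : Finset V) (p : Θ → V → Prop) (w : Θ → V → ℝ)
    (hp : ∀ y ∈ T, IsClosed {θ | p θ y}) (hw : ∀ y ∈ T, Continuous fun θ => w θ y)
    (hw0 : ∀ θ, ∀ y ∈ T, 0 ≤ w θ y) (K : ℝ) :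
    IsOpen {θ | ∑ y ∈ T with p θ y, w θ y < K} := by
  rw [← isClosed_compl_iff]
  have h1 : {θ | ∑ y ∈ T with p θ y, w θ y < K}ᶜ =
      ⋃ S ∈ (T.powerset : Set (Finset V)), {θ | (∀ y ∈ S, p θ y) ∧ K ≤ ∑ y ∈ S, w θ y} := by
    ext θ
    simp only [Set.mem_compl_iff, Set.mem_ofPred_eq, not_lt, Set.mem_iUnion, Finset.mem_coe,
      Finset.mem_powerset, exists_prop]
    constructor
    · intro h
      exact ⟨T.filter (p θ), Finset.filter_subset _ _,
        fun y hy => (Finset.mem_filter.1 hy).2, h⟩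
    · rintro ⟨S, hS, hpS, hK⟩
      refine hK.trans (Finset.sum_le_sum_of_subset_of_nonneg ?_ ?_)
      · intro y hy
        exact Finset.mem_filter.2 ⟨hS hy, hpS y hy⟩
      · intro y hy _
        exact hw0 θ y (Finset.mem_filter.1 hy).1
  rw [h1]
  refine Set.Finite.isClosed_biUnion (Finset.finite_toSet _) fun S hS => ?_
  have hST : S ⊆ T := Finset.mem_powerset.1 hS
  have h2 : {θ | (∀ y ∈ S, p θ y) ∧ K ≤ ∑ y ∈ S, w θ y} =
      (⋂ y ∈ (S : Set V), {θ | p θ y}) ∩ {θ | K ≤ ∑ y ∈ S, w θ y} := by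
    ext θ
    simp
  rw [h2]
  refine IsClosed.inter (isClosed_biInter fun y hy => hp y (hST hy)) ?_
  exact isClosed_le continuous_const (continuous_finsetSum S fun y hy => hw y (hST hy))

theorem continuous_kap (W : Finset V) (I : V → V → Prop) (r w : Θ → V → ℝ)
    (hr : ∀ y ∈ W, Continuous fun θ => r θ y) (hw : ∀ y ∈ W, Continuous fun θ => w θ y)
    (x z : V) : Continuous fun θ => TCH.kap W W I (r θ) (w θ) x z := by
  unfold TCH.kap
  refine continuous_finsetSum _ fun x' hx' => ?_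
  refine (hr x' (Finset.mem_filter.1 hx').1).mul ?_
  exact continuous_finsetSum _ fun o ho => hw o (Finset.mem_filter.1 ho).1

/-- For a fixed incidence the strict conditions are open. -/
theorem isOpen_inc (G : SimpleGraph V) (K0 K1 ε δ g L : ℝ) (W : Finset V)
    (h r w : Θ → V → ℝ) (hh : ∀ y, Continuous fun θ => h θ y)
    (hr : ∀ y ∈ W, Continuous fun θ => r θ y) (hw : ∀ y ∈ W, Continuous fun θ => w θ y)
    (hr0 : ∀ θ, ∀ y ∈ W, 0 ≤ r θ y) (hw0 : ∀ θ, ∀ y ∈ W, 0 ≤ w θ y)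
    (I : V → V → Prop) (v : V) :
    IsOpen {θ | EqIncS G K0 K1 ε δ g L W (h θ) (r θ) (w θ) I v} := by
  by_cases hI : (∀ x z, I x z → x ∈ W ∧ z ∈ W ∧ G.Adj x z) ∧ ∃ z, I v z
  swap
  · -- the conditions are never satisfied
    have h1 : {θ | EqIncS G K0 K1 ε δ g L W (h θ) (r θ) (w θ) I v} = ∅ := by
      ext θ
      simp only [Set.mem_ofPred_eq, Set.mem_empty_iff_false, iff_false]
      intro H
      exact hI ⟨fun x z hxz => ⟨(H.mem x z hxz).1, (H.mem x z hxz).2.1, (H.mem x z hxz).2.2.1⟩,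
        H.ne⟩
    rw [h1]
    exact isOpen_empty
  obtain ⟨hI1, hI2⟩ := hI
  set Q : Finset (V × V) := (W ×ˢ W).filter fun p => I p.1 p.2 with hQ
  have hmQ : ∀ x z, I x z → (x, z) ∈ Q := by
    intro x z hxz
    rw [hQ, Finset.mem_filter, Finset.mem_product]
    exact ⟨⟨(hI1 x z hxz).1, (hI1 x z hxz).2.1⟩, hxz⟩
  have hQI : ∀ p ∈ Q, I p.1 p.2 := fun p hp => (Finset.mem_filter.1 hp).2
  have hset : {θ | EqIncS G K0 K1 ε δ g L W (h θ) (r θ) (w θ) I v} =
      (⋂ p ∈ (Q : Set (V × V)), ({θ | |h θ p.1 - h θ p.2| < g} ∩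
        ({θ | ∑ y ∈ W.filter (fun y => G.Adj p.1 y) with |h θ p.1 - h θ y| ≤ g, w θ y < K0} ∩
        ({θ | ∑ y ∈ W.filter (fun y => G.Adj p.2 y) with |h θ p.2 - h θ y| ≤ g, r θ y < K0} ∩
        {θ | ε < TCH.kap W W I (r θ) (w θ) p.1 p.2})))) ∩
      ({θ | ∑ z ∈ W.filter (fun z => G.Adj z v) with |h θ z - h θ v| ≤ L + 3 * g, w θ z < K1} ∩
      ⋂ x ∈ (W : Set V), ({θ | |h θ x - h θ v| < L} ∪
        {θ | ∑ z ∈ W.filter (fun z => G.Adj z v) with |h θ z - h θ x| ≤ 3 * g, w θ z < δ})) := by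
    ext θ
    simp only [Set.mem_ofPred_eq, Set.mem_inter_iff, Set.mem_iInter, Finset.mem_coe,
      Set.mem_union, Finset.filter_filter]
    constructor
    · intro H
      refine ⟨fun p hp => ?_, H.nr, fun x hx => ?_⟩
      · have hp' := hQI p hp
        exact ⟨(H.mem _ _ hp').2.2.2, H.wI _ _ hp', H.rI _ _ hp', H.kp _ _ hp'⟩
      · by_cases hL : |h θ x - h θ v| < L
        · exact Or.inl hL
        · exact Or.inr (H.fr x hx (not_lt.1 hL))
    · rintro ⟨H1, H2, H3⟩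
      refine ⟨?_, ?_, ?_, ?_, hI2, H2, ?_⟩
      · intro x z hxz
        exact ⟨(hI1 x z hxz).1, (hI1 x z hxz).2.1, (hI1 x z hxz).2.2, (H1 _ (hmQ x z hxz)).1⟩
      · intro x z hxz
        exact (H1 _ (hmQ x z hxz)).2.1
      · intro x z hxz
        exact (H1 _ (hmQ x z hxz)).2.2.1
      · intro x z hxz
        exact (H1 _ (hmQ x z hxz)).2.2.2
      · intro x hx hL
        rcases H3 x hx with h1 | h1
        · exact absurd h1 (not_lt.2 hL)
        · exact h1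
  rw [hset]
  have hcw : ∀ (a b : V) (c : ℝ), IsClosed {θ | |h θ a - h θ b| ≤ c} := fun a b c =>
    isClosed_le (((hh a).sub (hh b)).abs) continuous_const
  refine IsOpen.inter (Set.Finite.isOpen_biInter (Finset.finite_toSet _) fun p _ => ?_)
    (IsOpen.inter ?_ (Set.Finite.isOpen_biInter (Finset.finite_toSet _) fun x _ => ?_))
  · refine IsOpen.inter (isOpen_lt (((hh _).sub (hh _)).abs) continuous_const)
      (IsOpen.inter ?_ (IsOpen.inter ?_ ?_))
    · exact isOpen_sum _ (fun θ y => |h θ p.1 - h θ y| ≤ g) w (fun y _ => hcw _ _ _)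
        (fun y hy => hw y (Finset.mem_filter.1 hy).1)
        (fun θ y hy => hw0 θ y (Finset.mem_filter.1 hy).1) K0
    · exact isOpen_sum _ (fun θ y => |h θ p.2 - h θ y| ≤ g) r (fun y _ => hcw _ _ _)
        (fun y hy => hr y (Finset.mem_filter.1 hy).1)
        (fun θ y hy => hr0 θ y (Finset.mem_filter.1 hy).1) K0
    · exact isOpen_lt continuous_const (continuous_kap W I r w hr hw _ _)
  · exact isOpen_sum _ (fun θ z => |h θ z - h θ v| ≤ L + 3 * g) w (fun y _ => hcw _ _ _)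
      (fun y hy => hw y (Finset.mem_filter.1 hy).1)
      (fun θ y hy => hw0 θ y (Finset.mem_filter.1 hy).1) K1
  · refine IsOpen.union (isOpen_lt (((hh _).sub (hh _)).abs) continuous_const) ?_
    exact isOpen_sum _ (fun θ z => |h θ z - h θ x| ≤ 3 * g) w (fun y _ => hcw _ _ _)
      (fun y hy => hw y (Finset.mem_filter.1 hy).1)
      (fun θ y hy => hw0 θ y (Finset.mem_filter.1 hy).1) δ

end EqO_

/-- The parameters for which `v` lies in a strictly self-linked incidence form an open set. -/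
theorem isOpen_eqIncS {Θ V : Type} [TopologicalSpace Θ] (G : SimpleGraph V)
    (K0 K1 ε δ g L : ℝ) (W : Finset V)
    (h r w : Θ → V → ℝ) (hh : ∀ y, Continuous fun θ => h θ y)
    (hr : ∀ y ∈ W, Continuous fun θ => r θ y) (hw : ∀ y ∈ W, Continuous fun θ => w θ y)
    (hr0 : ∀ θ, ∀ y ∈ W, 0 ≤ r θ y) (hw0 : ∀ θ, ∀ y ∈ W, 0 ≤ w θ y) (v : V) :
    IsOpen {θ | ∃ I : V → V → Prop, EqIncS G K0 K1 ε δ g L W (h θ) (r θ) (w θ) I v} := by
  have h1 : {θ | ∃ I : V → V → Prop, EqIncS G K0 K1 ε δ g L W (h θ) (r θ) (w θ) I v} =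
      ⋃ I : V → V → Prop, {θ | EqIncS G K0 K1 ε δ g L W (h θ) (r θ) (w θ) I v} := by
    ext θ
    simp
  rw [h1]
  exact isOpen_iUnion fun I => EqO_.isOpen_inc G K0 K1 ε δ g L W h r w hh hr hw hr0 hw0 I v

/-- The colourability of `X_EQ`, strict form. -/
theorem stEqXS (V : Type) (E : Env V) (D0 m : ℕ) (W0 : Set V) (R : ℕ) (hvc : GIT.VC E.G D0)
    (hno : ∀ D : Lv V, OK E.G m (fun _ _ => True) (R + 1) W0 D → Sm E D.dom)
    (q : ℕ) (K0 ε : ℝ) (hK0 : 0 < K0) (hε : 0 < ε) (hq : R + 1 ≤ q) : ∃ δ : ℝ, 0 < δ ∧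
        ∀ K1 : ℝ, ∃ C : ℕ, ∀ (n : ℕ) (g L : ℕ → ℝ) (W : ℕ → Finset V) (h r w : ℕ → V → ℝ),
          (∀ s < q, ∀ z ∈ W s, z ∈ W0 ∧ E.c z = n) →
          (∀ s x, 0 ≤ r s x) → (∀ s x, 0 ≤ w s x) →
          Cl E {v | ∀ s < q, ∃ I : V → V → Prop,
            EqIncS E.G K0 K1 ε δ (g s) (L s) (W s) (h s) (r s) (w s) I v} C := by
  obtain ⟨δ, hδ, hC⟩ := stEqX V E D0 m W0 R hvc hno q K0 ε hK0 hε hq
  refine ⟨δ, hδ, fun K1 => ?_⟩
  obtain ⟨C, hC'⟩ := hC K1
  refine ⟨C, fun n g L W h r w hW hr hw => ?_⟩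
  refine (hC' n g L W h r w hW hr hw).mono ?_ le_rfl
  intro v hv s hs
  obtain ⟨I, hI⟩ := hv s hs
  exact ⟨I, hI.eqInc⟩

end Pool.Agent.Lib.TCW
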