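import Pool.Agent.Lib.GSR.SLO
import Pool.Agent.Lib.TCW.EqO

/-!
# Windows of equal heights: the flux form for one stage

In a graph without an induced tree, for a node law `n` and the scales `a`: nearly all nodes with a
share at least `θ` in the window of equal heights lie in the self-linked incidence `I`.
-/

set_option autoImplicit false

namespace Pool.Agent.Lib.TCW

open Finset Classical
open Pool.Agent.Lib.TCH
open Pool.Agent.Lib.GSR3 (Tree)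
open Pool.Agent.Lib.FGF (Frac)

namespace EqF_

theorem floor_pow_le {a : ℝ} (ha : 0 < a) : (2 : ℝ) ^ ⌊Real.logb 2 a⌋ ≤ a := by
  have h1 : (2 : ℝ) ^ (Real.logb 2 a) = a := Real.rpow_logb (by norm_num) (by norm_num) ha
  have h2 : (2 : ℝ) ^ ((⌊Real.logb 2 a⌋ : ℤ) : ℝ) ≤ (2 : ℝ) ^ (Real.logb 2 a) :=
    Real.rpow_le_rpow_of_exponent_le (by norm_num) (Int.floor_le _)
  rw [h1, Real.rpow_intCast] at h2
  exact h2

theorem lt_floor_pow {a : ℝ} (ha : 0 < a) : a < 2 * (2 : ℝ) ^ ⌊Real.logb 2 a⌋ := by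
  have h1 : (2 : ℝ) ^ (Real.logb 2 a) = a := Real.rpow_logb (by norm_num) (by norm_num) ha
  have h2 : (2 : ℝ) ^ (Real.logb 2 a) < (2 : ℝ) ^ (((⌊Real.logb 2 a⌋ + 1 : ℤ)) : ℝ) := by
    refine Real.rpow_lt_rpow_of_exponent_lt (by norm_num) ?_
    push_cast
    exact Int.lt_floor_add_one _
  rw [h1, Real.rpow_intCast, zpow_add₀ (by norm_num), zpow_one] at h2
  linarith

theorem floor_near {a b : ℝ} {g : ℕ} (h : |a - b| ≤ g) : |⌊a⌋ - ⌊b⌋| ≤ (g : ℤ) := by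
  have h1 := abs_le.1 h
  have h2 := Int.floor_le a
  have h3 := Int.lt_floor_add_one a
  have h4 := Int.floor_le b
  have h5 := Int.lt_floor_add_one b
  rw [abs_le]
  constructor
  · have h6 : (-(g : ℤ) - 1 : ℝ) < ((⌊a⌋ - ⌊b⌋ : ℤ) : ℝ) := by
      push_cast
      linarith [h1.1]
    have h7 : (-(g : ℤ) - 1 : ℤ) < ⌊a⌋ - ⌊b⌋ := by
      have h8 : ((-(g : ℤ) - 1 : ℤ) : ℝ) < ((⌊a⌋ - ⌊b⌋ : ℤ) : ℝ) := by
        push_cast
        push_cast at h6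
        exact h6
      exact_mod_cast h8
    omega
  · have h6 : ((⌊a⌋ - ⌊b⌋ : ℤ) : ℝ) < ((g : ℤ) + 1 : ℤ) := by
      push_cast
      linarith [h1.2]
    have h7 : ⌊a⌋ - ⌊b⌋ < (g : ℤ) + 1 := by exact_mod_cast h6
    omega

theorem near_of_floor {a b : ℝ} {g : ℕ} (h : |⌊a⌋ - ⌊b⌋| ≤ (g : ℤ)) : |a - b| < g + 1 := by
  have h1 := abs_le.1 h
  have h2 := Int.floor_le a
  have h3 := Int.lt_floor_add_one a
  have h4 := Int.floor_le b
  have h5 := Int.lt_floor_add_one b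
  have h6 : ((⌊a⌋ - ⌊b⌋ : ℤ) : ℝ) ≤ (g : ℝ) := by exact_mod_cast h1.2
  have h7 : (-(g : ℝ)) ≤ ((⌊a⌋ - ⌊b⌋ : ℤ) : ℝ) := by exact_mod_cast h1.1
  push_cast at h6 h7
  rw [abs_lt]
  constructor <;> linarith

end EqF_

open EqF_

/-- Flux form of the windows of equal heights, one stage. -/
theorem stEqF (M d g : ℕ) (F K θ τ : ℝ) (hM : 1 ≤ M) (hF : 1 ≤ F) (hK : 0 < K) (hθ : 0 < θ)
    (hτ : 0 < τ) : ∃ ε : ℝ, 0 < ε ∧
    ∀ (V : Type) [Fintype V] (G : SimpleGraph V) (W : Finset V) (n a : V → ℝ),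
      Frac G F → (∀ φ : List (Fin M) → V, ¬ Tree G d M φ) →
      (∀ x, 0 ≤ n x) → (∀ x, 0 < a x) → ∑ x ∈ W, n x ≤ 1 →
      (∀ x ∈ W, ∑ y ∈ W with G.Adj x y ∧ |Real.logb 2 (a x) - Real.logb 2 (a y)| ≤ g + 1,
        n y / a y ≤ K) →
      ∃ I : V → V → Prop,
        (∀ x z, I x z → x ∈ W ∧ z ∈ W ∧ G.Adj x z ∧
          |Real.logb 2 (a x) - Real.logb 2 (a z)| ≤ g) ∧
        (∀ x z, I x z → ε ≤ TCH.kap W W I (fun y => n y / a y) (fun y => n y / a y) x z) ∧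
        ∑ x ∈ W with θ ≤ ∑ z ∈ W with G.Adj x z ∧
            |Real.logb 2 (a x) - Real.logb 2 (a z)| ≤ g, n z / a z ∧ ∀ z, ¬ I x z, n x ≤ τ := by
  set K' : ℝ := max K (2 ^ g) with hK'
  have hK'0 : 0 < K' := lt_of_lt_of_le hK (le_max_left _ _)
  have hp : (0 : ℝ) < 2 ^ (g + 1) := by positivity
  obtain ⟨ε, hε, hS⟩ := GSR.stSLZ M d 1 g F K' (τ * θ / 2 ^ (g + 1)) hM hF hK'0 (by positivity)
  refine ⟨ε, hε, ?_⟩
  intro V _ G W n a hFr hT hn ha hn1 hwin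
  set h : V → ℝ := fun x => Real.logb 2 (a x) with hh
  set rw' : V → ℝ := fun y => n y / a y with hrw
  have hrw0 : ∀ y, 0 ≤ rw' y := fun y => div_nonneg (hn y) (ha y).le
  -- the scale times the weight
  have hsc : ∀ x, (2 : ℝ) ^ ⌊h x⌋ * rw' x ≤ n x := by
    intro x
    have h1 := floor_pow_le (ha x)
    have h2 : (2 : ℝ) ^ ⌊h x⌋ * rw' x ≤ a x * rw' x := mul_le_mul_of_nonneg_right h1 (hrw0 x)
    refine h2.trans (le_of_eq ?_)
    rw [hrw]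
    exact mul_div_cancel₀ (n x) (ha x).ne'
  obtain ⟨I, hI1, hI2, hI3⟩ := hS V V G W W (fun z => z)
    (fun x z => G.Adj x z ∧ |h x - h z| ≤ g) (fun x _ => ⌊h x⌋) (fun z _ => ⌊h z⌋)
    (fun k => (2 : ℝ) ^ (k 0)) rw' rw' hFr hT
    { r0 := hrw0
      w0 := hrw0
      s0 := fun k => by positivity
      own := fun x _ z _ hxz => ⟨hxz.1, fun _ => floor_near hxz.2⟩
      inj := fun _ _ _ _ _ he => he
      nw := by
        intro x hx
        refine le_trans (Finset.sum_le_sum_of_subset_of_nonneg ?_ fun o _ _ => hrw0 o)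
          ((hwin x hx).trans (le_max_left _ _))
        intro o ho
        rw [GSR.SL_.mf] at ho
        rw [Finset.mem_filter]
        exact ⟨ho.1, ho.2.1, (near_of_floor (ho.2.2 0)).le⟩
      nr := by
        intro x hx
        refine le_trans (Finset.sum_le_sum_of_subset_of_nonneg ?_ fun o _ _ => hrw0 o)
          ((hwin x hx).trans (le_max_left _ _))
        intro o ho
        rw [GSR.SL_.mf] at ho
        rw [Finset.mem_filter]
        refine ⟨ho.1, ho.2.1.symm, ?_⟩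
        have h1 := (near_of_floor (ho.2.2 0)).le
        rw [abs_sub_comm] at h1
        exact h1
      mr := by
        intro δ hδ
        have h1 : ∀ x ∈ W, (2 : ℝ) ^ (⌊h x⌋ + δ 0) * rw' x ≤ 2 ^ g * n x := by
          intro x _
          rw [zpow_add₀ (by norm_num), mul_comm ((2 : ℝ) ^ ⌊h x⌋), mul_assoc]
          refine mul_le_mul ?_ (hsc x) (mul_nonneg (by positivity) (hrw0 x)) (by positivity)
          rw [← zpow_natCast]
          exact zpow_le_zpow_right₀ (by norm_num) (abs_le.1 (hδ 0)).2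
        refine (Finset.sum_le_sum h1).trans ?_
        rw [← Finset.mul_sum]
        refine le_trans ?_ (le_max_right K (2 ^ g))
        calc (2 : ℝ) ^ g * ∑ x ∈ W, n x ≤ 2 ^ g * 1 :=
              mul_le_mul_of_nonneg_left hn1 (by positivity)
          _ = 2 ^ g := mul_one _
      mw := by
        refine (Finset.sum_le_sum fun x _ => hsc x).trans (hn1.trans ?_)
        refine le_trans ?_ (le_max_right K (2 ^ g))
        exact one_le_pow₀ (by norm_num) }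
  refine ⟨I, fun x z hxz => ⟨(hI1 x z hxz).1, (hI1 x z hxz).2.1, (hI1 x z hxz).2.2.1,
    (hI1 x z hxz).2.2.2⟩, hI2, ?_⟩
  -- the bad nodes
  set T : Finset V := W.filter fun x => θ ≤ ∑ z ∈ W with G.Adj x z ∧ |h x - h z| ≤ g, rw' z ∧
    ∀ z, ¬ I x z with hT'
  have hTW : T ⊆ W := by
    rw [hT']
    exact Finset.filter_subset _ _
  have h1 : ∀ x ∈ T, n x * θ / 2 ^ (g + 1) ≤
      ∑ o ∈ W with (G.Adj x o ∧ |h x - h o| ≤ g) ∧ ¬ I x o, (2 : ℝ) ^ ⌊h o⌋ * rw' x * rw' o := by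
    intro x hx
    rw [hT', Finset.mem_filter] at hx
    obtain ⟨hxW, hx1, hx2⟩ := hx
    have h2 : (W.filter fun o => (G.Adj x o ∧ |h x - h o| ≤ g) ∧ ¬ I x o) =
        W.filter fun z => G.Adj x z ∧ |h x - h z| ≤ g := by
      refine Finset.filter_congr fun o _ => ?_
      exact ⟨fun h => h.1, fun h => ⟨h, hx2 o⟩⟩
    rw [h2]
    have h3 : ∀ o ∈ W.filter (fun z => G.Adj x z ∧ |h x - h z| ≤ g),
        n x / 2 ^ (g + 1) * rw' o ≤ (2 : ℝ) ^ ⌊h o⌋ * rw' x * rw' o := by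
      intro o ho
      rw [Finset.mem_filter] at ho
      refine mul_le_mul_of_nonneg_right ?_ (hrw0 o)
      have h4 := abs_le.1 (floor_near ho.2.2)
      have h5 : (2 : ℝ) ^ (⌊h x⌋ - (g : ℤ)) ≤ (2 : ℝ) ^ ⌊h o⌋ :=
        zpow_le_zpow_right₀ (by norm_num) (by linarith [h4.2])
      have h6 := lt_floor_pow (ha x)
      have h7 : a x / 2 ^ (g + 1) ≤ (2 : ℝ) ^ ⌊h o⌋ := by
        refine le_trans ?_ h5
        rw [zpow_sub₀ (by norm_num), zpow_natCast, pow_succ, div_le_div_iff₀ (by positivity)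
          (by positivity)]
        have h8 : a x * 2 ^ g ≤ (2 * (2 : ℝ) ^ ⌊h x⌋) * 2 ^ g :=
          mul_le_mul_of_nonneg_right h6.le (by positivity)
        calc a x * 2 ^ g ≤ (2 * (2 : ℝ) ^ ⌊h x⌋) * 2 ^ g := h8
          _ = (2 : ℝ) ^ ⌊h x⌋ * (2 ^ g * 2) := by ring
      calc n x / 2 ^ (g + 1) = a x / 2 ^ (g + 1) * rw' x := by
            rw [hrw]
            simp only
            rw [div_mul_div_comm, mul_comm (a x) (n x), mul_div_mul_right _ _ (ha x).ne']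
        _ ≤ (2 : ℝ) ^ ⌊h o⌋ * rw' x := mul_le_mul_of_nonneg_right h7 (hrw0 x)
    refine le_trans ?_ (Finset.sum_le_sum h3)
    rw [← Finset.mul_sum]
    calc n x * θ / 2 ^ (g + 1) = n x / 2 ^ (g + 1) * θ := by ring
      _ ≤ n x / 2 ^ (g + 1) * ∑ z ∈ W with G.Adj x z ∧ |h x - h z| ≤ g, rw' z :=
          mul_le_mul_of_nonneg_left hx1 (div_nonneg (hn x) hp.le)
  have h3 : ∑ x ∈ W, ∑ o ∈ W with (G.Adj x o ∧ |h x - h o| ≤ g) ∧ ¬ I x o,
      (2 : ℝ) ^ ⌊h o⌋ * rw' x * rw' o ≤ τ * θ / 2 ^ (g + 1) := by convert hI3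
  have h4 : ∑ x ∈ T, ∑ o ∈ W with (G.Adj x o ∧ |h x - h o| ≤ g) ∧ ¬ I x o,
      (2 : ℝ) ^ ⌊h o⌋ * rw' x * rw' o ≤ ∑ x ∈ W, ∑ o ∈ W with
        (G.Adj x o ∧ |h x - h o| ≤ g) ∧ ¬ I x o, (2 : ℝ) ^ ⌊h o⌋ * rw' x * rw' o := by
    refine Finset.sum_le_sum_of_subset_of_nonneg hTW ?_
    intro x _ _
    refine Finset.sum_nonneg ?_
    intro o _
    exact mul_nonneg (mul_nonneg (by positivity) (hrw0 x)) (hrw0 o)
  have h2 : ∑ x ∈ T, n x * θ / 2 ^ (g + 1) ≤ τ * θ / 2 ^ (g + 1) :=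
    (Finset.sum_le_sum h1).trans (h4.trans h3)
  rw [← Finset.sum_div, ← Finset.sum_mul, div_le_div_iff_of_pos_right hp] at h2
  exact le_of_mul_le_mul_right h2 hθ

/-- Windows from levels. -/
theorem win_le {V : Type} (T : Finset V) (h w : V → ℝ) (hw : ∀ y, 0 ≤ w y) (C ρ c : ℝ)
    (hρ : 0 ≤ ρ) (hC0 : 0 ≤ C)
    (hC : ∀ j : ℤ, |(j : ℝ) - c| ≤ ρ + 1 → ∑ z ∈ T with ⌊h z⌋ = j, w z ≤ C) :
    ∑ z ∈ T with |h z - c| ≤ ρ, w z ≤ (2 * ρ + 2) * C := by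
  set J : Finset ℤ := Finset.Icc ⌊c - ρ⌋ ⌊c + ρ⌋ with hJ
  have h1 : ∑ z ∈ T with |h z - c| ≤ ρ, w z ≤ ∑ j ∈ J, ∑ z ∈ T with ⌊h z⌋ = j, w z := by
    have h2 : ∑ j ∈ J, ∑ z ∈ T with ⌊h z⌋ = j, w z = ∑ z ∈ T with ⌊h z⌋ ∈ J, w z := by
      rw [← Finset.sum_fiberwise_of_maps_to (s := T.filter fun z => ⌊h z⌋ ∈ J) (t := J)
        (g := fun z => ⌊h z⌋) (fun z hz => (Finset.mem_filter.1 hz).2)]
      refine Finset.sum_congr rfl fun j hj => Finset.sum_congr ?_ fun _ _ => rfl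
      ext z
      rw [Finset.mem_filter, Finset.mem_filter, Finset.mem_filter]
      exact ⟨fun hz => ⟨⟨hz.1, hz.2 ▸ hj⟩, hz.2⟩, fun hz => ⟨hz.1.1, hz.2⟩⟩
    rw [h2]
    refine Finset.sum_le_sum_of_subset_of_nonneg ?_ fun z _ _ => hw z
    intro z hz
    rw [Finset.mem_filter] at hz ⊢
    have h3 := abs_le.1 hz.2
    refine ⟨hz.1, Finset.mem_Icc.2 ⟨Int.floor_le_floor (by linarith), Int.floor_le_floor ?_⟩⟩
    linarith
  refine h1.trans ?_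
  have h2 : ∀ j ∈ J, ∑ z ∈ T with ⌊h z⌋ = j, w z ≤ C := by
    intro j hj
    rw [hJ, Finset.mem_Icc] at hj
    refine hC j ?_
    have h3 := Int.lt_floor_add_one (c - ρ)
    have h4 := Int.floor_le (c + ρ)
    have h5 : ((⌊c - ρ⌋ : ℤ) : ℝ) ≤ j := by exact_mod_cast hj.1
    have h6 : (j : ℝ) ≤ ((⌊c + ρ⌋ : ℤ) : ℝ) := by exact_mod_cast hj.2
    rw [abs_le]
    constructor <;> linarith
  refine (Finset.sum_le_sum h2).trans ?_
  rw [Finset.sum_const, nsmul_eq_mul]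
  refine mul_le_mul_of_nonneg_right ?_ hC0
  rw [hJ, Int.card_Icc]
  have h3 := Int.lt_floor_add_one (c - ρ)
  have h4 := Int.floor_le (c + ρ)
  have h5 : ⌊c - ρ⌋ ≤ ⌊c + ρ⌋ := Int.floor_le_floor (by linarith)
  have h6 : (((⌊c + ρ⌋ + 1 - ⌊c - ρ⌋).toNat : ℕ) : ℤ) = ⌊c + ρ⌋ + 1 - ⌊c - ρ⌋ :=
    Int.toNat_of_nonneg (by omega)
  have h7 : (((⌊c + ρ⌋ + 1 - ⌊c - ρ⌋).toNat : ℕ) : ℝ) =
      ((⌊c + ρ⌋ : ℤ) : ℝ) + 1 - ((⌊c - ρ⌋ : ℤ) : ℝ) := by
    rw [← Int.cast_natCast, h6]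
    push_cast
    ring
  rw [h7]
  linarith

/-- A node with a partner in the incidence of `stEqF` lies in a strictly self-linked incidence. -/
theorem eqIncS_of {V : Type} (G : SimpleGraph V) (g : ℕ) (W : Finset V) (h w : V → ℝ)
    (hw : ∀ y, 0 ≤ w y) (K C δ' L' ε : ℝ) (hε : 0 < ε) (hC0 : 0 ≤ C) (hδ' : 0 < δ')
    (hL' : 0 ≤ L') (I : V → V → Prop)
    (h1 : ∀ x z, I x z → x ∈ W ∧ z ∈ W ∧ G.Adj x z ∧ |h x - h z| ≤ g)
    (h2 : ∀ x z, I x z → ε ≤ TCH.kap W W I w w x z)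
    (hwin : ∀ x ∈ W, ∑ y ∈ W with G.Adj x y ∧ |h x - h y| ≤ g + 1, w y ≤ K)
    (v : V) (h3 : ∃ z, I v z)
    (h4 : ∀ j : ℤ, ∑ z ∈ W with G.Adj z v ∧ ⌊h z⌋ = j, w z ≤ C)
    (h5 : ∀ j : ℤ, L' ≤ |(j : ℝ) - h v| → ∑ z ∈ W with G.Adj z v ∧ ⌊h z⌋ = j, w z ≤ δ') :
    EqIncS G (K + 1) ((2 * (L' + 6 * (g + 1) + 1) + 2) * C + 1) (ε / 2)
      ((6 * (g + 1) + 3) * δ') (g + 1) (L' + 3 * (g + 1) + 1) W h w w I v where
  mem := fun x z hI => ⟨(h1 x z hI).1, (h1 x z hI).2.1, (h1 x z hI).2.2.1,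
    lt_of_le_of_lt (h1 x z hI).2.2.2 (by linarith)⟩
  wI := fun x z hI => lt_of_le_of_lt (hwin x (h1 x z hI).1) (by linarith)
  rI := fun x z hI => lt_of_le_of_lt (hwin z (h1 x z hI).2.1) (by linarith)
  kp := fun x z hI => lt_of_lt_of_le (by linarith) (h2 x z hI)
  ne := h3
  nr := by
    have h6 := win_le (W.filter fun z => G.Adj z v) h w hw C (L' + 6 * (g + 1) + 1) (h v)
      (by positivity) hC0 (fun j _ => by
        rw [Finset.filter_filter]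
        exact h4 j)
    rw [Finset.filter_filter] at h6
    have h7 : L' + 3 * ((g : ℝ) + 1) + 1 + 3 * (g + 1) = L' + 6 * (g + 1) + 1 := by ring
    rw [h7]
    exact lt_of_le_of_lt h6 (by linarith)
  fr := by
    intro x _ hL
    have h6 := win_le (W.filter fun z => G.Adj z v) h w hw δ' (3 * (g + 1)) (h x)
      (by positivity) hδ'.le (fun j hj => by
        rw [Finset.filter_filter]
        refine h5 j ?_
        have h7 := abs_le.1 hj
        rcases le_abs.1 hL with h8 | h8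
        · exact le_abs.2 (Or.inl (by linarith [h7.1]))
        · exact le_abs.2 (Or.inr (by linarith [h7.2])))
    rw [Finset.filter_filter] at h6
    refine lt_of_le_of_lt h6 ?_
    refine mul_lt_mul_of_pos_right ?_ hδ'
    linarith

end Pool.Agent.Lib.TCW
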