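import Pool.Agent.Lib.TCW.EqF

/-!
# Windows of equal heights: the form used in one stage

`stEqX1`: with one stage (used `R + 1` times) the set `X_EQ` is colourable for every record.
`stEqThin`: nearly all nodes with a large share in the window of equal heights lie in `X_EQ`.
-/

set_option autoImplicit false

namespace Pool.Agent.Lib.TCW

open Finset Classical
open Pool.Agent.Lib.TCH
open Pool.Agent.Lib.GSR3 (Tree)
open Pool.Agent.Lib.FGF (Frac)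
open Pool.Agent.Lib.GR3 (Env Cl Sm)

/-- The vertices of `W` in strictly self-linked incidences of equal heights. -/
def XEq {V : Type} (G : SimpleGraph V) (K0 K1 ε δ g L : ℝ) (W : Finset V) (h w : V → ℝ) : Set V :=
  {v | ∃ I : V → V → Prop, EqIncS G K0 K1 ε δ g L W h w w I v}

/-- One stage: `X_EQ` is colourable for every record. -/
theorem stEqX1 (V : Type) (E : Env V) (D0 m : ℕ) (W0 : Set V) (R : ℕ) (hvc : GIT.VC E.G D0)
    (hno : ∀ D : Lv V, OK E.G m (fun _ _ => True) (R + 1) W0 D → Sm E D.dom)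
    (K0 ε : ℝ) (hK0 : 0 < K0) (hε : 0 < ε) : ∃ δ : ℝ, 0 < δ ∧
        ∀ K1 : ℝ, ∃ C : ℕ, ∀ (n : ℕ) (g L : ℝ) (W : Finset V) (h w : V → ℝ),
          (∀ z ∈ W, z ∈ W0 ∧ E.c z = n) → (∀ x, 0 ≤ w x) →
          Cl E (XEq E.G K0 K1 ε δ g L W h w) C := by
  obtain ⟨δ, hδ, hC⟩ := stEqXS V E D0 m W0 R hvc hno (R + 1) K0 ε hK0 hε le_rfl
  refine ⟨δ, hδ, fun K1 => ?_⟩
  obtain ⟨C, hC'⟩ := hC K1
  refine ⟨C, fun n g L W h w hW hw => ?_⟩
  refine (hC' n (fun _ => g) (fun _ => L) (fun _ => W) (fun _ => h) (fun _ => w) (fun _ => w)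
    (fun _ _ => hW) (fun _ => hw) (fun _ => hw)).mono ?_ le_rfl
  intro v hv s _
  exact hv

/-- Openness of `X_EQ`. -/
theorem isOpen_xEq {Θ V : Type} [TopologicalSpace Θ] (G : SimpleGraph V)
    (K0 K1 ε δ g L : ℝ) (W : Finset V)
    (h w : Θ → V → ℝ) (hh : ∀ y, Continuous fun θ => h θ y)
    (hw : ∀ y ∈ W, Continuous fun θ => w θ y) (hw0 : ∀ θ, ∀ y ∈ W, 0 ≤ w θ y) (v : V) :
    IsOpen {θ | v ∈ XEq G K0 K1 ε δ g L W (h θ) (w θ)} :=
  isOpen_eqIncS G K0 K1 ε δ g L W h w w hh hw hw hw0 hw0 v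

/-- Nearly all nodes with a share at least `θ` in the window of equal heights lie in `X_EQ`
(level masses at most `C`, and at most `δ'` at the levels at distance at least `L'`). -/
theorem stEqThin (M d g : ℕ) (F C θ τ : ℝ) (hM : 1 ≤ M) (hF : 1 ≤ F) (hC : 0 < C) (hθ : 0 < θ)
    (hτ : 0 < τ) : ∃ ε : ℝ, 0 < ε ∧
    ∀ (V : Type) [Fintype V] (G : SimpleGraph V) (W : Finset V) (n a : V → ℝ) (δ' L' : ℝ),
      Frac G F → (∀ φ : List (Fin M) → V, ¬ Tree G d M φ) →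
      (∀ x, 0 ≤ n x) → (∀ x, 0 < a x) → ∑ x ∈ W, n x ≤ 1 → 0 < δ' → 0 ≤ L' →
      (∀ x ∈ W, ∀ j : ℤ, ∑ y ∈ W with G.Adj y x ∧ ⌊Real.logb 2 (a y)⌋ = j, n y / a y ≤ C) →
      ∑ x ∈ W with θ ≤ ∑ z ∈ W with G.Adj x z ∧
            |Real.logb 2 (a x) - Real.logb 2 (a z)| ≤ g, n z / a z ∧
          (∀ j : ℤ, L' ≤ |(j : ℝ) - Real.logb 2 (a x)| →
            ∑ y ∈ W with G.Adj y x ∧ ⌊Real.logb 2 (a y)⌋ = j, n y / a y ≤ δ') ∧
          x ∉ XEq G ((2 * (g + 1) + 2) * C + 1) ((2 * (L' + 6 * (g + 1) + 1) + 2) * C + 1) ε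
            ((6 * (g + 1) + 3) * δ') (g + 1) (L' + 3 * (g + 1) + 1) W
            (fun y => Real.logb 2 (a y)) (fun y => n y / a y), n x ≤ τ := by
  have hg0 : (0 : ℝ) ≤ g := Nat.cast_nonneg g
  obtain ⟨ε, hε, hS⟩ := stEqF M d g F ((2 * (g + 1) + 2) * C) θ τ hM hF (by positivity) hθ hτ
  refine ⟨ε / 2, by positivity, ?_⟩
  intro V _ G W n a δ' L' hFr hT hn ha hn1 hδ' hL' hlev
  have hw0 : ∀ y, 0 ≤ n y / a y := fun y => div_nonneg (hn y) (ha y).le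
  have hwin : ∀ x ∈ W, ∑ y ∈ W with G.Adj x y ∧
      |Real.logb 2 (a x) - Real.logb 2 (a y)| ≤ g + 1, n y / a y ≤ (2 * (g + 1) + 2) * C := by
    intro x hx
    have h1 := win_le (W.filter fun z => G.Adj z x) (fun y => Real.logb 2 (a y))
      (fun y => n y / a y) hw0 C (g + 1) (Real.logb 2 (a x)) (by positivity) hC.le (fun j _ => by
        rw [Finset.filter_filter]
        exact hlev x hx j)
    rw [Finset.filter_filter] at h1
    refine le_trans (le_of_eq (Finset.sum_congr ?_ fun _ _ => rfl)) h1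
    refine Finset.filter_congr fun y _ => ?_
    rw [G.adj_comm, abs_sub_comm]
  obtain ⟨I, hI1, hI2, hI3⟩ := hS V G W n a hFr hT hn ha hn1 hwin
  refine le_trans (Finset.sum_le_sum_of_subset_of_nonneg ?_ fun x _ _ => hn x) hI3
  intro x hx
  rw [Finset.mem_filter] at hx ⊢
  obtain ⟨hxW, hx1, hx2, hx3⟩ := hx
  refine ⟨hxW, hx1, fun z hz => hx3 ⟨I, ?_⟩⟩
  exact eqIncS_of G g W (fun y => Real.logb 2 (a y)) (fun y => n y / a y) hw0
    ((2 * (g + 1) + 2) * C) C δ' L' ε hε hC.le hδ' hL' I hI1 hI2 hwin x ⟨z, hz⟩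
    (hlev x hxW) hx2

end Pool.Agent.Lib.TCW
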