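import Pool.Agent.Lib.TCW.D2
import Pool.Agent.Lib.TCH.Unif

/-!
# From levels in the fibres to small sets

Levels in different fibres form one level.  If a set `W0` does not carry big levels of quality
`R + 1` then the structures in the fibres which give levels live on `C`-colourable sets, with a
uniform `C` (compactness).
-/

set_option autoImplicit false

namespace Pool.Agent.Lib.TCW

open Finset Classical
open Pool.Agent.Lib.TCH
open Pool.Agent.Lib.GR3 (Env Cl Sm)

namespace UnifG_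

theorem ms_nn {V : Type} {p : V →₀ ℝ} (hp : ∀ y, 0 ≤ p y) (S : Set V) : 0 ≤ ms p S :=
  Finset.sum_nonneg fun y _ => hp y

/-- Levels in different fibres form one level. -/
theorem comb {V : Type} (E : Env V) (m R q N : ℕ) (W : Set V) (n : ℕ → ℕ)
    (hn : Function.Injective n) (D : ℕ → Lv V) (hR : R + 1 ≤ q)
    (hq : ∀ j, (D j).q = q) (hDN : ∀ j, (D j).N = N)
    (hD : ∀ j, OK E.G m (fun _ _ => True) (R + 1) {v | v ∈ W ∧ E.c v = n j} (D j)) :
    ∃ D' : Lv V, OK E.G m (fun _ _ => True) (R + 1) W D' ∧ D'.dom = {x | ∃ j, x ∈ (D j).dom} := by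
  have hc : ∀ j, ∀ x ∈ (D j).dom, E.c x = n j := fun j x hx => ((hD j).sub hx).2
  set J : V → ℕ := fun x => if h : ∃ j, n j = E.c x then h.choose else 0 with hJ
  have hJ1 : ∀ j x, E.c x = n j → J x = j := by
    intro j x hx
    have h : ∃ j, n j = E.c x := ⟨j, hx.symm⟩
    rw [hJ]
    simp only
    rw [dif_pos h]
    exact hn (h.choose_spec.trans hx)
  have hsup : ∀ j, ∀ s < q, ∀ x ∈ (D j).dom, ∀ y, (D j).p s x y ≠ 0 → y ∈ W ∧ E.c y = n j :=
    fun j s hs x hx y hy => ((hD j).sup s (by rw [hq]; exact hs) x hx y hy).1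
  obtain ⟨nr, hnr⟩ : ∃ nr : ℕ → V → V → Prop, ∀ s x t,
      nr s x t ↔ (E.c x = E.c t → (D (J x)).near s x t) := ⟨_, fun _ _ _ => Iff.rfl⟩
  refine ⟨⟨q, fun s x => (D (J x)).p s x, nr, max N (R + 1), {x | ∃ j, x ∈ (D j).dom},
    fun _ _ => 0⟩, ?_, rfl⟩
  refine ⟨?_, by omega, hR, ?_, ?_, ?_, ?_, ?_, ?_, ?_⟩
  · rintro x ⟨j, hj⟩
    exact ((hD j).sub hj).1
  · rintro s hs x ⟨j, hj⟩ y
    have h1 := hJ1 j x (hc j x hj)
    simp only
    rw [h1]
    exact (hD j).nn s (by rw [hq]; exact hs) x hj y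
  · rintro s hs x ⟨j, hj⟩
    have h1 := hJ1 j x (hc j x hj)
    simp only
    rw [h1]
    exact (hD j).one s (by rw [hq]; exact hs) x hj
  · rintro s hs x ⟨j, hj⟩ y hy
    have h1 := hJ1 j x (hc j x hj)
    simp only at hy
    rw [h1] at hy
    exact ⟨(hsup j s hs x hj y hy).1, trivial⟩
  · rintro s hs x ⟨j, hj⟩ y ⟨i, hi⟩
    have h1 := hJ1 j x (hc j x hj)
    simp only
    rw [h1]
    by_cases hij : i = j
    · rw [hij] at hi
      exact (hD j).atm s (by rw [hq]; exact hs) x hj y hi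
    · have h2 : (D j).p s x y = 0 := by
        by_contra h3
        have h4 := (hsup j s hs x hj y h3).2
        exact hij (hn ((hc i y hi).symm.trans h4))
      rw [h2, mul_zero]
      exact zero_le_one
  · rintro s hs x ⟨j, hj⟩
    have h1 := hJ1 j x (hc j x hj)
    simp only
    rw [h1]
    exact (hD j).adj s (by rw [hq]; exact hs) x hj
  · -- the weak budget
    rintro r hr t ⟨i, hi⟩ I hI hIr X hXN hX
    simp only at hI hXN hX ⊢
    have hN : N ≤ X.card := (le_max_left _ _).trans hXN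
    have hN' : R + 1 ≤ X.card := (le_max_right _ _).trans hXN
    rcases I.eq_empty_or_nonempty with rfl | ⟨s0, hs0⟩
    · -- no stages
      rw [Finset.card_empty] at hIr
      obtain ⟨X', hX', hX'c⟩ := Finset.exists_subset_card_eq hN'
      exact ⟨X', hX', hX'c, ∅, Finset.Subset.rfl, by rw [Finset.card_empty]; omega,
        fun x _ x' _ s hs => absurd hs (Finset.notMem_empty s)⟩
    · -- all owners are in the fibre of `t`
      have hXi : ∀ x ∈ X, x ∈ (D i).dom ∧ J x = i ∧ E.c x = E.c t := by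
        intro x hx
        obtain ⟨⟨j, hj⟩, h1⟩ := hX x hx
        have h2 := (h1 s0 hs0).2
        rw [hJ1 j x (hc j x hj)] at h2
        have h3 : ms ((D j).p s0 x) {y | E.G.Adj y t} ≠ 0 := by
          intro h3
          rw [h3, mul_zero] at h2
          linarith
        obtain ⟨y, hy, -⟩ := Finset.exists_ne_zero_of_sum_ne_zero h3
        rw [Finset.mem_filter, Finsupp.mem_support_iff] at hy
        have h4 := (hsup j s0 (Finset.mem_range.1 (hI hs0)) x hj y hy.1).2
        have h5 : E.c x = E.c t := (hc j x hj).trans (h4.symm.trans (E.adj_c y t hy.2))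
        have h6 : j = i := hn ((hc j x hj).symm.trans (h5.trans (hc i t hi)))
        rw [h6] at hj
        exact ⟨hj, hJ1 i x (hc i x hj), h5⟩
      obtain ⟨X', hX', hX'c, Jr, hJr, hJrc, hP⟩ := (hD i).wb r hr t hi I (by rw [hq]; exact hI)
        hIr X (by rw [hDN]; exact hN) (by
          intro x hx
          obtain ⟨h1, h2, h3⟩ := hXi x hx
          refine ⟨h1, fun s hs => ?_⟩
          obtain ⟨h4, h5⟩ := (hX x hx).2 s hs
          have h6 := (hnr s x t).1 h4 h3
          rw [h2] at h5 h6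
          exact ⟨h6, h5⟩)
      refine ⟨X', hX', hX'c, Jr, hJr, hJrc, fun x hx x' hx' s hs => ?_⟩
      rw [(hXi x (hX' hx)).2.1, (hXi x' (hX' hx')).2.1]
      exact hP x hx x' hx' s hs
  · rintro x ⟨j, hj⟩ t ⟨i, hi⟩
    have h1 := hJ1 j x (hc j x hj)
    by_cases hij : i = j
    · rw [hij] at hi
      refine le_trans (Finset.card_le_card ?_) ((hD j).conf x hj t hi)
      intro s hs
      rw [Finset.mem_filter] at hs ⊢
      rw [hq]
      refine ⟨hs.1, fun h => hs.2 ((hnr s x t).2 fun _ => ?_)⟩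
      rw [h1]
      exact h
    · have h2 : ((range q).filter fun s => ¬ nr s x t) = ∅ := by
        refine Finset.filter_eq_empty_iff.2 fun s _ h => h ((hnr s x t).2 fun h3 => ?_)
        exact absurd (hn ((hc i t hi).symm.trans (h3.symm.trans (hc j x hj)))) hij
      simp only
      rw [h2, Finset.card_empty]
      exact Nat.zero_le _

end UnifG_

open UnifG_

/-- Compactness: `Pr A n` are the structures on the set `A` in the fibre `n`. -/
theorem unif_gen {V : Type} (E : Env V) (m R q N N' : ℕ) (W0 : Set V) (hR : R + 1 ≤ q)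
    (hno : ∀ D : Lv V, OK E.G m (fun _ _ => True) (R + 1) W0 D → Sm E D.dom)
    (Pr : Finset V → ℕ → Prop)
    (hP : ∀ A n, Pr A n → (∀ x ∈ A, E.c x = n) ∧ ∃ (f : V → Fin N) (D : Fin N → Lv V),
      ∀ i, (D i).q = q ∧ (D i).N = N' ∧ (D i).dom = {x | x ∈ A ∧ f x = i} ∧
        OK E.G m (fun _ _ => True) (R + 1) {v | v ∈ W0 ∧ E.c v = n} (D i)) :
    ∃ C : ℕ, ∀ A n, Pr A n → Cl E {x | x ∈ A} C := by
  by_contra hcon
  push Not at hcon
  -- bad structures in the fibres
  have hlev : ∀ C : ℕ, ∃ (n : ℕ) (f : V → Fin N) (D : Fin N → Lv V) (A : Finset V),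
      ¬ Cl E {x | x ∈ A} C ∧ (∀ x ∈ A, E.c x = n) ∧
      ∀ i, (D i).q = q ∧ (D i).N = N' ∧ (D i).dom = {x | x ∈ A ∧ f x = i} ∧
        OK E.G m (fun _ _ => True) (R + 1) {v | v ∈ W0 ∧ E.c v = n} (D i) := by
    intro C
    obtain ⟨A, n, hAn, hA⟩ := hcon C
    obtain ⟨h1, f, D, hfD⟩ := hP A n hAn
    exact ⟨n, f, D, A, hA, h1, hfD⟩
  choose n f D A hA hAn hD using hlev
  -- a sequence of bad structures in different fibres
  have hC : ∃ C : ℕ → ℕ, (∀ j, j ≤ C j) ∧ Function.Injective fun j => n (C j) := by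
    have hstep : ∀ (j : ℕ) (S : Finset ℕ), ∃ C', j ≤ C' ∧ n C' ∉ S := by
      intro j S
      refine ⟨max j (∑ i ∈ S, (E.fib i).card), le_max_left _ _, fun hin => ?_⟩
      refine hA (max j (∑ i ∈ S, (E.fib i).card)) ?_
      refine (TCH.Unif_.fibre E _ {x | x ∈ A _} (hAn _)).mono Set.Subset.rfl ?_
      exact le_trans (Finset.single_le_sum (f := fun i => (E.fib i).card)
        (fun _ _ => Nat.zero_le _) hin) (le_max_right _ _)
    choose g hg1 hg2 using hstep
    let T : ℕ → Finset ℕ := fun j => Nat.rec ∅ (fun j S => insert (n (g j S)) S) j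
    have hT : ∀ j, T (j + 1) = insert (n (g j (T j))) (T j) := fun j => rfl
    have hTm : ∀ i j, i ≤ j → T i ⊆ T j := by
      intro i j hij
      induction j, hij using Nat.le_induction with
      | base => exact Finset.Subset.rfl
      | succ j _ ih =>
        rw [hT]
        exact ih.trans (Finset.subset_insert _ _)
    refine ⟨fun j => g j (T j), fun j => hg1 _ _, ?_⟩
    have hlt : ∀ i j, i < j → n (g i (T i)) ≠ n (g j (T j)) := by
      intro i j hij he
      refine hg2 j (T j) ?_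
      rw [← he]
      refine hTm (i + 1) j hij ?_
      rw [hT]
      exact Finset.mem_insert_self _ _
    intro i j hij
    by_contra hne
    rcases lt_or_gt_of_ne hne with h | h
    · exact hlt i j h hij
    · exact hlt j i h hij.symm
  obtain ⟨C, hC1, hC2⟩ := hC
  have hcomb : ∀ i : Fin N, ∃ D' : Lv V, OK E.G m (fun _ _ => True) (R + 1) W0 D' ∧
      D'.dom = {x | ∃ j, x ∈ (D (C j) i).dom} := fun i =>
    comb E m R q N' W0 (fun j => n (C j)) hC2 (fun j => D (C j) i) hR
      (fun j => (hD (C j) i).1) (fun j => (hD (C j) i).2.1) fun j => (hD (C j) i).2.2.2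
  choose D' hD'1 hD'2 using hcomb
  have hsm : ∀ i, Sm E (D' i).dom := by
    intro i
    exact hno (D' i) (hD'1 i)
  have hall : Sm E {x | ∃ i ∈ (Finset.univ : Finset (Fin N)), x ∈ (D' i).dom} :=
    GR3.sm_biUnion Finset.univ (fun i => (D' i).dom) fun i _ => hsm i
  obtain ⟨c, hc⟩ := hall
  refine hA (C c) (hc.mono ?_ (hC1 c))
  intro x hx
  refine ⟨f (C c) x, Finset.mem_univ _, ?_⟩
  rw [hD'2]
  refine ⟨c, ?_⟩
  rw [(hD (C c) _).2.2.1]
  exact ⟨hx, rfl⟩

/-- A set which is not good has a big subset without big levels. -/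
theorem exists_of_not_good {V : Type} (E : Env V) (m : ℕ) (W : Set V)
    (h : ¬ Good E.G (fun A => ¬ Sm E A) m (fun _ _ => True) W) :
    ∃ (W0 : Set V) (R : ℕ), W0 ⊆ W ∧ ¬ Sm E W0 ∧
      ∀ D : Lv V, OK E.G m (fun _ _ => True) (R + 1) W0 D → Sm E D.dom := by
  unfold Good at h
  push Not at h
  obtain ⟨W0, hW0, hbig, R, hno⟩ := h
  exact ⟨W0, R, hW0, hbig, fun D hD => hno D hD⟩

end Pool.Agent.Lib.TCW
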