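import Pool.Agent.Lib.TCW.StgD
import Pool.Agent.Lib.TCW.UnifG

/-!
# Levels from self-linked incidences with heights (windows of equal heights)

Only the (real) heights of the labels and the nodes are used: the labels near the height of `t` have
bounded weight at `t`, the labels in any other window of heights have small weight at `t`.
-/

set_option autoImplicit false

namespace Pool.Agent.Lib.TCW

open Finset Classical
open Pool.Agent.Lib.TCH
open Pool.Agent.Lib.GR3 (Env Cl Sm)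

/-- One stage with heights `hN` of the nodes and `hL` of the labels. -/
structure StgE {V Ω : Type} (G : SimpleGraph V) (K0 K1 ε δ : ℝ) (g L : ℝ) (A As : Finset V)
    (O : Finset Ω) (hub : Ω → V) (E : V → Ω → Prop) (hN : V → ℝ) (hL : Ω → ℝ) (r : V → ℝ)
    (w : Ω → ℝ) : Prop where
  stg : StgC G K0 ε A As O hub E r w
  hE : ∀ x ∈ As, ∀ o ∈ O, E x o → |hN x - hL o| ≤ g
  nr : ∀ t ∈ A, ∑ o ∈ O with G.Adj (hub o) t ∧ |hL o - hN t| ≤ L + 3 * g, w o ≤ K1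
  fr : ∀ t ∈ A, ∀ x ∈ A, L < |hN x - hN t| →
    ∑ o ∈ O with G.Adj (hub o) t ∧ |hL o - hN x| ≤ 3 * g, w o ≤ δ

namespace EqW_

/-- Pigeonhole: many nodes with the same laws at the stages in `J`. -/
theorem pig {V B : Type} [DecidableEq B] (P : ℕ → V → B) (T k : ℕ) (hT : 1 ≤ T) (hk : 1 ≤ k) (J : Finset ℕ) :
    ∀ X : Finset V, (∀ s ∈ J, (X.image (P s)).card ≤ T) → k * T ^ J.card ≤ X.card →
      ∃ X' ⊆ X, k ≤ X'.card ∧ ∀ x ∈ X', ∀ x' ∈ X', ∀ s ∈ J, P s x = P s x' := by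
  induction J using Finset.induction_on with
  | empty =>
    intro X _ hX
    rw [Finset.card_empty, pow_zero, mul_one] at hX
    exact ⟨X, Finset.Subset.rfl, hX, fun x _ x' _ s hs => absurd hs (Finset.notMem_empty s)⟩
  | @insert s J hs ih =>
    intro X hXT hX
    rw [Finset.card_insert_of_notMem hs, pow_succ, ← mul_assoc] at hX
    have hpos : 1 ≤ k * T ^ J.card := Nat.mul_pos hk (Nat.pow_pos hT)
    have hXne : X.Nonempty := by
      rw [← Finset.card_pos]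
      have h1 : 1 * 1 ≤ k * T ^ J.card * T := Nat.mul_le_mul hpos hT
      omega
    obtain ⟨b, -, hb⟩ := Finset.exists_le_card_fiber_of_mul_le_card_of_maps_to
      (s := X) (t := X.image (P s)) (f := P s) (n := k * T ^ J.card)
      (fun x hx => Finset.mem_image_of_mem _ hx) (hXne.image _) (by
        refine le_trans ?_ hX
        rw [mul_comm]
        exact Nat.mul_le_mul_left _ (hXT s (Finset.mem_insert_self s J)))
    obtain ⟨X', hX', hX'c, hP⟩ := ih (X.filter fun x => P s x = b) (fun s' hs' =>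
      (Finset.card_le_card (Finset.image_subset_image (Finset.filter_subset _ _))).trans
        (hXT s' (Finset.mem_insert_of_mem hs'))) hb
    refine ⟨X', hX'.trans (Finset.filter_subset _ _), hX'c, fun x hx x' hx' s' hs' => ?_⟩
    rcases Finset.mem_insert.1 hs' with rfl | hs'
    · rw [(Finset.mem_filter.1 (hX' hx)).2, (Finset.mem_filter.1 (hX' hx')).2]
    · exact hP x hx x' hx' s' hs'

/-- Few different laws. -/
theorem few {V : Type} (p : V → V →₀ ℝ) (R : ℕ) (K' : ℝ) (Q : Set V) (X : Finset V)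
    (h1 : ∀ x ∈ X, 1 ≤ ((R + 1 : ℕ) : ℝ) * ms (p x) Q)
    (h2 : ∀ X' ⊆ X, (∀ x ∈ X', ∀ x' ∈ X', p x = p x' → x = x') → ∑ x ∈ X', ms (p x) Q ≤ K') :
    (X.image p).card ≤ ⌊((R + 1 : ℕ) : ℝ) * K'⌋₊ := by
  obtain ⟨X', hX', hX'c, hinj⟩ : ∃ X' ⊆ X, X'.card = (X.image p).card ∧
      ∀ x ∈ X', ∀ x' ∈ X', p x = p x' → x = x' := by
    obtain ⟨S, hS, hb⟩ := Set.exists_subset_bijOn (↑X : Set V) p
    have hSX : ((X.filter fun x => x ∈ S : Finset V) : Set V) = S := by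
      ext x
      rw [Finset.mem_coe, Finset.mem_filter]
      exact ⟨fun h => h.2, fun h => ⟨hS h, h⟩⟩
    refine ⟨X.filter fun x => x ∈ S, Finset.filter_subset _ _, ?_, ?_⟩
    · rw [← Finset.card_image_of_injOn (f := p) (s := X.filter fun x => x ∈ S) (by
        rw [hSX]
        exact hb.injOn)]
      congr 1
      ext b
      have h3 := hb.image_eq
      rw [← Finset.mem_coe, ← Finset.mem_coe, Finset.coe_image, Finset.coe_image, hSX, h3]
    · intro x hx x' hx' he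
      exact hb.injOn (Finset.mem_filter.1 hx).2 (Finset.mem_filter.1 hx').2 he
  rw [← hX'c]
  refine Nat.le_floor ?_
  calc (X'.card : ℝ) = ∑ _x ∈ X', (1 : ℝ) := by simp
    _ ≤ ∑ x ∈ X', ((R + 1 : ℕ) : ℝ) * ms (p x) Q := Finset.sum_le_sum fun x hx => h1 x (hX' hx)
    _ = ((R + 1 : ℕ) : ℝ) * ∑ x ∈ X', ms (p x) Q := by rw [Finset.mul_sum]
    _ ≤ ((R + 1 : ℕ) : ℝ) * K' := mul_le_mul_of_nonneg_left (h2 X' hX' hinj) (Nat.cast_nonneg _)

end EqW_

open EqW_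

/-- The levels given by self-linked incidences with heights. -/
def StLvlE : Prop :=
  ∀ (D0 R q : ℕ) (K0 ε : ℝ), 0 < K0 → 0 < ε → R + 1 ≤ q → ∃ δ : ℝ, 0 < δ ∧
    ∀ K1 : ℝ, ∃ (N N' : ℕ), ∀ (V Ω : Type) (G : SimpleGraph V) (m : ℕ) (W1 : Set V) (A : Finset V) (As : ℕ → Finset V)
      (O : ℕ → Finset Ω) (hub : ℕ → Ω → V) (E : ℕ → V → Ω → Prop) (hN : ℕ → V → ℝ)
      (hL : ℕ → Ω → ℝ) (r : ℕ → V → ℝ) (w : ℕ → Ω → ℝ) (g L : ℕ → ℝ), GIT.VC G D0 →
      (∀ x ∈ A, x ∈ W1) →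
      (∀ s < q, StgE G K0 K1 ε δ (g s) (L s) A (As s) (O s) (hub s) (E s) (hN s) (hL s) (r s)
        (w s)) →
      (∀ s < q, ∀ o ∈ O s, hub s o ∈ W1) →
      ∃ (f : V → Fin N) (D : Fin N → Lv V), ∀ i, (D i).q = q ∧ (D i).N = N' ∧
        (D i).dom = {x | x ∈ A ∧ f x = i} ∧ OK G m (fun _ _ => True) (R + 1) W1 (D i)

theorem stLvlE : StLvlE := by
  intro D0 R q K0 ε hK0 hε hRq
  obtain ⟨B, K', c, hc, hStg⟩ := stStgD D0 R K0 ε hK0 hε
  have hR : (0 : ℝ) < (R + 1 : ℕ) := by positivity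
  refine ⟨c / (2 * (R + 1 : ℕ)), by positivity, fun K1 => ?_⟩
  set T : ℕ := ⌊((R + 1 : ℕ) : ℝ) * (K' * K1)⌋₊ + 1 with hT
  refine ⟨B ^ q * 3 ^ (q * (R + 1)) + 1, (R + 1) * T ^ (R + 1), ?_⟩
  intro V Ω G m W1 A As O hub E hN hL r w g L hG hAW hS hhub
  rcases A.eq_empty_or_nonempty with hA | hA
  · -- no nodes
    refine ⟨fun _ => 0, fun _ => ⟨q, fun _ _ => 0, fun _ _ _ => False, (R + 1) * T ^ (R + 1), ∅,
      fun _ _ => 0⟩, ?_⟩
    intro i
    refine ⟨rfl, rfl, ?_, ?_⟩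
    · simp [hA]
    · refine ⟨Set.empty_subset _, by omega, hRq, ?_, ?_, ?_, ?_, ?_, ?_, ?_⟩
      · exact fun _ _ x hx => absurd hx (Set.notMem_empty x)
      · exact fun _ _ x hx => absurd hx (Set.notMem_empty x)
      · exact fun _ _ x hx => absurd hx (Set.notMem_empty x)
      · exact fun _ _ x hx => absurd hx (Set.notMem_empty x)
      · exact fun _ _ x hx => absurd hx (Set.notMem_empty x)
      · exact fun _ _ x hx => absurd hx (Set.notMem_empty x)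
      · exact fun x hx => absurd hx (Set.notMem_empty x)
  have h1 : ∀ s : ℕ, ∃ (i : V → Fin B) (P : V → V →₀ ℝ) (cls : V → Ω → Prop), s < q →
      (∀ x ∈ A, ∀ y, 0 ≤ P x y) ∧ (∀ x ∈ A, ∑ y ∈ (P x).support, P x y = 1) ∧
      (∀ x ∈ A, ∀ y, P x y ≠ 0 → ∃ o ∈ O s, hub s o = y) ∧
      (∀ x ∈ A, ((R + 1 : ℕ) : ℝ) * ms (P x) {y | ¬ G.Adj x y} ≤ 1) ∧
      (∀ x ∈ A, ∀ Q : Set V,
        c * ms (P x) Q ≤ ∑ o ∈ O s with hub s o ∈ Q ∧ cls x o, w s o) ∧
      (∀ x ∈ A, ∀ o ∈ O s, cls x o →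
        ∃ l ∈ As s, (∃ o' ∈ O s, E s x o' ∧ E s l o') ∧ E s l o) ∧
      ∀ b, ∀ t : V, ∀ (Nr : Ω → Prop) (K1 : ℝ), ∑ o ∈ O s with Nr o, w s o ≤ K1 →
        ∀ X : Finset V,
        (∀ x ∈ X, x ∈ A ∧ i x = b ∧ ∀ o ∈ O s, cls x o → G.Adj (hub s o) t → Nr o) →
        (∀ x ∈ X, ∀ x' ∈ X, P x = P x' → x = x') →
          ∑ x ∈ X, ms (P x) {y | G.Adj y t} ≤ K' * K1 := by
    intro s
    by_cases hs : s < q
    · obtain ⟨i, P, cls, h⟩ := hStg V Ω G A (As s) (O s) (hub s) (E s) (r s) (w s) hG hA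
        (hS s hs).stg
      exact ⟨i, P, cls, fun _ => h⟩
    · obtain ⟨i, P, cls, -⟩ := hStg V Ω G A (As 0) (O 0) (hub 0) (E 0) (r 0) (w 0) hG hA
        (hS 0 (by omega)).stg
      exact ⟨i, P, cls, fun h => absurd h hs⟩
  choose i P cls hP using h1
  obtain ⟨φ, hφ⟩ := TCH.Lvl_.atoms q R A P (fun s hs x hx => (hP s hs).1 x hx)
    (fun s hs x hx => (hP s hs).2.1 x hx)
  set cl : V → Fin (B ^ q * 3 ^ (q * (R + 1))) := fun x =>
    finProdFinEquiv (finFunctionFinEquiv fun s : Fin q => i s x, φ x) with hcl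
  have hB : ∀ x : V, (cl x).1 < B ^ q * 3 ^ (q * (R + 1)) + 1 :=
    fun x => lt_of_lt_of_le (Fin.is_lt _) (Nat.le_succ _)
  refine ⟨fun x => ⟨(cl x).1, hB x⟩,
    fun k => ⟨q, P, fun _ _ _ => True, (R + 1) * T ^ (R + 1), {x | x ∈ A ∧ (⟨(cl x).1, hB x⟩ :
      Fin (B ^ q * 3 ^ (q * (R + 1)) + 1)) = k}, fun _ _ => 0⟩, ?_⟩
  intro k
  refine ⟨rfl, rfl, rfl, ?_⟩
  have hcc : ∀ x x' : V, (⟨(cl x).1, hB x⟩ : Fin (B ^ q * 3 ^ (q * (R + 1)) + 1)) =
        ⟨(cl x').1, hB x'⟩ → (∀ s < q, i s x = i s x') ∧ φ x = φ x' := by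
    intro x x' h
    have h2 : (cl x).1 = (cl x').1 := by
      have h2' := Fin.val_eq_of_eq h
      exact h2'
    have h3 := finProdFinEquiv.injective (Fin.ext h2)
    have h4 := congrArg Prod.fst h3
    have h5 := congrArg Prod.snd h3
    have h6 := finFunctionFinEquiv.injective h4
    exact ⟨fun s hs => congrFun h6 ⟨s, hs⟩, h5⟩
  have hi : ∀ x x' : V, (⟨(cl x).1, hB x⟩ : Fin (B ^ q * 3 ^ (q * (R + 1)) + 1)) =
        ⟨(cl x').1, hB x'⟩ → ∀ s < q, i s x = i s x' := fun x x' h => (hcc x x' h).1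
  refine ⟨fun x hx => hAW x hx.1, by omega, hRq, ?_, ?_, ?_, ?_, ?_, ?_, ?_⟩
  · exact fun s hs x hx y => (hP s hs).1 x hx.1 y
  · exact fun s hs x hx => (hP s hs).2.1 x hx.1
  · intro s hs x hx y hy
    obtain ⟨o, ho, rfl⟩ := (hP s hs).2.2.1 x hx.1 y hy
    exact ⟨hhub s hs o ho, trivial⟩
  · intro s hs x hx y hy
    rcases eq_or_ne y x with rfl | hyx
    · refine le_trans ?_ ((hP s hs).2.2.2.1 y hx.1)
      refine mul_le_mul_of_nonneg_left ?_ (Nat.cast_nonneg _)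
      exact TCH.Lvl_.le_ms (fun z => (hP s hs).1 y hx.1 z) (G.loopless.irrefl y)
    · exact hφ s hs x hx.1 y hyx (hcc y x (hy.2.trans hx.2.symm)).2
  · exact fun s hs x hx => (hP s hs).2.2.2.1 x hx.1
  · -- the weak budget
    intro r' hr' t ht I hI hIr X hXN hX
    simp only at hI hXN hX ⊢
    -- the heights of the labels in the class
    have hht : ∀ s < q, ∀ x ∈ A, ∀ o ∈ O s, cls s x o → |hL s o - hN s x| ≤ 3 * g s := by
      intro s hs x hx o ho hxo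
      obtain ⟨l, hl, ⟨o', ho', h2, h3⟩, h4⟩ := (hP s hs).2.2.2.2.2.1 x hx o ho hxo
      have h5 := abs_le.1 ((hS s hs).hE x ((hS s hs).stg.sub hx) o' ho' h2)
      have h6 := abs_le.1 ((hS s hs).hE l hl o' ho' h3)
      have h7 := abs_le.1 ((hS s hs).hE l hl o ho h4)
      rw [abs_le]
      constructor <;> linarith [h5.1, h5.2, h6.1, h6.2, h7.1, h7.2]
    -- the owners have the height of `t`
    have hnear : ∀ x ∈ X, ∀ s ∈ I, |hN s x - hN s t| ≤ L s := by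
      intro x hx s hs
      have hsq : s < q := Finset.mem_range.1 (hI hs)
      by_contra hcon
      push Not at hcon
      obtain ⟨hxd, hx2⟩ := hX x hx
      have h2 := (hx2 s hs).2
      have h3 := (hS s hsq).fr t ht.1 x hxd.1 hcon
      have h4 := (hP s hsq).2.2.2.2.1 x hxd.1 {y | G.Adj y t}
      have h5 : ∑ o ∈ O s with hub s o ∈ {y | G.Adj y t} ∧ cls s x o, w s o ≤
          ∑ o ∈ O s with G.Adj (hub s o) t ∧ |hL s o - hN s x| ≤ 3 * g s, w s o := by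
        refine Finset.sum_le_sum_of_subset_of_nonneg ?_ fun o _ _ => (hS s hsq).stg.w0 o
        intro o ho
        rw [Finset.mem_filter] at ho ⊢
        exact ⟨ho.1, ho.2.1, hht s hsq x hxd.1 o ho.1 ho.2.2⟩
      have h6 : c * ms (P s x) {y | G.Adj y t} ≤ c / (2 * (R + 1 : ℕ)) :=
        h4.trans (h5.trans h3)
      have h7 : ms (P s x) {y | G.Adj y t} ≤ 1 / (2 * (R + 1 : ℕ)) := by
        have h8 : c / (2 * (R + 1 : ℕ)) = c * (1 / (2 * (R + 1 : ℕ))) := by ring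
        rw [h8] at h6
        exact le_of_mul_le_mul_left h6 hc
      have h8 : ((R + 1 : ℕ) : ℝ) * ms (P s x) {y | G.Adj y t} ≤ 1 / 2 := by
        refine (mul_le_mul_of_nonneg_left h7 hR.le).trans (le_of_eq ?_)
        field_simp
      linarith
    -- few laws
    have hfew : ∀ s ∈ I, (X.image (P s)).card ≤ T := by
      intro s hs
      have hsq : s < q := Finset.mem_range.1 (hI hs)
      refine (few (P s) R (K' * K1) {y | G.Adj y t} X (fun x hx => ((hX x hx).2 s hs).2) ?_).trans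
        (Nat.le_succ _)
      intro X' hX' hinj
      rcases X'.eq_empty_or_nonempty with hX0 | ⟨x1, hx1⟩
      · have h2 := (hP s hsq).2.2.2.2.2.2 (i s t) t
          (fun o => G.Adj (hub s o) t ∧ |hL s o - hN s t| ≤ L s + 3 * g s) K1
          (by convert (hS s hsq).nr t ht.1) ∅ (by simp) (by simp)
        rw [hX0]
        exact h2
      · refine (hP s hsq).2.2.2.2.2.2 (i s x1) t
          (fun o => G.Adj (hub s o) t ∧ |hL s o - hN s t| ≤ L s + 3 * g s) K1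
          (by convert (hS s hsq).nr t ht.1) X' ?_ hinj
        intro x hx
        have hxA := (hX x (hX' hx)).1
        refine ⟨hxA.1, hi x x1 (hxA.2.trans (hX x1 (hX' hx1)).1.2.symm) s hsq, ?_⟩
        intro o ho hxo hadj
        refine ⟨hadj, ?_⟩
        have h3 := abs_le.1 (hht s hsq x hxA.1 o ho hxo)
        have h4 := abs_le.1 (hnear x (hX' hx) s hs)
        rw [abs_le]
        constructor <;> linarith [h3.1, h3.2, h4.1, h4.2]
    -- pigeonhole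
    obtain ⟨J, hJI, hJc⟩ := Finset.exists_subset_card_eq (s := I) (n := r') (by omega)
    obtain ⟨X1, hX1, hX1c, hP1⟩ := pig P T (R + 1) (by omega) (by omega) J X
      (fun s hs => hfew s (hJI hs)) (by
        refine le_trans (Nat.mul_le_mul_left _ ?_) hXN
        rw [hJc]
        exact Nat.pow_le_pow_right (by omega) hr')
    obtain ⟨X', hX', hX'c⟩ := Finset.exists_subset_card_eq hX1c
    exact ⟨X', hX'.trans hX1, hX'c, J, hJI, hJc,
      fun x hx x' hx' s hs => hP1 x (hX' hx) x' (hX' hx') s hs⟩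
  · intro x hx t ht
    simp

/-- A self-linked incidence with heights in the fibre `n` of `W` with `q` stages. -/
structure FBE {V Ω : Type} (E : Env V) (W : Set V) (n q : ℕ) (K0 K1 ε δ : ℝ) (g L : ℕ → ℝ)
    (A : Finset V) (As : ℕ → Finset V) (O : ℕ → Finset Ω) (hub : ℕ → Ω → V)
    (Ow : ℕ → V → Ω → Prop) (hN : ℕ → V → ℝ) (hL : ℕ → Ω → ℝ) (r : ℕ → V → ℝ)
    (w : ℕ → Ω → ℝ) : Prop where
  mem : ∀ x ∈ A, x ∈ W ∧ E.c x = n
  stg : ∀ s < q, StgE E.G K0 K1 ε δ (g s) (L s) A (As s) (O s) (hub s) (Ow s) (hN s) (hL s) (r s)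
    (w s)
  hb : ∀ s < q, ∀ o ∈ O s, hub s o ∈ W ∧ E.c (hub s o) = n

/-- Compactness for windows of equal heights. -/
def StUnifE : Prop :=
  ∀ (V : Type) (E : Env V) (D0 m : ℕ) (W0 : Set V) (R : ℕ), GIT.VC E.G D0 →
    (∀ D : Lv V, OK E.G m (fun _ _ => True) (R + 1) W0 D → Sm E D.dom) →
      ∀ (q : ℕ) (K0 ε : ℝ), 0 < K0 → 0 < ε → R + 1 ≤ q → ∃ δ : ℝ, 0 < δ ∧
        ∀ K1 : ℝ, ∃ C : ℕ, ∀ (Ω : Type) (n : ℕ) (g L : ℕ → ℝ) (A : Finset V) (As : ℕ → Finset V)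
          (O : ℕ → Finset Ω) (hub : ℕ → Ω → V) (Ow : ℕ → V → Ω → Prop) (hN : ℕ → V → ℝ)
          (hL : ℕ → Ω → ℝ) (r : ℕ → V → ℝ) (w : ℕ → Ω → ℝ),
          FBE E W0 n q K0 K1 ε δ g L A As O hub Ow hN hL r w → Cl E {x | x ∈ A} C

theorem stUnifE : StUnifE := by
  intro V E D0 m W0 R hvc hno q K0 ε hK0 hε hq
  obtain ⟨δ, hδ, hL0⟩ := stLvlE D0 R q K0 ε hK0 hε hq
  refine ⟨δ, hδ, fun K1 => ?_⟩
  obtain ⟨N, N', hL⟩ := hL0 K1
  obtain ⟨C, hC⟩ := unif_gen E m R q N N' W0 hq hno (fun A n =>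
    ∃ (Ω : Type) (g L : ℕ → ℝ) (As : ℕ → Finset V)
          (O : ℕ → Finset Ω) (hub : ℕ → Ω → V) (Ow : ℕ → V → Ω → Prop) (hN : ℕ → V → ℝ)
          (hL : ℕ → Ω → ℝ) (r : ℕ → V → ℝ) (w : ℕ → Ω → ℝ),
          FBE E W0 n q K0 K1 ε δ g L A As O hub Ow hN hL r w) (by
      rintro A n ⟨Ω, g, L, As, O, hub, Ow, hN, hLa, r, w, h⟩
      exact ⟨fun x hx => (h.mem x hx).2, hL V Ω E.G m {v | v ∈ W0 ∧ E.c v = n} A As O hub Ow hN
        hLa r w g L hvc h.mem h.stg h.hb⟩)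
  exact ⟨C, fun Ω n g L A As O hub Ow hN hLa r w h =>
    hC A n ⟨Ω, g, L, As, O, hub, Ow, hN, hLa, r, w, h⟩⟩

end Pool.Agent.Lib.TCW
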