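import Pool.Agent.Lib.MP_81e58e_co.LRamsey

/-!
# Ramsey on the heights of the owners

The weak budget of a level follows from bounds at every single scale and the absence of fans
(`gsint_helper78_5`, section 3).  Everything is abstract: `p s x` is the label of the owner `x` at
the stage `s`, `ht s x` its height, `seen s x t`: the vertex `t` sees a positive fraction of the
label of `x` at the stage `s`.
-/

set_option autoImplicit false

namespace Pool.Agent.Lib.TCW

open Finset Classical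

namespace Ram

/-- Ramsey's theorem for `q` colourings of the pairs with three colours. -/
theorem pairs (q n : ℕ) : ∃ N : ℕ, ∀ (α : Type) (X : Finset α) (sg : ℕ → α → α → Fin 3),
    N ≤ X.card → ∃ (x : ℕ → α) (c : ℕ → Fin 3), (∀ i < n, x i ∈ X) ∧
      (∀ i j, i < j → j < n → x i ≠ x j) ∧
      ∀ s < q, ∀ i j, i < j → j < n → sg s (x i) (x j) = c s := by
  obtain ⟨N, hN⟩ := CodegDens.ramsey (Fin q → Fin 3) 2 n
  refine ⟨N + 1, fun α X sg hX => ?_⟩
  obtain ⟨a0, ha0⟩ : X.Nonempty := card_pos.1 (by omega)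
  obtain ⟨X0, hX0, hc0⟩ := exists_subset_card_eq (show N ≤ X.card by omega)
  set e : ℕ → α := fun i => if h : i < N then (X0.equivFin.symm ⟨i, by rw [hc0]; exact h⟩ : X0).1
    else a0 with he
  have he1 : ∀ i < N, e i ∈ X := by
    intro i hi
    rw [he]
    simp only [dif_pos hi]
    exact hX0 (X0.equivFin.symm ⟨i, by rw [hc0]; exact hi⟩).2
  have he2 : ∀ i < N, ∀ j < N, e i = e j → i = j := by
    intro i hi j hj hij
    rw [he] at hij
    simp only [dif_pos hi, dif_pos hj] at hij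
    have h2 := X0.equivFin.symm.injective (Subtype.ext hij)
    exact congrArg Fin.val h2
  obtain ⟨J, hJ, hJN, hJc⟩ := hN (fun u => fun s : Fin q => sg s (e (u 0)) (e (u 1))) (by
    intro s s' h
    have h0 := h 0 (by norm_num)
    have h1 := h 1 (by norm_num)
    simp only [h0, h1])
  by_cases hn : n < 2
  · refine ⟨fun i => e (J i), fun _ => 0, fun i hi => he1 _ (hJN i hi), fun i j hij hj => ?_,
      fun s hs i j hij hj => ?_⟩
    · omega
    · omega
  push Not at hn
  refine ⟨fun i => e (J i), fun s => sg s (e (J 0)) (e (J 1)), fun i hi => he1 _ (hJN i hi),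
    fun i j hij hj => ?_, fun s hs i j hij hj => ?_⟩
  · intro h
    have h1 := he2 _ (hJN i (hij.trans hj)) _ (hJN j hj) h
    exact absurd h1 (hJ hij).ne
  · -- the strictly increasing sequences i, j, j + 1, ..
    have key : ∀ i j, i < j → j < n → ∃ u : ℕ → ℕ, StrictMono u ∧ u 0 = i ∧ u 1 = j := by
      intro i j hij _
      refine ⟨fun k => if k = 0 then i else j + (k - 1), ?_, by simp, by simp⟩
      intro a b hab
      simp only
      by_cases ha : a = 0
      · subst ha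
        have hb : b ≠ 0 := by omega
        rw [if_pos rfl, if_neg hb]
        omega
      · have hb : b ≠ 0 := by omega
        rw [if_neg ha, if_neg hb]
        omega
    obtain ⟨u, hu, hu0, hu1⟩ := key i j hij hj
    obtain ⟨v, hv, hv0, hv1⟩ := key 0 1 (by norm_num) (by omega)
    have h := hJc u v hu (by
      intro k hk
      interval_cases k
      · rw [hu0]; omega
      · rw [hu1]; exact hj) hv (by
      intro k hk
      interval_cases k
      · rw [hv0]; omega
      · rw [hv1]; omega)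
    have h2 := congrFun h ⟨s, hs⟩
    simp only [hu0, hu1, hv0, hv1] at h2
    exact h2

/-- Pigeonhole for vectors. -/
theorem vec {V β : Type} (p : ℕ → V → β) (N3 k : ℕ) (hN3 : 1 ≤ N3) (J : Finset ℕ) :
    ∀ X : Finset V, (∀ s ∈ J, (X.image (p s)).card ≤ N3) → k * N3 ^ J.card ≤ X.card →
      ∃ X' ⊆ X, k ≤ X'.card ∧ ∀ s ∈ J, ∀ x ∈ X', ∀ x' ∈ X', p s x = p s x' := by
  induction J using Finset.induction_on with
  | empty =>
    intro X _ hX
    exact ⟨X, subset_rfl, by simpa using hX, by simp⟩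
  | insert s J hs ih =>
    intro X h1 hX
    rw [card_insert_of_notMem hs, pow_succ] at hX
    rcases X.eq_empty_or_nonempty with hXe | hXe
    · have hk : k = 0 := by
        rw [hXe, card_empty] at hX
        by_contra hk
        have : 0 < k * (N3 ^ J.card * N3) := by positivity
        omega
      subst hk
      exact ⟨∅, empty_subset _, Nat.zero_le _, by simp⟩
    · obtain ⟨b, -, hb⟩ := Finset.exists_le_card_fiber_of_mul_le_card_of_maps_to
        (s := X) (t := X.image (p s)) (f := p s) (n := k * N3 ^ J.card)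
        (fun x hx => mem_image_of_mem _ hx) (hXe.image _) (by
          calc (X.image (p s)).card * (k * N3 ^ J.card) ≤ N3 * (k * N3 ^ J.card) :=
                Nat.mul_le_mul_right _ (h1 s (mem_insert_self _ _))
            _ = k * (N3 ^ J.card * N3) := by ring
            _ ≤ X.card := hX)
      obtain ⟨X', h2, h3, h4⟩ := ih (X.filter (fun x => p s x = b)) (fun s' hs' =>
        (card_le_card (image_subset_image (filter_subset _ _))).trans
          (h1 s' (mem_insert_of_mem hs'))) hb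
      refine ⟨X', h2.trans (filter_subset _ _), h3, fun s' hs' x hx x' hx' => ?_⟩
      rcases mem_insert.1 hs' with rfl | hs'
      · rw [(mem_filter.1 (h2 hx)).2, (mem_filter.1 (h2 hx')).2]
      · exact h4 s' hs' x hx x' hx'

/-- The number of the labels in a window of heights. -/
theorem win {V β : Type} (p : V → β) (h : V → ℤ) (hi : V → Prop) (N1 N2 L : ℕ) (X : Finset V)
    (hw : ∀ x ∈ X, ∀ x' ∈ X, h x' < h x + L)
    (h1 : ∀ Y ⊆ X, (∀ x ∈ Y, ¬ hi x) → (∀ x ∈ Y, ∀ x' ∈ Y, p x = p x' → x = x') → Y.card ≤ N1)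
    (h2 : ∀ Y ⊆ X, ∀ i : ℤ, (∀ x ∈ Y, hi x ∧ h x = i) →
      (∀ x ∈ Y, ∀ x' ∈ Y, p x = p x' → x = x') → Y.card ≤ N2) :
    (X.image p).card ≤ N1 + N2 * (2 * L + 1) := by
  rcases X.eq_empty_or_nonempty with hXe | ⟨x0, hx0⟩
  · subst hXe
    simp
  have hg : ∀ b, ∃ x, b ∈ X.image p → x ∈ X ∧ p x = b := by
    intro b
    by_cases hb : b ∈ X.image p
    · obtain ⟨x, hx, hxb⟩ := mem_image.1 hb
      exact ⟨x, fun _ => ⟨hx, hxb⟩⟩
    · exact ⟨x0, fun h => absurd h hb⟩
  choose g hg using hg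
  set Y := (X.image p).image g with hY
  have hYX : Y ⊆ X := by
    intro y hy
    obtain ⟨b, hb, rfl⟩ := mem_image.1 hy
    exact (hg b hb).1
  have hYi : ∀ x ∈ Y, ∀ x' ∈ Y, p x = p x' → x = x' := by
    intro x hx x' hx' hxx
    obtain ⟨b, hb, rfl⟩ := mem_image.1 hx
    obtain ⟨b', hb', rfl⟩ := mem_image.1 hx'
    rw [(hg b hb).2, (hg b' hb').2] at hxx
    rw [hxx]
  have hYc : Y.card = (X.image p).card := by
    refine card_image_of_injOn fun b hb b' hb' hbb => ?_
    rw [← (hg b hb).2, ← (hg b' hb').2, hbb]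
  rw [← hYc, ← card_filter_add_card_filter_not (s := Y) (fun x => ¬ hi x)]
  refine Nat.add_le_add ?_ ?_
  · exact h1 _ ((filter_subset _ _).trans hYX) (fun x hx => (mem_filter.1 hx).2)
      (fun x hx x' hx' => hYi x (mem_filter.1 hx).1 x' (mem_filter.1 hx').1)
  · have h3 : (Finset.Icc (h x0 - L) (h x0 + L)).card = 2 * L + 1 := by
      rw [Int.card_Icc]
      omega
    rw [← h3]
    refine card_le_mul_card_image_of_maps_to (f := h) (fun x hx => ?_) N2 fun i _ => ?_
    · have hxX := hYX (mem_filter.1 hx).1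
      have h4 := hw x0 hx0 x hxX
      have h5 := hw x hxX x0 hx0
      rw [mem_Icc]
      omega
    · refine h2 _ ((filter_subset _ _).trans ((filter_subset _ _).trans hYX)) i (fun x hx => ?_)
        (fun x hx x' hx' => hYi x (mem_filter.1 (mem_filter.1 hx).1).1 x'
          (mem_filter.1 (mem_filter.1 hx').1).1)
      obtain ⟨h6, h7⟩ := mem_filter.1 hx
      exact ⟨not_not.1 (mem_filter.1 h6).2, h7⟩

/-- There are no long sequences of owners which are increasing at `m + 1` stages. -/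
theorem no_inc {V β : Type} (m q N1 R1 L n : ℕ) (hn : R1 + (m + 1) * N1 ≤ n) (p : ℕ → V → β)
    (ht : ℕ → V → ℤ) (hi seen : ℕ → V → V → Prop) (dom : Set V) (t : V)
    (hd : ∀ s < q, ∀ x ∈ dom, ∀ x' ∈ dom, p s x = p s x' → ht s x' < ht s x + L)
    (h1 : ∀ s < q, ∀ X : Finset V, (∀ x ∈ X, x ∈ dom ∧ seen s x t ∧ ¬ hi s x t) →
      (∀ x ∈ X, ∀ x' ∈ X, p s x = p s x' → x = x') → X.card ≤ N1)
    (h3 : ∀ s < q, ∀ S ⊆ range s, S.card = m → ∀ x : ℕ → V,
      (∀ a < R1, x a ∈ dom ∧ seen s (x a) t ∧ ∀ c ∈ insert s S, hi c (x a) t) →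
      ¬ ∀ a b, a < b → b < R1 → ∀ c ∈ insert s S, ht c (x a) + L ≤ ht c (x b))
    (C : Finset ℕ) (hC : C ⊆ range q) (hCc : C.card = m + 1) (x : ℕ → V)
    (hx : ∀ a < n, x a ∈ dom ∧ ∀ s ∈ C, seen s (x a) t)
    (hinc : ∀ a b, a < b → b < n → ∀ c ∈ C, ht c (x a) + L ≤ ht c (x b)) : False := by
  have hCn : C.Nonempty := card_pos.1 (by omega)
  set s := C.max' hCn with hs
  have hsC : s ∈ C := C.max'_mem hCn
  have hins : insert s (C.erase s) = C := insert_erase hsC
  -- the owners over which `t` is not high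
  have hbad : ∀ c ∈ C, ((range n).filter (fun a => ¬ hi c (x a) t)).card ≤ N1 := by
    intro c hc
    have hcq := mem_range.1 (hC hc)
    have hne : ∀ a < n, ∀ b < n, p c (x a) = p c (x b) → a = b := by
      intro a ha b hb hab
      by_contra hne
      rcases Nat.lt_or_gt_of_ne hne with h | h
      · have h4 := hinc a b h hb c hc
        have h5 := hd c hcq _ (hx a ha).1 _ (hx b hb).1 hab
        omega
      · have h4 := hinc b a h ha c hc
        have h5 := hd c hcq _ (hx b hb).1 _ (hx a ha).1 hab.symm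
        omega
    have h4 : (((range n).filter (fun a => ¬ hi c (x a) t)).image x).card =
        ((range n).filter (fun a => ¬ hi c (x a) t)).card := by
      refine card_image_of_injOn fun a ha b hb hab => ?_
      exact hne a (mem_range.1 (mem_filter.1 ha).1) b (mem_range.1 (mem_filter.1 hb).1)
        (by rw [hab])
    rw [← h4]
    refine h1 c hcq _ ?_ ?_
    · intro y hy
      obtain ⟨a, ha, rfl⟩ := mem_image.1 hy
      obtain ⟨ha, ha'⟩ := mem_filter.1 ha
      exact ⟨(hx a (mem_range.1 ha)).1, (hx a (mem_range.1 ha)).2 c hc, ha'⟩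
    · intro y hy y' hy' hyy
      obtain ⟨a, ha, rfl⟩ := mem_image.1 hy
      obtain ⟨b, hb, rfl⟩ := mem_image.1 hy'
      rw [hne a (mem_range.1 (mem_filter.1 ha).1) b (mem_range.1 (mem_filter.1 hb).1) hyy]
  set G := (range n).filter (fun a => ∀ c ∈ C, hi c (x a) t) with hG
  have hGc : R1 ≤ G.card := by
    have h5 : range n ⊆ G ∪ C.biUnion (fun c => (range n).filter (fun a => ¬ hi c (x a) t)) := by
      intro a ha
      by_cases h : ∀ c ∈ C, hi c (x a) t
      · exact mem_union_left _ (mem_filter.2 ⟨ha, h⟩)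
      · push Not at h
        obtain ⟨c, hc, h⟩ := h
        exact mem_union_right _ (mem_biUnion.2 ⟨c, hc, mem_filter.2 ⟨ha, h⟩⟩)
    have h6 := card_le_card h5
    have h7 := card_union_le G (C.biUnion (fun c => (range n).filter (fun a => ¬ hi c (x a) t)))
    have h8 : (C.biUnion (fun c => (range n).filter (fun a => ¬ hi c (x a) t))).card ≤
        (m + 1) * N1 := by
      rw [← hCc]
      exact card_biUnion_le_card_mul _ _ _ hbad
    rw [card_range] at h6
    omega
  obtain ⟨e, he, heG⟩ := CodegDens.exists_strictMono_enum n R1 G (filter_subset _ _) hGc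
  have heG' : ∀ i < R1, e i < n ∧ ∀ c ∈ C, hi c (x (e i)) t := by
    intro i hi
    obtain ⟨h5, h6⟩ := mem_filter.1 (heG i hi)
    exact ⟨mem_range.1 h5, h6⟩
  refine h3 s (mem_range.1 (hC hsC)) (C.erase s) ?_ ?_ (fun i => x (e i)) ?_ ?_
  · intro c hc
    obtain ⟨h5, h6⟩ := mem_erase.1 hc
    exact mem_range.2 (lt_of_le_of_ne (C.le_max' c h6) h5)
  · rw [card_erase_of_mem hsC, hCc]
    rfl
  · intro a ha
    rw [hins]
    exact ⟨(hx _ (heG' a ha).1).1, (hx _ (heG' a ha).1).2 s hsC, (heG' a ha).2⟩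
  · intro a b hab hb
    rw [hins]
    exact hinc _ _ (he hab) (heG' b hb).1

end Ram

open Ram

/-- The weak budget. -/
theorem wb_of (m r k q N1 N2 R1 L : ℕ) : ∃ N : ℕ, ∀ (V β : Type) (p : ℕ → V → β)
    (ht : ℕ → V → ℤ) (hi seen : ℕ → V → V → Prop) (dom : Set V),
    (∀ s < q, ∀ x ∈ dom, ∀ x' ∈ dom, p s x = p s x' → ht s x' < ht s x + L) →
    (∀ s < q, ∀ t ∈ dom, ∀ X : Finset V, (∀ x ∈ X, x ∈ dom ∧ seen s x t ∧ ¬ hi s x t) →
      (∀ x ∈ X, ∀ x' ∈ X, p s x = p s x' → x = x') → X.card ≤ N1) →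
    (∀ s < q, ∀ t ∈ dom, ∀ (i : ℤ) (X : Finset V),
      (∀ x ∈ X, x ∈ dom ∧ seen s x t ∧ hi s x t ∧
        m ≤ ((range s).filter (fun c => hi c x t)).card ∧ ht s x = i) →
      (∀ x ∈ X, ∀ x' ∈ X, p s x = p s x' → x = x') → X.card ≤ N2) →
    (∀ s < q, ∀ S ⊆ range s, S.card = m → ∀ t ∈ dom, ∀ x : ℕ → V,
      (∀ a < R1, x a ∈ dom ∧ seen s (x a) t ∧ ∀ c ∈ insert s S, hi c (x a) t) →
      ¬ ∀ a b, a < b → b < R1 → ∀ c ∈ insert s S, ht c (x a) + L ≤ ht c (x b)) →
    ∀ t ∈ dom, ∀ I ⊆ range q, r + 2 * m ≤ I.card → ∀ X : Finset V, N ≤ X.card →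
      (∀ x ∈ X, x ∈ dom) →
      (∀ x ∈ X, ∀ s ∈ I, (hi s x t → m ≤ ((range s).filter (fun c => hi c x t)).card) ∧
        seen s x t) →
      ∃ X' ⊆ X, X'.card = k ∧ ∃ J ⊆ I, J.card = r ∧
        ∀ s ∈ J, ∀ x ∈ X', ∀ x' ∈ X', p s x = p s x' := by
  set N3 := N1 + N2 * (2 * L + 1) + 1 with hN3
  set n := (R1 + (m + 1) * N1) + k * N3 ^ r with hn
  obtain ⟨N, hN⟩ := pairs q n
  refine ⟨N, fun V β p ht hi seen dom hd h1 h2 h3 t htd I hI hIc X hX hXd hXs => ?_⟩
  obtain ⟨x, c, hx, hxne, hxc⟩ := hN V X (fun s x x' => if ht s x + L ≤ ht s x' then 0 else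
    if ht s x' + L ≤ ht s x then 1 else 2) hX
  have hIq : ∀ s ∈ I, s < q := fun s hs => mem_range.1 (hI hs)
  -- few increasing stages
  have hinc : (I.filter (fun s => c s = 0)).card ≤ m := by
    by_contra hcon
    obtain ⟨C, hC, hCc⟩ := exists_subset_card_eq
      (show m + 1 ≤ (I.filter (fun s => c s = 0)).card by omega)
    have hCI : ∀ s ∈ C, s ∈ I ∧ c s = 0 := fun s hs => mem_filter.1 (hC hs)
    refine no_inc m q N1 R1 L n (by omega) p ht hi seen dom t hd
      (fun s hs => h1 s hs t htd) (fun s hs S hS hSc => h3 s hs S hS hSc t htd) C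
      (fun s hs => hI (hCI s hs).1) hCc x
      (fun a ha => ⟨hXd _ (hx a ha), fun s hs => (hXs _ (hx a ha) s (hCI s hs).1).2⟩) ?_
    intro a b hab hb s hs
    have h4 := hxc s (hIq s (hCI s hs).1) a b hab hb
    rw [(hCI s hs).2] at h4
    by_contra hcon
    rw [if_neg hcon] at h4
    by_cases h5 : ht s (x b) + L ≤ ht s (x a)
    · rw [if_pos h5] at h4
      exact absurd h4 (by decide)
    · rw [if_neg h5] at h4
      exact absurd h4 (by decide)
  -- few decreasing stages
  have hdec : (I.filter (fun s => c s = 1)).card ≤ m := by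
    by_contra hcon
    obtain ⟨C, hC, hCc⟩ := exists_subset_card_eq
      (show m + 1 ≤ (I.filter (fun s => c s = 1)).card by omega)
    have hCI : ∀ s ∈ C, s ∈ I ∧ c s = 1 := fun s hs => mem_filter.1 (hC hs)
    refine no_inc m q N1 R1 L n (by omega) p ht hi seen dom t hd
      (fun s hs => h1 s hs t htd) (fun s hs S hS hSc => h3 s hs S hS hSc t htd) C
      (fun s hs => hI (hCI s hs).1) hCc (fun a => x (n - 1 - a))
      (fun a ha => ⟨hXd _ (hx _ (by omega)),
        fun s hs => (hXs _ (hx _ (by omega)) s (hCI s hs).1).2⟩) ?_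
    intro a b hab hb s hs
    have h4 := hxc s (hIq s (hCI s hs).1) (n - 1 - b) (n - 1 - a) (by omega) (by omega)
    rw [(hCI s hs).2] at h4
    by_contra hcon
    by_cases h5 : ht s (x (n - 1 - b)) + L ≤ ht s (x (n - 1 - a))
    · rw [if_pos h5] at h4
      exact absurd h4 (by decide)
    · rw [if_neg h5, if_neg hcon] at h4
      exact absurd h4 (by decide)
  -- many stages with nearly constant heights
  have heq : r ≤ (I.filter (fun s => c s = 2)).card := by
    have h4 : I ⊆ I.filter (fun s => c s = 0) ∪ (I.filter (fun s => c s = 1) ∪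
        I.filter (fun s => c s = 2)) := by
      intro s hs
      have h5 : c s = 0 ∨ c s = 1 ∨ c s = 2 := by
        have : ∀ u : Fin 3, u = 0 ∨ u = 1 ∨ u = 2 := by decide
        exact this _
      rcases h5 with h5 | h5 | h5
      · exact mem_union_left _ (mem_filter.2 ⟨hs, h5⟩)
      · exact mem_union_right _ (mem_union_left _ (mem_filter.2 ⟨hs, h5⟩))
      · exact mem_union_right _ (mem_union_right _ (mem_filter.2 ⟨hs, h5⟩))
    have h5 := card_le_card h4
    have h6 := card_union_le (I.filter (fun s => c s = 0)) (I.filter (fun s => c s = 1) ∪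
        I.filter (fun s => c s = 2))
    have h7 := card_union_le (I.filter (fun s => c s = 1)) (I.filter (fun s => c s = 2))
    omega
  obtain ⟨J, hJ, hJc⟩ := exists_subset_card_eq heq
  have hJI : ∀ s ∈ J, s ∈ I ∧ c s = 2 := fun s hs => mem_filter.1 (hJ hs)
  set X1 := (range n).image x with hX1
  have hX1X : X1 ⊆ X := by
    intro y hy
    obtain ⟨a, ha, rfl⟩ := mem_image.1 hy
    exact hx a (mem_range.1 ha)
  have hX1c : X1.card = n := by
    rw [hX1, card_image_of_injOn, card_range]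
    intro a ha b hb hab
    have ha' := mem_range.1 (Finset.mem_coe.1 ha)
    have hb' := mem_range.1 (Finset.mem_coe.1 hb)
    by_contra hne
    rcases Nat.lt_or_gt_of_ne hne with h | h
    · exact hxne a b h hb' hab
    · exact hxne b a h ha' hab.symm
  have himg : ∀ s ∈ J, (X1.image (p s)).card ≤ N3 := by
    intro s hs
    have hsq := hIq s (hJI s hs).1
    refine (win (p s) (ht s) (fun x => hi s x t) N1 N2 L X1 ?_ ?_ ?_).trans (by omega)
    · intro y hy y' hy'
      obtain ⟨a, ha, rfl⟩ := mem_image.1 hy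
      obtain ⟨b, hb, rfl⟩ := mem_image.1 hy'
      have ha' := mem_range.1 ha
      have hb' := mem_range.1 hb
      have h2c : ∀ a b, a < b → b < n → ¬ (ht s (x a) + L ≤ ht s (x b)) ∧
          ¬ (ht s (x b) + L ≤ ht s (x a)) := by
        intro a b hab hb
        have h4 := hxc s hsq a b hab hb
        rw [(hJI s hs).2] at h4
        constructor
        · intro h5
          rw [if_pos h5] at h4
          exact absurd h4 (by decide)
        · intro h5
          by_cases h6 : ht s (x a) + L ≤ ht s (x b)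
          · rw [if_pos h6] at h4
            exact absurd h4 (by decide)
          · rw [if_neg h6, if_pos h5] at h4
            exact absurd h4 (by decide)
      rcases Nat.lt_trichotomy a b with h | h | h
      · have := (h2c a b h hb').1
        omega
      · subst h
        by_contra hcon
        have hL : L = 0 := by omega
        subst hL
        -- with `L = 0` equal labels are impossible
        exact absurd (hd s hsq _ (hXd _ (hx a ha')) _ (hXd _ (hx a ha')) rfl) hcon
      · have := (h2c b a h ha').2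
        omega
    · intro Y hY hYh hYi
      exact h1 s hsq t htd Y (fun y hy => ⟨hXd _ (hX1X (hY hy)),
        (hXs _ (hX1X (hY hy)) s (hJI s hs).1).2, hYh y hy⟩) hYi
    · intro Y hY i hYh hYi
      refine h2 s hsq t htd i Y (fun y hy => ?_) hYi
      have h4 := hXs _ (hX1X (hY hy)) s (hJI s hs).1
      exact ⟨hXd _ (hX1X (hY hy)), h4.2, (hYh y hy).1, h4.1 (hYh y hy).1, (hYh y hy).2⟩
  obtain ⟨X', hX', hX'k, hX'e⟩ := vec p N3 k (by omega) J X1 himg (by
    rw [hJc, hX1c]
    omega)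
  obtain ⟨X2, hX2, hX2c⟩ := exists_subset_card_eq hX'k
  exact ⟨X2, hX2.trans (hX'.trans hX1X), hX2c, J, fun s hs => (hJI s hs).1, hJc,
    fun s hs x hx x' hx' => hX'e s hs x (hX2 hx) x' (hX2 hx')⟩

/-- The weak budget for all `r ≤ R` and classes with names. -/
theorem wb_names (m q R L N1 N2 R1 : ℕ) : ∃ N : ℕ, ∀ (V γ : Type) (A : Set V) (nm : ℕ → V → γ)
    (h : ℕ → V → ℤ) (L0 : ℤ) (seen : ℕ → V → V → Prop),
    (∀ s < q, ∀ x ∈ A, ∀ x' ∈ A, nm s x = nm s x' → |h s x - h s x'| < L) →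
    (∀ s < q, ∀ t ∈ A, ∀ X : Finset V, (∀ x ∈ X, x ∈ A ∧ seen s x t ∧ h s t < h s x + L0) →
      (∀ x ∈ X, ∀ x' ∈ X, nm s x = nm s x' → x = x') → X.card ≤ N1) →
    (∀ s < q, ∀ t ∈ A, ∀ (i : ℤ) (X : Finset V),
      (∀ x ∈ X, x ∈ A ∧ seen s x t ∧ h s x + L0 ≤ h s t ∧ h s x = i ∧
        m ≤ ((range s).filter (fun c => h c x + L0 ≤ h c t)).card) →
      (∀ x ∈ X, ∀ x' ∈ X, nm s x = nm s x' → x = x') → X.card ≤ N2) →
    (∀ s < q, ∀ t ∈ A, ∀ S ⊆ range s, S.card = m → ∀ x : ℕ → V,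
      (∀ a < R1, x a ∈ A ∧ seen s (x a) t ∧ ∀ c ∈ insert s S, h c (x a) + L0 ≤ h c t) →
      ¬ ∀ a b, a < b → b < R1 → ∀ c ∈ insert s S, h c (x a) + L ≤ h c (x b)) →
    ∀ r ≤ R, ∀ t ∈ A, ∀ I ⊆ range q, r + 2 * m ≤ I.card → ∀ X : Finset V, N ≤ X.card →
      (∀ x ∈ X, x ∈ A ∧ ∀ s ∈ I, seen s x t ∧
        (h s x + L0 ≤ h s t → m ≤ ((range s).filter (fun c => h c x + L0 ≤ h c t)).card)) →
      ∃ X' ⊆ X, X'.card = R ∧ ∃ J ⊆ I, J.card = r ∧
        ∀ s ∈ J, ∀ x ∈ X', ∀ x' ∈ X', nm s x = nm s x' := by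
  have hN : ∀ r, ∃ N : ℕ, ∀ (V β : Type) (p : ℕ → V → β)
      (ht : ℕ → V → ℤ) (hi seen : ℕ → V → V → Prop) (dom : Set V),
      (∀ s < q, ∀ x ∈ dom, ∀ x' ∈ dom, p s x = p s x' → ht s x' < ht s x + L) →
      (∀ s < q, ∀ t ∈ dom, ∀ X : Finset V, (∀ x ∈ X, x ∈ dom ∧ seen s x t ∧ ¬ hi s x t) →
        (∀ x ∈ X, ∀ x' ∈ X, p s x = p s x' → x = x') → X.card ≤ N1) →
      (∀ s < q, ∀ t ∈ dom, ∀ (i : ℤ) (X : Finset V),
        (∀ x ∈ X, x ∈ dom ∧ seen s x t ∧ hi s x t ∧
          m ≤ ((range s).filter (fun c => hi c x t)).card ∧ ht s x = i) →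
        (∀ x ∈ X, ∀ x' ∈ X, p s x = p s x' → x = x') → X.card ≤ N2) →
      (∀ s < q, ∀ S ⊆ range s, S.card = m → ∀ t ∈ dom, ∀ x : ℕ → V,
        (∀ a < R1, x a ∈ dom ∧ seen s (x a) t ∧ ∀ c ∈ insert s S, hi c (x a) t) →
        ¬ ∀ a b, a < b → b < R1 → ∀ c ∈ insert s S, ht c (x a) + L ≤ ht c (x b)) →
      ∀ t ∈ dom, ∀ I ⊆ range q, r + 2 * m ≤ I.card → ∀ X : Finset V, N ≤ X.card →
        (∀ x ∈ X, x ∈ dom) →
        (∀ x ∈ X, ∀ s ∈ I, (hi s x t → m ≤ ((range s).filter (fun c => hi c x t)).card) ∧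
          seen s x t) →
        ∃ X' ⊆ X, X'.card = R ∧ ∃ J ⊆ I, J.card = r ∧
          ∀ s ∈ J, ∀ x ∈ X', ∀ x' ∈ X', p s x = p s x' := fun r => wb_of m r R q N1 N2 R1 L
  choose Nf hNf using hN
  refine ⟨(range (R + 1)).sup Nf, fun V γ A nm h L0 seen hd h1 h2 h3 r hr t ht I hI hIc X hX
    hX2 => ?_⟩
  refine hNf r V γ nm h (fun s x t => h s x + L0 ≤ h s t) seen A ?_ ?_ ?_ ?_ t ht I hI hIc X
    ((Finset.le_sup (f := Nf) (mem_range.2 (by omega))).trans hX) (fun x hx => (hX2 x hx).1)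
    (fun x hx s hs => ⟨fun hh => by convert ((hX2 x hx).2 s hs).2 hh, ((hX2 x hx).2 s hs).1⟩)
  · intro s hs x hx x' hx' he
    have h4 := (abs_lt.1 (hd s hs x hx x' hx' he)).1
    omega
  · intro s hs t ht X hX hXi
    exact h1 s hs t ht X (fun x hx => ⟨(hX x hx).1, (hX x hx).2.1, not_le.1 (hX x hx).2.2⟩) hXi
  · intro s hs t ht i X hX hXi
    exact h2 s hs t ht i X (fun x hx => ⟨(hX x hx).1, (hX x hx).2.1, (hX x hx).2.2.1,
      (hX x hx).2.2.2.2, by convert (hX x hx).2.2.2.1⟩) hXi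
  · intro s hs S hS hSc t ht x hx
    exact h3 s hs t ht S hS hSc x hx

/-- At most `m` stages are bad for a pair. -/
theorem conf_of {V : Type} (m q : ℕ) (hi : ℕ → V → V → Prop) (x t : V) :
    ((range q).filter fun s =>
      ¬ (hi s x t → m ≤ ((range s).filter (fun c => hi c x t)).card)).card ≤ m := by
  set B := (range q).filter fun s =>
    ¬ (hi s x t → m ≤ ((range s).filter (fun c => hi c x t)).card) with hB
  by_contra hcon
  have hBn : B.Nonempty := card_pos.1 (by omega)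
  set s := B.max' hBn with hs
  have hsB : s ∈ B := B.max'_mem hBn
  have h1 := (mem_filter.1 hsB).2
  push Not at h1
  have h2 : B.erase s ⊆ (range s).filter (fun c => hi c x t) := by
    intro c hc
    obtain ⟨h3, h4⟩ := mem_erase.1 hc
    have h5 := (mem_filter.1 h4).2
    push Not at h5
    exact mem_filter.2 ⟨mem_range.2 (lt_of_le_of_ne (B.le_max' c h4) h3), h5.1⟩
  have h3 := card_le_card h2
  rw [card_erase_of_mem hsB] at h3
  omega

end Pool.Agent.Lib.TCW
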