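import Pool.Agent.Lib.TCW.LvlS
import Pool.Agent.Lib.TCW.Cell
import Pool.Agent.Lib.TCW.Ram

/-!
# From self-linked incidences with heights to levels with a weak budget
-/

set_option autoImplicit false

namespace Pool.Agent.Lib.TCW

open Finset Classical
open Pool.Agent.Lib.TCH (kap stDg)

namespace LvlH_

/-- Few classes are seen in a set of labels of bounded mass. -/
theorem count {V Ω : Type} (n : ℕ) (c M ρ : ℝ) (hc : 0 < c) (X : Finset V)
    (T : Finset Ω) (w : Ω → ℝ) (hw : ∀ o, 0 ≤ w o) (l : V → V) (j : V → Fin n)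
    (S : V → Finset Ω) (hM : ∑ o ∈ T, w o ≤ M) (hS : ∀ x ∈ X, S x ⊆ T)
    (hd : ∀ x ∈ X, ∀ x' ∈ X, l x ≠ l x' → Disjoint (S x) (S x')) (hρ : 0 ≤ ρ)
    (hm : ∀ x ∈ X, c ≤ ρ * ∑ o ∈ S x, w o)
    (hinj : ∀ x ∈ X, ∀ x' ∈ X, l x = l x' → j x = j x' → x = x') :
    (X.card : ℝ) ≤ n * (M * ρ / c) := by
  rcases X.eq_empty_or_nonempty with hX | ⟨x0, hx0⟩
  · subst hX
    have h0 : 0 ≤ M := le_trans (Finset.sum_nonneg fun o _ => hw o) hM
    simp only [Finset.card_empty, Nat.cast_zero]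
    positivity
  have h1 : ∀ z : V, ∃ x : V, z ∈ X.image l → x ∈ X ∧ l x = z := by
    intro z
    by_cases hz : z ∈ X.image l
    · obtain ⟨x, hx, hxz⟩ := mem_image.1 hz
      exact ⟨x, fun _ => ⟨hx, hxz⟩⟩
    · exact ⟨x0, fun h => absurd h hz⟩
  choose g hg using h1
  have h2 : ((X.image l).card : ℝ) * c ≤ ρ * M := by
    calc ((X.image l).card : ℝ) * c = ∑ _z ∈ X.image l, c := by
          rw [Finset.sum_const, nsmul_eq_mul]
      _ ≤ ∑ z ∈ X.image l, ρ * ∑ o ∈ S (g z), w o :=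
          Finset.sum_le_sum fun z hz => hm _ (hg z hz).1
      _ = ρ * ∑ o ∈ (X.image l).biUnion fun z => S (g z), w o := by
          rw [← Finset.mul_sum, Finset.sum_biUnion]
          intro z hz z' hz' hzz
          rw [Finset.mem_coe] at hz hz'
          refine hd _ (hg z hz).1 _ (hg z' hz').1 ?_
          rw [(hg z hz).2, (hg z' hz').2]
          exact hzz
      _ ≤ ρ * M := by
          refine mul_le_mul_of_nonneg_left (le_trans ?_ hM) hρ
          refine Finset.sum_le_sum_of_subset_of_nonneg ?_ fun o _ _ => hw o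
          intro o ho
          obtain ⟨z, hz, ho⟩ := Finset.mem_biUnion.1 ho
          exact hS _ (hg z hz).1 ho
  have h3 : X.card ≤ (X.image l).card * n := by
    rw [mul_comm]
    refine Finset.card_le_mul_card_image_of_maps_to (f := l) (fun x hx => mem_image_of_mem l hx)
      n fun z _ => ?_
    have h4 : (X.filter fun x => l x = z).card ≤ (Finset.univ : Finset (Fin n)).card := by
      refine Finset.card_le_card_of_injOn j (fun x _ => Finset.mem_univ _) ?_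
      intro x hx x' hx' he
      rw [Finset.mem_coe, Finset.mem_filter] at hx hx'
      exact hinj x hx.1 x' hx'.1 (hx.2.trans hx'.2.symm) he
    rwa [Finset.card_univ, Fintype.card_fin] at h4
  have h5 : (X.card : ℝ) ≤ ((X.image l).card : ℝ) * n := by exact_mod_cast h3
  refine h5.trans ?_
  rw [mul_comm]
  refine mul_le_mul_of_nonneg_left ?_ (Nat.cast_nonneg _)
  rw [le_div_iff₀ hc, mul_comm M]
  exact h2

/-- A set of labels with heights in a short window contains a set of one height with a large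
mass. -/
theorem pigeon {Ω : Type} (v : ℕ) (a : ℤ) (η : ℝ) (T : Finset Ω) (w : Ω → ℝ) (H : Ω → ℤ)
    (hH : ∀ o ∈ T, |a - H o| ≤ v) (hm : η * (2 * v + 1) ≤ ∑ o ∈ T, w o) :
    ∃ i : ℤ, η ≤ ∑ o ∈ T with H o = i, w o := by
  by_contra hcon
  push Not at hcon
  have h1 : ∑ o ∈ T, w o = ∑ i ∈ Finset.Icc (a - v) (a + v), ∑ o ∈ T with H o = i, w o := by
    rw [Finset.sum_fiberwise_of_maps_to]
    intro o ho
    have h2 := abs_le.1 (hH o ho)
    rw [Finset.mem_Icc]
    constructor <;> omega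
  have h2 : (Finset.Icc (a - v) (a + v)).card = 2 * v + 1 := by
    rw [Int.card_Icc]
    omega
  have h3 : ∑ i ∈ Finset.Icc (a - v) (a + v), ∑ o ∈ T with H o = i, w o <
      ∑ _i ∈ Finset.Icc (a - v) (a + v), η := by
    refine Finset.sum_lt_sum_of_nonempty ?_ fun i _ => hcon i
    rw [← Finset.card_pos, h2]
    omega
  rw [Finset.sum_const, h2, nsmul_eq_mul, ← h1] at h3
  push_cast at h3
  linarith

theorem sum_bu {ι Ω : Type} (s : Finset ι) (t : ι → Finset Ω) (w : Ω → ℝ) (hw : ∀ o, 0 ≤ w o) :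
    ∑ o ∈ s.biUnion t, w o ≤ ∑ i ∈ s, ∑ o ∈ t i, w o := by
  induction s using Finset.induction_on with
  | empty => simp
  | insert i s hi ih =>
    rw [Finset.biUnion_insert, Finset.sum_insert hi]
    have h1 := Finset.sum_union_inter (s₁ := t i) (s₂ := s.biUnion t) (f := w)
    have h2 : 0 ≤ ∑ o ∈ t i ∩ s.biUnion t, w o := Finset.sum_nonneg fun o _ => hw o
    linarith

/-- The hypotheses of one stage in terms of classes: `hgt` the heights of the class, and the three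
conditions for the seen classes. -/
theorem stage {V Ω : Type} {G : SimpleGraph V} {m s v0 n : ℕ} {K0 ε η c : ℝ} {R q : ℕ} {k : Cst}
    {A As : Finset V} {O : Finset Ω} {hub : Ω → V} {E : V → Ω → Prop} {r : V → ℝ} {w : Ω → ℝ}
    {h : ℕ → V → ℤ} {H : ℕ → Ω → ℤ} (hS : StgH G m s v0 K0 ε η k A As O hub E r w h H)
    (hs : s < q) (hv : v0 ≤ k.w0) (hu : k.l0 + 6 * k.w0 ≤ k.u) (hc : 0 < c)
    (hη : η = c / ((R + 1 : ℕ) * (2 * v0 + 1)))
    (l : V → V) (j : V → Fin n) (C : V → Finset Ω) (P : V → V →₀ ℝ) (dom : Set V)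
    (hdom : ∀ x ∈ dom, x ∈ A)
    (hC : ∀ x ∈ dom, l x ∈ As ∧ (∀ o ∈ C x, o ∈ O ∧ E (l x) o) ∧ ∃ o ∈ C x, E x o)
    (hd : ∀ x ∈ dom, ∀ x' ∈ dom, l x ≠ l x' → Disjoint (C x) (C x'))
    (hP : ∀ x ∈ dom, ∀ Q : Set V, c * ms (P x) Q ≤ ∑ o ∈ C x with hub o ∈ Q, w o) :
    (∀ x ∈ dom, ∀ x' ∈ dom, (l x, j x) = (l x', j x') → |h s x - h s x'| ≤ 4 * k.w0) ∧
    (∀ t ∈ dom, ∀ X : Finset V, (∀ x ∈ X, x ∈ dom ∧
        1 ≤ ((R + 1 : ℕ) : ℝ) * ms (P x) {y | G.Adj y t} ∧ h s t < h s x + (k.l0 + 3 * k.w0)) →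
      (∀ x ∈ X, ∀ x' ∈ X, (l x, j x) = (l x', j x') → x = x') →
        (X.card : ℝ) ≤ n * (k.K * (R + 1 : ℕ) / c)) ∧
    (∀ t ∈ dom, ∀ (i : ℤ) (X : Finset V), (∀ x ∈ X, x ∈ dom ∧
        1 ≤ ((R + 1 : ℕ) : ℝ) * ms (P x) {y | G.Adj y t} ∧ h s x + (k.l0 + 3 * k.w0) ≤ h s t ∧
        h s x = i ∧
        m ≤ ((range s).filter fun c => h c x + (k.l0 + 3 * k.w0) ≤ h c t).card) →
      (∀ x ∈ X, ∀ x' ∈ X, (l x, j x) = (l x', j x') → x = x') →
        (X.card : ℝ) ≤ n * ((2 ^ q * ((6 * k.w0 + 1 : ℕ) * k.K)) * (R + 1 : ℕ) / c)) ∧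
    (∀ t ∈ dom, ∀ S ⊆ range s, S.card = m → ∀ x : ℕ → V,
      (∀ a < k.R1, x a ∈ dom ∧ 1 ≤ ((R + 1 : ℕ) : ℝ) * ms (P (x a)) {y | G.Adj y t} ∧
        ∀ c ∈ insert s S, h c (x a) + (k.l0 + 3 * k.w0) ≤ h c t) →
      ∀ L : ℤ, k.l1 + 6 * k.w0 ≤ L →
        ¬ ∀ a b, a < b → b < k.R1 → ∀ c ∈ insert s S, h c (x a) + L ≤ h c (x b)) := by
  have hR : (0 : ℝ) < (R + 1 : ℕ) := by positivity
  have hv' : (v0 : ℤ) ≤ k.w0 := by exact_mod_cast hv
  -- heights of the labels of a class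
  have hgt : ∀ x ∈ dom, ∀ o ∈ C x, ∀ c ≤ s, |h c x - H c o| ≤ 3 * k.w0 := by
    intro x hx o ho c hcs
    obtain ⟨hl, h1, o', ho', hE⟩ := hC x hx
    have hb : ∀ z ∈ As, ∀ o ∈ O, E z o → |h c z - H c o| ≤ k.w0 := by
      intro z hz o ho hzo
      rcases eq_or_lt_of_le hcs with rfl | hcs
      · exact (hS.own z hz o ho hzo).trans hv'
      · exact hS.low z hz o ho hzo c hcs
    have h2 := abs_le.1 (hb x (hS.sub (hdom x hx)) o' (h1 o' ho').1 hE)
    have h3 := abs_le.1 (hb (l x) hl o' (h1 o' ho').1 (h1 o' ho').2)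
    have h4 := abs_le.1 (hb (l x) hl o (h1 o ho).1 (h1 o ho).2)
    rw [abs_le]
    constructor <;> omega
  -- the seen mass
  have hseen : ∀ x ∈ dom, ∀ t, 1 ≤ ((R + 1 : ℕ) : ℝ) * ms (P x) {y | G.Adj y t} →
      c ≤ (R + 1 : ℕ) * ∑ o ∈ C x with G.Adj (hub o) t, w o := by
    intro x hx t ht
    have h1 := hP x hx {y | G.Adj y t}
    have h2 : c * 1 ≤ c * (((R + 1 : ℕ) : ℝ) * ms (P x) {y | G.Adj y t}) :=
      mul_le_mul_of_nonneg_left ht hc.le
    rw [mul_one] at h2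
    refine h2.trans ?_
    have h3 := mul_le_mul_of_nonneg_left h1 hR.le
    calc c * (((R + 1 : ℕ) : ℝ) * ms (P x) {y | G.Adj y t})
        = ((R + 1 : ℕ) : ℝ) * (c * ms (P x) {y | G.Adj y t}) := by ring
      _ ≤ _ := h3
  have hdj : ∀ t, ∀ x ∈ dom, ∀ x' ∈ dom, l x ≠ l x' →
      Disjoint ((C x).filter fun o => G.Adj (hub o) t) ((C x').filter fun o => G.Adj (hub o) t) :=
    fun t x hx x' hx' hl => Finset.disjoint_filter_filter (hd x hx x' hx' hl)
  refine ⟨?_, ?_, ?_, ?_⟩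
  · -- equal names
    intro x hx x' hx' he
    have hl : l x = l x' := congrArg Prod.fst he
    obtain ⟨hl1, h1, o, ho, hE⟩ := hC x hx
    obtain ⟨-, h1', o', ho', hE'⟩ := hC x' hx'
    have h2 := abs_le.1 (hS.own x (hS.sub (hdom x hx)) o (h1 o ho).1 hE)
    have h3 := abs_le.1 (hS.own (l x) hl1 o (h1 o ho).1 (h1 o ho).2)
    have h4 := abs_le.1 (hS.own x' (hS.sub (hdom x' hx')) o' (h1' o' ho').1 hE')
    have h5 := abs_le.1 (hS.own (l x) hl1 o' (h1' o' ho').1 (by rw [hl]; exact (h1' o' ho').2))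
    rw [abs_le]
    constructor <;> omega
  · -- near labels which are not lower
    intro t ht X hX hinj
    refine count n c k.K (R + 1 : ℕ) hc X (O.filter fun o => G.Adj (hub o) t ∧ h s t ≤ H s o + k.u)
      w hS.w0 l j (fun x => (C x).filter fun o => G.Adj (hub o) t) (hS.nr1 t (hdom t ht)) ?_
      (fun x hx x' hx' => hdj t x (hX x hx).1 x' (hX x' hx').1) hR.le
      (fun x hx => hseen x (hX x hx).1 t (hX x hx).2.1) ?_
    · intro x hx o ho
      rw [Finset.mem_filter] at ho ⊢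
      refine ⟨((hC x (hX x hx).1).2.1 o ho.1).1, ho.2, ?_⟩
      have h1 := abs_le.1 (hgt x (hX x hx).1 o ho.1 s le_rfl)
      have h2 := (hX x hx).2.2
      omega
    · intro x hx x' hx' h1 h2
      exact hinj x hx x' hx' (by rw [h1, h2])
  · -- near labels in one scale
    intro t ht i X hX hinj
    have hK : 0 ≤ k.K := le_trans (Finset.sum_nonneg fun o _ => hS.w0 o) (hS.nr1 t (hdom t ht))
    set T : Finset Ω := ((range s).powersetCard m).biUnion fun S' =>
      (Finset.Icc (i - 3 * k.w0) (i + 3 * k.w0)).biUnion fun i' =>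
        O.filter fun o => G.Adj (hub o) t ∧ H s o = i' ∧
          ∀ c ∈ insert s S', H c o + k.l0 ≤ h c t with hT
    have hTm : ∑ o ∈ T, w o ≤ 2 ^ q * ((6 * k.w0 + 1 : ℕ) * k.K) := by
      rw [hT]
      refine (sum_bu _ _ _ hS.w0).trans ?_
      refine (Finset.sum_le_card_nsmul _ _ ((6 * k.w0 + 1 : ℕ) * k.K) ?_).trans ?_
      · intro S' hS'
        rw [Finset.mem_powersetCard] at hS'
        refine (sum_bu _ _ _ hS.w0).trans ?_
        refine (Finset.sum_le_card_nsmul _ _ k.K fun i' _ =>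
          hS.nr2 t (hdom t ht) S' hS'.1 hS'.2 i').trans ?_
        rw [nsmul_eq_mul]
        refine mul_le_mul_of_nonneg_right ?_ hK
        rw [Int.card_Icc]
        exact_mod_cast (show (i + 3 * k.w0 + 1 - (i - 3 * k.w0)).toNat ≤ 6 * k.w0 + 1 by omega)
      · rw [nsmul_eq_mul]
        refine mul_le_mul_of_nonneg_right ?_ (by positivity)
        rw [Finset.card_powersetCard, Finset.card_range]
        have h1 : s.choose m ≤ 2 ^ q :=
          (Nat.choose_le_two_pow _ _).trans (Nat.pow_le_pow_right (by norm_num) hs.le)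
        exact_mod_cast h1
    refine count n c _ (R + 1 : ℕ) hc X T
      w hS.w0 l j (fun x => (C x).filter fun o => G.Adj (hub o) t) hTm ?_
      (fun x hx x' hx' => hdj t x (hX x hx).1 x' (hX x' hx').1) hR.le
      (fun x hx => hseen x (hX x hx).1 t (hX x hx).2.1) ?_
    · intro x hx o ho
      rw [Finset.mem_filter] at ho
      obtain ⟨hxd, -, h2, h3, h4⟩ := hX x hx
      obtain ⟨S', hS', hS'm⟩ := Finset.exists_subset_card_eq h4
      rw [hT, Finset.mem_biUnion]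
      refine ⟨S', Finset.mem_powersetCard.2
        ⟨hS'.trans (Finset.filter_subset _ _), hS'm⟩, ?_⟩
      rw [Finset.mem_biUnion]
      have h5 := abs_le.1 (hgt x hxd o ho.1 s le_rfl)
      refine ⟨H s o, ?_, ?_⟩
      · rw [Finset.mem_Icc]
        constructor <;> omega
      · rw [Finset.mem_filter]
        refine ⟨((hC x hxd).2.1 o ho.1).1, ho.2, rfl, ?_⟩
        intro c hc'
        rcases Finset.mem_insert.1 hc' with rfl | hc'
        · omega
        · have h6 := Finset.mem_filter.1 (hS' hc')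
          have h7 := abs_le.1 (hgt x hxd o ho.1 c (Finset.mem_range.1 h6.1).le)
          have h8 := h6.2
          omega
    · intro x hx x' hx' h1 h2
      exact hinj x hx x' hx' (by rw [h1, h2])
  · -- no fan
    intro t ht S hSs hSm x hx L hL hcon
    have hpg : ∀ a, ∃ i : ℤ, a < k.R1 →
        η ≤ ∑ o ∈ (C (x a)).filter (fun o => G.Adj (hub o) t) with H s o = i, w o := by
      intro a
      by_cases ha : a < k.R1
      · obtain ⟨hxa, h2, -⟩ := hx a ha
        obtain ⟨i, hi⟩ := pigeon v0 (h s (l (x a))) η ((C (x a)).filter fun o => G.Adj (hub o) t) w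
          (H s) (by
            intro o ho
            rw [Finset.mem_filter] at ho
            obtain ⟨h3, h4, -⟩ := hC (x a) hxa
            exact hS.own _ h3 o (h4 o ho.1).1 (h4 o ho.1).2) (by
            have h3 := hseen (x a) hxa t h2
            have h4 : (0 : ℝ) < 2 * v0 + 1 := by positivity
            rw [hη]
            rw [div_mul_eq_mul_div, div_le_iff₀ (by positivity)]
            calc c * (2 * v0 + 1) ≤
                ((R + 1 : ℕ) * ∑ o ∈ C (x a) with G.Adj (hub o) t, w o) * (2 * v0 + 1) :=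
                  mul_le_mul_of_nonneg_right h3 h4.le
              _ = _ := by ring)
        exact ⟨i, fun _ => hi⟩
      · exact ⟨0, fun h => absurd h ha⟩
    choose i hi using hpg
    refine hS.fan t (hdom t ht) S hSs hSm
      (fun a => ((C (x a)).filter fun o => G.Adj (hub o) t).filter fun o => H s o = i a) ?_ ?_
    · intro a ha
      obtain ⟨hxa, -, h3⟩ := hx a ha
      refine ⟨?_, hi a ha, ?_, ?_⟩
      · intro o ho
        rw [Finset.mem_filter, Finset.mem_filter] at ho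
        exact ((hC (x a) hxa).2.1 o ho.1.1).1
      · intro o ho o' ho'
        rw [Finset.mem_filter] at ho ho'
        rw [ho.2, ho'.2]
      · intro o ho
        rw [Finset.mem_filter, Finset.mem_filter] at ho
        refine ⟨ho.1.2, fun c hc' => ?_⟩
        have h4 : c ≤ s := by
          rcases Finset.mem_insert.1 hc' with rfl | hc''
          · exact le_rfl
          · exact (Finset.mem_range.1 (hSs hc'')).le
        have h5 := abs_le.1 (hgt (x a) hxa o ho.1.1 c h4)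
        have h6 := h3 c hc'
        omega
    · intro a b hab hb o ho o' ho' c hc'
      rw [Finset.mem_filter, Finset.mem_filter] at ho ho'
      have h4 : c ≤ s := by
        rcases Finset.mem_insert.1 hc' with rfl | hc''
        · exact le_rfl
        · exact (Finset.mem_range.1 (hSs hc'')).le
      have h5 := abs_le.1 (hgt (x a) (hx a (hab.trans hb)).1 o ho.1.1 c h4)
      have h6 := abs_le.1 (hgt (x b) (hx b hb).1 o' ho'.1.1 c h4)
      have h7 := hcon a b hab hb c hc'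
      omega

end LvlH_

open LvlH_ Cell_

theorem stLvlH : StLvlH := by
  intro D0 R q v0 K0 ε hK0 hε hRq
  obtain ⟨B, n, c, hc, hCell⟩ := stCell D0 R K0 ε hK0 hε
  refine ⟨B ^ q * 3 ^ (q * (R + 1)) + 1, c / ((R + 1 : ℕ) * (2 * v0 + 1)), by positivity, ?_⟩
  intro m k hv hu
  obtain ⟨N, hN⟩ := wb_names m q (R + 1) (4 * k.w0 + 1 + (k.l1 + 6 * k.w0).toNat)
    ⌈(n : ℝ) * (k.K * (R + 1 : ℕ) / c)⌉₊
    ⌈(n : ℝ) * ((2 ^ q * ((6 * k.w0 + 1 : ℕ) * k.K)) * (R + 1 : ℕ) / c)⌉₊ k.R1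
  refine ⟨N, ?_⟩
  intro V Ω G W1 A As O hub E r w h H hG hAW hS hhub
  rcases A.eq_empty_or_nonempty with hA | hA
  · -- no nodes
    refine ⟨fun _ => 0, fun _ => ⟨q, fun _ _ => 0, fun _ _ _ => False, N, ∅, fun _ _ => 0⟩, ?_⟩
    intro i
    refine ⟨rfl, rfl, ?_, ?_⟩
    · simp [hA]
    · refine ⟨Set.empty_subset _, by omega, hRq, ?_, ?_, ?_, ?_, ?_, ?_, ?_⟩
      all_goals exact fun _ _ x hx => absurd hx (Set.notMem_empty x)
  have h1 : ∀ s : ℕ, ∃ (i : V → Fin B) (l : V → V) (j : V → Fin n) (C : V → Finset Ω)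
      (P : V → V →₀ ℝ), s < q →
        (∀ x ∈ A, ∀ y, 0 ≤ P x y) ∧ (∀ x ∈ A, ∑ y ∈ (P x).support, P x y = 1) ∧
        (∀ x ∈ A, ∀ y, P x y ≠ 0 → ∃ o ∈ O s, hub s o = y) ∧
        (∀ x ∈ A, ((R + 1 : ℕ) : ℝ) * ms (P x) {y | ¬ G.Adj x y} ≤ 1) ∧
        (∀ x ∈ A, l x ∈ As s ∧ (∀ o ∈ C x, o ∈ O s ∧ E s (l x) o) ∧ ∃ o ∈ C x, E s x o) ∧
        (∀ x ∈ A, ∀ x' ∈ A, i x = i x' → l x ≠ l x' → Disjoint (C x) (C x')) ∧
        (∀ x ∈ A, ∀ Q : Set V, c * ms (P x) Q ≤ ∑ o ∈ C x with hub s o ∈ Q, w s o) ∧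
        ∀ x ∈ A, ∀ x' ∈ A, i x = i x' → l x = l x' → j x = j x' → P x = P x' := by
    intro s
    have h2 : ∀ s' < q, ∃ (i : V → Fin B) (l : V → V) (j : V → Fin n) (C : V → Finset Ω)
        (P : V → V →₀ ℝ),
        (∀ x ∈ A, ∀ y, 0 ≤ P x y) ∧ (∀ x ∈ A, ∑ y ∈ (P x).support, P x y = 1) ∧
        (∀ x ∈ A, ∀ y, P x y ≠ 0 → ∃ o ∈ O s', hub s' o = y) ∧
        (∀ x ∈ A, ((R + 1 : ℕ) : ℝ) * ms (P x) {y | ¬ G.Adj x y} ≤ 1) ∧
        (∀ x ∈ A, l x ∈ As s' ∧ (∀ o ∈ C x, o ∈ O s' ∧ E s' (l x) o) ∧ ∃ o ∈ C x, E s' x o) ∧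
        (∀ x ∈ A, ∀ x' ∈ A, i x = i x' → l x ≠ l x' → Disjoint (C x) (C x')) ∧
        (∀ x ∈ A, ∀ Q : Set V, c * ms (P x) Q ≤ ∑ o ∈ C x with hub s' o ∈ Q, w s' o) ∧
        ∀ x ∈ A, ∀ x' ∈ A, i x = i x' → l x = l x' → j x = j x' → P x = P x' := by
      intro s' hs'
      have h3 := hS s' hs'
      exact hCell V Ω G A (As s') (O s') (hub s') (E s') (r s') (w s') hG hA h3.sub h3.r0 h3.w0
        h3.wE h3.rE h3.kp h3.ne h3.adj
    by_cases hs : s < q
    · obtain ⟨i, l, j, C, P, h⟩ := h2 s hs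
      exact ⟨i, l, j, C, P, fun _ => h⟩
    · obtain ⟨i, l, j, C, P, -⟩ := h2 0 (by omega)
      exact ⟨i, l, j, C, P, fun h => absurd h hs⟩
  choose i l j C P hP using h1
  obtain ⟨φ, hφ⟩ := atoms q R A P (fun s hs x hx => (hP s hs).1 x hx)
    (fun s hs x hx => (hP s hs).2.1 x hx)
  set cl : V → Fin (B ^ q * 3 ^ (q * (R + 1))) := fun x =>
    finProdFinEquiv (finFunctionFinEquiv fun s : Fin q => i s x, φ x) with hcl
  have hB : ∀ x : V, (cl x).1 < B ^ q * 3 ^ (q * (R + 1)) + 1 :=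
    fun x => lt_of_lt_of_le (Fin.is_lt _) (Nat.le_succ _)
  refine ⟨fun x => ⟨(cl x).1, hB x⟩,
    fun z => ⟨q, P, fun s x t => h s x + (k.l0 + 3 * k.w0) ≤ h s t →
      m ≤ ((range s).filter fun c => h c x + (k.l0 + 3 * k.w0) ≤ h c t).card, N,
      {x | x ∈ A ∧ (⟨(cl x).1, hB x⟩ : Fin (B ^ q * 3 ^ (q * (R + 1)) + 1)) = z},
      fun _ _ => 0⟩, ?_⟩
  intro z
  refine ⟨rfl, rfl, rfl, ?_⟩
  have hcc : ∀ x x' : V, (⟨(cl x).1, hB x⟩ : Fin (B ^ q * 3 ^ (q * (R + 1)) + 1)) =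
        ⟨(cl x').1, hB x'⟩ → (∀ s < q, i s x = i s x') ∧ φ x = φ x' := by
    intro x x' h
    have h2 : (cl x).1 = (cl x').1 := by
      have h2' := Fin.val_eq_of_eq h
      exact h2'
    have h3 := finProdFinEquiv.injective (Fin.ext h2)
    have h4 := congrArg Prod.fst h3
    have h5 := congrArg Prod.snd h3
    have h6 := finFunctionFinEquiv.injective h4
    exact ⟨fun s hs => congrFun h6 ⟨s, hs⟩, h5⟩
  refine ⟨fun x hx => hAW x hx.1, by omega, hRq, ?_, ?_, ?_, ?_, ?_, ?_, ?_⟩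
  · exact fun s hs x hx y => (hP s hs).1 x hx.1 y
  · exact fun s hs x hx => (hP s hs).2.1 x hx.1
  · intro s hs x hx y hy
    obtain ⟨o, ho, rfl⟩ := (hP s hs).2.2.1 x hx.1 y hy
    exact ⟨hhub s hs o ho, trivial⟩
  · intro s hs x hx y hy
    rcases eq_or_ne y x with rfl | hyx
    · refine le_trans ?_ ((hP s hs).2.2.2.1 y hx.1)
      refine mul_le_mul_of_nonneg_left ?_ (Nat.cast_nonneg _)
      exact le_ms (fun z => (hP s hs).1 y hx.1 z) (G.loopless.irrefl y)
    · exact hφ s hs x hx.1 y hyx (hcc y x (hy.2.trans hx.2.symm)).2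
  · exact fun s hs x hx => (hP s hs).2.2.2.1 x hx.1
  · -- the weak budget
    intro r hr t ht I hI hIc X hX hX2
    simp only at t ht I hI hIc X hX hX2 ⊢
    set dom : Set V :=
      {x | x ∈ A ∧ (⟨(cl x).1, hB x⟩ : Fin (B ^ q * 3 ^ (q * (R + 1)) + 1)) = z} with hdom
    have hst := fun s (hs : s < q) => stage (n := n) (q := q) (hS s hs) hs hv hu hc rfl (l s) (j s)
      (C s) (P s) dom (fun x hx => hx.1) (fun x hx => (hP s hs).2.2.2.2.1 x hx.1)
      (fun x hx x' hx' => (hP s hs).2.2.2.2.2.1 x hx.1 x' hx'.1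
        ((hcc x x' (hx.2.trans hx'.2.symm)).1 s hs))
      (fun x hx => (hP s hs).2.2.2.2.2.2.1 x hx.1)
    obtain ⟨X', hX', hX'c, J, hJ, hJc, hJX⟩ := hN V (V × Fin n) dom (fun s x => (l s x, j s x)) h
      (k.l0 + 3 * k.w0) (fun s x t => 1 ≤ ((R + 1 : ℕ) : ℝ) * ms (P s x) {y | G.Adj y t})
      (by
        intro s hs x hx x' hx' he
        have h3 := (hst s hs).1 x hx x' hx' he
        push_cast
        omega)
      (by
        intro s hs t ht X hX hinj
        have h3 := (hst s hs).2.1 t ht X hX hinj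
        exact Nat.cast_le.1 (h3.trans (Nat.le_ceil _)))
      (by
        intro s hs t ht i X hX hinj
        have h3 := (hst s hs).2.2.1 t ht i X hX hinj
        exact Nat.cast_le.1 (h3.trans (Nat.le_ceil _)))
      (by
        intro s hs t ht S hSs hSm x hx
        refine (hst s hs).2.2.2 t ht S hSs hSm x hx _ ?_
        push_cast
        omega)
      r hr t ht I hI hIc X hX
      (fun x hx => ⟨(hX2 x hx).1, fun s hs => ⟨((hX2 x hx).2 s hs).2, ((hX2 x hx).2 s hs).1⟩⟩)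
    refine ⟨X', hX', hX'c, J, hJ, hJc, fun x hx x' hx' s hs => ?_⟩
    have h4 := hJX s hs x hx x' hx'
    have hs' : s < q := Finset.mem_range.1 (hI (hJ hs))
    have hxd := (hX2 x (hX' hx)).1
    have hxd' := (hX2 x' (hX' hx')).1
    exact (hP s hs').2.2.2.2.2.2.2 x hxd.1 x' hxd'.1
      ((hcc x x' (hxd.2.trans hxd'.2.symm)).1 s hs') (congrArg Prod.fst h4)
      (congrArg Prod.snd h4)
  · intro x hx t ht
    refine le_trans (Finset.card_le_card ?_)
      (conf_of m q (fun s x t => h s x + (k.l0 + 3 * k.w0) ≤ h s t) x t)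
    intro s hs
    simp only [Finset.mem_filter] at hs ⊢
    refine ⟨hs.1, fun h1 => hs.2 fun h2 => ?_⟩
    convert h1 h2

end Pool.Agent.Lib.TCW
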