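import Pool.Agent.Lib.TCW.D2
import Pool.Agent.Lib.TCH.Stmts
import Pool.Agent.Lib.GR3.Basic

/-!
# From self-linked incidences with heights to levels with a weak budget: statements

The labels of one stage have heights; the mass of the labels near `t` is bounded scale by scale,
and there is no increasing fan.
-/

set_option autoImplicit false

namespace Pool.Agent.Lib.TCW

open Finset Classical
open Pool.Agent.Lib.TCH (kap)
open Pool.Agent.Lib.GR3 (Env Cl Sm)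

/-- The constants which are fixed after the quality and the self-linked incidences: `l0` the gap
of high pairs, `l1` the gap of the steps of a fan, `u` the gap of near pairs, `w0` the window of
the earlier heights of own pairs, `K` the bound for the mass of the near labels, `R1` the length
of a fan. -/
structure Cst where
  w0 : ℕ
  l0 : ℤ
  l1 : ℤ
  u : ℤ
  K : ℝ
  R1 : ℕ

/-- The data of the stage `s`: `E` is the own incidence between the nodes in `As` (with weights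
`r`) and the labels in `O` (with weights `w`), `hub o` is the vertex of the label `o`, `h c x` is
the height of the vertex `x` at the stage `c`, `H c o` is the height of the label `o` at the stage
`c ≤ s`.  `A` is the set of the nodes in use.  The labels `o` near `t`: there are few of them
which are not lower than `t` at the stage `s` (`nr1`) and few of them which are lower than `t` at
`m` earlier stages, in one scale of the stage `s` (`nr2`), and there are no long fans (`fan`). -/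
structure StgH {V Ω : Type} (G : SimpleGraph V) (m s v0 : ℕ) (K0 ε η : ℝ) (k : Cst)
    (A As : Finset V) (O : Finset Ω) (hub : Ω → V) (E : V → Ω → Prop) (r : V → ℝ) (w : Ω → ℝ)
    (h : ℕ → V → ℤ) (H : ℕ → Ω → ℤ) : Prop where
  sub : A ⊆ As
  r0 : ∀ x, 0 ≤ r x
  w0 : ∀ o, 0 ≤ w o
  wE : ∀ x ∈ As, ∑ o ∈ O with E x o, w o ≤ K0
  rE : ∀ o ∈ O, ∑ x ∈ As with E x o, r x ≤ K0
  kp : ∀ x ∈ As, ∀ o ∈ O, E x o → ε ≤ kap As O E r w x o
  ne : ∀ x ∈ A, ∃ o ∈ O, E x o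
  adj : ∀ x ∈ As, ∀ o ∈ O, E x o → G.Adj x (hub o)
  own : ∀ x ∈ As, ∀ o ∈ O, E x o → |h s x - H s o| ≤ v0
  low : ∀ x ∈ As, ∀ o ∈ O, E x o → ∀ c < s, |h c x - H c o| ≤ k.w0
  nr1 : ∀ t ∈ A, ∑ o ∈ O with G.Adj (hub o) t ∧ h s t ≤ H s o + k.u, w o ≤ k.K
  nr2 : ∀ t ∈ A, ∀ S' ⊆ range s, S'.card = m → ∀ i : ℤ,
    ∑ o ∈ O with G.Adj (hub o) t ∧ H s o = i ∧ ∀ c ∈ insert s S', H c o + k.l0 ≤ h c t, w o ≤ k.K
  fan : ∀ t ∈ A, ∀ S' ⊆ range s, S'.card = m → ∀ F : ℕ → Finset Ω,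
    (∀ a < k.R1, F a ⊆ O ∧ η ≤ ∑ o ∈ F a, w o ∧ (∀ o ∈ F a, ∀ o' ∈ F a, H s o = H s o') ∧
      ∀ o ∈ F a, G.Adj (hub o) t ∧ ∀ c ∈ insert s S', H c o + k.l0 ≤ h c t) →
    ¬ ∀ a b, a < b → b < k.R1 → ∀ o ∈ F a, ∀ o' ∈ F b, ∀ c ∈ insert s S', H c o + k.l1 ≤ H c o'

/-- The levels given by self-linked incidences with heights. -/
def StLvlH : Prop :=
  ∀ (D0 R q v0 : ℕ) (K0 ε : ℝ), 0 < K0 → 0 < ε → R + 1 ≤ q → ∃ (B : ℕ) (η : ℝ), 0 < η ∧
    ∀ (m : ℕ) (k : Cst), v0 ≤ k.w0 → k.l0 + 6 * k.w0 ≤ k.u → ∃ N : ℕ,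
      ∀ (V Ω : Type) (G : SimpleGraph V) (W1 : Set V) (A : Finset V) (As : ℕ → Finset V)
        (O : ℕ → Finset Ω) (hub : ℕ → Ω → V) (E : ℕ → V → Ω → Prop) (r : ℕ → V → ℝ)
        (w : ℕ → Ω → ℝ) (h : ℕ → V → ℤ) (H : ℕ → ℕ → Ω → ℤ), GIT.VC G D0 → (∀ x ∈ A, x ∈ W1) →
        (∀ s < q, StgH G m s v0 K0 ε η k A (As s) (O s) (hub s) (E s) (r s) (w s) h (H s)) →
        (∀ s < q, ∀ o ∈ O s, hub s o ∈ W1) →
        ∃ (f : V → Fin B) (D : Fin B → Lv V), ∀ i, (D i).q = q ∧ (D i).N = N ∧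
          (D i).dom = {x | x ∈ A ∧ f x = i} ∧ OK G m (fun _ _ => True) (R + 1) W1 (D i)

/-- A self-linked incidence with heights in the fibre `n` of `W` with `q` stages. -/
structure FBH {V Ω : Type} (E : Env V) (W : Set V) (n m q v0 : ℕ) (K0 ε η : ℝ) (k : Cst)
    (A : Finset V) (As : ℕ → Finset V) (O : ℕ → Finset Ω) (hub : ℕ → Ω → V)
    (Ow : ℕ → V → Ω → Prop) (r : ℕ → V → ℝ) (w : ℕ → Ω → ℝ) (h : ℕ → V → ℤ)
    (H : ℕ → ℕ → Ω → ℤ) : Prop where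
  mem : ∀ x ∈ A, x ∈ W ∧ E.c x = n
  stg : ∀ s < q, StgH E.G m s v0 K0 ε η k A (As s) (O s) (hub s) (Ow s) (r s) (w s) h (H s)
  hb : ∀ s < q, ∀ o ∈ O s, hub s o ∈ W ∧ E.c (hub s o) = n

/-- Compactness. -/
def StUnifH : Prop :=
  ∀ (V : Type) (E : Env V) (D0 m : ℕ) (W : Set V), GIT.VC E.G D0 →
    ¬ Good E.G (fun A => ¬ Sm E A) m (fun _ _ => True) W →
      ∃ (W0 : Set V) (R : ℕ), W0 ⊆ W ∧ ¬ Sm E W0 ∧
        ∀ (q v0 : ℕ) (K0 ε : ℝ), 0 < K0 → 0 < ε → R + 1 ≤ q → ∃ η : ℝ, 0 < η ∧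
          ∀ k : Cst, v0 ≤ k.w0 → k.l0 + 6 * k.w0 ≤ k.u → ∃ C : ℕ,
            ∀ (Ω : Type) (n : ℕ) (A : Finset V) (As : ℕ → Finset V) (O : ℕ → Finset Ω)
              (hub : ℕ → Ω → V) (Ow : ℕ → V → Ω → Prop) (r : ℕ → V → ℝ) (w : ℕ → Ω → ℝ)
              (h : ℕ → V → ℤ) (H : ℕ → ℕ → Ω → ℤ),
              FBH E W0 n m q v0 K0 ε η k A As O hub Ow r w h H → Cl E {x | x ∈ A} C

end Pool.Agent.Lib.TCW
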