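import Pool.Agent.Lib.TCW.Bas

/-!
# Module `Nc`: conflicts are rare if the labels do not collide
-/

set_option autoImplicit false

namespace Pool.Agent.Lib.TCW

open Finset Classical
open Pool.Agent.Lib.TCH

namespace NcAux

/-- Some set of `R` stages is contained in a positive share of the sets `A y`. -/
lemma pick : ∀ (R : ℕ) (θ : ℝ), 0 < θ → ∃ (q0 : ℕ) (π : ℝ), 0 < π ∧ ∀ (V : Type) (T : Finset V)
    (P : V → ℝ) (q : ℕ) (A : V → Finset ℕ), q0 ≤ q → (∀ y ∈ T, 0 ≤ P y) → ∑ y ∈ T, P y ≤ 1 →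
      (∀ y ∈ T, A y ⊆ range q) → θ * q ≤ ∑ y ∈ T, P y * ((A y).card : ℝ) →
        ∃ I ⊆ range q, I.card = R ∧ π ≤ ∑ y ∈ T with I ⊆ A y, P y := by
  intro R
  induction R with
  | zero =>
    intro θ hθ
    refine ⟨1, θ, hθ, ?_⟩
    intro V T P q A hq hP _ hA h
    refine ⟨∅, Finset.empty_subset _, rfl, ?_⟩
    have hq0 : (0 : ℝ) < q := Nat.cast_pos.2 hq
    have h1 : ∑ y ∈ T, P y * ((A y).card : ℝ) ≤ (∑ y ∈ T, P y) * q := by
      rw [Finset.sum_mul]
      refine Finset.sum_le_sum fun y hy => mul_le_mul_of_nonneg_left ?_ (hP y hy)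
      have h2 := Finset.card_le_card (hA y hy)
      rw [Finset.card_range] at h2
      exact_mod_cast h2
    have h2 : ∑ y ∈ T with (∅ : Finset ℕ) ⊆ A y, P y = ∑ y ∈ T, P y := by
      rw [Finset.filter_true_of_mem]
      exact fun y _ => Finset.empty_subset _
    rw [h2]
    exact le_of_mul_le_mul_right (h.trans h1) hq0
  | succ R ih =>
    intro θ hθ
    obtain ⟨q1, π, hπ, hI⟩ := ih (θ ^ 2 / 2) (by positivity)
    refine ⟨max q1 (⌈2 / θ ^ 2⌉₊ + 1), π, hπ, ?_⟩
    intro V T P q A hq hP hP1 hA h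
    have hq1 : q1 ≤ q := le_trans (le_max_left _ _) hq
    have hq2 : ⌈2 / θ ^ 2⌉₊ + 1 ≤ q := le_trans (le_max_right _ _) hq
    have hq0 : (0 : ℝ) < q := Nat.cast_pos.2 (by omega)
    have hq3 : 2 / θ ^ 2 ≤ q := by
      refine (Nat.le_ceil _).trans ?_
      exact_mod_cast (by omega : ⌈2 / θ ^ 2⌉₊ ≤ q)
    have hq4 : 1 ≤ θ ^ 2 / 2 * q := by
      have h1 : 2 ≤ θ ^ 2 * q := by
        have h2 : 0 < θ ^ 2 := by positivity
        rw [div_le_iff₀ h2] at hq3
        linarith
      linarith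
    have hnn : 0 ≤ ∑ y ∈ T, P y * ((A y).card : ℝ) :=
      Finset.sum_nonneg fun y hy => mul_nonneg (hP y hy) (Nat.cast_nonneg _)
    -- Cauchy-Schwarz
    have hcs : (∑ y ∈ T, P y * ((A y).card : ℝ)) ^ 2 ≤ ∑ y ∈ T, P y * ((A y).card : ℝ) ^ 2 := by
      have h1 := Finset.sum_mul_sq_le_sq_mul_sq T (fun y => Real.sqrt (P y))
        (fun y => Real.sqrt (P y) * ((A y).card : ℝ))
      have h2 : ∑ y ∈ T, Real.sqrt (P y) * (Real.sqrt (P y) * ((A y).card : ℝ)) =
          ∑ y ∈ T, P y * ((A y).card : ℝ) := by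
        refine Finset.sum_congr rfl fun y hy => ?_
        rw [← mul_assoc, Real.mul_self_sqrt (hP y hy)]
      have h3 : ∑ y ∈ T, Real.sqrt (P y) ^ 2 = ∑ y ∈ T, P y :=
        Finset.sum_congr rfl fun y hy => Real.sq_sqrt (hP y hy)
      have h4 : ∑ y ∈ T, (Real.sqrt (P y) * ((A y).card : ℝ)) ^ 2 =
          ∑ y ∈ T, P y * ((A y).card : ℝ) ^ 2 := by
        refine Finset.sum_congr rfl fun y hy => ?_
        rw [mul_pow, Real.sq_sqrt (hP y hy)]
      rw [h2, h3, h4] at h1
      have h5 : 0 ≤ ∑ y ∈ T, P y * ((A y).card : ℝ) ^ 2 :=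
        Finset.sum_nonneg fun y hy => mul_nonneg (hP y hy) (by positivity)
      calc _ ≤ _ := h1
        _ ≤ 1 * _ := mul_le_mul_of_nonneg_right hP1 h5
        _ = _ := one_mul _
    have hsw : ∑ s ∈ range q, ∑ y ∈ T with s ∈ A y, P y * ((A y).card : ℝ) =
        ∑ y ∈ T, P y * ((A y).card : ℝ) ^ 2 := by
      have h1 : ∀ s ∈ range q, ∑ y ∈ T with s ∈ A y, P y * ((A y).card : ℝ) =
          ∑ y ∈ T, if s ∈ A y then P y * ((A y).card : ℝ) else 0 := fun s _ =>
        Finset.sum_filter _ _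
      rw [Finset.sum_congr rfl h1, Finset.sum_comm]
      refine Finset.sum_congr rfl fun y hy => ?_
      rw [← Finset.sum_filter, Finset.filter_mem_eq_inter, Finset.inter_eq_right.2 (hA y hy),
        Finset.sum_const, nsmul_eq_mul]
      ring
    obtain ⟨s, hs, hs1⟩ : ∃ s ∈ range q, θ ^ 2 * q ≤
        ∑ y ∈ T with s ∈ A y, P y * ((A y).card : ℝ) := by
      by_contra hcon
      push Not at hcon
      have h1 : ∑ s ∈ range q, ∑ y ∈ T with s ∈ A y, P y * ((A y).card : ℝ) <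
          ∑ s ∈ range q, θ ^ 2 * q :=
        Finset.sum_lt_sum_of_nonempty ⟨0, Finset.mem_range.2 (by omega)⟩ hcon
      rw [hsw, Finset.sum_const, Finset.card_range, nsmul_eq_mul] at h1
      have h2 : (θ * q) ^ 2 ≤ (∑ y ∈ T, P y * ((A y).card : ℝ)) ^ 2 :=
        pow_le_pow_left₀ (by positivity) h 2
      nlinarith
    obtain ⟨I, hIq, hIc, hIs⟩ := hI V (T.filter fun y => s ∈ A y) P q (fun y => (A y).erase s) hq1
      (fun y hy => hP y (Finset.mem_filter.1 hy).1)
      ((Finset.sum_le_sum_of_subset_of_nonneg (Finset.filter_subset _ _)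
        fun y hy _ => hP y hy).trans hP1)
      (fun y hy => (Finset.erase_subset _ _).trans (hA y (Finset.mem_filter.1 hy).1))
      (by
        have h1 : ∑ y ∈ T with s ∈ A y, P y * (((A y).erase s).card : ℝ) =
            ∑ y ∈ T with s ∈ A y, P y * ((A y).card : ℝ) - ∑ y ∈ T with s ∈ A y, P y := by
          rw [← Finset.sum_sub_distrib]
          refine Finset.sum_congr rfl fun y hy => ?_
          have h2 : ((A y).erase s).card + 1 = (A y).card :=
            Finset.card_erase_add_one (Finset.mem_filter.1 hy).2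
          rw [← h2]
          push_cast
          ring
        have h2 : ∑ y ∈ T with s ∈ A y, P y ≤ 1 :=
          (Finset.sum_le_sum_of_subset_of_nonneg (Finset.filter_subset _ _)
            fun y hy _ => hP y hy).trans hP1
        change θ ^ 2 / 2 * q ≤ ∑ y ∈ T with s ∈ A y, P y * (((A y).erase s).card : ℝ)
        rw [h1]
        linarith)
    have hne : ∃ y ∈ T, s ∈ A y ∧ I ⊆ (A y).erase s := by
      by_contra hcon
      push Not at hcon
      rw [Finset.filter_filter, Finset.filter_false_of_mem, Finset.sum_empty] at hIs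
      · exact absurd hIs (not_le.2 hπ)
      · intro y hy h1
        exact hcon y hy h1.1 h1.2
    obtain ⟨y0, -, -, h0⟩ := hne
    have hsI : s ∉ I := fun h1 => Finset.notMem_erase s (A y0) (h0 h1)
    refine ⟨insert s I, ?_, ?_, ?_⟩
    · intro x hx
      rcases Finset.mem_insert.1 hx with rfl | hx
      · exact hs
      · exact hIq hx
    · rw [Finset.card_insert_of_notMem hsI, hIc]
    · refine hIs.trans (Finset.sum_le_sum_of_subset_of_nonneg ?_ fun y hy _ =>
        hP y (Finset.mem_filter.1 hy).1)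
      intro y hy
      rw [Finset.mem_filter, Finset.mem_filter] at hy
      rw [Finset.mem_filter]
      refine ⟨hy.1.1, ?_⟩
      intro x hx
      rcases Finset.mem_insert.1 hx with rfl | hx
      · exact hy.1.2
      · exact Finset.mem_of_mem_erase (hy.2 hx)

/-- A set in which every large subset contains two related elements is covered by few classes. -/
lemma cover {V : Type} (rel : V → V → Prop) (Y : Finset V) (N : ℕ)
    (h : ∀ Z ⊆ Y, N ≤ Z.card → ∃ z ∈ Z, ∃ z' ∈ Z, z ≠ z' ∧ rel z z') (hr : ∀ z, rel z z)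
    (hs : ∀ z z', rel z z' → rel z' z) :
    ∃ Z ⊆ Y, Z.card ≤ N ∧ ∀ y ∈ Y, ∃ z ∈ Z, rel y z := by
  let S : Set (Finset V) := {Z | ∀ z ∈ Z, ∀ z' ∈ Z, rel z z' → z = z'}
  obtain ⟨Z, hZ, hmax⟩ := Finset.exists_max_image
    (Y.powerset.filter fun Z => Z ∈ S) Finset.card
    ⟨∅, Finset.mem_filter.2 ⟨Finset.empty_mem_powerset _, fun z hz =>
      absurd hz (Finset.notMem_empty z)⟩⟩
  obtain ⟨hZ1, hZ2⟩ := Finset.mem_filter.1 hZ
  rw [Finset.mem_powerset] at hZ1
  refine ⟨Z, hZ1, ?_, ?_⟩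
  · by_contra hc
    obtain ⟨z, hz, z', hz', hne, hrel⟩ := h Z hZ1 (by omega)
    exact hne (hZ2 z hz z' hz' hrel)
  · intro y hy
    by_contra hcon
    push Not at hcon
    have hyZ : y ∉ Z := fun h1 => hcon y h1 (hr y)
    have h1 := hmax (insert y Z) (Finset.mem_filter.2 ⟨by
      rw [Finset.mem_powerset]
      exact Finset.insert_subset hy hZ1, by
      intro z hz z' hz' hrel
      rcases Finset.mem_insert.1 hz with h2 | h2
      · rcases Finset.mem_insert.1 hz' with h3 | h3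
        · rw [h2, h3]
        · rw [h2] at hrel
          exact absurd hrel (hcon z' h3)
      · rcases Finset.mem_insert.1 hz' with h3 | h3
        · rw [h3] at hrel
          exact absurd (hs _ _ hrel) (hcon z h2)
        · exact hZ2 z h2 z' h3 hrel⟩)
    rw [Finset.card_insert_of_notMem hyZ] at h1
    omega

end NcAux

open NcAux in
/-- **Module `Nc`.** -/
theorem stNc : StNc := by
  intro R m ε hε
  obtain ⟨q1, π, hπ, hpick⟩ := pick (R + 2 * m) (ε / 2) (by linarith)
  refine ⟨max (max q1 (⌈4 * (m : ℝ) / ε⌉₊ + 1)) (max (R + 2) ⌈4 / ε⌉₊), fun N => ?_⟩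
  set c : ℝ := π / ((N + 1) * 2 ^ (R + 2 * m)) with hc
  have hcpos : 0 < c := by positivity
  refine ⟨c ^ 2 / 2, by positivity, ?_⟩
  intro V G C Q W D hD hN hq t ht P hP hP1 hPd hcol
  have hqQ := hD.qR
  have hq1 : q1 ≤ D.q := le_trans (le_trans (le_max_left _ _) (le_max_left _ _)) (hq.trans hqQ)
  have hq2 : ⌈4 * (m : ℝ) / ε⌉₊ + 1 ≤ D.q :=
    le_trans (le_trans (le_max_right _ _) (le_max_left _ _)) (hq.trans hqQ)
  have hQ1 : R + 2 ≤ Q := le_trans (le_trans (le_max_left _ _) (le_max_right _ _)) hq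
  have hQ2 : 4 / ε ≤ Q := by
    refine (Nat.le_ceil _).trans ?_
    exact_mod_cast le_trans (le_trans (le_max_right _ _) (le_max_right _ _)) hq
  have hq0 : (0 : ℝ) < D.q := Nat.cast_pos.2 (by omega)
  have hq3 : (m : ℝ) ≤ ε / 4 * D.q := by
    have h1 : 4 * (m : ℝ) / ε ≤ D.q := by
      refine (Nat.le_ceil _).trans ?_
      exact_mod_cast (by omega : ⌈4 * (m : ℝ) / ε⌉₊ ≤ D.q)
    rw [div_le_iff₀ hε] at h1
    linarith
  by_contra hcon
  push Not at hcon
  have hdom : ∀ y ∈ P.support, y ∈ D.dom := fun y hy => hPd y (Finsupp.mem_support_iff.1 hy)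
  set a : ℕ → V → ℝ := fun s y => ms (D.p s y) {z | G.Adj z t} with ha
  have ha0 : ∀ s < D.q, ∀ y ∈ D.dom, 0 ≤ a s y := fun s hs y hy => ms_nn (hD.nn s hs y hy) _
  have ha1 : ∀ s < D.q, ∀ y ∈ D.dom, a s y ≤ 1 := fun s hs y hy => hD.ms_one hs hy _
  set A : V → Finset ℕ := fun y => (range D.q).filter fun s => D.near s y t ∧ ε / 4 ≤ a s y
    with hA
  have hbound : ∀ y ∈ P.support, ms (av D y) {z | G.Adj z t} ≤
      (D.q : ℝ)⁻¹ * ((A y).card : ℝ) + ε / 2 := by
    intro y hy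
    rw [ms_av]
    have h1 : ∑ s ∈ range D.q, ms (D.p s y) {z | G.Adj z t} ≤
        ∑ s ∈ range D.q, ((if D.near s y t ∧ ε / 4 ≤ a s y then (1 : ℝ) else 0) + ε / 4 +
          (if ¬ D.near s y t then 1 else 0)) := by
      refine Finset.sum_le_sum fun s hs => ?_
      have hs1 := ha1 s (Finset.mem_range.1 hs) y (hdom y hy)
      change a s y ≤ _
      by_cases hn : D.near s y t
      · by_cases hl : ε / 4 ≤ a s y
        · rw [if_pos ⟨hn, hl⟩, if_neg (not_not.2 hn)]
          linarith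
        · rw [if_neg (fun h => hl h.2), if_neg (not_not.2 hn)]
          push Not at hl
          linarith
      · rw [if_neg (fun h => hn h.1), if_pos hn]
        linarith
    rw [Finset.sum_add_distrib, Finset.sum_add_distrib, Finset.sum_boole, Finset.sum_boole,
      Finset.sum_const, Finset.card_range, nsmul_eq_mul] at h1
    have h2 : ((((range D.q).filter fun s => ¬ D.near s y t).card : ℕ) : ℝ) ≤ m := by
      exact_mod_cast hD.conf y (hdom y hy) t ht
    have h3 : ∑ s ∈ range D.q, ms (D.p s y) {z | G.Adj z t} ≤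
        ((A y).card : ℝ) + ε / 2 * D.q := by
      refine h1.trans ?_
      have h4 : (((range D.q).filter fun s => D.near s y t ∧ ε / 4 ≤ a s y).card : ℝ) =
          ((A y).card : ℝ) := rfl
      rw [h4]
      linarith
    calc (D.q : ℝ)⁻¹ * ∑ s ∈ range D.q, ms (D.p s y) {z | G.Adj z t}
        ≤ (D.q : ℝ)⁻¹ * (((A y).card : ℝ) + ε / 2 * D.q) :=
          mul_le_mul_of_nonneg_left h3 (inv_nonneg.2 hq0.le)
      _ = (D.q : ℝ)⁻¹ * ((A y).card : ℝ) + ε / 2 := by
          rw [mul_add, mul_comm (ε / 2) (D.q : ℝ), inv_mul_cancel_left₀ hq0.ne']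
  have hsum : ε / 2 * D.q ≤ ∑ y ∈ P.support, P y * ((A y).card : ℝ) := by
    have h1 : ∑ y ∈ P.support, P y * ms (av D y) {z | G.Adj z t} ≤
        (D.q : ℝ)⁻¹ * ∑ y ∈ P.support, P y * ((A y).card : ℝ) + ε / 2 := by
      calc ∑ y ∈ P.support, P y * ms (av D y) {z | G.Adj z t}
          ≤ ∑ y ∈ P.support, P y * ((D.q : ℝ)⁻¹ * ((A y).card : ℝ) + ε / 2) :=
            Finset.sum_le_sum fun y hy => mul_le_mul_of_nonneg_left (hbound y hy) (hP y)
        _ = (D.q : ℝ)⁻¹ * ∑ y ∈ P.support, P y * ((A y).card : ℝ) +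
            (∑ y ∈ P.support, P y) * (ε / 2) := by
            rw [Finset.mul_sum, Finset.sum_mul, ← Finset.sum_add_distrib]
            exact Finset.sum_congr rfl fun y _ => by ring
        _ ≤ _ := by
            have h2 : (∑ y ∈ P.support, P y) * (ε / 2) ≤ 1 * (ε / 2) :=
              mul_le_mul_of_nonneg_right hP1 (by linarith)
            linarith
    have h2 : ε / 2 < (D.q : ℝ)⁻¹ * ∑ y ∈ P.support, P y * ((A y).card : ℝ) := by linarith
    have h3 := mul_lt_mul_of_pos_right h2 hq0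
    rw [mul_comm (D.q : ℝ)⁻¹, mul_assoc, inv_mul_cancel₀ hq0.ne', mul_one] at h3
    exact h3.le
  obtain ⟨I, hIq, hIc, hI⟩ := hpick V P.support P D.q A hq1 (fun y _ => hP y) hP1
    (fun y _ => Finset.filter_subset _ _) hsum
  -- the relation of equal labels on a set of `R` stages
  set Y : Finset V := P.support.filter fun y => I ⊆ A y with hY
  have hYm : ∀ y ∈ Y, y ∈ D.dom ∧ ∀ s ∈ I, D.near s y t ∧ ε / 4 ≤ a s y := by
    intro y hy
    rw [hY, Finset.mem_filter] at hy
    exact ⟨hdom y hy.1, fun s hs => (Finset.mem_filter.1 (hy.2 hs)).2⟩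
  set rel : V → V → Prop := fun y y' => ∃ J ∈ I.powersetCard R, ∀ s ∈ J, D.p s y = D.p s y'
    with hrel
  obtain ⟨J0, hJ0, hJ0c⟩ := Finset.exists_subset_card_eq (s := I) (n := R) (by omega)
  obtain ⟨Z, hZY, hZc, hZcov⟩ := cover rel Y N (by
    intro Z hZ hZN
    obtain ⟨X', hX'Z, hX'c, J, hJI, hJc, hJ⟩ := hD.wb R (by omega) t ht I hIq (by omega) Z
      (hN.trans hZN) (fun x hx => ⟨(hYm x (hZ hx)).1, fun s hs => ⟨((hYm x (hZ hx)).2 s hs).1, by
        have h1 := ((hYm x (hZ hx)).2 s hs).2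
        have h2 : (1 : ℝ) ≤ Q * (ε / 4) := by
          rw [div_le_iff₀ hε] at hQ2
          linarith
        exact h2.trans (mul_le_mul_of_nonneg_left h1 (Nat.cast_nonneg _))⟩⟩)
    obtain ⟨z, hz, z', hz', hne⟩ := Finset.one_lt_card.1 (by rw [hX'c]; omega : 1 < X'.card)
    exact ⟨z, hX'Z hz, z', hX'Z hz', hne, J, Finset.mem_powersetCard.2 ⟨hJI, hJc⟩,
      hJ z hz z' hz'⟩)
    (fun z => ⟨J0, Finset.mem_powersetCard.2 ⟨hJ0, hJ0c⟩, fun s _ => rfl⟩)
    (fun z z' ⟨J, hJ, h⟩ => ⟨J, hJ, fun s hs => (h s hs).symm⟩)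
  have hYne : Y.Nonempty := by
    rw [Finset.nonempty_iff_ne_empty]
    intro h
    rw [h, Finset.sum_empty] at hI
    exact absurd hI (not_le.2 hπ)
  -- one class has a large mass
  obtain ⟨z, J, hJ, hzJ⟩ : ∃ z, ∃ J ∈ I.powersetCard R,
      c ≤ ∑ y ∈ Y with ∀ s ∈ J, D.p s y = D.p s z, P y := by
    by_contra hcon2
    push Not at hcon2
    have h1 : ∑ y ∈ Y, P y ≤ ∑ u ∈ Z ×ˢ I.powersetCard R,
        ∑ y ∈ Y with ∀ s ∈ u.2, D.p s y = D.p s u.1, P y := by
      have h2 : ∀ y ∈ Y, P y ≤ ∑ u ∈ Z ×ˢ I.powersetCard R,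
          if ∀ s ∈ u.2, D.p s y = D.p s u.1 then P y else 0 := by
        intro y hy
        obtain ⟨z, hz, J, hJ, h⟩ := hZcov y hy
        refine le_trans (le_of_eq ?_) (Finset.single_le_sum (f := fun u : V × Finset ℕ =>
          if ∀ s ∈ u.2, D.p s y = D.p s u.1 then P y else 0) (fun u _ => ?_)
          (Finset.mem_product.2 ⟨hz, hJ⟩ : (z, J) ∈ Z ×ˢ I.powersetCard R))
        · exact (if_pos h).symm
        · split_ifs
          · exact hP y
          · exact le_rfl
      refine (Finset.sum_le_sum h2).trans (le_of_eq ?_)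
      rw [Finset.sum_comm]
      exact Finset.sum_congr rfl fun u _ => (Finset.sum_filter _ _).symm
    have h2 : ∑ u ∈ Z ×ˢ I.powersetCard R,
        ∑ y ∈ Y with ∀ s ∈ u.2, D.p s y = D.p s u.1, P y ≤
          ((Z ×ˢ I.powersetCard R).card : ℝ) * c := by
      rw [← nsmul_eq_mul]
      exact Finset.sum_le_card_nsmul _ _ _ fun u hu =>
        (hcon2 u.1 u.2 (Finset.mem_product.1 hu).2).le
    have h3 : ((Z ×ˢ I.powersetCard R).card : ℝ) ≤ N * 2 ^ (R + 2 * m) := by
      rw [Finset.card_product, Finset.card_powersetCard, hIc]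
      have h4 : (R + 2 * m).choose R ≤ 2 ^ (R + 2 * m) := Nat.choose_le_two_pow _ _
      have h5 := Nat.mul_le_mul hZc h4
      exact_mod_cast h5
    have h4 : π ≤ N * 2 ^ (R + 2 * m) * c := by
      refine hI.trans (h1.trans (h2.trans ?_))
      exact mul_le_mul_of_nonneg_right h3 hcpos.le
    have h5 : (N + 1) * 2 ^ (R + 2 * m) * c = π := by
      rw [hc, mul_div_cancel₀]
      positivity
    have h6 : 0 < 2 ^ (R + 2 * m) * c := by positivity
    nlinarith
  have hfin : c ^ 2 ≤ col D J P P := by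
    have h1 : c ^ 2 ≤ (∑ y ∈ Y with ∀ s ∈ J, D.p s y = D.p s z, P y) *
        ∑ y ∈ Y with ∀ s ∈ J, D.p s y = D.p s z, P y := by
      rw [sq]
      exact mul_le_mul hzJ hzJ hcpos.le (hcpos.le.trans hzJ)
    refine h1.trans ?_
    rw [Finset.sum_mul_sum]
    unfold col
    have hsub : (Y.filter fun y => ∀ s ∈ J, D.p s y = D.p s z) ⊆ P.support :=
      (Finset.filter_subset _ _).trans (Finset.filter_subset _ _)
    refine le_trans (Finset.sum_le_sum fun y hy => ?_)
      (Finset.sum_le_sum_of_subset_of_nonneg hsub fun y _ _ => ?_)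
    · refine Finset.sum_le_sum_of_subset_of_nonneg ?_ fun y' _ _ => mul_nonneg (hP y) (hP y')
      intro y' hy'
      rw [Finset.mem_filter]
      refine ⟨hsub hy', fun s hs => ?_⟩
      exact ((Finset.mem_filter.1 hy).2 s hs).trans ((Finset.mem_filter.1 hy').2 s hs).symm
    · exact Finset.sum_nonneg fun y' _ => mul_nonneg (hP y) (hP y')
  obtain ⟨hJI, hJc⟩ := Finset.mem_powersetCard.1 hJ
  have h1 := hcol J (hJI.trans hIq) hJc
  have h2 : 0 < c ^ 2 := by positivity
  linarith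

end Pool.Agent.Lib.TCW
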