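import Pool.Agent.Lib.TCW.D2
import Pool.Agent.Lib.TCH.Lvl

/-!
# The laws of one stage, dominated by the labels of the class

One stage of a level: the laws of the nodes, the class of a node, and the budget for any set of
near labels of bounded weight (the bound `K1` of this weight is independent of the constants of
the stage).
-/

set_option autoImplicit false

namespace Pool.Agent.Lib.TCW

open Finset Classical
open Pool.Agent.Lib.TCH

/-- The data of one stage (without near labels). -/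
structure StgC {V Ω : Type} (G : SimpleGraph V) (K ε : ℝ) (A As : Finset V) (O : Finset Ω)
    (hub : Ω → V) (E : V → Ω → Prop) (r : V → ℝ) (w : Ω → ℝ) : Prop where
  sub : A ⊆ As
  r0 : ∀ x, 0 ≤ r x
  w0 : ∀ o, 0 ≤ w o
  wE : ∀ x ∈ As, ∑ o ∈ O with E x o, w o ≤ K
  rE : ∀ o ∈ O, ∑ x ∈ As with E x o, r x ≤ K
  kp : ∀ x ∈ As, ∀ o ∈ O, E x o → ε ≤ TCH.kap As O E r w x o
  ne : ∀ x ∈ A, ∃ o ∈ O, E x o
  adj : ∀ x ∈ As, ∀ o ∈ O, E x o → G.Adj x (hub o)

namespace StgD_

/-- The push-forward of the weights `g` on `S`. -/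
noncomputable def pf {V Ω : Type} (S : Finset Ω) (hub : Ω → V) (g : Ω → ℝ) : V →₀ ℝ :=
  ∑ o ∈ S, Finsupp.single (hub o) (g o)

theorem ms_eq_tch {V : Type} (p : V →₀ ℝ) (S : Set V) : ms p S = TCH.ms p S := rfl

theorem pf_eq_tch {V Ω : Type} (S : Finset Ω) (hub : Ω → V) (g : Ω → ℝ) :
    pf S hub g = TCH.Lvl_.pf S hub g := rfl

theorem ms_pf {V Ω : Type} (S : Finset Ω) (hub : Ω → V) (g : Ω → ℝ) (Q : Set V) :
    ms (pf S hub g) Q = ∑ o ∈ S with hub o ∈ Q, g o := TCH.Lvl_.ms_pf S hub g Q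

theorem ms_pf_le {V Ω : Type} (S T : Finset Ω) (hub : Ω → V) (g : Ω → ℝ) (Q : Set V)
    (hg : ∀ o, 0 ≤ g o) (h : ∀ o ∈ S, hub o ∈ Q → o ∈ T) : ms (pf S hub g) Q ≤ ∑ o ∈ T, g o :=
  TCH.Lvl_.ms_pf_le S T hub g Q hg h

theorem pf_apply {V Ω : Type} (S : Finset Ω) (hub : Ω → V) (g : Ω → ℝ) (y : V) :
    pf S hub g y = ∑ o ∈ S with hub o = y, g o := TCH.Lvl_.pf_apply S hub g y

theorem pf_nn {V Ω : Type} (S : Finset Ω) (hub : Ω → V) (g : Ω → ℝ) (hg : ∀ o ∈ S, 0 ≤ g o)
    (y : V) : 0 ≤ pf S hub g y := TCH.Lvl_.pf_nn S hub g hg y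

theorem pf_tot {V Ω : Type} (S : Finset Ω) (hub : Ω → V) (g : Ω → ℝ) :
    ∑ y ∈ (pf S hub g).support, pf S hub g y = ∑ o ∈ S, g o := TCH.Lvl_.pf_tot S hub g

end StgD_

open StgD_

/-- The laws of one stage. -/
def StStgD : Prop :=
  ∀ (D0 R : ℕ) (K ε : ℝ), 0 < K → 0 < ε → ∃ (B : ℕ) (K' c : ℝ), 0 < c ∧
    ∀ (V Ω : Type) (G : SimpleGraph V) (A As : Finset V) (O : Finset Ω) (hub : Ω → V)
      (E : V → Ω → Prop) (r : V → ℝ) (w : Ω → ℝ), GIT.VC G D0 → A.Nonempty →
      StgC G K ε A As O hub E r w →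
      ∃ (i : V → Fin B) (P : V → V →₀ ℝ) (cls : V → Ω → Prop),
        (∀ x ∈ A, ∀ y, 0 ≤ P x y) ∧ (∀ x ∈ A, ∑ y ∈ (P x).support, P x y = 1) ∧
        (∀ x ∈ A, ∀ y, P x y ≠ 0 → ∃ o ∈ O, hub o = y) ∧
        (∀ x ∈ A, ((R + 1 : ℕ) : ℝ) * ms (P x) {y | ¬ G.Adj x y} ≤ 1) ∧
        (∀ x ∈ A, ∀ Q : Set V, c * ms (P x) Q ≤ ∑ o ∈ O with hub o ∈ Q ∧ cls x o, w o) ∧
        (∀ x ∈ A, ∀ o ∈ O, cls x o → ∃ l ∈ As, (∃ o' ∈ O, E x o' ∧ E l o') ∧ E l o) ∧
        ∀ b, ∀ t : V, ∀ (Nr : Ω → Prop) (K1 : ℝ), ∑ o ∈ O with Nr o, w o ≤ K1 →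
          ∀ X : Finset V,
          (∀ x ∈ X, x ∈ A ∧ i x = b ∧ ∀ o ∈ O, cls x o → G.Adj (hub o) t → Nr o) →
          (∀ x ∈ X, ∀ x' ∈ X, P x = P x' → x = x') →
            ∑ x ∈ X, ms (P x) {y | G.Adj y t} ≤ K' * K1

theorem stStgD : StStgD := by
  intro D0 R K ε hK hε
  obtain ⟨B, c, hc, hPt⟩ := stPt K ε hK hε
  have hR : (0 : ℝ) < (R + 1 : ℕ) := by positivity
  obtain ⟨n, hTr⟩ := stTr (max D0 2) (c / (R + 1 : ℕ)) K (by positivity) hK
  refine ⟨B, n / c, c, hc, ?_⟩
  intro V Ω G A As O hub E r w hG hA hS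
  obtain ⟨x0, hx0⟩ := hA
  obtain ⟨cl, hcl1, hcl2⟩ := hPt V Ω As O E r w hS.r0 hS.w0 hS.wE hS.rE hS.kp
  -- the top class
  have h1 : ∀ x : V, ∃ (i : Fin B) (l : V), x ∈ A → c ≤ ∑ o ∈ O with E x o ∧ cl i o = some l, w o := by
    intro x
    by_cases hx : x ∈ A
    · obtain ⟨i, l, h⟩ := hcl2 x (hS.sub hx) (hS.ne x hx)
      exact ⟨i, l, fun _ => h⟩
    · obtain ⟨i, l, -⟩ := hcl2 x0 (hS.sub hx0) (hS.ne x0 hx0)
      exact ⟨i, l, fun h => absurd h hx⟩
  choose i l hil using h1
  -- the members of the class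
  have hmem : ∀ x ∈ A, ∃ o ∈ O, E x o ∧ cl (i x) o = some (l x) := by
    intro x hx
    by_contra hcon
    push Not at hcon
    have h2 := hil x hx
    rw [Finset.filter_false_of_mem fun o ho h => hcon o ho h.1 h.2, Finset.sum_empty] at h2
    linarith
  have hlAs : ∀ x ∈ A, l x ∈ As := by
    intro x hx
    obtain ⟨o, ho, -, h2⟩ := hmem x hx
    exact (hcl1 (i x) o ho (l x) h2).1
  -- the classes have bounded mass
  have hclK : ∀ (b : Fin B) (z : V), ∑ o ∈ O with cl b o = some z, w o ≤ K := by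
    intro b z
    by_cases hz : z ∈ As
    · refine le_trans (Finset.sum_le_sum_of_subset_of_nonneg ?_ fun o _ _ => hS.w0 o) (hS.wE z hz)
      intro o ho
      rw [Finset.mem_filter] at ho ⊢
      exact ⟨ho.1, (hcl1 b o ho.1 z ho.2).2⟩
    · rw [Finset.filter_false_of_mem fun o ho h => hz (hcl1 b o ho z h).1, Finset.sum_empty]
      exact hK.le
  -- the traces
  have h2 : ∀ (b : Fin B) (z : V), ∃ f : V → Fin n, ∀ x ∈ A, ∀ x' ∈ A, f x = f x' →
      ∑ o ∈ (O.filter fun o => cl b o = some z) with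
        ¬ (G.Adj x (hub o) ↔ G.Adj x' (hub o)), w o ≤ c / (R + 1 : ℕ) := by
    intro b z
    exact hTr V Ω A (O.filter fun o => cl b o = some z) (fun x o => G.Adj x (hub o)) w hS.w0
      (hclK b z) fun U _ hU' => TCH.Lvl_.vc_lab hG A hub U hU'
  choose tr htr using h2
  -- the names
  set nm : V → Fin B × V × Fin n := fun x => (i x, l x, tr (i x) (l x) x) with hnm
  have h3 : ∀ x : V, ∃ x' : V, x ∈ A → x' ∈ A ∧ nm x' = nm x := fun x => ⟨x, fun h => ⟨h, rfl⟩⟩
  set rp : V → V := fun x => if h : ∃ x', x' ∈ A ∧ nm x' = nm x then h.choose else x0 with hrp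
  have hrp1 : ∀ x ∈ A, rp x ∈ A ∧ nm (rp x) = nm x := by
    intro x hx
    have h : ∃ x', x' ∈ A ∧ nm x' = nm x := ⟨x, hx, rfl⟩
    rw [hrp]
    simp only
    rw [dif_pos h]
    exact h.choose_spec
  have hrp2 : ∀ x x', nm x = nm x' → rp x = rp x' := by
    intro x x' h
    rw [hrp]
    simp only
    rw [h]
  clear_value rp
  set S : V → Finset Ω := fun x =>
    O.filter fun o => cl (i x) o = some (l x) ∧ G.Adj (rp x) (hub o) with hSdef
  set tot : V → ℝ := fun x => ∑ o ∈ S x, w o with htot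
  have hSeq : ∀ x x', nm x = nm x' → S x = S x' := by
    intro x x' h
    have h4 := hrp2 x x' h
    rw [hnm] at h
    simp only [Prod.mk.injEq] at h
    rw [hSdef]
    simp only
    rw [h4, h.1, h.2.1]
  have htotc : ∀ x ∈ A, c ≤ tot x := by
    intro x hx
    obtain ⟨h4, h5⟩ := hrp1 x hx
    rw [hnm] at h5
    simp only [Prod.mk.injEq] at h5
    refine (hil (rp x) h4).trans ?_
    refine Finset.sum_le_sum_of_subset_of_nonneg ?_ fun o _ _ => hS.w0 o
    intro o ho
    rw [Finset.mem_filter] at ho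
    rw [hSdef]
    simp only
    rw [Finset.mem_filter, ← h5.1, ← h5.2.1]
    exact ⟨ho.1, ho.2.2, hS.adj _ (hS.sub h4) o ho.1 ho.2.1⟩
  have htot0 : ∀ x ∈ A, 0 < tot x := fun x hx => lt_of_lt_of_le hc (htotc x hx)
  refine ⟨i, fun x => pf (S x) hub fun o => w o / tot x, fun x o => cl (i x) o = some (l x),
    ?_, ?_, ?_, ?_, ?_, ?_, ?_⟩
  · -- nonnegative
    intro x hx y
    exact pf_nn _ _ _ (fun o _ => div_nonneg (hS.w0 o) (htot0 x hx).le) y
  · -- total mass
    intro x hx
    simp only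
    rw [pf_tot, ← Finset.sum_div]
    exact div_self (htot0 x hx).ne'
  · -- support
    intro x hx y hy
    simp only at hy
    rw [pf_apply] at hy
    obtain ⟨o, ho, -⟩ := Finset.exists_ne_zero_of_sum_ne_zero hy
    rw [Finset.mem_filter, hSdef] at ho
    exact ⟨o, (Finset.mem_filter.1 ho.1).1, ho.2⟩
  · -- the vertices which are not neighbours
    intro x hx
    obtain ⟨h4, h5⟩ := hrp1 x hx
    rw [hnm] at h5
    simp only [Prod.mk.injEq] at h5
    have h6 : tr (i x) (l x) (rp x) = tr (i x) (l x) x := by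
      have h7 := h5.2.2
      rw [h5.1, h5.2.1] at h7
      exact h7
    have h7 := htr (i x) (l x) (rp x) h4 x hx h6
    have h8 := ms_pf_le (S x) ((O.filter fun o => cl (i x) o = some (l x)).filter fun o =>
      ¬ (G.Adj (rp x) (hub o) ↔ G.Adj x (hub o))) hub (fun o => w o / tot x)
      {y | ¬ G.Adj x y} (fun o => div_nonneg (hS.w0 o) (htot0 x hx).le) (by
        intro o ho hQ
        rw [hSdef] at ho
        simp only at ho
        rw [Finset.mem_filter] at ho
        rw [Finset.mem_filter, Finset.mem_filter]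
        exact ⟨⟨ho.1, ho.2.1⟩, fun h => hQ (h.1 ho.2.2)⟩)
    rw [← Finset.sum_div] at h8
    refine (mul_le_mul_of_nonneg_left h8 hR.le).trans ?_
    rw [mul_div_assoc', div_le_one (htot0 x hx)]
    refine (mul_le_mul_of_nonneg_left h7 hR.le).trans ?_
    rw [mul_div_cancel₀ c hR.ne']
    exact htotc x hx
  · -- domination
    intro x hx Q
    simp only
    have h8 := ms_pf_le (S x) (O.filter fun o => hub o ∈ Q ∧ cl (i x) o = some (l x)) hub
      (fun o => w o / tot x) Q (fun o => div_nonneg (hS.w0 o) (htot0 x hx).le) (by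
        intro o ho hQ
        rw [hSdef] at ho
        simp only at ho
        rw [Finset.mem_filter] at ho
        rw [Finset.mem_filter]
        exact ⟨ho.1, hQ, ho.2.1⟩)
    rw [← Finset.sum_div, le_div_iff₀ (htot0 x hx)] at h8
    have h9 : 0 ≤ ms (pf (S x) hub fun o => w o / tot x) Q :=
      TCH.ms_nn (fun y => pf_nn _ _ _ (fun o _ => div_nonneg (hS.w0 o) (htot0 x hx).le) y) Q
    nlinarith [htotc x hx]
  · -- the labels of the class
    intro x hx o ho hcl
    obtain ⟨o', ho', h4, h5⟩ := hmem x hx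
    exact ⟨l x, hlAs x hx, ⟨o', ho', h4, (hcl1 (i x) o' ho' (l x) h5).2⟩,
      (hcl1 (i x) o ho (l x) hcl).2⟩
  · -- the budget
    intro b t Nr K1 hnr X hX hinj
    simp only at hX hinj ⊢
    -- the mass seen in the class of `z`
    set g : V → ℝ := fun z => ∑ o ∈ O with cl b o = some z ∧ Nr o, w o with hg
    have hg0 : ∀ z, 0 ≤ g z := fun z => Finset.sum_nonneg fun o _ => hS.w0 o
    have h4 : ∀ x ∈ X, ms (pf (S x) hub fun o => w o / tot x) {y | G.Adj y t} ≤ g (l x) / c := by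
      intro x hx
      obtain ⟨hxA, hxb, hxn⟩ := hX x hx
      have h8 := ms_pf_le (S x) (O.filter fun o => cl b o = some (l x) ∧ Nr o) hub
        (fun o => w o / tot x) {y | G.Adj y t} (fun o => div_nonneg (hS.w0 o) (htot0 x hxA).le) (by
          intro o ho hQ
          rw [hSdef] at ho
          simp only at ho
          rw [Finset.mem_filter] at ho
          rw [Finset.mem_filter]
          refine ⟨ho.1, ?_, hxn o ho.1 ho.2.1 hQ⟩
          rw [← hxb]
          exact ho.2.1)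
      rw [← Finset.sum_div] at h8
      exact h8.trans (div_le_div_of_nonneg_left (hg0 _) hc (htotc x hxA))
    refine (Finset.sum_le_sum h4).trans ?_
    have h5 : ∑ x ∈ X, g (l x) / c = ∑ z ∈ X.image l, ∑ x ∈ X with l x = z, g z / c := by
      rw [← Finset.sum_fiberwise_of_maps_to (g := l) (t := X.image l)
        (fun x hx => Finset.mem_image_of_mem l hx)]
      refine Finset.sum_congr rfl fun z _ => Finset.sum_congr rfl fun x hx => ?_
      rw [(Finset.mem_filter.1 hx).2]
    have h6 : ∀ z, (X.filter fun x => l x = z).card ≤ n := by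
      intro z
      have h7 : (X.filter fun x => l x = z).card ≤ (Finset.univ : Finset (Fin n)).card := by
        refine Finset.card_le_card_of_injOn (fun x => tr b z x) (fun x _ => Finset.mem_univ _) ?_
        intro x hx x' hx' he
        rw [Finset.mem_coe, Finset.mem_filter] at hx hx'
        obtain ⟨hxA, hxb, -⟩ := hX x hx.1
        obtain ⟨hxA', hxb', -⟩ := hX x' hx'.1
        refine hinj x hx.1 x' hx'.1 ?_
        have h8 : nm x = nm x' := by
          rw [hnm]
          simp only [Prod.mk.injEq]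
          refine ⟨hxb.trans hxb'.symm, hx.2.trans hx'.2.symm, ?_⟩
          rw [hxb, hxb', hx.2, hx'.2]
          exact he
        have h9 := hSeq x x' h8
        have h10 : tot x = tot x' := by
          rw [htot]
          simp only
          rw [h9]
        rw [h9, h10]
      rwa [Finset.card_univ, Fintype.card_fin] at h7
    rw [h5]
    calc ∑ z ∈ X.image l, ∑ x ∈ X with l x = z, g z / c
        ≤ ∑ z ∈ X.image l, (n : ℝ) * (g z / c) := by
          refine Finset.sum_le_sum fun z _ => ?_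
          rw [Finset.sum_const, nsmul_eq_mul]
          exact mul_le_mul_of_nonneg_right (by exact_mod_cast h6 z)
            (div_nonneg (hg0 z) hc.le)
      _ = n * ((∑ z ∈ X.image l, g z) / c) := by
          rw [← Finset.mul_sum, Finset.sum_div]
      _ ≤ n / c * K1 := by
          rw [div_mul_eq_mul_div, ← mul_div_assoc']
          refine mul_le_mul_of_nonneg_left ?_ (Nat.cast_nonneg n)
          refine div_le_div_of_nonneg_right ?_ hc.le
          refine le_trans ?_ hnr
          have h7 : ∑ z ∈ X.image l, g z =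
              ∑ o ∈ (X.image l).biUnion (fun z => O.filter fun o => cl b o = some z ∧ Nr o),
                w o := by
            rw [Finset.sum_biUnion]
            intro z _ z' _ hzz
            rw [Function.onFun, Finset.disjoint_left]
            intro o ho ho'
            rw [Finset.mem_filter] at ho ho'
            exact hzz (Option.some.inj (ho.2.1.symm.trans ho'.2.1))
          rw [h7]
          refine Finset.sum_le_sum_of_subset_of_nonneg ?_ fun o _ _ => hS.w0 o
          intro o ho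
          rw [Finset.mem_biUnion] at ho
          obtain ⟨z, -, ho⟩ := ho
          rw [Finset.mem_filter] at ho ⊢
          exact ⟨ho.1, ho.2.2⟩

end Pool.Agent.Lib.TCW
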