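import Pool.Agent.Lib.TCW.LvlH
import Pool.Agent.Lib.TCW.UnifG

/-!
# From self-linked incidences with heights in the fibres to small sets
-/

set_option autoImplicit false

namespace Pool.Agent.Lib.TCW

open Finset Classical
open Pool.Agent.Lib.GR3 (Env Cl Sm)

/-- The number of the bad stages may be increased. -/
theorem OK.m_mono {V : Type} {G : SimpleGraph V} {m m' : ℕ} {C : V → V → Prop} {R : ℕ} {W : Set V}
    {D : Lv V} (hm : m' ≤ m) (h : OK G m' C R W D) : OK G m C R W D where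
  sub := h.sub
  R1 := h.R1
  qR := h.qR
  nn := h.nn
  one := h.one
  sup := h.sup
  atm := h.atm
  adj := h.adj
  wb r hr t ht I hI hIc := h.wb r hr t ht I hI (by omega)
  conf x hx t ht := (h.conf x hx t ht).trans hm

/-- The levels of quality `R + 1` on `W0` are small: the self-linked incidences with heights in
the fibres of `W0`, with `m'` bad stages, live on `C`-colourable sets, with a uniform `C`. -/
theorem unifH {V : Type} (E : Env V) (D0 m m' R : ℕ) (hm : m' ≤ m) (W0 : Set V)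
    (hG : GIT.VC E.G D0) (hno : ∀ D : Lv V, OK E.G m (fun _ _ => True) (R + 1) W0 D → Sm E D.dom)
    (q v0 : ℕ) (K0 ε : ℝ) (hK0 : 0 < K0) (hε : 0 < ε) (hR : R + 1 ≤ q) : ∃ η : ℝ, 0 < η ∧
      ∀ k : Cst, v0 ≤ k.w0 → k.l0 + 6 * k.w0 ≤ k.u → ∃ C : ℕ,
        ∀ (Ω : Type) (n : ℕ) (A : Finset V) (As : ℕ → Finset V) (O : ℕ → Finset Ω)
          (hub : ℕ → Ω → V) (Ow : ℕ → V → Ω → Prop) (r : ℕ → V → ℝ) (w : ℕ → Ω → ℝ)
          (h : ℕ → V → ℤ) (H : ℕ → ℕ → Ω → ℤ),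
          FBH E W0 n m' q v0 K0 ε η k A As O hub Ow r w h H → Cl E {x | x ∈ A} C := by
  have hno' : ∀ D : Lv V, OK E.G m' (fun _ _ => True) (R + 1) W0 D → Sm E D.dom :=
    fun D hD => hno D (hD.m_mono hm)
  obtain ⟨B, η, hη, hL⟩ := stLvlH D0 R q v0 K0 ε hK0 hε hR
  refine ⟨η, hη, fun k hv hu => ?_⟩
  obtain ⟨N, hN⟩ := hL m' k hv hu
  obtain ⟨C, hC⟩ := unif_gen E m' R q B N W0 hR hno' (fun A n => ∃ (Ω : Type) (As : ℕ → Finset V)
    (O : ℕ → Finset Ω) (hub : ℕ → Ω → V) (Ow : ℕ → V → Ω → Prop) (r : ℕ → V → ℝ) (w : ℕ → Ω → ℝ)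
    (h : ℕ → V → ℤ) (H : ℕ → ℕ → Ω → ℤ), FBH E W0 n m' q v0 K0 ε η k A As O hub Ow r w h H) (by
      rintro A n ⟨Ω, As, O, hub, Ow, r, w, h, H, hF⟩
      exact ⟨fun x hx => (hF.mem x hx).2, hN V Ω E.G {v | v ∈ W0 ∧ E.c v = n} A As O hub Ow r w h H
        hG hF.mem hF.stg hF.hb⟩)
  exact ⟨C, fun Ω n A As O hub Ow r w h H hF =>
    hC A n ⟨Ω, As, O, hub, Ow, r, w, h, H, hF⟩⟩

theorem stUnifH : StUnifH := by
  intro V E D0 m W hG hW
  obtain ⟨W0, R, h1, h2, hno⟩ := exists_of_not_good E m W hW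
  exact ⟨W0, R, h1, h2, fun q v0 K0 ε hK0 hε hq =>
    unifH E D0 m m R le_rfl W0 hG hno q v0 K0 ε hK0 hε hq⟩

end Pool.Agent.Lib.TCW
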